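import Pool.Agent.Run7.h230.Tasks

set_option autoImplicit false

/-! Task A: coarse bicombings give semihyperbolicity. -/

namespace Run7.h230

open Pointwise

section

variable {G : Type} [Group G]

theorem wdist_le {A : Set G} {x y : G} (l : List G) (h : ∀ a ∈ l, a ∈ A) (hp : l.prod = x⁻¹ * y) :
    wdist A x y ≤ l.length := Nat.sInf_le ⟨l, rfl, h, hp⟩

theorem wdist_spec {A : Set G} {x y : G} (h : ∃ l : List G, (∀ a ∈ l, a ∈ A) ∧
    l.prod = x⁻¹ * y) : ∃ l : List G, l.length = wdist A x y ∧ (∀ a ∈ l, a ∈ A) ∧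
      l.prod = x⁻¹ * y := by
  obtain ⟨l, h1, h2⟩ := h
  exact Nat.sInf_mem (s := {n | ∃ l : List G, l.length = n ∧ (∀ a ∈ l, a ∈ A) ∧
    l.prod = x⁻¹ * y}) ⟨l.length, l, rfl, h1, h2⟩

theorem path_list {A : Set G} (f : ℕ → G) (s n : ℕ)
    (h : ∀ t, s ≤ t → t < s + n → (f t)⁻¹ * f (t + 1) ∈ A) :
    ∃ l : List G, l.length = n ∧ (∀ a ∈ l, a ∈ A) ∧ l.prod = (f s)⁻¹ * f (s + n) := by
  induction n with
  | zero => exact ⟨[], rfl, by simp, by simp⟩
  | succ n ih =>
    obtain ⟨l, h1, h2, h3⟩ := ih (fun t ht ht' => h t ht (by omega))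
    refine ⟨l ++ [(f (s + n))⁻¹ * f (s + n + 1)], by simp [h1], ?_, ?_⟩
    · intro a ha
      rw [List.mem_append, List.mem_singleton] at ha
      rcases ha with ha | rfl
      · exact h2 a ha
      · exact h _ (by omega) (by omega)
    · rw [List.prod_append, h3, List.prod_singleton, ← add_assoc]
      group

/-- partial products of a word of length four with product `f` -/
noncomputable def pp (a f : G) (r : ℕ) : G :=
  open Classical in
  if f = 1 then (if r = 0 then 1 else if r = 1 then a else if r = 2 then 1 else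
    if r = 3 then a else 1)
  else (if r = 0 then 1 else if r = 1 then f else if r = 2 then f * a else
    if r = 3 then f * a * a else f)

theorem pp_zero (a f : G) : pp a f 0 = 1 := by
  by_cases h : f = 1 <;> simp [pp, h]

theorem pp_four (a f : G) : pp a f 4 = f := by
  by_cases h : f = 1 <;> simp [pp, h]

theorem pp_step {A : Set G} {a f : G} (ha : a ∈ A) (ha' : a⁻¹ ∈ A) (ha2 : (a * a)⁻¹ ∈ A)
    (hf : f ≠ 1 → f ∈ A) (r : ℕ) (hr : r < 4) : (pp a f r)⁻¹ * pp a f (r + 1) ∈ A := by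
  by_cases h : f = 1
  · interval_cases r
    · simpa [pp, h] using ha
    · simpa [pp, h] using ha'
    · simpa [pp, h] using ha
    · simpa [pp, h] using ha'
  · interval_cases r
    · simpa [pp, h] using hf h
    · simpa [pp, h] using ha
    · have h2 : (pp a f 2)⁻¹ * pp a f (2 + 1) = a := by
        simp only [pp, h, if_false]
        norm_num
        group
      rw [h2]; exact ha
    · have h2 : (pp a f 3)⁻¹ * pp a f (3 + 1) = (a * a)⁻¹ := by
        simp only [pp, h, if_false]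
        norm_num
        group
      rw [h2]; exact ha2

end

theorem taskA : TaskA := by
  intro G _ ⟨a, ha⟩ σ D F hF h0 h1 h2 h3 h4 h5 ⟨C6, h6⟩
  classical
  have ha1 : a ≠ 1 := by
    rintro rfl; exact ha (mul_one 1)
  set A : Set G := (F ∪ F⁻¹ ∪ {a, a⁻¹, a * a, (a * a)⁻¹}) \ {1} with hA
  have hAfin : A.Finite := by
    refine Set.Finite.sdiff ((hF.union hF.inv).union ?_)
    exact Set.toFinite _
  have h1A : (1 : G) ∉ A := fun h => h.2 rfl
  have hAinv : ∀ x ∈ A, x⁻¹ ∈ A := by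
    rintro x ⟨hx, hx1⟩
    refine ⟨?_, ?_⟩
    · rcases hx with (hx | hx) | hx
      · exact Or.inl (Or.inr (by rwa [Set.inv_mem_inv]))
      · exact Or.inl (Or.inl (by rwa [Set.mem_inv] at hx))
      · right
        simp only [Set.mem_insert_iff, Set.mem_singleton_iff] at hx ⊢
        rcases hx with rfl | rfl | rfl | rfl
        · right; left; rfl
        · left; rw [inv_inv]
        · right; right; right; rfl
        · right; right; left; rw [inv_inv]
    · intro h
      apply hx1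
      have h' : x⁻¹ = 1 := h
      rw [inv_eq_one] at h'
      exact h'
  have haA : a ∈ A := ⟨Or.inr (by simp), ha1⟩
  have ha'A : a⁻¹ ∈ A := hAinv a haA
  have ha2A : (a * a)⁻¹ ∈ A := hAinv _ ⟨Or.inr (by simp), ha⟩
  have hFA : ∀ f ∈ F, f ≠ 1 → f ∈ A := fun f hf hf1 => ⟨Or.inl (Or.inl hf), hf1⟩
  -- the coarse path
  set N : G → ℕ := fun g => ⌈max (D g) 0⌉₊ with hN
  have hND : ∀ g, D g ≤ N g := fun g => (le_max_left _ _).trans (Nat.le_ceil _)
  have hND' : ∀ g, (N g : ℝ) ≤ max (D g) 0 + 1 := fun g =>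
    (Nat.ceil_lt_add_one (le_max_right _ _)).le
  set q : G → ℕ → G := fun g j => match j with
    | 0 => 1
    | j + 1 => if j ≤ N g then σ g j else g with hq
  have hq0 : ∀ g, q g 0 = 1 := fun g => rfl
  have hq1 : ∀ g j, j ≤ N g → q g (j + 1) = σ g j := fun g j h => if_pos h
  have hq2 : ∀ g j, N g < j → q g (j + 1) = g := fun g j h => if_neg (not_le.2 h)
  have hqs : ∀ g j, (q g j)⁻¹ * q g (j + 1) ≠ 1 → (q g j)⁻¹ * q g (j + 1) ∈ F := by
    intro g j
    rcases j with _ | j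
    · intro _
      have e0 : (q g 0)⁻¹ * q g (0 + 1) = σ g 0 := by
        rw [hq0 g, hq1 g 0 (Nat.zero_le _)]; group
      rw [e0]
      exact h0 g
    · rcases lt_trichotomy j (N g) with hj | hj | hj
      · intro _
        rw [hq1 g j hj.le, hq1 g (j + 1) hj]
        exact h2 g j
      · intro _
        rw [hq1 g j hj.le, hq2 g (j + 1) (by omega)]
        exact h1 g j (by rw [hj]; exact hND g)
      · intro h
        rw [hq2 g j hj, hq2 g (j + 1) (by omega), inv_mul_cancel] at h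
        exact (h rfl).elim
  have hqN : ∀ g, q g (N g + 2) = g := fun g => hq2 g (N g + 1) (Nat.lt_succ_self _)
  -- the new path
  set T : G → ℕ := fun g => 4 * (N g + 2) with hT
  set τ : G → ℕ → G := fun g t => if t < T g then
    q g (t / 4) * pp a ((q g (t / 4))⁻¹ * q g (t / 4 + 1)) (t % 4) else g with hτ
  have hτ1 : ∀ g t, t < T g → τ g t = q g (t / 4) * pp a ((q g (t / 4))⁻¹ * q g (t / 4 + 1)) (t % 4) :=
    fun g t h => if_pos h
  have hτ2 : ∀ g t, T g ≤ t → τ g t = g := fun g t h => if_neg (not_lt.2 h)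
  have hτ0 : ∀ g, τ g 0 = 1 := by
    intro g
    rw [hτ1 g 0 (by rw [hT]; show 0 < 4 * (N g + 2); omega)]
    show q g 0 * pp a ((q g 0)⁻¹ * q g (0 + 1)) 0 = 1
    rw [hq0 g, pp_zero, one_mul]
  have hstep : ∀ g t, t < T g → (τ g t)⁻¹ * τ g (t + 1) ∈ A := by
    intro g t ht
    have hf := hqs g (t / 4)
    set f := (q g (t / 4))⁻¹ * q g (t / 4 + 1) with hfdef
    have hfA : f ≠ 1 → f ∈ A := fun h => hFA f (hf h) h
    have key := pp_step haA ha'A ha2A hfA (t % 4) (Nat.mod_lt _ (by norm_num))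
    have hnext : τ g (t + 1) = q g (t / 4) * pp a f (t % 4 + 1) := by
      by_cases hm : t % 4 + 1 < 4
      · have e1 : (t + 1) / 4 = t / 4 := by omega
        have e2 : (t + 1) % 4 = t % 4 + 1 := by omega
        have e3 : t + 1 < T g := by
          have : T g = 4 * (N g + 2) := rfl
          omega
        rw [hτ1 g _ e3, e1, e2]
      · have e0 : t % 4 = 3 := by omega
        have e1 : (t + 1) / 4 = t / 4 + 1 := by omega
        have e2 : (t + 1) % 4 = 0 := by omega
        rw [e0]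
        show τ g (t + 1) = q g (t / 4) * pp a f 4
        rw [pp_four, hfdef, mul_inv_cancel_left]
        by_cases h : t + 1 < T g
        · rw [hτ1 g _ h, e1, e2, pp_zero, mul_one]
        · rw [hτ2 g _ (not_lt.1 h)]
          have e3 : t / 4 + 1 = N g + 2 := by
            have : T g = 4 * (N g + 2) := rfl
            omega
          rw [e3, hqN]
    rw [hτ1 g t ht, hnext, mul_inv_rev, mul_assoc, inv_mul_cancel_left]
    exact key
  have hcomb : IsCombing A τ T := fun g => ⟨hτ0 g, fun t ht => hτ2 g t ht, fun t ht => hstep g t ht⟩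
  -- words
  have hw : ∀ z : G, ∃ l : List G, (∀ b ∈ l, b ∈ A) ∧ l.prod = z := by
    intro z
    obtain ⟨l, -, h7, h8⟩ := path_list (A := A) (τ z) 0 (T z) (fun t _ ht => hstep z t (by omega))
    refine ⟨l, h7, ?_⟩
    rw [h8, hτ0, zero_add, hτ2 z _ le_rfl, inv_one, one_mul]
  have hgen : Subgroup.closure A = ⊤ := by
    rw [eq_top_iff]
    rintro z -
    obtain ⟨l, h7, rfl⟩ := hw z
    exact list_prod_mem fun b hb => Subgroup.subset_closure (h7 b hb)
  have hbd : ∀ F' : Set G, F'.Finite → ∃ k : ℕ, ∀ x y : G, x⁻¹ * y ∈ F' → wdist A x y ≤ k := by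
    intro F' hF'
    choose L hL1 hL2 using hw
    obtain ⟨k, hk⟩ := (hF'.image (fun z => (L z).length)).bddAbove
    refine ⟨k, fun x y hxy => ?_⟩
    exact (wdist_le (L (x⁻¹ * y)) (hL1 _) (hL2 _)).trans (hk ⟨_, hxy, rfl⟩)
  -- comparison of the paths
  set Pf : Set G := ⋃ r ∈ Finset.range 5, (fun f => pp a f r) '' (F ∪ {1}) with hPf
  have hPfin : Pf.Finite := by
    refine Set.Finite.biUnion (Finset.finite_toSet _) fun r _ => ?_
    exact ((hF.union (Set.finite_singleton 1)).image _)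
  set E0 : Set G := (F ∪ F⁻¹ ∪ {1}) * (Pf ∪ {1}) with hE0
  have hE0fin : E0.Finite := ((hF.union hF.inv).union (Set.finite_singleton 1)).mul
    (hPfin.union (Set.finite_singleton 1))
  have hcmp : ∀ g t, (σ g (t / 4 - 1))⁻¹ * τ g t ∈ E0 := by
    intro g t
    have e1 : (σ g (t / 4 - 1))⁻¹ * q g (t / 4) ∈ F ∪ F⁻¹ ∪ {1} := by
      rcases hj : t / 4 with _ | j
      · rw [hq0 g, mul_one]
        exact Or.inl (Or.inr (Set.inv_mem_inv.2 (h0 g)))
      · rw [Nat.add_sub_cancel]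
        by_cases hjN : j ≤ N g
        · rw [hq1 g j hjN, inv_mul_cancel]
          exact Or.inr rfl
        · rw [hq2 g j (not_le.1 hjN)]
          refine Or.inl (Or.inl (h1 g j ?_))
          exact (hND g).trans (by exact_mod_cast (not_le.1 hjN).le)
    have e2 : (q g (t / 4))⁻¹ * τ g t ∈ Pf ∪ {1} := by
      by_cases ht : t < T g
      · rw [hτ1 g t ht, inv_mul_cancel_left]
        refine Or.inl ?_
        rw [hPf]
        simp only [Set.mem_iUnion]
        refine ⟨t % 4, by rw [Finset.mem_range]; omega, ?_⟩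
        refine ⟨(q g (t / 4))⁻¹ * q g (t / 4 + 1), ?_, rfl⟩
        by_cases h : (q g (t / 4))⁻¹ * q g (t / 4 + 1) = 1
        · exact Or.inr h
        · exact Or.inl (hqs g _ h)
      · rw [hτ2 g t (not_lt.1 ht)]
        refine Or.inr ?_
        have e3 : ∃ j, t / 4 = j + 1 ∧ N g < j := by
          refine ⟨t / 4 - 1, ?_, ?_⟩
          · have : T g = 4 * (N g + 2) := rfl
            omega
          · have : T g = 4 * (N g + 2) := rfl
            omega
        obtain ⟨j, hj1, hj2⟩ := e3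
        rw [hj1, hq2 g j hj2, inv_mul_cancel]; rfl
    have e4 := Set.mul_mem_mul e1 e2
    rwa [show (σ g (t / 4 - 1))⁻¹ * q g (t / 4) * ((q g (t / 4))⁻¹ * τ g t) =
      (σ g (t / 4 - 1))⁻¹ * τ g t by group] at e4
  -- fellow travelling
  have hright : ∀ s, ∃ F' : Set G, F'.Finite ∧ ∀ g t, (τ g t)⁻¹ * τ (g * s) t ∈ F' := by
    intro s
    obtain ⟨F', hF', h⟩ := h3 s
    refine ⟨E0⁻¹ * F' * E0, (hE0fin.inv.mul hF').mul hE0fin, fun g t => ?_⟩
    have e := Set.mul_mem_mul (Set.mul_mem_mul (Set.inv_mem_inv.2 (hcmp g t)) (h g (t / 4 - 1)))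
      (hcmp (g * s) t)
    rwa [show ((σ g (t / 4 - 1))⁻¹ * τ g t)⁻¹ * ((σ g (t / 4 - 1))⁻¹ * σ (g * s) (t / 4 - 1)) *
      ((σ (g * s) (t / 4 - 1))⁻¹ * τ (g * s) t) = (τ g t)⁻¹ * τ (g * s) t by group] at e
  have hleft : ∀ s, ∃ F' : Set G, F'.Finite ∧ ∀ g t, (s * τ g t)⁻¹ * τ (s * g) t ∈ F' := by
    intro s
    obtain ⟨F', hF', h⟩ := h4 s
    refine ⟨E0⁻¹ * F' * E0, (hE0fin.inv.mul hF').mul hE0fin, fun g t => ?_⟩
    have e := Set.mul_mem_mul (Set.mul_mem_mul (Set.inv_mem_inv.2 (hcmp g t)) (h g (t / 4 - 1)))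
      (hcmp (s * g) t)
    rwa [show ((σ g (t / 4 - 1))⁻¹ * τ g t)⁻¹ * ((s * σ g (t / 4 - 1))⁻¹ * σ (s * g) (t / 4 - 1)) *
      ((σ (s * g) (t / 4 - 1))⁻¹ * τ (s * g) t) = (s * τ g t)⁻¹ * τ (s * g) t by group] at e
  have hbound : ∃ k, IsBounded A τ k := by
    choose FR hFR1 hFR2 using hright
    choose FL hFL1 hFL2 using hleft
    obtain ⟨k, hk⟩ := hbd (⋃ s ∈ A, (FR s ∪ FL s)) (hAfin.biUnion fun s _ => (hFR1 s).union (hFL1 s))
    refine ⟨k, fun g s hs t => ⟨hk _ _ ?_, hk _ _ ?_⟩⟩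
    · exact Set.mem_biUnion hs (Or.inl (hFR2 s g t))
    · exact Set.mem_biUnion hs (Or.inr (hFL2 s g t))
  -- durations
  choose C5 h5 using h5
  have hC5 : ∀ F' : Set G, F'.Finite → ∃ C : ℝ, 0 ≤ C ∧ ∀ g, ∀ s ∈ F', |D (g * s) - D g| ≤ C := by
    intro F' hF'
    obtain ⟨C, hC⟩ := (hF'.image C5).bddAbove
    exact ⟨max C 0, le_max_right _ _, fun g s hs => (h5 s g).trans
      ((hC ⟨s, hs, rfl⟩).trans (le_max_left _ _))⟩
  obtain ⟨CA, hCA, hCA'⟩ := hC5 A hAfin
  obtain ⟨CE, hCE, hCE'⟩ := hC5 E0 hE0fin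
  obtain ⟨CF, hCF, hCF'⟩ := hC5 F hF
  have hlip : ∀ (l : List G), (∀ b ∈ l, b ∈ A) → ∀ x, |D (x * l.prod) - D x| ≤ CA * l.length := by
    intro l
    induction l with
    | nil => intro _ x; simp
    | cons b l ih =>
      intro hl x
      have e1 := ih (fun c hc => hl c (List.mem_cons_of_mem _ hc)) (x * b)
      have e2 := hCA' x b (hl b List.mem_cons_self)
      rw [List.prod_cons, ← mul_assoc, List.length_cons]
      push_cast
      have := abs_add_le (D (x * b * l.prod) - D (x * b)) (D (x * b) - D x)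
      rw [sub_add_sub_cancel] at this
      linarith
  have hlip' : ∀ x y, |D y - D x| ≤ CA * wdist A x y := by
    intro x y
    obtain ⟨l, e1, e2, e3⟩ := wdist_spec (A := A) (x := x) (y := y) (hw _)
    have := hlip l e2 x
    rwa [e3, mul_inv_cancel_left, e1] at this
  have hDlow : ∀ g, -(C6 + |D 1| + CF) ≤ D g := by
    intro g
    have e1 := abs_le.1 (h6 g 0)
    have e2 := abs_le.1 (hCF' 1 _ (h0 g))
    rw [one_mul] at e2
    have e3 := abs_le.1 (le_refl |D 1|)
    have e4 := min_le_right (((0 : ℕ) : ℝ)) (D g)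
    linarith [e1.1, e1.2, e2.1, e2.2, e3.1]
  have hC60 : 0 ≤ C6 := (abs_nonneg _).trans (h6 1 0)
  have hDτ : ∀ g t, t ≤ T g → |D (τ g t) - (t : ℝ) / 4| ≤ CE + C6 + (4 + (C6 + |D 1| + CF)) := by
    intro g t ht
    have e1 := hCE' (σ g (t / 4 - 1)) _ (hcmp g t)
    rw [mul_inv_cancel_left] at e1
    have e2 := h6 g (t / 4 - 1)
    have e3 := hDlow g
    have e4 : ((t / 4 - 1 : ℕ) : ℝ) ≤ (t : ℝ) / 4 := by
      have : 4 * (t / 4 - 1) ≤ t := by omega
      have : (4 : ℝ) * ((t / 4 - 1 : ℕ) : ℝ) ≤ t := by exact_mod_cast this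
      linarith
    have e5 : (t : ℝ) / 4 - 2 ≤ ((t / 4 - 1 : ℕ) : ℝ) := by
      have : t ≤ 4 * (t / 4 - 1) + 8 := by omega
      have : (t : ℝ) ≤ 4 * ((t / 4 - 1 : ℕ) : ℝ) + 8 := by exact_mod_cast this
      linarith
    have e6 : (t : ℝ) / 4 ≤ N g + 2 := by
      have : (t : ℝ) ≤ (T g : ℝ) := by exact_mod_cast ht
      have h7 : (T g : ℝ) = 4 * (N g + 2) := by
        show ((4 * (N g + 2) : ℕ) : ℝ) = _
        push_cast; ring
      linarith
    have e7 := hND' g
    have e8 : |min ((t / 4 - 1 : ℕ) : ℝ) (D g) - (t : ℝ) / 4| ≤ 4 + (C6 + |D 1| + CF) := by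
      have n1 := abs_nonneg (D 1)
      rw [abs_le]
      constructor
      · rcases le_total (D g) 0 with hD | hD
        · rw [max_eq_right hD] at e7
          have : -(C6 + |D 1| + CF) ≤ min ((t / 4 - 1 : ℕ) : ℝ) (D g) :=
            le_min (by
              have : (0 : ℝ) ≤ ((t / 4 - 1 : ℕ) : ℝ) := Nat.cast_nonneg _
              linarith) e3
          linarith
        · rw [max_eq_left hD] at e7
          have : (t : ℝ) / 4 - 3 ≤ min ((t / 4 - 1 : ℕ) : ℝ) (D g) :=
            le_min (by linarith) (by linarith)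
          linarith
      · have := min_le_left ((t / 4 - 1 : ℕ) : ℝ) (D g)
        linarith
    have a1 := abs_le.1 e1
    have a2 := abs_le.1 e2
    have a3 := abs_le.1 e8
    rw [abs_le]
    constructor <;> linarith [a1.1, a1.2, a2.1, a2.2, a3.1, a3.2]
  set C2 := CE + C6 + (4 + (C6 + |D 1| + CF)) with hC2
  have hC20 : 0 ≤ C2 := by positivity
  obtain ⟨k, hk⟩ := hbound
  refine ⟨A, hAfin, h1A, hAinv, hgen, τ, T, 4 * (CA + 1), 2 * C2, k, by linarith, by positivity,
    hcomb, ?_, hk⟩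
  intro g s t hst ht
  constructor
  · have e1 := hlip' (τ g s) (τ g t)
    have e2 := abs_le.1 (hDτ g t ht)
    have e3 := abs_le.1 (hDτ g s (hst.trans ht))
    have e4 := abs_le.1 e1
    have hw0 : (0 : ℝ) ≤ wdist A (τ g s) (τ g t) := Nat.cast_nonneg _
    have e5 : ((t : ℝ) - s) / 4 - 2 * C2 ≤ (CA + 1) * wdist A (τ g s) (τ g t) := by
      nlinarith [e2.1, e2.2, e3.1, e3.2, e4.1, e4.2]
    have e6 : ((t : ℝ) - s) / (4 * (CA + 1)) - 2 * C2 / (CA + 1) ≤
        wdist A (τ g s) (τ g t) := by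
      have h7 : ((t : ℝ) - s) / (4 * (CA + 1)) - 2 * C2 / (CA + 1) =
        (((t : ℝ) - s) / 4 - 2 * C2) / (CA + 1) := by
        field_simp
      rw [h7, div_le_iff₀ (by positivity)]
      linarith
    have e7 : 2 * C2 / (CA + 1) ≤ 2 * C2 := by
      rw [div_le_iff₀ (by positivity)]
      nlinarith
    linarith
  · obtain ⟨l, e1, e2, e3⟩ := path_list (A := A) (τ g) s (t - s)
      (fun u hu hu' => hstep g u (by omega))
    rw [Nat.add_sub_cancel' hst] at e3
    have e4 := wdist_le l e2 e3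
    rw [e1] at e4
    have e5 : (wdist A (τ g s) (τ g t) : ℝ) ≤ (t : ℝ) - s := by
      have : (wdist A (τ g s) (τ g t) : ℝ) ≤ ((t - s : ℕ) : ℝ) := by exact_mod_cast e4
      rwa [Nat.cast_sub hst] at this
    have e6 : (0 : ℝ) ≤ (t : ℝ) - s := by
      have : (s : ℝ) ≤ t := by exact_mod_cast hst
      linarith
    nlinarith

end Run7.h230
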