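import Pool.Agent.Run7.h230.BB

set_option autoImplicit false

/-! Task B. -/

namespace Run7.h230

variable {𝒢 : GraphOfGroups}

theorem mem_EG' (hι : ∀ v, Function.Injective (ι (𝒢 := 𝒢) v)) (t : OE 𝒢) (x : 𝒢.G (org t)) :
    ι (org t) x ∈ EG t ↔ x ∈ (fo t).range := by
  rw [EG_eq]
  constructor
  · rintro ⟨h, hh⟩
    exact ⟨h, hι _ hh⟩
  · rintro ⟨h, rfl⟩
    exact ⟨h, rfl⟩

theorem rfrom_iff' (hι : ∀ v, Function.Injective (ι (𝒢 := 𝒢) v)) {i j : 𝒢.V}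
    (w : W 𝒢 i j) (e : {s : OE 𝒢 // org s = i}) :
    Rd w (some e) ↔ RFrom e.1 w.toL.1 ∧ Rd w none := by
  cases w with
  | nil g => exact ⟨fun _ => ⟨trivial, trivial⟩, fun _ => trivial⟩
  | cons t x w =>
    show (¬ (e = ⟨t, rfl⟩ ∧ x ∈ (fo t).range) ∧ Rd w (some ⟨rev t, rfl⟩)) ↔
      ¬ (t = e.1 ∧ ι (org t) x ∈ EG e.1) ∧ (True ∧ Rd w (some ⟨rev t, rfl⟩))
    constructor
    · rintro ⟨h1, h2⟩
      refine ⟨?_, trivial, h2⟩
      rintro ⟨h3, h4⟩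
      rw [← h3, mem_EG' hι] at h4
      exact h1 ⟨Subtype.ext h3.symm, h4⟩
    · rintro ⟨h1, -, h2⟩
      refine ⟨?_, h2⟩
      rintro ⟨h3, h4⟩
      rw [← mem_EG' hι] at h4
      subst h3
      exact h1 ⟨rfl, h4⟩

theorem red_iff' (hι : ∀ v, Function.Injective (ι (𝒢 := 𝒢) v)) {i j : 𝒢.V}
    (w : W 𝒢 i j) : Rd w none ↔ Red w.toL.1 := by
  induction w with
  | nil g => exact ⟨fun _ => trivial, fun _ => trivial⟩
  | cons t x w ih =>
    show (True ∧ Rd w (some ⟨rev t, rfl⟩)) ↔ Red ((ι (org t) x, t) :: w.toL.1)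
    rw [red_cons, rfrom_iff' hι, ih]
    exact ⟨fun h => ⟨h.2.1, h.2.2⟩, fun h => ⟨trivial, h.1, h.2⟩⟩

theorem sh_untyped {i j : 𝒢.V} {c : 𝒢.G i} {w w' : W 𝒢 i j} (h : ShW c w w') :
    Sh (ι i c) w.toL.1 w.toL.2 w'.toL.1 w'.toL.2 := by
  induction h with
  | nil c g => exact map_mul _ _ _
  | cons t c x a w w' _ ih =>
    refine ⟨rfl, ι (org t) (fo t a), ?_, ?_, ?_⟩
    · rw [EG_eq]; exact ⟨a, rfl⟩
    · show ι (org t) (c * x * fo t a) = ι (org t) c * ι (org t) x * ι (org t) (fo t a)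
      rw [map_mul, map_mul]
    · show Sh ((lt t)⁻¹ * (ι (org t) (fo t a))⁻¹ * lt t) w.toL.1 w.toL.2 w'.toL.1 w'.toL.2
      have h4 : (lt t)⁻¹ * (ι (org t) (fo t a))⁻¹ * lt t = ι (org (rev t)) (fr t a⁻¹) := by
        rw [← map_inv, ← map_inv, mul_assoc, cross, inv_mul_cancel_left]
      rw [h4]
      exact ih

theorem taskB : TaskB := by
  intro 𝒢 hf hf'
  have hfo : ∀ t : OE 𝒢, Function.Injective (fo t) := by
    rintro ⟨e, _ | _⟩
    · exact hf e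
    · exact hf' e
  refine ⟨ι_inj hfo, ?_, ?_⟩
  · intro i j x hx
    obtain ⟨w, hw, hv⟩ := typed_exists hx (W.nil 1) trivial
    refine ⟨w.toL.1, w.toL.2, w.valid, (red_iff' (ι_inj hfo) w).1 hw, ?_⟩
    rw [w.val_toL, hv, W.val_nil, map_one, mul_one]
  · intro i j L L' g g' hL hL' hR hR' hv
    obtain ⟨w, hw⟩ := exists_typed L i j g hL
    obtain ⟨w', hw'⟩ := exists_typed L' i j g' hL'
    have h1 : Rd w none := (red_iff' (ι_inj hfo) w).2 (by rw [hw]; exact hR)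
    have h2 : Rd w' none := (red_iff' (ι_inj hfo) w').2 (by rw [hw']; exact hR')
    have h3 := sh_untyped (typed_unique hfo w w' h1 h2 (by
      rw [← w.val_toL, ← w'.val_toL, hw, hw']; exact hv))
    rw [hw, hw', map_one] at h3
    exact h3

end Run7.h230
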