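import Pool.Agent.Run7.h230.TreeH
import Pool.Agent.Run7.h230.AA
import Pool.Agent.Run7.h230.BC

set_option autoImplicit false

/-! Final assembly: the fundamental groups of irreducible higher dimensional graph manifolds are
semihyperbolic, given the geometric pieces E, F, G. -/

namespace Run7.h230

open LPiece

variable {n : ℕ} (M : GlueData n)

/-- the horoball of an oriented edge -/
def cuspO : (t : OE M.graph) → LV (M.m (org t))
  | (w, false) => M.cusp₁ w
  | (w, true) => M.cusp₂ w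

/-- the horoball of an oriented edge with origin `i` -/
def cuspE (i : M.I) (e : {t : OE M.graph // org t = i}) : LV (M.m i) :=
  e.2 ▸ cuspO M e.1

variable {M}

theorem cuspO_mem (hM : M.IsHDG) (t : OE M.graph) : cuspO M t ∈ (M.N (org t)).Ξ := by
  rcases t with ⟨w, _ | _⟩
  · exact hM.mem₁ w
  · exact hM.mem₂ w

theorem cuspE_mem (hM : M.IsHDG) (i : M.I) (e : {t : OE M.graph // org t = i}) :
    cuspE M i e ∈ (M.N i).Ξ := by
  obtain ⟨t, rfl⟩ := e
  exact cuspO_mem hM t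

theorem side_eq (t : OE M.graph) : M.side t.1 t.2 = ⟨org t, cuspO M t⟩ := by
  rcases t with ⟨w, _ | _⟩ <;> rfl

theorem side_eqE (i : M.I) (e : {t : OE M.graph // org t = i}) :
    M.side e.1.1 e.1.2 = ⟨i, cuspE M i e⟩ := by
  obtain ⟨t, rfl⟩ := e
  exact side_eq t

theorem cusp_distinct (hM : M.IsHDG) (i : M.I) (e e' : {t : OE M.graph // org t = i})
    (γ : LV (M.m i) ≃ₗ[ℝ] LV (M.m i)) (hγ : γ ∈ (M.N i).Γ) (h : γ (cuspE M i e) = cuspE M i e') :
    e = e' := by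
  by_contra hne
  refine hM.distinct e.1.1 e.1.2 e'.1.1 e'.1.2 ?_ i _ _ (side_eqE i e) (side_eqE i e') γ hγ h
  intro h'
  exact hne (Subtype.ext h')

/-- translation vectors exist -/
theorem exists_translates {m : ℕ} {N : HorMfd m} (hN : N.IsTruncated) {ξ : LV m} (hξ : ξ ∈ N.Ξ)
    {γ : LV m ≃ₗ[ℝ] LV m} (hγ : γ ∈ N.Γ) (h : γ ξ = ξ) :
    ∃ v, lor v ξ = 0 ∧ Translates γ ξ v := by
  obtain ⟨e, he, -, h1, -⟩ := hN.toric ξ hξ
  obtain ⟨c, hc⟩ := h1 γ hγ h
  refine ⟨_, ?_, hc⟩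
  have key : ∀ (s : Finset (Fin (m - 1))), lor (∑ i ∈ s, (c i : ℝ) • e i) ξ = 0 := by
    classical
    intro s
    induction s using Finset.induction_on with
    | empty => simp [lor]
    | insert a s ha ih =>
      rw [Finset.sum_insert ha]
      have e1 : lor ((c a : ℝ) • e a + ∑ i ∈ s, (c i : ℝ) • e i) ξ =
          (c a : ℝ) * lor (e a) ξ + lor (∑ i ∈ s, (c i : ℝ) • e i) ξ := by
        simp only [lor, Pi.add_apply, Pi.smul_apply, smul_eq_mul, add_mul, Finset.sum_add_distrib,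
          mul_sub, Finset.mul_sum]
        have : ∀ j : Fin m, (c a : ℝ) * e a j.succ * ξ j.succ =
          (c a : ℝ) * (e a j.succ * ξ j.succ) := fun j => by ring
        simp only [this]
        ring
      rw [e1, he a, ih, mul_zero, add_zero]
  exact key _

/-- The coordinates on all walls. -/
structure WallData (M : GlueData n) where
  T : (t : OE M.graph) → LV (M.m (org t)) →ₗ[ℝ] (Fin n ⊕ Fin n → ℝ)
  S : OE M.graph → Set (Fin n ⊕ Fin n)
  α : OE M.graph → (Fin n ⊕ Fin n → ℝ) →ₗ[ℝ] (Fin n → ℝ)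

/-- fibre coordinates -/
noncomputable def embO (M : GlueData n) (i : M.I) (x : M.graph.G i) : Fin n → ℝ :=
  emb (Fin.castLE (Nat.sub_le n (M.m i))) x.2

/-- first coordinate -/
def pr {M : GlueData n} {i : M.I} (x : M.graph.G i) : LV (M.m i) ≃ₗ[ℝ] LV (M.m i) :=
  (x.1 : LV (M.m i) ≃ₗ[ℝ] LV (M.m i))

structure WallData.Good {M : GlueData n} (D : WallData M) : Prop where
  coord : ∀ t, CuspCoord (cuspO M t) (D.T t) (D.S t)
  inl : ∀ t j, Sum.inl j ∈ D.S t ↔ (j : ℕ) < n - M.m (org (rev t))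
  inr : ∀ t j, Sum.inr j ∈ D.S t ↔ Sum.inr j ∈ D.S (rev t)
  supp : ∀ t v, Supp {j : Fin n | (j : ℕ) < n - M.m (org t)} (D.α t v)
  eq1 : ∀ t (h : M.graph.H t.1) v v', lor v (cuspO M t) = 0 →
    Translates (pr (fo t h)) (cuspO M t) v → lor v' (cuspO M (rev t)) = 0 →
    Translates (pr (fr t h)) (cuspO M (rev t)) v' →
    embO M (org t) (fo t h) + D.α t (D.T t v) = fun j => D.T (rev t) v' (Sum.inl j)
  eq2 : ∀ t (h : M.graph.H t.1) v v', lor v (cuspO M t) = 0 →
    Translates (pr (fo t h)) (cuspO M t) v → lor v' (cuspO M (rev t)) = 0 →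
    Translates (pr (fr t h)) (cuspO M (rev t)) v' →
    ∀ j, D.T t v (Sum.inr j) = D.T (rev t) v' (Sum.inr j)

theorem wallData (hG : TaskG) (hM : M.IsHDG) (hI : M.Irreducible) :
    ∃ D : WallData M, D.Good := by
  have h : ∀ w : M.W, _ := fun w => hG n (M.m (M.src w)) (M.m (M.tgt w)) (M.N (M.src w))
    (M.N (M.tgt w)) (hM.mfd _) (hM.trunc _) (hM.mfd _) (hM.trunc _)
    (by have := hM.dim_ge (M.src w); omega) (by have := hM.dim_ge (M.tgt w); omega)
    (hM.dim_le _) (hM.dim_le _) (M.cusp₁ w) (M.cusp₂ w) (hM.mem₁ w) (hM.mem₂ w) (M.glue w)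
    (hI w)
  choose T₁ T₂ S₁ S₂ α₁ α₂ hc1 hc2 hs1 hs2 hs3 hα1 hα2 heq using h
  refine ⟨⟨fun t => match t with
    | (w, false) => T₁ w
    | (w, true) => T₂ w, fun t => match t with
    | (w, false) => S₁ w
    | (w, true) => S₂ w, fun t => match t with
    | (w, false) => α₁ w
    | (w, true) => α₂ w⟩, ?_, ?_, ?_, ?_, ?_, ?_⟩
  · rintro ⟨w, _ | _⟩
    · exact hc1 w
    · exact hc2 w
  · rintro ⟨w, _ | _⟩
    · exact hs1 w
    · exact hs2 w
  · rintro ⟨w, _ | _⟩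
    · exact hs3 w
    · exact fun j => (hs3 w j).symm
  · rintro ⟨w, _ | _⟩
    · exact hα1 w
    · exact hα2 w
  · rintro ⟨w, _ | _⟩ h v v' h1 h2 h3 h4
    · exact (heq w h v v' h1 h2 h3 h4).1
    · exact (heq w h v' v h3 h4 h1 h2).2.1
  · rintro ⟨w, _ | _⟩ h v v' h1 h2 h3 h4
    · exact (heq w h v v' h1 h2 h3 h4).2.2
    · exact fun j => ((heq w h v' v h3 h4 h1 h2).2.2 j).symm

/-- transported data -/
def WallData.TE (D : WallData M) (i : M.I) (e : {t : OE M.graph // org t = i}) :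
    LV (M.m i) →ₗ[ℝ] (Fin n ⊕ Fin n → ℝ) := e.2 ▸ D.T e.1

theorem piece (hE : TaskE) (hF : TaskF) (hM : M.IsHDG) (D : WallData M) (hD : D.Good)
    (i : M.I) : ∃ P : LPiece (M.graph.G i) {t : OE M.graph // org t = i} (Fin n), P.Good ∧
      (∀ e x, x ∈ P.A e ↔ pr x (cuspE M i e) = cuspE M i e) ∧
      P.Sφ = {j : Fin n | (j : ℕ) < n - M.m i} ∧
      (∀ e, P.Sω e = {j | Sum.inl j ∈ D.S e.1}) ∧
      (∀ e, P.Sκ e = {j | Sum.inr j ∈ D.S e.1}) ∧
      ∀ e, ∀ x ∈ P.A e, ∀ v, lor v (cuspE M i e) = 0 → Translates (pr x) (cuspE M i e) v →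
        P.ω e x = (fun j => D.TE i e v (Sum.inl j)) ∧
        P.κ e x = (fun j => D.TE i e v (Sum.inr j)) ∧
        P.φ e x = embO M i x + D.α e.1 (D.TE i e v) := by
  have := M.finW
  have hfin : Finite {t : OE M.graph // org t = i} := by
    have : Finite M.graph.E := M.finW
    exact Subtype.finite
  obtain ⟨act, G, hGood, hact, hSF, hcusp, hS, hα, hχ⟩ := hE (M.m i) n (M.N i) (hM.mfd i)
    (hM.trunc i) (by have := hM.dim_ge i; omega) (hM.dim_le i) {t : OE M.graph // org t = i}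
    (fun e => ⟨cuspE M i e, cuspE_mem hM i e⟩) (cusp_distinct hM i) (D.TE i) (fun e => D.S e.1)
    (by
      rintro ⟨t, rfl⟩
      exact hD.coord t) {j : Fin n | (j : ℕ) < n - M.m i} (fun e => D.α e.1) (by
      rintro ⟨t, rfl⟩ v
      exact hD.supp t v)
  have hrange : ({j : Fin n | (j : ℕ) < n - M.m i} : Set (Fin n)) =
      Set.range (Fin.castLE (Nat.sub_le n (M.m i))) := by
    ext j
    constructor
    · intro hj
      exact ⟨⟨j, hj⟩, rfl⟩
    · rintro ⟨a, rfl⟩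
      exact a.2
  obtain ⟨P, hP, hA, hφ, hω, hκ, hval⟩ := hF (M.N i).Γ (M.N i).Ξ {t : OE M.graph // org t = i}
    (Fin n) G hGood (n - M.m i) (Fin.castLE (Nat.sub_le n (M.m i)))
    (Fin.castLE_injective _) (hSF.trans hrange)
  have hA' : ∀ e x, x ∈ P.A e ↔ pr x (cuspE M i e) = cuspE M i e := by
    intro e x
    rw [hA e x, hcusp e]
    constructor
    · intro h
      have h1 := hact x.1 ⟨cuspE M i e, cuspE_mem hM i e⟩
      rw [h] at h1
      exact h1.symm
    · intro h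
      apply Subtype.ext
      rw [hact]
      exact h
  refine ⟨P, hP, hA', hφ.trans hrange.symm, fun e => ?_, fun e => ?_, ?_⟩
  · rw [hω e, hS e]
  · rw [hκ e, hS e]
  · intro e x hx v hv hv'
    obtain ⟨h1, h2, h3⟩ := hval e x hx
    have h4 : G.χ e x.1 = D.TE i e v := hχ e x.1 v hv hv'
    refine ⟨?_, ?_, ?_⟩
    · rw [h1, h4]
    · rw [h2, h4]
    · rw [h3, h4, hα e]; rfl

/-- the image of an edge group fixes the horoball -/
theorem fo_fix (t : OE M.graph) (h : M.graph.H t.1) :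
    pr (fo t h) (cuspO M t) = cuspO M t := by
  rcases t with ⟨w, _ | _⟩
  · exact h.2
  · exact (M.glue w h).2

theorem fo_range (t : OE M.graph) (x : M.graph.G (org t)) (hx : pr x (cuspO M t) = cuspO M t) :
    x ∈ (fo t).range := by
  rcases t with ⟨w, _ | _⟩
  · exact ⟨⟨x, hx⟩, rfl⟩
  · refine ⟨(M.glue w).symm ⟨x, hx⟩, ?_⟩
    show ((M.glue w ((M.glue w).symm ⟨x, hx⟩) : _) : (M.N (M.tgt w)).Pi (n - M.m (M.tgt w))) = x
    rw [MulEquiv.apply_symm_apply]

theorem treeGood (hE : TaskE) (hF : TaskF) (hG : TaskG) (hM : M.IsHDG) (hI : M.Irreducible) :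
    ∃ P : Pcs M.graph (Fin n), TreeGood P := by
  obtain ⟨D, hD⟩ := wallData hG hM hI
  choose P hP hA hφ hω hκ hval using piece hE hF hM D hD
  have htr : ∀ (t : OE M.graph) (h : M.graph.H t.1), ∃ v, lor v (cuspO M t) = 0 ∧
      Translates (pr (fo t h)) (cuspO M t) v := by
    intro t h
    exact exists_translates (hM.trunc _) (cuspO_mem hM t) (fo t h).1.2 (fo_fix t h)
  have hmem : ∀ (t : OE M.graph) (h : M.graph.H t.1), fo t h ∈ (P (org t)).A ⟨t, rfl⟩ :=
    fun t h => (hA (org t) ⟨t, rfl⟩ _).2 (fo_fix t h)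
  have hmem' : ∀ (t : OE M.graph) (h : M.graph.H t.1),
      fr t h ∈ (P (org (rev t))).A ⟨rev t, rfl⟩ := fun t h => hmem (rev t) h
  have hval' : ∀ (t : OE M.graph) (h : M.graph.H t.1) v, lor v (cuspO M t) = 0 →
      Translates (pr (fo t h)) (cuspO M t) v →
      (P (org t)).ω ⟨t, rfl⟩ (fo t h) = (fun j => D.T t v (Sum.inl j)) ∧
      (P (org t)).κ ⟨t, rfl⟩ (fo t h) = (fun j => D.T t v (Sum.inr j)) ∧
      (P (org t)).φ ⟨t, rfl⟩ (fo t h) = embO M (org t) (fo t h) + D.α t (D.T t v) :=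
    fun t h v hv hv' => hval (org t) ⟨t, rfl⟩ _ (hmem t h) v hv hv'
  have hφω : ∀ (t : OE M.graph) (h : M.graph.H t.1),
      (P (org t)).φ ⟨t, rfl⟩ (fo t h) = (P (org (rev t))).ω ⟨rev t, rfl⟩ (fr t h) := by
    intro t h
    obtain ⟨v, hv1, hv2⟩ := htr t h
    obtain ⟨v', hv1', hv2'⟩ := htr (rev t) h
    rw [(hval' t h v hv1 hv2).2.2, hD.eq1 t h v v' hv1 hv2 hv1' hv2']
    exact (hval' (rev t) h v' hv1' hv2').1.symm
  refine ⟨P, hP, ?_, hφω, ?_, ?_, ?_, ?_, ?_⟩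
  · intro t
    ext x
    rw [hA (org t) ⟨t, rfl⟩ x]
    constructor
    · exact fo_range t x
    · rintro ⟨h, rfl⟩
      exact fo_fix t h
  · rintro ⟨w, b⟩ h
    have := hφω (w, !b) h
    cases b
    · exact this.symm
    · exact this.symm
  · intro t h
    obtain ⟨v, hv1, hv2⟩ := htr t h
    obtain ⟨v', hv1', hv2'⟩ := htr (rev t) h
    rw [(hval' t h v hv1 hv2).2.1]
    refine Eq.trans ?_ (hval' (rev t) h v' hv1' hv2').2.1.symm
    funext j
    exact hD.eq2 t h v v' hv1 hv2 hv1' hv2' j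
  · intro t
    rw [hω (org t) ⟨t, rfl⟩, hφ (org (rev t))]
    ext j
    exact hD.inl t j
  · intro t
    rw [hω (org (rev t)) ⟨rev t, rfl⟩, hφ (org t)]
    ext j
    rcases t with ⟨w, _ | _⟩
    · exact (hD.inl (w, true) j).symm
    · exact (hD.inl (w, false) j).symm
  · intro t
    rw [hκ (org (rev t)) ⟨rev t, rfl⟩, hκ (org t) ⟨t, rfl⟩]
    ext j
    exact hD.inr t j

/-- an element of infinite order -/
theorem exists_sq_ne_one {m : ℕ} (hm : 2 ≤ m) {N : HorMfd m} (hN : N.IsTruncated) :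
    ∃ γ ∈ N.Γ, γ * γ ≠ 1 := by
  obtain ⟨ξ, hξ⟩ := hN.nonempty
  have hcone := hN.cone ξ hξ
  obtain ⟨e, he, hind, -, hex⟩ := hN.toric ξ hξ
  set i0 : Fin (m - 1) := ⟨0, by omega⟩ with hi0
  obtain ⟨γ, hγ, hfix, htr⟩ := hex (Pi.single i0 1)
  refine ⟨γ, hγ, fun h => ?_⟩
  have hsum : ∑ i, (((Pi.single i0 1 : Fin (m - 1) → ℤ) i : ℤ) : ℝ) • e i = e i0 := by
    rw [Finset.sum_eq_single i0]
    · simp
    · intro b _ hb
      simp [Pi.single_eq_of_ne hb]
    · intro h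
      exact (h (Finset.mem_univ _)).elim
  rw [hsum] at htr
  -- a point of the horosphere
  have hξ0 : 0 < ξ 0 := hcone.2
  set x : LV m := Pi.single 0 (1 / ξ 0) with hx
  have hx1 : lor x ξ = 1 := by
    have : ∀ i : Fin m, x i.succ = 0 := fun i => by
      rw [hx, Pi.single_eq_of_ne (Fin.succ_ne_zero i)]
    simp only [lor, this, zero_mul, Finset.sum_const_zero, sub_zero]
    rw [hx, Pi.single_eq_same, one_div, inv_mul_cancel₀ hξ0.ne']
  obtain ⟨r, hr⟩ := htr x hx1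
  have hlor : lor (γ x) ξ = 1 := by
    rw [hr]
    have e1 : lor (x + e i0 + r • ξ) ξ = lor x ξ + lor (e i0) ξ + r * lor ξ ξ := by
      simp only [lor, Pi.add_apply, Pi.smul_apply, smul_eq_mul, add_mul, Finset.sum_add_distrib,
        mul_sub, Finset.mul_sum]
      have : ∀ j : Fin m, r * ξ j.succ * ξ j.succ = r * (ξ j.succ * ξ j.succ) := fun j => by ring
      simp only [this]
      ring
    rw [e1, hx1, he i0, hcone.1, mul_zero, add_zero, add_zero]
  obtain ⟨r', hr'⟩ := htr (γ x) hlor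
  have h2 : γ (γ x) = x := by
    rw [← LinearEquiv.mul_apply, h]; rfl
  rw [h2, hr] at hr'
  have h3 : (2 : ℝ) • e i0 = (-(r + r')) • ξ := by
    have : x = x + e i0 + r • ξ + e i0 + r' • ξ := hr'
    have h4 : (0 : LV m) = e i0 + r • ξ + e i0 + r' • ξ := by
      have := congrArg (fun y => y - x) this
      simp only [sub_self] at this
      rw [this]; abel
    rw [two_smul, neg_smul, add_smul]
    rw [eq_neg_iff_add_eq_zero]
    rw [h4]; abel
  have h5 := hind (Pi.single i0 2) ⟨-(r + r'), by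
    rw [Finset.sum_eq_single i0]
    · simpa using h3
    · intro b _ hb
      simp [Pi.single_eq_of_ne hb]
    · intro h
      exact (h (Finset.mem_univ _)).elim⟩
  have h6 := congrFun h5 i0
  rw [Pi.single_eq_same] at h6
  norm_num at h6

theorem exists_pi1 {𝒢 : GraphOfGroups} {i : 𝒢.V} (hinj : Function.Injective (ι i)) (g : 𝒢.G i)
    (hg : g * g ≠ 1) : ∃ a : pi1 𝒢 i, a * a ≠ 1 := by
  have hmem : ι i g ∈ pi1 𝒢 i := PathElt.vertex i g
  refine ⟨⟨ι i g, hmem⟩, fun h => hg (hinj ?_)⟩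
  rw [map_mul, map_one]
  have h1 := congrArg (fun x : pi1 𝒢 i => (x : UGroup 𝒢)) h
  exact h1

theorem vertex_sq (hM : M.IsHDG) (i : M.I) : ∃ g : M.graph.G i, g * g ≠ 1 := by
  obtain ⟨γ, hγ, hγ2⟩ := exists_sq_ne_one (by have := hM.dim_ge i; omega) (hM.trunc i)
  have key : ∃ g : (M.N i).Pi (n - M.m i), g * g ≠ 1 := by
    refine ⟨((⟨γ, hγ⟩ : (M.N i).Γ), 1), fun h => hγ2 ?_⟩
    have h3 : ((⟨γ, hγ⟩ : (M.N i).Γ) * ⟨γ, hγ⟩) = 1 := congrArg Prod.fst h
    exact congrArg Subtype.val h3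
  exact key

theorem assembly (hE : TaskE) (hF : TaskF) (hG : TaskG) (hM : M.IsHDG) (hI : M.Irreducible)
    (i : M.I) : Semihyperbolic (M.Pi1 i) := by
  obtain ⟨P, hP⟩ := treeGood hE hF hG hM hI
  have hf : ∀ e, Function.Injective (M.graph.f e) := fun e => Subtype.val_injective
  have hf' : ∀ e, Function.Injective (M.graph.f' e) := fun e =>
    (Subtype.val_injective).comp (M.glue e).injective
  have : Finite M.graph.V := M.finI
  have : Finite M.graph.E := M.finW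
  obtain ⟨g, hg⟩ := vertex_sq hM i
  exact tree_semihyperbolic taskA taskB hf hf' hP i (exists_pi1 ((taskB M.graph hf hf').1 i) g hg)

end Run7.h230
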