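import Pool.Agent.Run7.h230.TreeF

set_option autoImplicit false

/-! Task B, part A: shift relation, typed reducedness, action of the universal group. -/

namespace Run7.h230

variable {𝒢 : GraphOfGroups}

/-! ### the universal property -/

/-- The homomorphism of the free product. -/
def preH {M : Type} [Group M] (θ : ∀ v, 𝒢.G v →* M) (c : 𝒢.E → M) : Gen 𝒢 →* M :=
  (Monoid.Coprod.lift (Monoid.CoprodI.lift θ) (FreeGroup.lift c) :
    Monoid.Coprod (Monoid.CoprodI 𝒢.G) (FreeGroup 𝒢.E) →* M)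

theorem preH_gv {M : Type} [Group M] (θ : ∀ v, 𝒢.G v →* M) (c : 𝒢.E → M) (v : 𝒢.V)
    (g : 𝒢.G v) : preH θ c (gv v g) = θ v g := by
  show Monoid.Coprod.lift (Monoid.CoprodI.lift θ) (FreeGroup.lift c)
    (Monoid.Coprod.inl (Monoid.CoprodI.of g)) = θ v g
  rw [Monoid.Coprod.lift_apply_inl, Monoid.CoprodI.lift_of]

theorem preH_ge {M : Type} [Group M] (θ : ∀ v, 𝒢.G v →* M) (c : 𝒢.E → M) (e : 𝒢.E) :
    preH θ c (ge e) = c e := by
  show Monoid.Coprod.lift (Monoid.CoprodI.lift θ) (FreeGroup.lift c)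
    (Monoid.Coprod.inr (FreeGroup.of e)) = c e
  rw [Monoid.Coprod.lift_apply_inr, FreeGroup.lift_apply_of]

theorem normalClosure_leH {M : Type} [Group M] (θ : ∀ v, 𝒢.G v →* M) (c : 𝒢.E → M)
    (hc : ∀ e h, c e * θ (𝒢.src e) (𝒢.f e h) * (c e)⁻¹ = θ (𝒢.tgt e) (𝒢.f' e h)) :
    Subgroup.normalClosure (rels 𝒢) ≤ (preH θ c).ker := by
  refine Subgroup.normalClosure_le_normal ?_
  rintro _ ⟨e, h, rfl⟩
  show preH θ c _ = 1
  rw [map_mul, map_inv, mul_inv_eq_one, map_mul, map_mul, map_inv, preH_ge]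
  show c e * preH θ c (gv (𝒢.src e) (𝒢.f e h)) * (c e)⁻¹ = preH θ c (gv (𝒢.tgt e) (𝒢.f' e h))
  rw [preH_gv, preH_gv]
  exact hc e h

/-- The universal property. -/
def liftH {M : Type} [Group M] (θ : ∀ v, 𝒢.G v →* M) (c : 𝒢.E → M)
    (hc : ∀ e h, c e * θ (𝒢.src e) (𝒢.f e h) * (c e)⁻¹ = θ (𝒢.tgt e) (𝒢.f' e h)) :
    UGroup 𝒢 →* M :=
  (QuotientGroup.lift (Subgroup.normalClosure (rels 𝒢)) (preH θ c)
    (fun _ hx => normalClosure_leH θ c hc hx) :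
    Gen 𝒢 ⧸ Subgroup.normalClosure (rels 𝒢) →* M)

theorem liftH_ι {M : Type} [Group M] (θ : ∀ v, 𝒢.G v →* M) (c : 𝒢.E → M)
    (hc : ∀ e h, c e * θ (𝒢.src e) (𝒢.f e h) * (c e)⁻¹ = θ (𝒢.tgt e) (𝒢.f' e h))
    (v : 𝒢.V) (g : 𝒢.G v) : liftH θ c hc (ι v g) = θ v g :=
  preH_gv θ c v g

theorem liftH_st {M : Type} [Group M] (θ : ∀ v, 𝒢.G v →* M) (c : 𝒢.E → M)
    (hc : ∀ e h, c e * θ (𝒢.src e) (𝒢.f e h) * (c e)⁻¹ = θ (𝒢.tgt e) (𝒢.f' e h))
    (e : 𝒢.E) : liftH θ c hc (st e) = c e :=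
  preH_ge θ c e

/-! ### permutations of a disjoint union -/

section perm

variable {V : Type} {Ω : V → Type} {a b : V}

open Classical in
/-- exchange two parts of a disjoint union -/
noncomputable def swpF (β : Ω a ≃ Ω b) (x : Σ k, Ω k) : Σ k, Ω k :=
  if h : x.1 = a then ⟨b, β (h ▸ x.2)⟩ else
    if h' : x.1 = b then ⟨a, β.symm (h' ▸ x.2)⟩ else x

theorem swpF_a (β : Ω a ≃ Ω b) (x : Ω a) : swpF β ⟨a, x⟩ = ⟨b, β x⟩ := dif_pos rfl

theorem swpF_b (β : Ω a ≃ Ω b) (h : b ≠ a) (x : Ω b) : swpF β ⟨b, x⟩ = ⟨a, β.symm x⟩ :=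
  (dif_neg h).trans (dif_pos rfl)

theorem swpF_ne (β : Ω a ≃ Ω b) {k : V} (h : k ≠ a) (h' : k ≠ b) (x : Ω k) :
    swpF β ⟨k, x⟩ = ⟨k, x⟩ := (dif_neg h).trans (dif_neg h')

theorem swpF_inv (β : Ω a ≃ Ω b) (x : Σ k, Ω k) : swpF β.symm (swpF β x) = x := by
  rcases x with ⟨k, x⟩
  by_cases h : k = a
  · subst h; rw [swpF_a, swpF_a, Equiv.symm_apply_apply]
  · by_cases h' : k = b
    · subst h'
      rw [swpF_b β h, swpF_b β.symm (Ne.symm h), Equiv.symm_symm, Equiv.apply_symm_apply]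
    · rw [swpF_ne β h h', swpF_ne β.symm h' h]

/-- permutation of the disjoint union which exchanges two parts -/
noncomputable def swp (β : Ω a ≃ Ω b) : Equiv.Perm (Σ k, Ω k) where
  toFun := swpF β
  invFun := swpF β.symm
  left_inv := swpF_inv β
  right_inv := by
    intro x
    have h := swpF_inv β.symm x
    rwa [Equiv.symm_symm] at h

theorem swp_a (β : Ω a ≃ Ω b) (x : Ω a) : swp β ⟨a, x⟩ = ⟨b, β x⟩ := swpF_a β x

theorem swp_symm_b (β : Ω a ≃ Ω b) (x : Ω b) : (swp β).symm ⟨b, x⟩ = ⟨a, β.symm x⟩ :=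
  swpF_a β.symm x

theorem swp_b (β : Ω a ≃ Ω b) (h : b ≠ a) (x : Ω b) : swp β ⟨b, x⟩ = ⟨a, β.symm x⟩ :=
  swpF_b β h x

theorem swp_ne (β : Ω a ≃ Ω b) {k : V} (h : k ≠ a) (h' : k ≠ b) (x : Ω k) :
    swp β ⟨k, x⟩ = ⟨k, x⟩ := swpF_ne β h h' x

open Classical in
/-- a group which acts on one part acts on the disjoint union -/
noncomputable def ext {G : Type} [Group G] (i : V) (ψ : G →* Equiv.Perm (Ω i)) :
    G →* Equiv.Perm (Σ k, Ω k) :=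
  (Equiv.Perm.sigmaCongrRightHom Ω).comp
    ((MonoidHom.mulSingle (fun k => Equiv.Perm (Ω k)) i).comp ψ)

open Classical in
theorem ext_same {G : Type} [Group G] (i : V) (ψ : G →* Equiv.Perm (Ω i)) (g : G) (x : Ω i) :
    ext i ψ g ⟨i, x⟩ = ⟨i, ψ g x⟩ := by
  show (⟨i, (Pi.mulSingle i (ψ g) : ∀ k, Equiv.Perm (Ω k)) i x⟩ : Σ k, Ω k) = _
  rw [Pi.mulSingle_eq_same]

open Classical in
theorem ext_ne {G : Type} [Group G] (i : V) (ψ : G →* Equiv.Perm (Ω i)) (g : G) {k : V}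
    (h : k ≠ i) (x : Ω k) : ext i ψ g ⟨k, x⟩ = ⟨k, x⟩ := by
  show (⟨k, (Pi.mulSingle i (ψ g) : ∀ k, Equiv.Perm (Ω k)) k x⟩ : Σ k, Ω k) = _
  rw [Pi.mulSingle_eq_of_ne h]; rfl

theorem swp_ext {G₁ G₂ : Type} [Group G₁] [Group G₂] (ψ₁ : G₁ →* Equiv.Perm (Ω a))
    (ψ₂ : G₂ →* Equiv.Perm (Ω b)) (β : Ω a ≃ Ω b) (g₁ : G₁) (g₂ : G₂)
    (h : ∀ x, β (ψ₁ g₁ x) = ψ₂ g₂ (β x)) :
    swp β * ext a ψ₁ g₁ * (swp β)⁻¹ = ext b ψ₂ g₂ := by
  rw [mul_inv_eq_iff_eq_mul]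
  ext1 ⟨k, x⟩
  rw [Equiv.Perm.mul_apply, Equiv.Perm.mul_apply]
  by_cases hk : k = a
  · subst hk
    rw [ext_same, swp_a, swp_a, ext_same, h]
  · rw [ext_ne a ψ₁ g₁ hk]
    by_cases hk' : k = b
    · subst hk'
      rw [swp_b β hk, ext_ne k ψ₂ g₂ (Ne.symm hk)]
    · rw [swp_ne β hk hk', ext_ne b ψ₂ g₂ hk']

end perm

/-! ### shift relation -/

/-- recursive form of the shift relation -/
def ShR : {i j : 𝒢.V} → W 𝒢 i j → 𝒢.G i → W 𝒢 i j → Prop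
  | _, _, .nil g, c, w' => w' = .nil (c * g)
  | _, _, .cons t x w, c, w' => ∃ (a : 𝒢.H t.1) (w₁ : W 𝒢 (org (rev t)) _),
      w' = .cons t (c * x * fo t a) w₁ ∧ ShR w (fr t a⁻¹) w₁

theorem ShW.toR {i j : 𝒢.V} {c : 𝒢.G i} {w w' : W 𝒢 i j} (h : ShW c w w') : ShR w c w' := by
  induction h with
  | nil c g => rfl
  | cons t c x a w w' _ ih => exact ⟨a, w', rfl, ih⟩

theorem ShR.toW {i j : 𝒢.V} (w : W 𝒢 i j) : ∀ (c : 𝒢.G i) (w' : W 𝒢 i j), ShR w c w' →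
    ShW c w w' := by
  induction w with
  | nil g =>
    intro c w' h
    have h' : w' = .nil (c * g) := h
    subst h'
    exact ShW.nil c g
  | cons t x w ih =>
    rintro c w' ⟨a, w₁, rfl, h⟩
    exact ShW.cons t c x a w w₁ (ih _ _ h)

theorem ShW.symm {i j : 𝒢.V} {c : 𝒢.G i} {w w' : W 𝒢 i j} (h : ShW c w w') :
    ShW c⁻¹ w' w := by
  induction h with
  | nil c g =>
    have h1 := ShW.nil c⁻¹ (c * g)
    rwa [inv_mul_cancel_left] at h1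
  | cons t c x a w w' _ ih =>
    rw [← map_inv] at ih
    have h1 := ShW.cons t c⁻¹ (c * x * fo t a) a⁻¹ w' w ih
    rwa [show c⁻¹ * (c * x * fo t a) * fo t a⁻¹ = x by rw [map_inv]; group] at h1

theorem ShW.trans {i j : 𝒢.V} {c : 𝒢.G i} {w w' : W 𝒢 i j} (h : ShW c w w') :
    ∀ (c' : 𝒢.G i) (w'' : W 𝒢 i j), ShW c' w' w'' → ShW (c' * c) w w'' := by
  induction h with
  | nil c g =>
    intro c' w'' h'
    have h1 : w'' = .nil (c' * (c * g)) := h'.toR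
    subst h1
    rw [← mul_assoc]
    exact ShW.nil _ _
  | cons t c x a w w' _ ih =>
    intro c' w'' h'
    obtain ⟨a', w₁, rfl, h1⟩ := h'.toR
    have h2 := ih _ _ (ShR.toW _ _ _ h1)
    rw [← map_mul, ← mul_inv_rev] at h2
    have h3 := ShW.cons t (c' * c) x (a * a') w w₁ h2
    rwa [show c' * c * x * fo t (a * a') = c' * (c * x * fo t a) * fo t a' by
      rw [map_mul]; group] at h3

theorem ShW.one_trans {i j : 𝒢.V} {w w' w'' : W 𝒢 i j} (h : ShW 1 w w') (h' : ShW 1 w' w'') :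
    ShW 1 w w'' := by
  have := h.trans _ _ h'
  rwa [one_mul] at this

theorem ShW.one_symm {i j : 𝒢.V} {w w' : W 𝒢 i j} (h : ShW 1 w w') : ShW 1 w' w := by
  have := h.symm
  rwa [inv_one] at this

theorem ShW.mulStart {i j : 𝒢.V} {w w' : W 𝒢 i j} {c : 𝒢.G i} (h : ShW c w w') (g : 𝒢.G i) :
    ShW (g * c) w (w'.mulStart g) :=
  h.trans _ _ (W.sh_mulStart w' g)

theorem ShW.mulStart₂ {i j : 𝒢.V} {w w' : W 𝒢 i j} (h : ShW 1 w w') (g : 𝒢.G i) :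
    ShW 1 (w.mulStart g) (w'.mulStart g) := by
  have h1 := (W.sh_mulStart w g).symm.trans _ _ (h.mulStart g)
  rwa [mul_one, mul_inv_cancel] at h1

theorem ShW.val {i j : 𝒢.V} {c : 𝒢.G i} {w w' : W 𝒢 i j} (h : ShW c w w') :
    w'.val = ι i c * w.val := by
  induction h with
  | nil c g => exact map_mul _ _ _
  | cons t c x a w w' _ ih =>
    rw [W.val_cons, W.val_cons, ih, map_mul _ (c * x), map_mul _ c, mul_assoc _ _ (lt t), cross]
    rw [map_inv, map_inv]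
    simp only [mul_assoc, mul_inv_cancel_left]

/-- the same words behind a letter -/
theorem ShW.cons_one {j : 𝒢.V} {t : OE 𝒢} {w w' : W 𝒢 (org (rev t)) j} (x : 𝒢.G (org t))
    (h : ShW 1 w w') : ShW 1 (W.cons t x w) (W.cons t x w') := by
  have h1 := ShW.cons t 1 x 1 w w' (by rwa [inv_one, map_one])
  rwa [map_one, mul_one, one_mul] at h1

theorem ShW.cons_inj (hfo : ∀ t : OE 𝒢, Function.Injective (fo t)) {j : 𝒢.V} {t : OE 𝒢}
    {w w' : W 𝒢 (org (rev t)) j} (h : ShW 1 (W.cons t 1 w) (W.cons t 1 w')) : ShW 1 w w' := by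
  obtain ⟨a, w₁, h1, h2⟩ := h.toR
  have h3 : (1 : 𝒢.G (org t)) = 1 * 1 * fo t a ∧ HEq w' w₁ := by
    simpa using W.cons.inj h1
  have h4 := eq_of_heq h3.2
  subst h4
  have h5 : fo t a = fo t 1 := by rw [map_one, h3.1]; simp
  have h6 := hfo t h5
  rw [h6, inv_one, map_one] at h2
  exact ShR.toW _ _ _ h2

/-- shift of an element of the edge group -/
theorem ShW.push {j : 𝒢.V} (t : OE 𝒢) (a : 𝒢.H t.1) (w : W 𝒢 (org (rev t)) j) :
    ShW 1 (W.cons t (fo t a) w) (W.cons t 1 (w.mulStart (fr t a))) := by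
  have h1 := ShW.cons t 1 (fo t a) a⁻¹ w (w.mulStart (fr t a)) (by
    rw [inv_inv]; exact W.sh_mulStart w _)
  rwa [show (1 : 𝒢.G (org t)) * fo t a * fo t a⁻¹ = 1 by rw [map_inv]; group] at h1

end Run7.h230
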