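import Pool.Agent.Run7.h230.BA

set_option autoImplicit false

/-! Task B, part B: the action of the universal group on reduced words, and the normal form
theorem. -/

namespace Run7.h230

variable {𝒢 : GraphOfGroups}

/-- the edge group of an edge at `i` -/
def Ae {i : 𝒢.V} (e : {s : OE 𝒢 // org s = i}) : Subgroup (𝒢.G i) := e.2 ▸ (fo e.1).range

/-- condition at a letter -/
def RdC (t : OE 𝒢) : Option {s : OE 𝒢 // org s = org t} → 𝒢.G (org t) → Prop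
  | none, _ => True
  | some e, x => ¬ (e = ⟨t, rfl⟩ ∧ x ∈ (fo t).range)

/-- typed reduced words -/
def Rd : {i j : 𝒢.V} → W 𝒢 i j → Option {s : OE 𝒢 // org s = i} → Prop
  | _, _, .nil _, _ => True
  | _, _, .cons t x w, e => RdC t e x ∧ Rd w (some ⟨rev t, rfl⟩)

theorem RdC_mul (t : OE 𝒢) (e : Option {s : OE 𝒢 // org s = org t}) (c x a : 𝒢.G (org t))
    (hc : ∀ e', e = some e' → c ∈ Ae e') (ha : a ∈ (fo t).range) (h : RdC t e x) :
    RdC t e (c * x * a) := by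
  rcases e with _ | e
  · trivial
  · rintro ⟨h1, h2⟩
    apply h
    refine ⟨h1, ?_⟩
    subst h1
    have h3 : c ∈ (fo t).range := hc _ rfl
    rw [Subgroup.mul_mem_cancel_right _ ha, Subgroup.mul_mem_cancel_left _ h3] at h2
    exact h2

theorem Rd.sh {i j : 𝒢.V} {c : 𝒢.G i} {w w' : W 𝒢 i j} (h : ShW c w w') :
    ∀ e : Option {s : OE 𝒢 // org s = i}, (∀ e', e = some e' → c ∈ Ae e') → Rd w e → Rd w' e := by
  induction h with
  | nil c g => intro _ _ _; trivial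
  | cons t c x a w w' h ih =>
    intro e hc hw
    refine ⟨RdC_mul t e c x (fo t a) hc ⟨a, rfl⟩ hw.1, ih _ ?_ hw.2⟩
    rintro e' he'
    have he := Option.some.inj he'
    subst he
    exact ⟨a⁻¹, rfl⟩

theorem Rd.toNone {i j : 𝒢.V} {w : W 𝒢 i j} {e : Option {s : OE 𝒢 // org s = i}} (h : Rd w e) :
    Rd w none := by
  cases w with
  | nil g => trivial
  | cons t x w => exact ⟨trivial, h.2⟩

theorem Rd.mulStart {i j : 𝒢.V} {w : W 𝒢 i j} {e : Option {s : OE 𝒢 // org s = i}} (h : Rd w e)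
    (c : 𝒢.G i) (hc : ∀ e', e = some e' → c ∈ Ae e') : Rd (w.mulStart c) e :=
  h.sh (W.sh_mulStart w c) e hc

/-- a word which is reduced, but not behind the edge `e`, starts with this edge -/
theorem Rd.strip {i j : 𝒢.V} (w : W 𝒢 i j) (t : OE 𝒢) (h : org t = i) (hw : Rd w none)
    (hne : ¬ Rd w (some ⟨t, h⟩)) : ∃ w₂ : W 𝒢 (org (rev t)) j, Rd w₂ (some ⟨rev t, rfl⟩) ∧
      ShW 1 w (h ▸ W.cons t 1 w₂) := by
  cases w with
  | nil g => exact (hne trivial).elim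
  | cons t' x w =>
    have h1 : ¬ RdC t' (some ⟨t, h⟩) x := fun h1 => hne ⟨h1, hw.2⟩
    have h2 : (⟨t, h⟩ : {s : OE 𝒢 // org s = org t'}) = ⟨t', rfl⟩ ∧ x ∈ (fo t').range := by
      by_contra h3; exact h1 h3
    obtain ⟨h3, a, rfl⟩ := h2
    have h4 : t = t' := congrArg Subtype.val h3
    subst h4
    refine ⟨w.mulStart (fr t a), hw.2.mulStart _ ?_, ShW.push t a w⟩
    rintro e' he'
    have he := Option.some.inj he'
    subst he
    exact ⟨a, rfl⟩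

/-- setoid of reduced words -/
def wSet (j i : 𝒢.V) : Setoid {w : W 𝒢 i j // Rd w none} where
  r w w' := ShW 1 w.1 w'.1
  iseqv := ⟨fun w => ShW.refl w.1, fun h => h.one_symm, fun h h' => h.one_trans h'⟩

/-- classes of reduced words -/
def Om (j i : 𝒢.V) : Type := Quotient (wSet (𝒢 := 𝒢) j i)

/-- class of a reduced word -/
def cl {i j : 𝒢.V} (w : W 𝒢 i j) (h : Rd w none) : Om j i := Quotient.mk (wSet j i) ⟨w, h⟩

theorem cl_eq {i j : 𝒢.V} {w w' : W 𝒢 i j} {h : Rd w none} {h' : Rd w' none} :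
    cl w h = cl w' h' ↔ ShW 1 w w' :=
  ⟨fun h1 => Quotient.exact h1, fun h1 => Quotient.sound h1⟩

theorem Om.ind {i j : 𝒢.V} (x : Om (𝒢 := 𝒢) j i) : ∃ w h, x = cl w h := by
  induction x using Quotient.inductionOn with
  | h w => exact ⟨w.1, w.2, rfl⟩

theorem mulStart_mul {i j : 𝒢.V} (w : W 𝒢 i j) (g g' : 𝒢.G i) :
    (w.mulStart g').mulStart g = w.mulStart (g * g') := by
  cases w with
  | nil x => show W.nil _ = W.nil _; rw [mul_assoc]
  | cons t x w => show W.cons t _ w = W.cons t _ w; rw [mul_assoc]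

theorem mulStart_one {i j : 𝒢.V} (w : W 𝒢 i j) : w.mulStart 1 = w := by
  cases w with
  | nil x => show W.nil _ = W.nil _; rw [one_mul]
  | cons t x w => show W.cons t _ w = W.cons t _ w; rw [one_mul]

theorem Rd.ms {i j : 𝒢.V} {w : W 𝒢 i j} (h : Rd w none) (c : 𝒢.G i) :
    Rd (w.mulStart c) none := h.mulStart c (by rintro e' he'; cases he')

/-- action of the vertex group -/
def vact (j i : 𝒢.V) (g : 𝒢.G i) : Om j i → Om (𝒢 := 𝒢) j i :=
  Quotient.map (fun w => ⟨w.1.mulStart g, w.2.ms g⟩) (fun _ _ h => ShW.mulStart₂ h g)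

theorem vact_cl {i j : 𝒢.V} (g : 𝒢.G i) (w : W 𝒢 i j) (h : Rd w none) :
    vact j i g (cl w h) = cl (w.mulStart g) (h.ms g) := rfl

theorem vact_mul (j i : 𝒢.V) (g g' : 𝒢.G i) (x : Om j i) :
    vact j i g (vact j i g' x) = vact j i (g * g') x := by
  obtain ⟨w, h, rfl⟩ := x.ind
  rw [vact_cl, vact_cl, vact_cl, cl_eq, mulStart_mul]
  exact ShW.refl _

theorem vact_one (j i : 𝒢.V) (x : Om (𝒢 := 𝒢) j i) : vact j i 1 x = x := by
  obtain ⟨w, h, rfl⟩ := x.ind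
  rw [vact_cl, cl_eq, mulStart_one]
  exact ShW.refl _

/-- action of the vertex group, as a homomorphism -/
def vhom (j i : 𝒢.V) : 𝒢.G i →* Equiv.Perm (Om (𝒢 := 𝒢) j i) where
  toFun g := ⟨vact j i g, vact j i g⁻¹, fun x => by rw [vact_mul, inv_mul_cancel, vact_one],
    fun x => by rw [vact_mul, mul_inv_cancel, vact_one]⟩
  map_one' := by ext1 x; exact vact_one j i x
  map_mul' g g' := by ext1 x; exact (vact_mul j i g g' x).symm

theorem vhom_apply (j i : 𝒢.V) (g : 𝒢.G i) (x : Om j i) : vhom j i g x = vact j i g x := rfl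

/-- the relation given by a letter -/
def Re (j : 𝒢.V) (e : 𝒢.E) (x : Om (𝒢 := 𝒢) j (𝒢.src e)) (y : Om (𝒢 := 𝒢) j (𝒢.tgt e)) : Prop :=
  (∃ (w : W 𝒢 (org (rev ((e, true) : OE 𝒢))) j) (h : Rd w (some ⟨rev (e, true), rfl⟩)),
    x = cl w h.toNone ∧ y = cl (W.cons (e, true) 1 w) ⟨trivial, h⟩) ∨
  (∃ (w : W 𝒢 (org (rev ((e, false) : OE 𝒢))) j) (h : Rd w (some ⟨rev (e, false), rfl⟩)),
    x = cl (W.cons (e, false) 1 w) ⟨trivial, h⟩ ∧ y = cl w h.toNone)

theorem Re_total (j : 𝒢.V) (e : 𝒢.E) (x : Om (𝒢 := 𝒢) j (𝒢.src e)) : ∃ y, Re j e x y := by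
  obtain ⟨w, h, rfl⟩ := x.ind
  by_cases hR : Rd w (some ⟨(e, false), rfl⟩)
  · exact ⟨_, Or.inl ⟨w, hR, rfl, rfl⟩⟩
  · obtain ⟨w₂, h1, h2⟩ := Rd.strip w (e, false) rfl h hR
    exact ⟨cl w₂ h1.toNone, Or.inr ⟨w₂, h1, cl_eq.2 h2, rfl⟩⟩

theorem Re_total' (j : 𝒢.V) (e : 𝒢.E) (y : Om (𝒢 := 𝒢) j (𝒢.tgt e)) : ∃ x, Re j e x y := by
  obtain ⟨w, h, rfl⟩ := y.ind
  by_cases hR : Rd w (some ⟨(e, true), rfl⟩)
  · exact ⟨_, Or.inr ⟨w, hR, rfl, rfl⟩⟩
  · obtain ⟨w₂, h1, h2⟩ := Rd.strip w (e, true) rfl h hR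
    exact ⟨cl w₂ h1.toNone, Or.inl ⟨w₂, h1, rfl, cl_eq.2 h2⟩⟩

/-- the two kinds exclude each other -/
theorem Rd.excl {i j : 𝒢.V} (w : W 𝒢 i j) (t : OE 𝒢) (h : org t = i) (hw : Rd w (some ⟨t, h⟩))
    (w₂ : W 𝒢 (org (rev t)) j) (hs : ShW 1 w (h ▸ W.cons t 1 w₂)) : False := by
  subst h
  have h1 := hw.sh hs (some ⟨t, rfl⟩) (by
    rintro e' he'
    exact (Ae e').one_mem)
  exact h1.1 ⟨rfl, (fo t).range.one_mem⟩

theorem Re_fun (hfo : ∀ t : OE 𝒢, Function.Injective (fo t)) (j : 𝒢.V) (e : 𝒢.E)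
    (x : Om (𝒢 := 𝒢) j (𝒢.src e)) (y y' : Om (𝒢 := 𝒢) j (𝒢.tgt e)) (h : Re j e x y)
    (h' : Re j e x y') : y = y' := by
  rcases h with ⟨w, hw, rfl, rfl⟩ | ⟨w, hw, rfl, rfl⟩
  · rcases h' with ⟨w', hw', h1, rfl⟩ | ⟨w', hw', h1, rfl⟩
    · exact cl_eq.2 (ShW.cons_one 1 (cl_eq.1 h1))
    · exact (Rd.excl w (e, false) rfl hw w' (cl_eq.1 h1)).elim
  · rcases h' with ⟨w', hw', h1, rfl⟩ | ⟨w', hw', h1, rfl⟩
    · exact (Rd.excl w' (e, false) rfl hw' w (cl_eq.1 h1.symm)).elim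
    · exact cl_eq.2 (ShW.cons_inj hfo (cl_eq.1 h1))

theorem Re_fun' (hfo : ∀ t : OE 𝒢, Function.Injective (fo t)) (j : 𝒢.V) (e : 𝒢.E)
    (x x' : Om (𝒢 := 𝒢) j (𝒢.src e)) (y : Om (𝒢 := 𝒢) j (𝒢.tgt e)) (h : Re j e x y)
    (h' : Re j e x' y) : x = x' := by
  rcases h with ⟨w, hw, rfl, rfl⟩ | ⟨w, hw, rfl, rfl⟩
  · rcases h' with ⟨w', hw', rfl, h1⟩ | ⟨w', hw', rfl, h1⟩
    · exact cl_eq.2 (ShW.cons_inj hfo (cl_eq.1 h1))
    · exact (Rd.excl w' (e, true) rfl hw' w (cl_eq.1 h1.symm)).elim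
  · rcases h' with ⟨w', hw', rfl, h1⟩ | ⟨w', hw', rfl, h1⟩
    · exact (Rd.excl w (e, true) rfl hw w' (cl_eq.1 h1)).elim
    · exact cl_eq.2 (ShW.cons_one 1 (cl_eq.1 h1))

theorem Re_equi (j : 𝒢.V) (e : 𝒢.E) (a : 𝒢.H e)
    (x : Om (𝒢 := 𝒢) j (𝒢.src e)) (y : Om (𝒢 := 𝒢) j (𝒢.tgt e)) (h : Re j e x y) :
    Re j e (vact j _ (𝒢.f e a) x) (vact j _ (𝒢.f' e a) y) := by
  rcases h with ⟨w, hw, rfl, rfl⟩ | ⟨w, hw, rfl, rfl⟩
  · refine Or.inl ⟨w.mulStart (fr (e, true) a), hw.mulStart _ ?_, rfl, ?_⟩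
    · rintro e' he'
      have he := Option.some.inj he'
      subst he
      exact ⟨a, rfl⟩
    · have h1 := ShW.push (e, true) a w
      refine cl_eq.2 ?_
      have h2 : ShW 1 (W.cons (e, true) (fo (e, true) a * 1) w)
        (W.cons (e, true) 1 (w.mulStart (fr (e, true) a))) := by rwa [mul_one]
      exact h2
  · refine Or.inr ⟨w.mulStart (fr (e, false) a), hw.mulStart _ ?_, ?_, rfl⟩
    · rintro e' he'
      have he := Option.some.inj he'
      subst he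
      exact ⟨a, rfl⟩
    · have h1 := ShW.push (e, false) a w
      refine cl_eq.2 ?_
      have h2 : ShW 1 (W.cons (e, false) (fo (e, false) a * 1) w)
        (W.cons (e, false) 1 (w.mulStart (fr (e, false) a))) := by rwa [mul_one]
      exact h2

/-- the bijection given by a letter -/
noncomputable def bet (hfo : ∀ t : OE 𝒢, Function.Injective (fo t)) (j : 𝒢.V) (e : 𝒢.E) :
    Om (𝒢 := 𝒢) j (𝒢.src e) ≃ Om (𝒢 := 𝒢) j (𝒢.tgt e) where
  toFun x := (Re_total j e x).choose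
  invFun y := (Re_total' j e y).choose
  left_inv x := Re_fun' hfo j e _ _ _ (Re_total' j e _).choose_spec (Re_total j e x).choose_spec
  right_inv y := Re_fun hfo j e _ _ _ (Re_total j e _).choose_spec (Re_total' j e y).choose_spec

theorem bet_eq (hfo : ∀ t : OE 𝒢, Function.Injective (fo t)) (j : 𝒢.V) (e : 𝒢.E)
    (x : Om (𝒢 := 𝒢) j (𝒢.src e)) (y : Om (𝒢 := 𝒢) j (𝒢.tgt e)) (h : Re j e x y) :
    bet hfo j e x = y := Re_fun hfo j e x _ _ (Re_total j e x).choose_spec h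

theorem bet_spec (hfo : ∀ t : OE 𝒢, Function.Injective (fo t)) (j : 𝒢.V) (e : 𝒢.E)
    (x : Om (𝒢 := 𝒢) j (𝒢.src e)) : Re j e x (bet hfo j e x) := (Re_total j e x).choose_spec

/-- the action of the universal group -/
noncomputable def act (hfo : ∀ t : OE 𝒢, Function.Injective (fo t)) (j : 𝒢.V) :
    UGroup 𝒢 →* Equiv.Perm (Σ i, Om (𝒢 := 𝒢) j i) :=
  liftH (fun i => ext i (vhom j i)) (fun e => swp (bet hfo j e)) (by
    intro e a
    refine swp_ext (vhom j _) (vhom j _) (bet hfo j e) (𝒢.f e a) (𝒢.f' e a) ?_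
    intro x
    rw [vhom_apply, vhom_apply]
    exact bet_eq hfo j e _ _ (Re_equi j e a _ _ (bet_spec hfo j e x)))

theorem act_ι (hfo : ∀ t : OE 𝒢, Function.Injective (fo t)) (j i : 𝒢.V) (g : 𝒢.G i)
    (w : W 𝒢 i j) (h : Rd w none) :
    act hfo j (ι i g) ⟨i, cl w h⟩ = ⟨i, cl (w.mulStart g) (h.ms g)⟩ := by
  rw [act, liftH_ι, ext_same]; rfl

theorem act_lt (hfo : ∀ t : OE 𝒢, Function.Injective (fo t)) (j : 𝒢.V) (t : OE 𝒢)
    (w : W 𝒢 (org (rev t)) j) (h : Rd w (some ⟨rev t, rfl⟩)) :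
    act hfo j (lt t) ⟨org (rev t), cl w h.toNone⟩ = ⟨org t, cl (W.cons t 1 w) ⟨trivial, h⟩⟩ := by
  rcases t with ⟨e, _ | _⟩
  · show act hfo j (st e)⁻¹ _ = _
    rw [map_inv, Equiv.Perm.inv_def, Equiv.symm_apply_eq]
    rw [act, liftH_st]
    have h1 : bet hfo j e (cl (W.cons (e, false) 1 w) ⟨trivial, h⟩) = cl w h.toNone :=
      bet_eq hfo j e _ _ (Or.inr ⟨w, h, rfl, rfl⟩)
    have h2 := swp_a (bet hfo j e) (cl (W.cons (e, false) 1 w) ⟨trivial, h⟩)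
    rw [h1] at h2
    exact h2.symm
  · show act hfo j (st e) _ = _
    rw [act, liftH_st]
    have h1 : bet hfo j e (cl w h.toNone) = cl (W.cons (e, true) 1 w) ⟨trivial, h⟩ :=
      bet_eq hfo j e _ _ (Or.inl ⟨w, h, rfl, rfl⟩)
    have h2 := swp_a (bet hfo j e) (cl w h.toNone)
    rw [h1] at h2
    exact h2

theorem act_val (hfo : ∀ t : OE 𝒢, Function.Injective (fo t)) {i j : 𝒢.V} (w : W 𝒢 i j)
    (h : Rd w none) :
    act hfo j w.val ⟨j, cl (W.nil 1) trivial⟩ = ⟨i, cl w h⟩ := by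
  induction w with
  | nil g =>
    rw [W.val_nil, act_ι]
    have : ((W.nil (1 : 𝒢.G _)).mulStart g) = W.nil g := by
      show W.nil _ = W.nil _; rw [mul_one]
    congr 1
    exact cl_eq.2 (by rw [this]; exact ShW.refl _)
  | cons t x w ih =>
    rw [W.val_cons, map_mul, map_mul, Equiv.Perm.mul_apply, Equiv.Perm.mul_apply, ih h.2.toNone,
      act_lt hfo _ t w h.2, act_ι]
    have : ((W.cons t (1 : 𝒢.G _) w).mulStart x) = W.cons t x w := by
      show W.cons t _ w = W.cons t _ w; rw [mul_one]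
    congr 1
    exact cl_eq.2 (by rw [this]; exact ShW.refl _)

/-- uniqueness of typed normal forms -/
theorem typed_unique (hfo : ∀ t : OE 𝒢, Function.Injective (fo t)) {i j : 𝒢.V} (w w' : W 𝒢 i j)
    (h : Rd w none) (h' : Rd w' none) (hv : w.val = w'.val) : ShW 1 w w' := by
  have h1 := act_val hfo w h
  rw [hv, act_val hfo w' h'] at h1
  have h2 := (Sigma.mk.inj h1).2
  exact (cl_eq.1 (eq_of_heq h2)).one_symm

theorem ι_inj (hfo : ∀ t : OE 𝒢, Function.Injective (fo t)) (v : 𝒢.V) :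
    Function.Injective (ι (𝒢 := 𝒢) v) := by
  intro g g' h
  have h1 := typed_unique hfo (W.nil g) (W.nil g') trivial trivial h
  have h2 : W.nil g' = W.nil (1 * g) := h1.toR
  have h3 := W.nil.inj h2
  rw [h3, one_mul]

/-- existence of typed normal forms -/
theorem typed_exists {i k : 𝒢.V} {x : UGroup 𝒢} (hx : PathElt i k x) : ∀ {j : 𝒢.V}
    (w : W 𝒢 k j), Rd w none → ∃ w' : W 𝒢 i j, Rd w' none ∧ w'.val = x * w.val := by
  induction hx with
  | vertex v g =>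
    intro j w hw
    exact ⟨w.mulStart g, hw.ms g, W.val_mulStart w g⟩
  | edge e =>
    intro j w hw
    by_cases hR : Rd w (some ⟨(e, false), rfl⟩)
    · refine ⟨W.cons (e, true) 1 w, ⟨trivial, hR⟩, ?_⟩
      show ι _ 1 * st e * w.val = st e * w.val
      rw [map_one, one_mul]
    · obtain ⟨w₂, h1, h2⟩ := Rd.strip w (e, false) rfl hw hR
      refine ⟨w₂, h1.toNone, ?_⟩
      have h3 : (W.cons (e, false) 1 w₂).val = w.val := by
        have := ShW.val h2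
        rw [map_one, one_mul] at this
        exact this
      have h4 : ι _ 1 * (st e)⁻¹ * w₂.val = w.val := h3
      rw [← h4, map_one, one_mul, mul_inv_cancel_left]
      rfl
  | edgeInv e =>
    intro j w hw
    by_cases hR : Rd w (some ⟨(e, true), rfl⟩)
    · refine ⟨W.cons (e, false) 1 w, ⟨trivial, hR⟩, ?_⟩
      show ι _ 1 * (st e)⁻¹ * w.val = (st e)⁻¹ * w.val
      rw [map_one, one_mul]
    · obtain ⟨w₂, h1, h2⟩ := Rd.strip w (e, true) rfl hw hR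
      refine ⟨w₂, h1.toNone, ?_⟩
      have h3 : (W.cons (e, true) 1 w₂).val = w.val := by
        have := ShW.val h2
        rw [map_one, one_mul] at this
        exact this
      have h4 : ι _ 1 * st e * w₂.val = w.val := h3
      rw [← h4, map_one, one_mul, inv_mul_cancel_left]
      rfl
  | trans u v w x y _ _ ihx ihy =>
    intro j a ha
    obtain ⟨b, hb, hbv⟩ := ihy a ha
    obtain ⟨c, hc, hcv⟩ := ihx b hb
    exact ⟨c, hc, by rw [hcv, hbv, mul_assoc]⟩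

end Run7.h230
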