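import Mathlib

set_option autoImplicit false

/-! Interface definitions for the semihyperbolicity of irreducible HDG manifold groups
(MP_77db41_gt): coordinate moves, λ-systems (algebraic hyperbolic geometry of points and
horoballs), pieces of groups. -/

namespace Run7.h230

/-- Move from `a` towards `b` at unit speed in every coordinate, for time `s`
(no move if `s ≤ 0`). -/
noncomputable def go {J : Type} (a b : J → ℝ) (s : ℝ) : J → ℝ :=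
  fun j => max (a j - max s 0) (min (a j + max s 0) (b j))

/-- `v` is supported in `S`. -/
def Supp {J : Type} (S : Set J) (v : J → ℝ) : Prop := ∀ j, j ∉ S → v j = 0

/-! ### λ-systems -/

/-- Data: a set `O` of objects (points, and horoballs `hb`); `lam x y = exp (dist / 2)`-type
function; for a horoball `B` the coordinates `P B x` of the projection of `x` to the horosphere
(only differences matter), `S B` the set of active coordinates, `D ≥ 1` a constant. -/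
structure LSp (O J : Type) [Fintype J] where
  hb : Set O
  lam : O → O → ℝ
  P : O → O → J → ℝ
  S : O → Set J
  D : ℝ

namespace LSp

variable {O J : Type} [Fintype J] (𝓛 : LSp O J)

/-- distance of the projections of `x` and `y` to the horosphere of `B`, up to a bounded
multiplicative and additive error -/
noncomputable def rho (B x y : O) : ℝ := 𝓛.lam x y / (𝓛.lam x B * 𝓛.lam B y)

/-- The axioms of a λ-system. -/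
structure Good : Prop where
  D_ge : 1 ≤ 𝓛.D
  symm : ∀ x y, 𝓛.lam x y = 𝓛.lam y x
  pt : ∀ x, x ∉ 𝓛.hb → 𝓛.lam x x = 1
  hbb : ∀ x, x ∈ 𝓛.hb → 𝓛.lam x x = 0
  ge : ∀ x y, x ≠ y → 1 ≤ 𝓛.lam x y
  ptol : ∀ x y z w, 𝓛.lam x y * 𝓛.lam z w ≤ 𝓛.lam x z * 𝓛.lam y w + 𝓛.lam x w * 𝓛.lam y z
  P_le : ∀ B ∈ 𝓛.hb, ∀ x y, x ≠ B → y ≠ B → ‖𝓛.P B x - 𝓛.P B y‖ ≤ 𝓛.D * 𝓛.rho B x y
  le_P : ∀ B ∈ 𝓛.hb, ∀ x y, x ≠ B → y ≠ B → 𝓛.rho B x y ≤ 𝓛.D * (‖𝓛.P B x - 𝓛.P B y‖ + 1)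
  supp : ∀ B ∈ 𝓛.hb, ∀ x y, x ≠ B → y ≠ B → Supp (𝓛.S B) (𝓛.P B x - 𝓛.P B y)
  real : ∀ B ∈ 𝓛.hb, ∀ y, y ≠ B → ∀ v, Supp (𝓛.S B) v →
    ∃ z, z ∉ 𝓛.hb ∧ 𝓛.lam z B ≤ 𝓛.D ∧ ‖𝓛.P B z - (𝓛.P B y + v)‖ ≤ 𝓛.D
  chain : ∀ x y, x ∉ 𝓛.hb → y ∉ 𝓛.hb → ∃ (n : ℕ) (c : ℕ → O), c 0 = x ∧ c n = y ∧
    (∀ i, i ≤ n → c i ∉ 𝓛.hb) ∧
    (∀ i, i < n → 𝓛.lam (c i) (c (i + 1)) ≤ 𝓛.D ∨
      ∃ B ∈ 𝓛.hb, 𝓛.lam (c i) B ≤ 𝓛.D ∧ 𝓛.lam (c (i + 1)) B ≤ 𝓛.D) ∧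
    ∀ i j k, i ≤ j → j ≤ k → k ≤ n →
      𝓛.lam (c i) (c j) * 𝓛.lam (c j) (c k) ≤ 𝓛.D * 𝓛.lam (c i) (c k)

/-- threshold for the norm of differences of projections: if `‖P B x - P B y‖ > tau` then
`rho B x y > 16` -/
noncomputable def tau : ℝ := 16 * 𝓛.D

/-- Sum over all horoballs different from `x` and `y` of a cut-off function of the difference of
the projections. -/
noncomputable def Sg {W : Type} [AddCommMonoid W] (F : O → (J → ℝ) → W) (x y : O) : W :=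
  ∑ᶠ B ∈ {B | B ∈ 𝓛.hb ∧ B ≠ x ∧ B ≠ y}, F B (𝓛.P B y - 𝓛.P B x)

/-- An admissible family of cut-off functions: `Λ`-Lipschitz and zero on the ball of radius
`tau`. -/
structure Cut {W : Type} [NormedAddCommGroup W] (F : O → (J → ℝ) → W) (Λ : ℝ) : Prop where
  nonneg : 0 ≤ Λ
  lip : ∀ B v w, ‖F B v - F B w‖ ≤ Λ * ‖v - w‖
  zero : ∀ B v, ‖v‖ ≤ 𝓛.tau → F B v = 0

/-- `z` is `K`-between `x` and `y`. -/
def Btw (K : ℝ) (x y z : O) : Prop := 𝓛.lam x z * 𝓛.lam z y ≤ K * 𝓛.lam x y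

/-- cut-off function for lengths -/
noncomputable def Fd (_ : O) (v : J → ℝ) : ℝ :=
  max 0 (‖v‖ - 2 * Real.log (max ‖v‖ 𝓛.tau) - (𝓛.tau - 2 * Real.log 𝓛.tau))

/-- The length of the path from `x` to `y` in the truncated space. -/
noncomputable def d (x y : O) : ℝ := 2 * Real.log (𝓛.lam x y) + 𝓛.Sg 𝓛.Fd x y

/-- cut-off function of a family of linear maps -/
noncomputable def FΨ {L : Type} [Fintype L] (α : O → (J → ℝ) →ₗ[ℝ] (L → ℝ)) (B : O)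
    (v : J → ℝ) : L → ℝ :=
  min 1 (max 0 (‖v‖ / 𝓛.tau - 1)) • α B v

/-- The quasi-cocycle of a family of linear maps. -/
noncomputable def Ψ {L : Type} [Fintype L] (α : O → (J → ℝ) →ₗ[ℝ] (L → ℝ)) (x y : O) : L → ℝ :=
  𝓛.Sg (𝓛.FΨ α) x y

/-- `z` is, up to an error `K`, on the path from `x` to `y` at time `t`. -/
def Rel (K : ℝ) (x y : O) (t : ℝ) (z : O) : Prop :=
  z ∉ 𝓛.hb ∧ ((𝓛.Btw K x y z ∧ |𝓛.d x z - t| ≤ K) ∨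
    ∃ B ∈ 𝓛.hb, B ≠ x ∧ B ≠ y ∧ 𝓛.Btw K x y B ∧ 𝓛.lam z B ≤ K ∧
      ‖𝓛.P B z - go (𝓛.P B x) (𝓛.P B y) (t - 𝓛.d x B)‖ ≤ K ∧
      -K ≤ t - 𝓛.d x B ∧ t - 𝓛.d x B ≤ ‖𝓛.P B y - 𝓛.P B x‖ + K)

end LSp

/-! ### Pieces -/

/-- Data of a piece: a group `H` with peripheral subgroups `A e`, a pseudo-length `M`
(length of the image in the group of the hyperbolic manifold), the coordinate `Φ` of the own
fibre (a quasimorphism), the duration `d x` of the path from `1` to `x` and the path `b x t`; on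
`A e` the coordinates `φ e` (own fibre), `ω e` (fibre of the neighbour), `κ e` (rest); gates:
`gate e x` is the point of `A e` where paths between `A e` and `x` leave `A e`; for the flats
`A e` and `g A e'` the coordinates `uω e e' g`, `uκ e e' g` of the gate in `A e`, the distance
`ℓ e e' g` and the difference `Θ e e' g` of the own fibre coordinates of the base points `1` and
`g`; the sets of active coordinates; the constants `K` and `R`. -/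
structure LPiece (H E J : Type) [Group H] [Fintype J] where
  A : E → Subgroup H
  M : H → ℝ
  Φ : H → J → ℝ
  d : H → ℝ
  b : H → ℝ → H
  φ : E → H → J → ℝ
  ω : E → H → J → ℝ
  κ : E → H → J → ℝ
  gate : E → H → H
  uω : E → E → H → J → ℝ
  uκ : E → E → H → J → ℝ
  ℓ : E → E → H → ℝ
  Θ : E → E → H → J → ℝ
  Sφ : Set J
  Sω : E → Set J
  Sκ : E → Set J
  K : ℝ
  R : ℝ → ℝ

namespace LPiece

variable {H E J : Type} [Group H] [Fintype J] (P : LPiece H E J)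

/-- The path from `1` to `y` passes through `w` (up to the error `K`). -/
def Split (y w : H) : Prop :=
  |P.d y - P.d w - P.d (w⁻¹ * y)| ≤ P.K ∧
    (∀ t, t ≤ P.d w → P.M ((P.b y t)⁻¹ * P.b w t) ≤ P.K) ∧
    ∀ t, P.d w ≤ t → P.M ((P.b y t)⁻¹ * (w * P.b (w⁻¹ * y) (t - P.d w))) ≤ P.K

/-- The flats `A e` and `g A e'` are different. -/
def NP (e e' : E) (g : H) : Prop := ¬ (e = e' ∧ g ∈ P.A e)

/-- Axioms on lengths and paths. -/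
structure Good1 : Prop where
  M_one : P.M 1 = 0
  M_inv : ∀ x, P.M x⁻¹ = P.M x
  M_mul : ∀ x y, P.M (x * y) ≤ P.M x + P.M y
  Φ_mul : ∀ x y, ‖P.Φ (x * y) - P.Φ x - P.Φ y‖ ≤ P.K
  Φ_supp : ∀ x, Supp P.Sφ (P.Φ x)
  fin : ∀ r, {x | P.M x ≤ r ∧ ‖P.Φ x‖ ≤ r}.Finite
  realize : ∀ x v, Supp P.Sφ v → ∃ y, P.M (x⁻¹ * y) ≤ P.K ∧ ‖P.Φ y - v‖ ≤ P.K
  d_nonneg : ∀ x, 0 ≤ P.d x
  d_one : P.d 1 ≤ P.K
  d_mul : ∀ x y, P.d (x * y) ≤ P.d x + P.d y + P.K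
  b_neg : ∀ x t, t ≤ 0 → P.b x t = 1
  b_end : ∀ x t, P.d x ≤ t → P.M ((P.b x t)⁻¹ * x) ≤ P.K
  b_cont : ∀ r x a c t t', P.M a ≤ r → P.M c ≤ r → |t - t'| ≤ r →
    P.M ((P.b x t)⁻¹ * (a * P.b (a⁻¹ * x * c) t')) ≤ P.R r ∧
      |P.d x - P.d (a⁻¹ * x * c)| ≤ P.R r
  b_time : ∀ x t, 0 ≤ t → t ≤ P.d x → |P.d (P.b x t) - t| ≤ P.K ∧
    |P.d ((P.b x t)⁻¹ * x) - (P.d x - t)| ≤ P.K

/-- Axioms on the flats. -/
structure Good2 : Prop where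
  φ_mul : ∀ e, ∀ a ∈ P.A e, ∀ c ∈ P.A e, P.φ e (a * c) = P.φ e a + P.φ e c
  ω_mul : ∀ e, ∀ a ∈ P.A e, ∀ c ∈ P.A e, P.ω e (a * c) = P.ω e a + P.ω e c
  κ_mul : ∀ e, ∀ a ∈ P.A e, ∀ c ∈ P.A e, P.κ e (a * c) = P.κ e a + P.κ e c
  φ_supp : ∀ e, ∀ a ∈ P.A e, Supp P.Sφ (P.φ e a)
  ω_supp : ∀ e, ∀ a ∈ P.A e, Supp (P.Sω e) (P.ω e a)
  κ_supp : ∀ e, ∀ a ∈ P.A e, Supp (P.Sκ e) (P.κ e a)
  dense : ∀ e p q r, Supp P.Sφ p → Supp (P.Sω e) q → Supp (P.Sκ e) r →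
    ∃ a ∈ P.A e, ‖P.φ e a - p‖ ≤ P.K ∧ ‖P.ω e a - q‖ ≤ P.K ∧ ‖P.κ e a - r‖ ≤ P.K
  flat_Φ : ∀ e, ∀ a ∈ P.A e, ‖P.Φ a - P.φ e a‖ ≤ P.K
  flat_M : ∀ r e, ∀ a ∈ P.A e, ‖P.ω e a‖ ≤ r → ‖P.κ e a‖ ≤ r → P.M a ≤ P.R r
  flat_M' : ∀ r e, ∀ a ∈ P.A e, P.M a ≤ r → ‖P.ω e a‖ ≤ P.R r ∧ ‖P.κ e a‖ ≤ P.R r
  flat_d : ∀ e, ∀ a ∈ P.A e, |P.d a - max ‖P.ω e a‖ ‖P.κ e a‖| ≤ P.K
  flat_b : ∀ r e, ∀ a ∈ P.A e, ∀ c ∈ P.A e, ∀ t, 0 ≤ t →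
    ‖P.ω e c - go 0 (P.ω e a) t‖ ≤ r → ‖P.κ e c - go 0 (P.κ e a) t‖ ≤ r →
      P.M ((P.b a t)⁻¹ * c) ≤ P.R r

/-- Axioms on the gates. -/
structure Good3 : Prop where
  gate_mem : ∀ e x, P.gate e x ∈ P.A e
  gate_out : ∀ e x, ∀ a ∈ P.A e, P.Split (a⁻¹ * x) (a⁻¹ * P.gate e x)
  gate_in : ∀ e x, ∀ a ∈ P.A e, P.Split (x⁻¹ * a) (x⁻¹ * P.gate e x)
  uω_mul : ∀ e e' g, P.NP e e' g → ∀ a ∈ P.A e, ∀ a' ∈ P.A e',
    P.uω e e' (a * g * a') = P.ω e a + P.uω e e' g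
  uκ_mul : ∀ e e' g, P.NP e e' g → ∀ a ∈ P.A e, ∀ a' ∈ P.A e',
    P.uκ e e' (a * g * a') = P.κ e a + P.uκ e e' g
  uω_supp : ∀ e e' g, P.NP e e' g → Supp (P.Sω e) (P.uω e e' g)
  uκ_supp : ∀ e e' g, P.NP e e' g → Supp (P.Sκ e) (P.uκ e e' g)
  u_gate : ∀ e e' g, P.NP e e' g → ∀ a' ∈ P.A e',
    ‖P.ω e (P.gate e (g * a')) - P.uω e e' g‖ ≤ P.K ∧
      ‖P.κ e (P.gate e (g * a')) - P.uκ e e' g‖ ≤ P.K

/-- Axioms on pairs of flats. -/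
structure Good4 : Prop where
  ℓ_mul : ∀ e e' g, P.NP e e' g → ∀ a ∈ P.A e, ∀ a' ∈ P.A e', P.ℓ e e' (a * g * a') = P.ℓ e e' g
  one_le_ℓ : ∀ e e' g, P.NP e e' g → 1 ≤ P.ℓ e e' g
  ℓ_d : ∀ r e e' g, P.NP e e' g → ∀ p ∈ P.A e, ∀ p' ∈ P.A e',
    ‖P.ω e p - P.uω e e' g‖ ≤ r → ‖P.κ e p - P.uκ e e' g‖ ≤ r →
    ‖P.ω e' p' - P.uω e' e g⁻¹‖ ≤ r → ‖P.κ e' p' - P.uκ e' e g⁻¹‖ ≤ r →
      |P.d (p⁻¹ * g * p') - P.ℓ e e' g| ≤ P.R r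
  Θ_mul : ∀ e e' g, P.NP e e' g → ∀ a ∈ P.A e, ∀ a' ∈ P.A e',
    P.Θ e e' (a * g * a') = P.φ e a + P.Θ e e' g + P.φ e' a'
  Θ_supp : ∀ e e' g, P.NP e e' g → Supp P.Sφ (P.Θ e e' g)
  Θ_Φ : ∀ e e' g, P.NP e e' g → ‖P.Θ e e' g - P.Φ g‖ ≤ P.K

/-- All axioms of a piece. -/
structure Good : Prop where
  good1 : P.Good1
  good2 : P.Good2
  good3 : P.Good3
  good4 : P.Good4

end LPiece

end Run7.h230
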