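import Pool.Agent.Run7.h230.SemiS
import Pool.Agent.Run7.h230.AA

set_option autoImplicit false

/-! From the weak form of semihyperbolicity to the strict form. -/

namespace Run7.h230

section

variable {G : Type} [Group G]

theorem wdist_tri {A : Set G} (hw : ∀ z : G, ∃ l : List G, (∀ b ∈ l, b ∈ A) ∧ l.prod = z)
    (x y z : G) : wdist A x z ≤ wdist A x y + wdist A y z := by
  obtain ⟨l1, h1, h2, h3⟩ := wdist_spec (A := A) (x := x) (y := y) (hw _)
  obtain ⟨l2, h4, h5, h6⟩ := wdist_spec (A := A) (x := y) (y := z) (hw _)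
  rw [← h1, ← h4, ← List.length_append]
  refine wdist_le _ ?_ ?_
  · intro a ha
    rcases List.mem_append.1 ha with ha | ha
    · exact h2 a ha
    · exact h5 a ha
  · rw [List.prod_append, h3, h6]; group

theorem wdist_symm_le {A : Set G} (hw : ∀ z : G, ∃ l : List G, (∀ b ∈ l, b ∈ A) ∧ l.prod = z)
    (hinv : ∀ a ∈ A, a⁻¹ ∈ A) (x y : G) : wdist A y x ≤ wdist A x y := by
  obtain ⟨l1, h1, h2, h3⟩ := wdist_spec (A := A) (x := x) (y := y) (hw _)
  rw [← h1]
  have : (l1.map (·⁻¹)).reverse.length = l1.length := by simp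
  rw [← this]
  refine wdist_le _ ?_ ?_
  · intro a ha
    rw [List.mem_reverse, List.mem_map] at ha
    obtain ⟨b, hb, rfl⟩ := ha
    exact hinv b (h2 b hb)
  · rw [← List.prod_inv_reverse, h3]; group

theorem wdist_left (A : Set G) (s x y : G) : wdist A (s * x) (s * y) = wdist A x y := by
  unfold wdist
  rw [show (s * x)⁻¹ * (s * y) = x⁻¹ * y by group]

end

theorem strict {G : Type} [Group G] (h : Semihyperbolic G) : Semi.Semihyperbolic G := by
  classical
  obtain ⟨A, hA, h1, hinv, hgen, σ, T, L, ε, k, hL, hε, hc, hq, hb⟩ := h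
  have hw : ∀ z : G, ∃ l : List G, (∀ b ∈ l, b ∈ A) ∧ l.prod = z := by
    intro z
    obtain ⟨l, -, h7, h8⟩ := path_list (A := A) (σ z) 0 (T z)
      (fun t _ ht => (hc z).2.2 t (by omega))
    refine ⟨l, h7, ?_⟩
    rw [h8, (hc z).1, zero_add, (hc z).2.1 _ le_rfl, inv_one, one_mul]
  have hex : ∀ g, ∃ t, σ g t = g := fun g => ⟨T g, (hc g).2.1 _ le_rfl⟩
  set T' : G → ℕ := fun g => Nat.find (hex g) with hT'
  have hT'1 : ∀ g, σ g (T' g) = g := fun g => Nat.find_spec (hex g)
  have hT'2 : ∀ g, T' g ≤ T g := fun g => Nat.find_min' (hex g) ((hc g).2.1 _ le_rfl)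
  have hT'3 : ∀ g t, t < T' g → σ g t ≠ g := fun g t ht => Nat.find_min (hex g) ht
  set c : ℕ := ⌈L * ε⌉₊ with hcdef
  have hc1 : ∀ g, T g ≤ T' g + c := by
    intro g
    have e1 := (hq g (T' g) (T g) (hT'2 g) le_rfl).1
    rw [hT'1, (hc g).2.1 _ le_rfl] at e1
    have e2 : wdist A g g = 0 := by
      have := wdist_le (A := A) (x := g) (y := g) [] (by simp) (by simp)
      simpa using this
    rw [e2, Nat.cast_zero, sub_nonpos, div_le_iff₀ (by linarith)] at e1
    have e3 : L * ε ≤ c := Nat.le_ceil _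
    have e4 : (T g : ℝ) ≤ ((T' g + c : ℕ) : ℝ) := by
      push_cast; linarith
    exact_mod_cast e4
  set τ : G → ℕ → G := fun g t => σ g (min t (T' g)) with hτ
  have hτ1 : ∀ g t, t ≤ T' g → τ g t = σ g t := fun g t ht => by
    show σ g (min t (T' g)) = _
    rw [min_eq_left ht]
  have hτ2 : ∀ g t, T' g ≤ t → τ g t = g := fun g t ht => by
    show σ g (min t (T' g)) = _
    rw [min_eq_right ht, hT'1]
  have hclose : ∀ g t, wdist A (σ g t) (τ g t) ≤ c := by
    intro g t
    rcases le_total t (T' g) with ht | ht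
    · rw [hτ1 g t ht]
      have := wdist_le (A := A) (x := σ g t) (y := σ g t) [] (by simp) (by simp)
      simp only [List.length_nil] at this
      omega
    · rw [hτ2 g t ht]
      rcases le_total t (T g) with ht2 | ht2
      · obtain ⟨l, e1, e2, e3⟩ := path_list (A := A) (σ g) t (T g - t)
          (fun u hu hu' => (hc g).2.2 u (by omega))
        rw [Nat.add_sub_cancel' ht2, (hc g).2.1 _ le_rfl] at e3
        have e4 := wdist_le l e2 e3
        have := hc1 g
        omega
      · rw [(hc g).2.1 t ht2]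
        have := wdist_le (A := A) (x := g) (y := g) [] (by simp) (by simp)
        simp only [List.length_nil] at this
        omega
  refine ⟨A, hA, h1, hinv, hgen, τ, T', L, ε, c + k + c, hL, hε, ?_, ?_, ?_⟩
  · intro g
    refine ⟨?_, fun t ht => hτ2 g t ht, fun t ht => ⟨?_, ?_⟩⟩
    · rw [hτ1 g 0 (Nat.zero_le _), (hc g).1]
    · rw [hτ1 g t ht.le]; exact hT'3 g t ht
    · rw [hτ1 g t ht.le, hτ1 g (t + 1) ht]
      exact (hc g).2.2 t (lt_of_lt_of_le ht (hT'2 g))
  · intro g s t hst ht
    rw [hτ1 g s (hst.trans ht), hτ1 g t ht]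
    exact hq g s t hst (ht.trans (hT'2 g))
  · intro g a ha t
    obtain ⟨e1, e2⟩ := hb g a ha t
    constructor
    · show wdist A (τ g t) (τ (g * a) t) ≤ _
      have f1 := wdist_tri hw (τ g t) (σ g t) (τ (g * a) t)
      have f2 := wdist_tri hw (σ g t) (σ (g * a) t) (τ (g * a) t)
      have f3 := (wdist_symm_le hw hinv (σ g t) (τ g t)).trans (hclose g t)
      have f4 := hclose (g * a) t
      omega
    · show wdist A (a * τ g t) (τ (a * g) t) ≤ _
      have f1 := wdist_tri hw (a * τ g t) (a * σ g t) (τ (a * g) t)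
      have f2 := wdist_tri hw (a * σ g t) (σ (a * g) t) (τ (a * g) t)
      have f3 := (wdist_symm_le hw hinv (σ g t) (τ g t)).trans (hclose g t)
      have f4 := hclose (a * g) t
      rw [wdist_left] at f1
      omega

end Run7.h230
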