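import Pool.Agent.Run7.h230.HDGDefs
import Pool.Agent.Run7.h230.Asm
import Pool.Agent.Run7.h230.SemiT
import Pool.Agent.Run7.h312.PF4
import Pool.Agent.Run7.h312.PG2
import Pool.Agent.Run7.h913.EE

set_option autoImplicit false

/-! The main theorem. -/

namespace Run7.h230

/-- the data in the first form -/
def oldN {m : ℕ} (N : HDG.HorMfd m) : HorMfd m := ⟨N.Γ, N.Ξ⟩

/-- the data in the first form -/
def oldM {n : ℕ} (M : HDG.GlueData n) : GlueData n where
  I := M.I
  W := M.W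
  finI := M.finI
  finW := M.finW
  m := fun i => (M.P i).m
  N := fun i => oldN (M.P i).N
  src := M.left
  tgt := M.right
  cusp₁ := M.cusp₁
  cusp₂ := M.cusp₂
  glue := M.glue

theorem oldN_mfd {m : ℕ} {N : HDG.HorMfd m} (h : N.IsMfd) : (oldN N).IsMfd :=
  ⟨h.lor_map, h.hyp_map, h.free, h.proper⟩

theorem oldN_trunc {m : ℕ} {N : HDG.HorMfd m} (h : N.IsTruncated) : (oldN N).IsTruncated :=
  ⟨h.cone, h.nonempty, h.inv, h.disj, h.cocompact, h.toric⟩

theorem oldM_side {n : ℕ} (M : HDG.GlueData n) (w : M.W) (s : Bool) :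
    (oldM M).side w s = M.side w s := by
  cases s <;> rfl

theorem oldM_hdg {n : ℕ} {M : HDG.GlueData n} (h : M.IsHDG) : (oldM M).IsHDG := by
  refine ⟨h.dim_ge, h.dim_le, fun i => oldN_mfd (h.mfd i), fun i => oldN_trunc (h.trunc i),
    h.mem₁, h.mem₂, ?_, h.conn⟩
  intro w s w' s' hne i x y h1 h2 γ hγ
  rw [oldM_side] at h1 h2
  exact h.distinct w s w' s' hne i x y h1 h2 γ hγ

theorem oldM_irr {n : ℕ} {M : HDG.GlueData n} (h : M.Irreducible) : (oldM M).Irreducible := by
  intro w x h1 h2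
  refine h w x ?_ ?_
  · exact congrArg Subtype.val h1
  · exact congrArg Subtype.val h2

theorem oldM_graph {n : ℕ} (M : HDG.GlueData n) : (oldM M).graph = M.graph := rfl

theorem main {n : ℕ} {M : HDG.GlueData n} (hM : M.IsHDG) (hI : M.Irreducible) (i : M.I) :
    Semi.Semihyperbolic (M.Pi1 i) := by
  have h : Semi.Semihyperbolic ((oldM M).Pi1 i) :=
    strict (assembly Run7.h913.taskE Run7.h312.LF.taskF Run7.h312.LG.taskG (oldM_hdg hM)
      (oldM_irr hI) i)
  exact h

end Run7.h230
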