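import Pool.Agent.Run7.h230.Basic

set_option autoImplicit false

/-! Lemmas on `go`. -/

namespace Run7.h230

variable {J : Type}

theorem go_apply (a b : J → ℝ) (s : ℝ) (j : J) :
    go a b s j = max (a j - max s 0) (min (a j + max s 0) (b j)) := rfl

theorem go_of_nonpos (a b : J → ℝ) {s : ℝ} (hs : s ≤ 0) : go a b s = a := by
  funext j
  rw [go_apply, max_eq_right hs, sub_zero, add_zero]
  exact max_eq_left (min_le_left _ _)

theorem go_supp {S : Set J} {a b : J → ℝ} (ha : Supp S a) (hb : Supp S b) (s : ℝ) :
    Supp S (go a b s) := by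
  intro j hj
  rw [go_apply, ha j hj, hb j hj]
  have : 0 ≤ max s 0 := le_max_right _ _
  rw [zero_add, min_eq_right this, zero_sub]
  exact max_eq_right (by linarith)

theorem go_add (a b c : J → ℝ) (s : ℝ) : go (a + c) (b + c) s = go a b s + c := by
  funext j
  rw [Pi.add_apply, go_apply, go_apply, Pi.add_apply, Pi.add_apply]
  rw [max_add, min_add]
  ring_nf

theorem go_add' (a b c : J → ℝ) (s : ℝ) : go (c + a) (c + b) s = c + go a b s := by
  rw [add_comm c a, add_comm c b, go_add, add_comm]

theorem go_sub_self (a b : J → ℝ) (s : ℝ) : go a b s = a + go 0 (b - a) s := by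
  rw [← go_add']; simp

theorem Supp.add {S : Set J} {a b : J → ℝ} (ha : Supp S a) (hb : Supp S b) : Supp S (a + b) := by
  intro j hj; rw [Pi.add_apply, ha j hj, hb j hj, add_zero]

theorem Supp.sub {S : Set J} {a b : J → ℝ} (ha : Supp S a) (hb : Supp S b) : Supp S (a - b) := by
  intro j hj; rw [Pi.sub_apply, ha j hj, hb j hj, sub_zero]

theorem Supp.neg {S : Set J} {a : J → ℝ} (ha : Supp S a) : Supp S (-a) := by
  intro j hj; rw [Pi.neg_apply, ha j hj, neg_zero]

theorem Supp.zero (S : Set J) : Supp S (0 : J → ℝ) := fun _ _ => rfl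

variable [Fintype J]

theorem go_lip (a b a' b' : J → ℝ) (s s' : ℝ) :
    ‖go a b s - go a' b' s'‖ ≤ ‖a - a'‖ + ‖b - b'‖ + |s - s'| := by
  have h0 : 0 ≤ ‖a - a'‖ + ‖b - b'‖ + |s - s'| := by positivity
  rw [pi_norm_le_iff_of_nonneg h0]
  intro j
  have h1 : |a j - a' j| ≤ ‖a - a'‖ := norm_le_pi_norm (a - a') j
  have h2 : |b j - b' j| ≤ ‖b - b'‖ := norm_le_pi_norm (b - b') j
  have h3 : |max s 0 - max s' 0| ≤ |s - s'| := abs_max_sub_max_le_abs s s' 0
  rw [Pi.sub_apply, Real.norm_eq_abs, go_apply, go_apply]
  have e1 : |a j - max s 0 - (a' j - max s' 0)| ≤ ‖a - a'‖ + |s - s'| := by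
    rw [show a j - max s 0 - (a' j - max s' 0) = (a j - a' j) - (max s 0 - max s' 0) by ring]
    exact (abs_sub _ _).trans (add_le_add h1 h3)
  have e2 : |a j + max s 0 - (a' j + max s' 0)| ≤ ‖a - a'‖ + |s - s'| := by
    rw [show a j + max s 0 - (a' j + max s' 0) = (a j - a' j) + (max s 0 - max s' 0) by ring]
    exact (abs_add_le _ _).trans (add_le_add h1 h3)
  have e3 := abs_min_sub_min_le_max (a j + max s 0) (b j) (a' j + max s' 0) (b' j)
  have e4 := abs_max_sub_max_le_max (a j - max s 0) (min (a j + max s 0) (b j))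
    (a' j - max s' 0) (min (a' j + max s' 0) (b' j))
  have n1 : 0 ≤ ‖a - a'‖ := norm_nonneg _
  have n2 : 0 ≤ ‖b - b'‖ := norm_nonneg _
  have n3 : 0 ≤ |s - s'| := abs_nonneg _
  refine e4.trans (max_le (by linarith) (e3.trans (max_le (by linarith) (by linarith))))

theorem abs_go_sub (a b s : ℝ) (hs : 0 ≤ s) :
    |max (a - s) (min (a + s) b) - a| = min s |b - a| := by
  rcases le_total b a with h | h
  · rw [abs_of_nonpos (by linarith : b - a ≤ 0), min_eq_right (by linarith : b ≤ a + s)]
    rw [abs_of_nonpos (by
      have := max_le (by linarith : a - s ≤ a) h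
      linarith)]
    rcases le_total (a - s) b with h' | h'
    · rw [max_eq_right h', min_eq_right (by linarith)]
    · rw [max_eq_left h', min_eq_left (by linarith)]; ring
  · rw [abs_of_nonneg (by linarith : 0 ≤ b - a)]
    have h1 : a ≤ min (a + s) b := le_min (by linarith) h
    rw [max_eq_right (by linarith), abs_of_nonneg (by linarith)]
    rcases le_total (a + s) b with h' | h'
    · rw [min_eq_left h', min_eq_left (by linarith)]; ring
    · rw [min_eq_right h', min_eq_right (by linarith)]

theorem abs_sub_go (a b s : ℝ) (hs : 0 ≤ s) :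
    |b - max (a - s) (min (a + s) b)| = max (|b - a| - s) 0 := by
  rcases le_total b a with h | h
  · rw [abs_of_nonpos (by linarith : b - a ≤ 0), min_eq_right (by linarith : b ≤ a + s)]
    rcases le_total (a - s) b with h' | h'
    · rw [max_eq_right h', max_eq_right (by linarith)]; simp
    · rw [max_eq_left h', max_eq_left (by linarith), abs_of_nonpos (by linarith)]; ring
  · rw [abs_of_nonneg (by linarith : 0 ≤ b - a)]
    have h1 : a ≤ min (a + s) b := le_min (by linarith) h
    rw [max_eq_right (by linarith)]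
    rcases le_total (a + s) b with h' | h'
    · rw [min_eq_left h', max_eq_left (by linarith), abs_of_nonneg (by linarith)]; ring
    · rw [min_eq_right h', max_eq_right (by linarith)]; simp

theorem norm_go_sub (a b : J → ℝ) {s : ℝ} (hs : 0 ≤ s) :
    ‖go a b s - a‖ = min s ‖b - a‖ := by
  have key : ∀ j, |go a b s j - a j| = min s |b j - a j| := by
    intro j
    rw [go_apply, max_eq_left hs]
    exact abs_go_sub _ _ _ hs
  apply le_antisymm
  · rw [pi_norm_le_iff_of_nonneg (le_min hs (norm_nonneg _))]
    intro j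
    rw [Pi.sub_apply, Real.norm_eq_abs, key]
    exact min_le_min le_rfl (norm_le_pi_norm (b - a) j)
  · by_contra hcon
    push Not at hcon
    have hlt := lt_min_iff.1 hcon
    have : ‖b - a‖ ≤ ‖go a b s - a‖ := by
      rw [pi_norm_le_iff_of_nonneg (norm_nonneg _)]
      intro j
      have h1 : |go a b s j - a j| ≤ ‖go a b s - a‖ := norm_le_pi_norm (go a b s - a) j
      rw [key] at h1
      rw [Pi.sub_apply, Real.norm_eq_abs]
      rcases min_le_iff.1 h1 with h2 | h2
      · linarith [hlt.1]
      · exact h2
    linarith [hlt.2]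

theorem norm_sub_go (a b : J → ℝ) {s : ℝ} (hs : 0 ≤ s) :
    ‖b - go a b s‖ = max (‖b - a‖ - s) 0 := by
  have key : ∀ j, |b j - go a b s j| = max (|b j - a j| - s) 0 := by
    intro j
    rw [go_apply, max_eq_left hs]
    exact abs_sub_go _ _ _ hs
  apply le_antisymm
  · rw [pi_norm_le_iff_of_nonneg (le_max_right _ _)]
    intro j
    rw [Pi.sub_apply, Real.norm_eq_abs, key]
    exact max_le_max (sub_le_sub_right (norm_le_pi_norm (b - a) j) s) le_rfl
  · refine max_le ?_ (norm_nonneg _)
    have : ‖b - a‖ ≤ ‖b - go a b s‖ + s := by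
      rw [pi_norm_le_iff_of_nonneg (by positivity)]
      intro j
      have h1 : |b j - go a b s j| ≤ ‖b - go a b s‖ := norm_le_pi_norm (b - go a b s) j
      rw [key] at h1
      rw [Pi.sub_apply, Real.norm_eq_abs]
      have := le_max_left (|b j - a j| - s) 0
      linarith
    linarith

theorem go_go (a b : J → ℝ) {s s' : ℝ} (hs : 0 ≤ s) (hs' : 0 ≤ s') :
    go (go a b s) b s' = go a b (s + s') := by
  funext j
  rw [go_apply, go_apply, go_apply, max_eq_left hs, max_eq_left hs',
    max_eq_left (add_nonneg hs hs')]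
  rcases le_total (b j) (a j) with h | h
  · rw [min_eq_right (by linarith : b j ≤ a j + s),
      min_eq_right (by linarith : b j ≤ a j + (s + s'))]
    have : b j ≤ max (a j - s) (b j) := le_max_right _ _
    rw [min_eq_right (by linarith)]
    rcases le_total (a j - s) (b j) with h' | h'
    · rw [max_eq_right h', max_eq_right (by linarith), max_eq_right (by linarith)]
    · rw [max_eq_left h']; ring_nf
  · have h1 : a j ≤ min (a j + s) (b j) := le_min (by linarith) h
    rw [max_eq_right (by linarith : a j - s ≤ min (a j + s) (b j))]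
    have h2 : a j ≤ min (a j + (s + s')) (b j) := le_min (by linarith) h
    rw [max_eq_right (by linarith : a j - (s + s') ≤ min (a j + (s + s')) (b j))]
    rcases le_total (a j + s) (b j) with h' | h'
    · rw [min_eq_left h']
      rw [max_eq_right (le_min (by linarith) (by linarith))]; ring_nf
    · rw [min_eq_right h', min_eq_right (by linarith : b j ≤ b j + s'),
        min_eq_right (by linarith : b j ≤ a j + (s + s'))]
      exact max_eq_right (by linarith)

theorem go_go' (a b : J → ℝ) {s s' : ℝ} (hs : 0 ≤ s) (hs' : 0 ≤ s') :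
    go a (go a b (s + s')) s = go a b s := by
  funext j
  rw [go_apply, go_apply, go_apply, max_eq_left hs, max_eq_left (add_nonneg hs hs')]
  rcases le_total (b j) (a j) with h | h
  · rw [min_eq_right (by linarith : b j ≤ a j + s),
      min_eq_right (by linarith : b j ≤ a j + (s + s'))]
    rw [min_eq_right (by
      have := max_le (by linarith : a j - (s + s') ≤ a j + s) (by linarith : b j ≤ a j + s)
      exact this)]
    rcases le_total (a j - s) (b j) with h' | h'
    · rw [max_eq_right h', max_eq_right (by linarith : a j - (s + s') ≤ b j), max_eq_right h']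
    · rw [max_eq_left h']
      exact max_eq_left (max_le (by linarith) h')
  · have h2 : a j ≤ min (a j + (s + s')) (b j) := le_min (by linarith) h
    rw [max_eq_right (by linarith : a j - (s + s') ≤ min (a j + (s + s')) (b j))]
    rw [← min_assoc, min_eq_left (by linarith : a j + s ≤ a j + (s + s'))]

end Run7.h230
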