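import Mathlib

set_option autoImplicit false

/-! Graphs of groups, Serre's universal group and the fundamental group. The definitions are the
ones of the starting file `Pool/Agent/H828/GoG/Grp.lean`. -/

namespace Run7.h230

/-- A graph of groups: sets `V` of vertices and `E` of edges (loops and multiple edges are
allowed), a group `G v` for every vertex `v`, a group `H e` for every edge `e`, and homomorphisms
of `H e` to the groups of the source and of the target of `e`. -/
structure GraphOfGroups where
  V : Type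
  E : Type
  G : V → Type
  grpG : ∀ v, Group (G v)
  H : E → Type
  grpH : ∀ e, Group (H e)
  src : E → V
  tgt : E → V
  f : ∀ e, H e →* G (src e)
  f' : ∀ e, H e →* G (tgt e)

attribute [instance] GraphOfGroups.grpG GraphOfGroups.grpH

variable (𝒢 : GraphOfGroups)

/-- The free product of all vertex groups and of the free group on the edges. -/
def Gen : Type := Monoid.Coprod (Monoid.CoprodI 𝒢.G) (FreeGroup 𝒢.E)

instance instGroupGen : Group (Gen 𝒢) :=
  @Monoid.Coprod.instGroup (Monoid.CoprodI 𝒢.G) (FreeGroup 𝒢.E) _ _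

variable {𝒢}

/-- The element of the free product given by an element of a vertex group. -/
def gv (v : 𝒢.V) : 𝒢.G v →* Gen 𝒢 :=
  (Monoid.Coprod.inl : Monoid.CoprodI 𝒢.G →*
    Monoid.Coprod (Monoid.CoprodI 𝒢.G) (FreeGroup 𝒢.E)).comp Monoid.CoprodI.of

/-- The free generator of an edge. -/
def ge (e : 𝒢.E) : Gen 𝒢 :=
  (Monoid.Coprod.inr : FreeGroup 𝒢.E →*
    Monoid.Coprod (Monoid.CoprodI 𝒢.G) (FreeGroup 𝒢.E)) (FreeGroup.of e)

variable (𝒢)

/-- The relators `t_e f(h) t_e⁻¹ f'(h)⁻¹` for all edges `e` and `h` in the edge group. -/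
def rels : Set (Gen 𝒢) :=
  {x | ∃ (e : 𝒢.E) (h : 𝒢.H e),
    x = ge e * gv (𝒢.src e) (𝒢.f e h) * (ge e)⁻¹ * (gv (𝒢.tgt e) (𝒢.f' e h))⁻¹}

/-- The universal group (Serre's `F(𝒢)`) of a graph of groups: it is generated by the vertex
groups and one stable letter `t_e` for every edge, with relations `t_e f(h) t_e⁻¹ = f'(h)`. -/
def UGroup : Type := Gen 𝒢 ⧸ Subgroup.normalClosure (rels 𝒢)

instance instGroupU : Group (UGroup 𝒢) :=
  @QuotientGroup.Quotient.group (Gen 𝒢) _ (Subgroup.normalClosure (rels 𝒢)) _

/-- The projection to the universal group. -/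
def proj : Gen 𝒢 →* UGroup 𝒢 := QuotientGroup.mk' (Subgroup.normalClosure (rels 𝒢))

variable {𝒢}

/-- The homomorphism of a vertex group to the universal group. -/
def ι (v : 𝒢.V) : 𝒢.G v →* UGroup 𝒢 := (proj 𝒢).comp (gv v)

/-- The stable letter of an edge. -/
def st (e : 𝒢.E) : UGroup 𝒢 := proj 𝒢 (ge e)

/-- `PathElt u v x`: the element `x` of the universal group is the value of a path from `u` to
`v`, that is, a product of elements of vertex groups and of letters `t_e^{±1}` whose end points
match (`t_e` leads from the target to the source of `e`). -/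
inductive PathElt : 𝒢.V → 𝒢.V → UGroup 𝒢 → Prop
  | vertex (v : 𝒢.V) (g : 𝒢.G v) : PathElt v v (ι v g)
  | edge (e : 𝒢.E) : PathElt (𝒢.tgt e) (𝒢.src e) (st e)
  | edgeInv (e : 𝒢.E) : PathElt (𝒢.src e) (𝒢.tgt e) (st e)⁻¹
  | trans (u v w : 𝒢.V) (x y : UGroup 𝒢) : PathElt u v x → PathElt v w y → PathElt u w (x * y)

theorem PathElt.inv {u v : 𝒢.V} {x : UGroup 𝒢} (h : PathElt u v x) : PathElt v u x⁻¹ := by
  induction h with
  | vertex v g => rw [← map_inv]; exact PathElt.vertex v _
  | edge e => exact PathElt.edgeInv e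
  | edgeInv e => rw [inv_inv]; exact PathElt.edge e
  | trans u v w x y _ _ hx hy => rw [mul_inv_rev]; exact PathElt.trans _ _ _ _ _ hy hx

theorem PathElt.one (v : 𝒢.V) : PathElt v v (1 : UGroup 𝒢) := by
  rw [← map_one (ι v)]; exact PathElt.vertex v 1

/-- The fundamental group of the graph of groups at the vertex `v0`: all values of closed paths
at `v0`, a subgroup of the universal group. -/
def pi1 (𝒢 : GraphOfGroups) (v0 : 𝒢.V) : Subgroup (UGroup 𝒢) where
  carrier := {x | PathElt v0 v0 x}
  mul_mem' := fun {x y} hx hy => PathElt.trans v0 v0 v0 x y hx hy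
  one_mem' := PathElt.one v0
  inv_mem' := fun {_} hx => PathElt.inv hx

end Run7.h230
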