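import Pool.Agent.Run7.h230.GoG

set_option autoImplicit false

/-! Higher dimensional graph manifolds and their fundamental groups. -/

namespace Run7.h230.HDG

/-! ### Hyperbolic space -/

/-- The space `ℝ^{m+1}`. -/
abbrev LV (m : ℕ) : Type := Fin (m + 1) → ℝ

/-- The Lorentz form `x₀ y₀ - x₁ y₁ - … - x_m y_m`. -/
def lor {m : ℕ} (x y : LV m) : ℝ := x 0 * y 0 - ∑ i : Fin m, x i.succ * y i.succ

/-- Hyperbolic space of dimension `m`, hyperboloid model; the distance of two points `x`, `y` is
`arcosh (lor x y)`. -/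
def Hyp (m : ℕ) : Set (LV m) := {x | lor x x = 1 ∧ 0 < x 0}

/-- The open future light cone without its apex. A vector `ξ` of it stands for the open horoball
of all points `x` of hyperbolic space with `lor x ξ < 1`; each open horoball is obtained from
exactly one `ξ`. -/
def Cone (m : ℕ) : Set (LV m) := {x | lor x x = 0 ∧ 0 < x 0}

/-- The group of all invertible linear maps of `ℝ^{m+1}`. -/
def Aut (m : ℕ) : Type := LV m ≃ₗ[ℝ] LV m

instance instGroupAut (m : ℕ) : Group (Aut m) :=
  @LinearEquiv.automorphismGroup ℝ (LV m) _ _ _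

/-- The image of a vector under a linear map. -/
def Aut.ap {m : ℕ} : Aut m → LV m → LV m := fun (γ : LV m ≃ₗ[ℝ] LV m) x => γ x

/-- `γ` acts on the horosphere at `ξ` (the Euclidean space of all lines `x + ℝ ξ` with
`lor x ξ = 1`) as the translation by the vector `v`. -/
def Translates {m : ℕ} (γ : Aut m) (ξ v : LV m) : Prop :=
  γ.ap ξ = ξ ∧ ∀ x, lor x ξ = 1 → ∃ r : ℝ, γ.ap x = x + v + r • ξ

/-! ### Truncated hyperbolic manifolds -/

/-- A group `Γ` of linear maps of `ℝ^{m+1}` together with a family `Ξ` of open horoballs. -/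
structure HorMfd (m : ℕ) where
  Γ : Subgroup (Aut m)
  Ξ : Set (LV m)

/-- `Γ` consists of isometries of hyperbolic space and acts freely and properly
discontinuously, so that the quotient is a complete hyperbolic `m`-manifold with fundamental group
`Γ`. -/
structure HorMfd.IsMfd {m : ℕ} (N : HorMfd m) : Prop where
  lor_map : ∀ γ ∈ N.Γ, ∀ x y, lor (γ.ap x) (γ.ap y) = lor x y
  hyp_map : ∀ γ ∈ N.Γ, ∀ x ∈ Hyp m, γ.ap x ∈ Hyp m
  free : ∀ γ ∈ N.Γ, ∀ x ∈ Hyp m, γ.ap x = x → γ = 1
  proper : ∀ x ∈ Hyp m, ∀ r : ℝ, {γ : Aut m | γ ∈ N.Γ ∧ lor x (γ.ap x) ≤ r}.Finite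

/-- The quotient of the horosphere at `ξ` by its stabiliser is a torus: the stabiliser acts on it
as the group of translations by the integral combinations of `m - 1` vectors which form a basis of
the space of all translations. -/
def HorMfd.Toric {m : ℕ} (N : HorMfd m) (ξ : LV m) : Prop :=
  ∃ e : Fin (m - 1) → LV m, (∀ i, lor (e i) ξ = 0) ∧
    (∀ c : Fin (m - 1) → ℝ, (∃ r : ℝ, ∑ i, c i • e i = r • ξ) → c = 0) ∧
    (∀ γ ∈ N.Γ, γ.ap ξ = ξ → ∃ c : Fin (m - 1) → ℤ, Translates γ ξ (∑ i, (c i : ℝ) • e i)) ∧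
    ∀ c : Fin (m - 1) → ℤ, ∃ γ ∈ N.Γ, Translates γ ξ (∑ i, (c i : ℝ) • e i)

/-- `Ξ` is a nonempty invariant family of horoballs with pairwise disjoint closures, the quotient
of the complement of the open horoballs is compact, and the quotient of each horosphere by its
stabiliser is a torus. -/
structure HorMfd.IsTruncated {m : ℕ} (N : HorMfd m) : Prop where
  cone : ∀ ξ ∈ N.Ξ, ξ ∈ Cone m
  nonempty : N.Ξ.Nonempty
  inv : ∀ γ ∈ N.Γ, ∀ ξ ∈ N.Ξ, γ.ap ξ ∈ N.Ξ
  disj : ∀ ξ ∈ N.Ξ, ∀ η ∈ N.Ξ, ξ ≠ η → ∀ x ∈ Hyp m, lor x ξ ≤ 1 → 1 < lor x η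
  cocompact : ∃ K : Set (LV m), IsCompact K ∧ K ⊆ Hyp m ∧
    ∀ x ∈ Hyp m, (∀ ξ ∈ N.Ξ, 1 ≤ lor x ξ) → ∃ γ ∈ N.Γ, γ.ap x ∈ K
  toric : ∀ ξ ∈ N.Ξ, N.Toric ξ

/-! ### Pieces -/

/-- A piece of dimension `n`: the product of the truncated hyperbolic `m`-manifold given by `N`
and the torus of dimension `n - m`. -/
structure Piece (n : ℕ) where
  m : ℕ
  N : HorMfd m

/-- The fundamental group `Γ × ℤ^(n - m)` of a piece. -/
def Piece.Grp {n : ℕ} (P : Piece n) : Type := P.N.Γ × Multiplicative (Fin (n - P.m) → ℤ)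

instance Piece.instGroupGrp {n : ℕ} (P : Piece n) : Group P.Grp :=
  @Prod.instGroup P.N.Γ (Multiplicative (Fin (n - P.m) → ℤ)) _ _

/-- The `Γ`-component of an element of the fundamental group of a piece; the elements of the
fundamental group of the fibre are the ones with trivial `Γ`-component. -/
def Piece.base {n : ℕ} (P : Piece n) : P.Grp → Aut P.m :=
  fun (g : P.N.Γ × Multiplicative (Fin (n - P.m) → ℤ)) => g.1.1

theorem Piece.A_mul {n : ℕ} (P : Piece n) (ξ : LV P.m) {g h : P.Grp}
    (hg : (P.base g).ap ξ = ξ) (hh : (P.base h).ap ξ = ξ) : (P.base (g * h)).ap ξ = ξ := by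
  have h1 : (P.base (g * h)).ap ξ = (P.base g).ap ((P.base h).ap ξ) := rfl
  rw [h1, hh, hg]

theorem Piece.A_inv {n : ℕ} (P : Piece n) (ξ : LV P.m) {g : P.Grp}
    (hg : (P.base g).ap ξ = ξ) : (P.base g⁻¹).ap ξ = ξ := by
  have h : (P.base g⁻¹).ap ((P.base g).ap ξ) = ξ := by
    have h1 : (P.base g⁻¹).ap ((P.base g).ap ξ) = (P.base (g⁻¹ * g)).ap ξ := rfl
    rw [h1, inv_mul_cancel]; rfl
  rwa [hg] at h

theorem Piece.A_one {n : ℕ} (P : Piece n) (ξ : LV P.m) : (P.base 1).ap ξ = ξ := rfl

/-- The fundamental group of the boundary component of a piece which is given by the horosphere at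
`ξ`: the stabiliser of `ξ` times `ℤ^(n - m)`. -/
def Piece.A {n : ℕ} (P : Piece n) (ξ : LV P.m) : Subgroup P.Grp where
  carrier := {g | (P.base g).ap ξ = ξ}
  mul_mem' := P.A_mul ξ
  one_mem' := P.A_one ξ
  inv_mem' := P.A_inv ξ

/-- The fundamental group of a boundary component, as a type. -/
def Piece.B {n : ℕ} (P : Piece n) (ξ : LV P.m) : Type := P.A ξ

instance Piece.instGroupB {n : ℕ} (P : Piece n) (ξ : LV P.m) : Group (P.B ξ) :=
  Subgroup.toGroup (P.A ξ)

/-- The inclusion of the fundamental group of a boundary component. -/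
def Piece.inc {n : ℕ} (P : Piece n) (ξ : LV P.m) : P.B ξ →* P.Grp := (P.A ξ).subtype

/-- The `Γ`-component of an element of the fundamental group of a boundary component. -/
def Piece.baseB {n : ℕ} (P : Piece n) (ξ : LV P.m) : P.B ξ → Aut P.m :=
  fun (x : P.A ξ) => P.base x

/-- The isomorphisms between the fundamental groups of two boundary components. -/
def Piece.Iso {n : ℕ} (P Q : Piece n) (ξ : LV P.m) (η : LV Q.m) : Type := P.B ξ ≃* Q.B η

/-- The image of an element under an isomorphism. -/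
def Piece.Iso.im {n : ℕ} {P Q : Piece n} {ξ : LV P.m} {η : LV Q.m} :
    P.Iso Q ξ η → P.B ξ → Q.B η := fun (φ : P.B ξ ≃* Q.B η) x => φ x

/-- An isomorphism between the fundamental groups of two boundary components, composed with the
inclusion of the second one. -/
def Piece.Iso.incl {n : ℕ} {P Q : Piece n} {ξ : LV P.m} {η : LV Q.m} :
    P.Iso Q ξ η → P.B ξ →* Q.Grp := fun (φ : P.B ξ ≃* Q.B η) => (Q.inc η).comp φ.toMonoidHom

/-! ### Higher dimensional graph manifolds -/

/-- The data from which a higher dimensional graph manifold of dimension `n` is glued: finitely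
many pieces, finitely many internal walls, for each wall `w` two boundary components (given by a
horoball `cusp₁ w` of the piece `left w` and a horoball `cusp₂ w` of the piece `right w`) and the
isomorphism between the fundamental groups of these two tori that is induced by the gluing
diffeomorphism. -/
structure GlueData (n : ℕ) where
  I : Type
  W : Type
  finI : Finite I
  finW : Finite W
  P : I → Piece n
  left : W → I
  right : W → I
  cusp₁ : ∀ w, LV (P (left w)).m
  cusp₂ : ∀ w, LV (P (right w)).m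
  glue : ∀ w, (P (left w)).Iso (P (right w)) (cusp₁ w) (cusp₂ w)

/-- The boundary component which is glued on a side of a wall. -/
def GlueData.side {n : ℕ} (M : GlueData n) (w : M.W) (s : Bool) : Σ i, LV (M.P i).m :=
  match s with
  | false => ⟨M.left w, M.cusp₁ w⟩
  | true => ⟨M.right w, M.cusp₂ w⟩

/-- `M` describes a higher dimensional graph manifold. -/
structure GlueData.IsHDG {n : ℕ} (M : GlueData n) : Prop where
  dim_ge : ∀ i, 3 ≤ (M.P i).m
  dim_le : ∀ i, (M.P i).m ≤ n
  mfd : ∀ i, (M.P i).N.IsMfd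
  trunc : ∀ i, (M.P i).N.IsTruncated
  mem₁ : ∀ w, M.cusp₁ w ∈ (M.P (M.left w)).N.Ξ
  mem₂ : ∀ w, M.cusp₂ w ∈ (M.P (M.right w)).N.Ξ
  /-- the glued boundary components are pairwise distinct -/
  distinct : ∀ w s w' s', (w, s) ≠ (w', s') → ∀ i x y, M.side w s = ⟨i, x⟩ →
    M.side w' s' = ⟨i, y⟩ → ∀ γ ∈ (M.P i).N.Γ, γ.ap x ≠ y
  conn : ∀ i j, Relation.ReflTransGen
    (fun a b => ∃ w, (M.left w = a ∧ M.right w = b) ∨ (M.left w = b ∧ M.right w = a)) i j

/-- Adjacent pieces have transverse fibres along every internal wall: an element of the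
fundamental group of the wall which lies in the fibre subgroups of both sides is trivial. -/
def GlueData.Irreducible {n : ℕ} (M : GlueData n) : Prop :=
  ∀ (w : M.W) (x : (M.P (M.left w)).B (M.cusp₁ w)),
    (M.P (M.left w)).baseB (M.cusp₁ w) x = 1 →
    (M.P (M.right w)).baseB (M.cusp₂ w) ((M.glue w).im x) = 1 → x = 1

/-- The graph of groups of the decomposition of `M` into pieces. -/
def GlueData.graph {n : ℕ} (M : GlueData n) : GraphOfGroups where
  V := M.I
  E := M.W
  G := fun i => (M.P i).Grp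
  grpG := fun i => (M.P i).instGroupGrp
  H := fun w => (M.P (M.left w)).B (M.cusp₁ w)
  grpH := fun w => (M.P (M.left w)).instGroupB (M.cusp₁ w)
  src := M.left
  tgt := M.right
  f := fun w => (M.P (M.left w)).inc (M.cusp₁ w)
  f' := fun w => (M.glue w).incl

/-- The fundamental group of the graph manifold, with base point in the piece `i`. -/
abbrev GlueData.Pi1 {n : ℕ} (M : GlueData n) (i : M.I) : Type := pi1 M.graph i

end Run7.h230.HDG
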