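import Pool.Agent.Run7.h230.GoG

set_option autoImplicit false

/-! Truncated hyperbolic manifolds with toric cusps, higher dimensional graph manifolds and
their fundamental groups. -/

namespace Run7.h230

/-- The space `ℝ^{m+1}`. -/
abbrev LV (m : ℕ) : Type := Fin (m + 1) → ℝ

/-- The Lorentz form `x₀ y₀ - x₁ y₁ - … - x_m y_m`. -/
def lor {m : ℕ} (x y : LV m) : ℝ := x 0 * y 0 - ∑ i : Fin m, x i.succ * y i.succ

/-- Hyperbolic space of dimension `m`, hyperboloid model; the distance of two points `x`, `y` is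
`arcosh (lor x y)`. -/
def Hyp (m : ℕ) : Set (LV m) := {x | lor x x = 1 ∧ 0 < x 0}

/-- The open future light cone without its apex. A vector `ξ` of it stands for the open horoball
of all points `x` of hyperbolic space with `lor x ξ < 1`; each open horoball is obtained from
exactly one `ξ`. -/
def Cone (m : ℕ) : Set (LV m) := {x | lor x x = 0 ∧ 0 < x 0}

/-- `γ` acts on the horosphere at `ξ` (the Euclidean space of all lines `x + ℝ ξ` with
`lor x ξ = 1`) as the translation by the vector `v`. -/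
def Translates {m : ℕ} (γ : LV m ≃ₗ[ℝ] LV m) (ξ v : LV m) : Prop :=
  γ ξ = ξ ∧ ∀ x, lor x ξ = 1 → ∃ r : ℝ, γ x = x + v + r • ξ

/-- A complete hyperbolic `m`-manifold: a group `Γ` of isometries of hyperbolic space which acts
freely and properly discontinuously, together with an invariant family `Ξ` of open horoballs. -/
structure HorMfd (m : ℕ) where
  Γ : Subgroup (LV m ≃ₗ[ℝ] LV m)
  Ξ : Set (LV m)

/-- `Γ` consists of isometries of hyperbolic space and acts freely and properly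
discontinuously. -/
structure HorMfd.IsMfd {m : ℕ} (N : HorMfd m) : Prop where
  lor_map : ∀ γ ∈ N.Γ, ∀ x y, lor (γ x) (γ y) = lor x y
  hyp_map : ∀ γ ∈ N.Γ, ∀ x ∈ Hyp m, γ x ∈ Hyp m
  free : ∀ γ ∈ N.Γ, ∀ x ∈ Hyp m, γ x = x → γ = 1
  proper : ∀ x ∈ Hyp m, ∀ r : ℝ, {γ : LV m ≃ₗ[ℝ] LV m | γ ∈ N.Γ ∧ lor x (γ x) ≤ r}.Finite

/-- `Ξ` is a nonempty invariant family of horoballs with pairwise disjoint closures, the quotient
of the complement of the open horoballs is compact, and the quotient of each horosphere by its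
stabiliser is a torus: the stabiliser acts on it as the group of translations by the integral
combinations of `m - 1` vectors which form a basis of the space of all translations. -/
structure HorMfd.IsTruncated {m : ℕ} (N : HorMfd m) : Prop where
  cone : ∀ ξ ∈ N.Ξ, ξ ∈ Cone m
  nonempty : N.Ξ.Nonempty
  inv : ∀ γ ∈ N.Γ, ∀ ξ ∈ N.Ξ, γ ξ ∈ N.Ξ
  disj : ∀ ξ ∈ N.Ξ, ∀ η ∈ N.Ξ, ξ ≠ η → ∀ x ∈ Hyp m, lor x ξ ≤ 1 → 1 < lor x η
  cocompact : ∃ K : Set (LV m), IsCompact K ∧ K ⊆ Hyp m ∧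
    ∀ x ∈ Hyp m, (∀ ξ ∈ N.Ξ, 1 ≤ lor x ξ) → ∃ γ ∈ N.Γ, γ x ∈ K
  toric : ∀ ξ ∈ N.Ξ, ∃ e : Fin (m - 1) → LV m, (∀ i, lor (e i) ξ = 0) ∧
    (∀ c : Fin (m - 1) → ℝ, (∃ r : ℝ, ∑ i, c i • e i = r • ξ) → c = 0) ∧
    (∀ γ ∈ N.Γ, γ ξ = ξ → ∃ c : Fin (m - 1) → ℤ, Translates γ ξ (∑ i, (c i : ℝ) • e i)) ∧
    ∀ c : Fin (m - 1) → ℤ, ∃ γ ∈ N.Γ, Translates γ ξ (∑ i, (c i : ℝ) • e i)

/-- The fundamental group `Γ × ℤ^k` of the product of the (truncated) manifold and the torus
`T^k`. -/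
abbrev HorMfd.Pi {m : ℕ} (N : HorMfd m) (k : ℕ) : Type :=
  N.Γ × Multiplicative (Fin k → ℤ)

/-- The fundamental group of the boundary component of (truncated manifold) `× T^k` which is
given by the horosphere at `ξ`: the stabiliser of `ξ` times `ℤ^k`. -/
def HorMfd.bdry {m : ℕ} (N : HorMfd m) (k : ℕ) (ξ : LV m) : Subgroup (N.Pi k) where
  carrier := {g | (g.1 : LV m ≃ₗ[ℝ] LV m) ξ = ξ}
  mul_mem' := by
    intro a b ha hb
    show ((a.1 * b.1 : N.Γ) : LV m ≃ₗ[ℝ] LV m) ξ = ξ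
    have ha' : (a.1 : LV m ≃ₗ[ℝ] LV m) ξ = ξ := ha
    have hb' : (b.1 : LV m ≃ₗ[ℝ] LV m) ξ = ξ := hb
    rw [Subgroup.coe_mul, LinearEquiv.mul_apply, hb', ha']
  one_mem' := rfl
  inv_mem' := by
    intro a ha
    have ha' : (a.1 : LV m ≃ₗ[ℝ] LV m) ξ = ξ := ha
    show ((a.1⁻¹ : N.Γ) : LV m ≃ₗ[ℝ] LV m) ξ = ξ
    rw [InvMemClass.coe_inv]
    nth_rewrite 1 [← ha']
    exact (a.1 : LV m ≃ₗ[ℝ] LV m).symm_apply_apply ξ

/-- The data from which a higher dimensional graph manifold of dimension `n` is glued: finitely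
many pieces (truncated hyperbolic `m i`-manifold) `× T^(n - m i)`, finitely many internal walls,
for each wall `w` two boundary components (given by a horoball `cusp₁ w` of the piece `src w` and
a horoball `cusp₂ w` of the piece `tgt w`) and the isomorphism between the fundamental groups of
these two tori that is induced by the gluing diffeomorphism. -/
structure GlueData (n : ℕ) where
  I : Type
  W : Type
  finI : Finite I
  finW : Finite W
  m : I → ℕ
  N : ∀ i, HorMfd (m i)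
  src : W → I
  tgt : W → I
  cusp₁ : ∀ w, LV (m (src w))
  cusp₂ : ∀ w, LV (m (tgt w))
  glue : ∀ w, (N (src w)).bdry (n - m (src w)) (cusp₁ w) ≃*
    (N (tgt w)).bdry (n - m (tgt w)) (cusp₂ w)

/-- The boundary component which is glued on a side of a wall. -/
def GlueData.side {n : ℕ} (M : GlueData n) (w : M.W) (s : Bool) : Σ i, LV (M.m i) :=
  match s with
  | false => ⟨M.src w, M.cusp₁ w⟩
  | true => ⟨M.tgt w, M.cusp₂ w⟩

/-- `M` describes a higher dimensional graph manifold. -/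
structure GlueData.IsHDG {n : ℕ} (M : GlueData n) : Prop where
  dim_ge : ∀ i, 3 ≤ M.m i
  dim_le : ∀ i, M.m i ≤ n
  mfd : ∀ i, (M.N i).IsMfd
  trunc : ∀ i, (M.N i).IsTruncated
  mem₁ : ∀ w, M.cusp₁ w ∈ (M.N (M.src w)).Ξ
  mem₂ : ∀ w, M.cusp₂ w ∈ (M.N (M.tgt w)).Ξ
  /-- the glued boundary components are pairwise distinct -/
  distinct : ∀ w s w' s', (w, s) ≠ (w', s') → ∀ i x y, M.side w s = ⟨i, x⟩ →
    M.side w' s' = ⟨i, y⟩ → ∀ γ ∈ (M.N i).Γ, γ x ≠ y
  conn : ∀ i j, Relation.ReflTransGen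
    (fun a b => ∃ w, (M.src w = a ∧ M.tgt w = b) ∨ (M.src w = b ∧ M.tgt w = a)) i j

/-- Adjacent pieces have transverse fibres along every internal wall. -/
def GlueData.Irreducible {n : ℕ} (M : GlueData n) : Prop :=
  ∀ (w : M.W) (x : (M.N (M.src w)).bdry (n - M.m (M.src w)) (M.cusp₁ w)),
    (x : (M.N (M.src w)).Pi (n - M.m (M.src w))).1 = 1 →
    (M.glue w x : (M.N (M.tgt w)).Pi (n - M.m (M.tgt w))).1 = 1 → x = 1

/-- The graph of groups of the decomposition of `M` into pieces. -/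
def GlueData.graph {n : ℕ} (M : GlueData n) : GraphOfGroups where
  V := M.I
  E := M.W
  G := fun i => (M.N i).Pi (n - M.m i)
  grpG := fun _ => inferInstance
  H := fun w => (M.N (M.src w)).bdry (n - M.m (M.src w)) (M.cusp₁ w)
  grpH := fun _ => inferInstance
  src := M.src
  tgt := M.tgt
  f := fun w => Subgroup.subtype _
  f' := fun w => (Subgroup.subtype _).comp (M.glue w).toMonoidHom

/-- The fundamental group of the graph manifold, with base point in the piece `i`. -/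
abbrev GlueData.Pi1 {n : ℕ} (M : GlueData n) (i : M.I) : Type := pi1 M.graph i

end Run7.h230
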