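import Pool.Agent.Run7.h230.Go

set_option autoImplicit false

/-! Local lemmas on pieces, part A: lengths, flats, gates. -/

namespace Run7.h230

namespace LPiece

variable {H E J : Type} [Group H] [Fintype J] {P : LPiece H E J}

theorem M_nonneg (hP : P.Good) (x : H) : 0 ≤ P.M x := by
  have h1 := hP.good1.M_mul x x⁻¹
  rw [mul_inv_cancel, hP.good1.M_one, hP.good1.M_inv] at h1
  linarith

theorem M_comm (hP : P.Good) (x y : H) : P.M (x⁻¹ * y) = P.M (y⁻¹ * x) := by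
  rw [← hP.good1.M_inv (x⁻¹ * y), mul_inv_rev, inv_inv]

theorem M_tri (hP : P.Good) (x y z : H) : P.M (x⁻¹ * z) ≤ P.M (x⁻¹ * y) + P.M (y⁻¹ * z) := by
  have h1 := hP.good1.M_mul (x⁻¹ * y) (y⁻¹ * z)
  rwa [show x⁻¹ * y * (y⁻¹ * z) = x⁻¹ * z by group] at h1

theorem M_self (hP : P.Good) (x : H) : P.M (x⁻¹ * x) = 0 := by
  rw [inv_mul_cancel, hP.good1.M_one]

theorem K_nonneg (hP : P.Good) : 0 ≤ P.K := (hP.good1.d_nonneg 1).trans hP.good1.d_one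

theorem b_stab (hP : P.Good) (r : ℝ) : ∃ C, 0 ≤ C ∧ ∀ x a c t t', P.M a ≤ r → P.M c ≤ r →
    |t - t'| ≤ r → P.M ((P.b x t)⁻¹ * (a * P.b (a⁻¹ * x * c) t')) ≤ C ∧
      |P.d x - P.d (a⁻¹ * x * c)| ≤ C := by
  refine ⟨max (P.R r) 0, le_max_right _ _, ?_⟩
  intro x a c t t' h1 h2 h3
  have h4 := hP.good1.b_cont r x a c t t' h1 h2 h3
  exact ⟨h4.1.trans (le_max_left _ _), h4.2.trans (le_max_left _ _)⟩

theorem d_stab (hP : P.Good) (r : ℝ) : ∃ C, 0 ≤ C ∧ ∀ x y k k', P.M (x⁻¹ * y) ≤ r →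
    P.M (k⁻¹ * k') ≤ r → |P.d (x⁻¹ * k) - P.d (y⁻¹ * k')| ≤ C := by
  obtain ⟨C, hC, h⟩ := b_stab hP r
  refine ⟨C, hC, ?_⟩
  intro x y k k' h1 h2
  have h0 : 0 ≤ r := (M_nonneg hP _).trans h1
  have h3 := (h (x⁻¹ * k) (x⁻¹ * y) (k⁻¹ * k') 0 0 h1 h2 (by simpa using h0)).2
  rwa [show (x⁻¹ * y)⁻¹ * (x⁻¹ * k) * (k⁻¹ * k') = y⁻¹ * k' by group] at h3

/-- closeness of path points -/
theorem path_stab (hP : P.Good) (r : ℝ) : ∃ C, 0 ≤ C ∧ ∀ (c k T k' T' : H) (s s' : ℝ),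
    P.M ((c * k)⁻¹ * k') ≤ r → P.M ((c * T)⁻¹ * T') ≤ r → |s - s'| ≤ r →
    P.M ((c * (k * P.b (k⁻¹ * T) s))⁻¹ * (k' * P.b (k'⁻¹ * T') s')) ≤ C := by
  obtain ⟨C, hC, h⟩ := b_stab hP r
  refine ⟨C, hC, ?_⟩
  intro c k T k' T' s s' h1 h2 h3
  have h4 := (h (k⁻¹ * T) ((c * k)⁻¹ * k') ((c * T)⁻¹ * T') s s' h1 h2 h3).1
  rw [show ((c * k)⁻¹ * k')⁻¹ * (k⁻¹ * T) * ((c * T)⁻¹ * T') = k'⁻¹ * T' by group] at h4
  rwa [show (c * (k * P.b (k⁻¹ * T) s))⁻¹ * (k' * P.b (k'⁻¹ * T') s') =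
    (P.b (k⁻¹ * T) s)⁻¹ * ((c * k)⁻¹ * k' * P.b (k'⁻¹ * T') s') by group]

theorem add_one {A : Subgroup H} {f : H → J → ℝ}
    (hf : ∀ a ∈ A, ∀ c ∈ A, f (a * c) = f a + f c) : f 1 = 0 := by
  have h := hf 1 A.one_mem 1 A.one_mem
  rw [one_mul] at h
  exact left_eq_add.1 h

theorem add_inv {A : Subgroup H} {f : H → J → ℝ}
    (hf : ∀ a ∈ A, ∀ c ∈ A, f (a * c) = f a + f c) {a : H} (ha : a ∈ A) : f a⁻¹ = - f a := by
  have h := hf a ha a⁻¹ (A.inv_mem ha)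
  rw [mul_inv_cancel, add_one hf] at h
  exact (neg_eq_of_add_eq_zero_right h.symm).symm

theorem add_div {A : Subgroup H} {f : H → J → ℝ}
    (hf : ∀ a ∈ A, ∀ c ∈ A, f (a * c) = f a + f c) {a c : H} (ha : a ∈ A) (hc : c ∈ A) :
    f (a⁻¹ * c) = f c - f a := by
  rw [hf _ (A.inv_mem ha) _ hc, add_inv hf ha]
  abel

theorem d_one' (hP : P.Good) : |P.d 1| ≤ P.K := by
  rw [abs_of_nonneg (hP.good1.d_nonneg 1)]; exact hP.good1.d_one

theorem d_small (hP : P.Good) (r : ℝ) : ∃ C, 0 ≤ C ∧ ∀ x, P.M x ≤ r → P.d x ≤ C := by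
  obtain ⟨C, hC, h⟩ := d_stab hP (max r 0)
  refine ⟨C + P.K, add_nonneg hC (K_nonneg hP), ?_⟩
  intro x hx
  have h1 := h 1 1 1 x (by rw [M_self hP]; exact le_max_right _ _)
    (by simpa using Or.inl hx)
  have h2 := hP.good1.d_one
  rw [inv_one, one_mul, one_mul] at h1
  linarith [(abs_le.1 h1).1]

theorem Φ_one (hP : P.Good) : ‖P.Φ 1‖ ≤ P.K := by
  have h := hP.good1.Φ_mul 1 1
  rw [mul_one, sub_self, zero_sub, norm_neg] at h
  exact h

theorem Φ_inv (hP : P.Good) (x : H) : ‖P.Φ x⁻¹ + P.Φ x‖ ≤ 2 * P.K := by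
  have h := hP.good1.Φ_mul x x⁻¹
  rw [mul_inv_cancel] at h
  have h1 := Φ_one hP
  have : P.Φ x⁻¹ + P.Φ x = P.Φ 1 - (P.Φ 1 - P.Φ x - P.Φ x⁻¹) := by abel
  rw [this]
  exact (norm_sub_le _ _).trans (by linarith)

theorem Φ_div (hP : P.Good) (x y : H) : ‖P.Φ (x⁻¹ * y) - (P.Φ y - P.Φ x)‖ ≤ P.K * 3 := by
  have h := hP.good1.Φ_mul x⁻¹ y
  have h1 := Φ_inv hP x
  have : P.Φ (x⁻¹ * y) - (P.Φ y - P.Φ x) =
    (P.Φ (x⁻¹ * y) - P.Φ x⁻¹ - P.Φ y) + (P.Φ x⁻¹ + P.Φ x) := by abel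
  rw [this]
  exact (norm_add_le _ _).trans (by linarith)

/-- flats: close in `d` implies close coordinates -/
theorem flat_close (hP : P.Good) {e : E} {p q : H} (hp : p ∈ P.A e) (hq : q ∈ P.A e) {r : ℝ}
    (h : P.d (p⁻¹ * q) ≤ r) : ‖P.ω e q - P.ω e p‖ ≤ r + P.K ∧ ‖P.κ e q - P.κ e p‖ ≤ r + P.K := by
  have h1 := hP.good2.flat_d e _ ((P.A e).mul_mem ((P.A e).inv_mem hp) hq)
  rw [add_div (hP.good2.ω_mul e) hp hq, add_div (hP.good2.κ_mul e) hp hq] at h1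
  have h2 := abs_le.1 h1
  have h3 := le_max_left ‖P.ω e q - P.ω e p‖ ‖P.κ e q - P.κ e p‖
  have h4 := le_max_right ‖P.ω e q - P.ω e p‖ ‖P.κ e q - P.κ e p‖
  constructor <;> linarith [h2.1]

theorem flat_dist (hP : P.Good) {e : E} {p q : H} (hp : p ∈ P.A e) (hq : q ∈ P.A e) :
    |P.d (p⁻¹ * q) - max ‖P.ω e q - P.ω e p‖ ‖P.κ e q - P.κ e p‖| ≤ P.K := by
  have h1 := hP.good2.flat_d e _ ((P.A e).mul_mem ((P.A e).inv_mem hp) hq)
  rwa [add_div (hP.good2.ω_mul e) hp hq, add_div (hP.good2.κ_mul e) hp hq] at h1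

theorem flat_near (hP : P.Good) (r : ℝ) : ∃ C, 0 ≤ C ∧ ∀ (e : E) (p q : H), p ∈ P.A e →
    q ∈ P.A e → ‖P.ω e q - P.ω e p‖ ≤ r → ‖P.κ e q - P.κ e p‖ ≤ r → P.M (p⁻¹ * q) ≤ C := by
  refine ⟨max (P.R r) 0, le_max_right _ _, ?_⟩
  intro e p q hp hq h1 h2
  rw [← add_div (hP.good2.ω_mul e) hp hq] at h1
  rw [← add_div (hP.good2.κ_mul e) hp hq] at h2
  exact (hP.good2.flat_M r e _ ((P.A e).mul_mem ((P.A e).inv_mem hp) hq) h1 h2).trans
    (le_max_left _ _)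

/-- paths between points of a flat -/
theorem flat_path (hP : P.Good) (r : ℝ) : ∃ C, 0 ≤ C ∧ ∀ (e : E) (k p c : H) (s : ℝ),
    k ∈ P.A e → p ∈ P.A e → c ∈ P.A e → 0 ≤ s →
    ‖P.ω e c - go (P.ω e k) (P.ω e p) s‖ ≤ r → ‖P.κ e c - go (P.κ e k) (P.κ e p) s‖ ≤ r →
    P.M ((k * P.b (k⁻¹ * p) s)⁻¹ * c) ≤ C := by
  refine ⟨max (P.R r) 0, le_max_right _ _, ?_⟩
  intro e k p c s hk hp hc hs h1 h2
  have hkp := (P.A e).mul_mem ((P.A e).inv_mem hk) hp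
  have hkc := (P.A e).mul_mem ((P.A e).inv_mem hk) hc
  have h3 := hP.good2.flat_b r e _ hkp _ hkc s hs
    (by
      rw [add_div (hP.good2.ω_mul e) hk hc, add_div (hP.good2.ω_mul e) hk hp]
      rw [go_sub_self] at h1
      rwa [sub_sub])
    (by
      rw [add_div (hP.good2.κ_mul e) hk hc, add_div (hP.good2.κ_mul e) hk hp]
      rw [go_sub_self] at h2
      rwa [sub_sub])
  rw [show (k * P.b (k⁻¹ * p) s)⁻¹ * c = (P.b (k⁻¹ * p) s)⁻¹ * (k⁻¹ * c) by group]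
  exact h3.trans (le_max_left _ _)

/-- stability of gates -/
theorem gate_stab (hP : P.Good) (r : ℝ) : ∃ C, 0 ≤ C ∧ ∀ (e : E) (x c m : H), c ∈ P.A e →
    P.M m ≤ r → ‖P.ω e (P.gate e (c * x * m)) - (P.ω e c + P.ω e (P.gate e x))‖ ≤ C ∧
      ‖P.κ e (P.gate e (c * x * m)) - (P.κ e c + P.κ e (P.gate e x))‖ ≤ C := by
  obtain ⟨C, hC, h⟩ := d_stab hP (max r 0)
  refine ⟨2 * C + 3 * P.K, by have := K_nonneg hP; positivity, ?_⟩
  intro e x c m hc hm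
  have hq := hP.good3.gate_mem e (c * x * m)
  have hp := hP.good3.gate_mem e x
  set q := P.gate e (c * x * m) with hqdef
  set p₀ := P.gate e x with hpdef
  have hcp : c * p₀ ∈ P.A e := (P.A e).mul_mem hc hp
  have s1 := (hP.good3.gate_out e (c * x * m) (c * p₀) hcp).1
  have s2 := (hP.good3.gate_out e x (c⁻¹ * q) ((P.A e).mul_mem ((P.A e).inv_mem hc) hq)).1
  rw [← hqdef] at s1
  rw [← hpdef] at s2
  rw [show ((c * p₀)⁻¹ * q)⁻¹ * ((c * p₀)⁻¹ * (c * x * m)) = q⁻¹ * (c * x * m) by group] at s1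
  rw [show ((c⁻¹ * q)⁻¹ * p₀)⁻¹ * ((c⁻¹ * q)⁻¹ * x) = (c * p₀)⁻¹ * (c * x) by group,
    show (c⁻¹ * q)⁻¹ * x = q⁻¹ * (c * x) by group,
    show (c⁻¹ * q)⁻¹ * p₀ = q⁻¹ * (c * p₀) by group] at s2
  have m1 : P.M ((c * x)⁻¹ * (c * x * m)) ≤ max r 0 := by
    rw [show (c * x)⁻¹ * (c * x * m) = m by group]; exact hm.trans (le_max_left _ _)
  have m0 : ∀ y : H, P.M (y⁻¹ * y) ≤ max r 0 := fun y => by
    rw [M_self hP]; exact le_max_right _ _
  have d1 := h q q (c * x) (c * x * m) (m0 q) m1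
  have d2 := h (c * p₀) (c * p₀) (c * x) (c * x * m) (m0 _) m1
  have n1 := hP.good1.d_nonneg (q⁻¹ * (c * p₀))
  have e1 := abs_le.1 s1
  have e2 := abs_le.1 s2
  have e3 := abs_le.1 d1
  have e4 := abs_le.1 d2
  have hd : P.d ((c * p₀)⁻¹ * q) ≤ 2 * C + 2 * P.K := by linarith [e1.1, e1.2, e2.1, e2.2]
  have := flat_close hP hcp hq hd
  rw [hP.good2.ω_mul e c hc p₀ hp, hP.good2.κ_mul e c hc p₀ hp] at this
  constructor
  · exact this.1.trans (by linarith)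
  · exact this.2.trans (by linarith)

theorem gate_one (hP : P.Good) (e : E) : ‖P.ω e (P.gate e 1)‖ ≤ 3 * P.K ∧
    ‖P.κ e (P.gate e 1)‖ ≤ 3 * P.K := by
  have s1 := (hP.good3.gate_out e 1 1 (P.A e).one_mem).1
  have hp := hP.good3.gate_mem e 1
  simp only [inv_one, one_mul, mul_one] at s1
  have n1 := hP.good1.d_nonneg ((P.gate e 1)⁻¹)
  have h1 := hP.good1.d_one
  have hd : P.d ((1 : H)⁻¹ * P.gate e 1) ≤ 2 * P.K := by
    rw [inv_one, one_mul]; linarith [(abs_le.1 s1).1]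
  have := flat_close hP (P.A e).one_mem hp hd
  rw [add_one (hP.good2.ω_mul e), add_one (hP.good2.κ_mul e), sub_zero, sub_zero] at this
  constructor
  · exact this.1.trans (by linarith)
  · exact this.2.trans (by linarith)

theorem b_time' (hP : P.Good) : ∃ C, 0 ≤ C ∧ ∀ x t, 0 ≤ t →
    |P.d (P.b x t) - min t (P.d x)| ≤ C ∧
      |P.d ((P.b x t)⁻¹ * x) - (P.d x - min t (P.d x))| ≤ C := by
  obtain ⟨C, hC, h⟩ := d_stab hP P.K
  obtain ⟨C', hC', h'⟩ := d_small hP P.K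
  have hK := K_nonneg hP
  refine ⟨C + C' + P.K, by positivity, ?_⟩
  intro x t ht
  rcases le_total t (P.d x) with h1 | h1
  · rw [min_eq_left h1]
    have := hP.good1.b_time x t ht h1
    exact ⟨this.1.trans (by linarith), this.2.trans (by linarith)⟩
  · rw [min_eq_right h1, sub_self, sub_zero]
    have h2 := hP.good1.b_end x t h1
    have h3 := h 1 1 (P.b x t) x (by rw [M_self hP]; exact hK) h2
    rw [inv_one, one_mul, one_mul] at h3
    refine ⟨h3.trans (by linarith), ?_⟩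
    rw [abs_of_nonneg (hP.good1.d_nonneg _)]
    exact (h' _ h2).trans (by linarith)

/-- gates of path points -/
theorem gate_path (hP : P.Good) : ∃ C, 0 ≤ C ∧ ∀ (e : E) (y : H) (s : ℝ), 0 ≤ s →
    ‖P.ω e (P.gate e (P.b y s)) - go 0 (P.ω e (P.gate e y)) s‖ ≤ C ∧
      ‖P.κ e (P.gate e (P.b y s)) - go 0 (P.κ e (P.gate e y)) s‖ ≤ C := by
  have hK := K_nonneg hP
  obtain ⟨C1, hC1, fp⟩ := flat_path hP P.K
  obtain ⟨C2, hC2, gs⟩ := gate_stab hP (P.K + C1)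
  obtain ⟨C3, hC3, bt⟩ := b_time' hP
  obtain ⟨C4, hC4, ds⟩ := d_stab hP (P.K)
  refine ⟨C2 + C3 + C3 + C3 + C4 + C4 + 10 * P.K, by positivity, ?_⟩
  intro e y s hs
  have hp := hP.good3.gate_mem e y
  have hq := hP.good3.gate_mem e (P.b y s)
  obtain ⟨sp1, sp2, sp3⟩ := hP.good3.gate_out e y 1 (P.A e).one_mem
  simp only [inv_one, one_mul] at sp1 sp2 sp3
  set p := P.gate e y with hpdef
  set z := P.b y s with hzdef
  set q := P.gate e z with hqdef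
  have hdp := flat_dist hP (P.A e).one_mem hp
  rw [inv_one, one_mul, add_one (hP.good2.ω_mul e), add_one (hP.good2.κ_mul e), sub_zero,
    sub_zero] at hdp
  have g1 := gate_one hP e
  rcases le_total s (P.d p) with h1 | h1
  · -- in the flat
    obtain ⟨c, hc, -, hcω, hcκ⟩ := hP.good2.dense e 0 (go 0 (P.ω e p) s) (go 0 (P.κ e p) s)
      (Supp.zero _) (go_supp (Supp.zero _) (hP.good2.ω_supp e p hp) s)
      (go_supp (Supp.zero _) (hP.good2.κ_supp e p hp) s)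
    have h2 := fp e 1 p c s (P.A e).one_mem hp hc hs
      (by rwa [add_one (hP.good2.ω_mul e)]) (by rwa [add_one (hP.good2.κ_mul e)])
    rw [inv_one, one_mul, one_mul] at h2
    have h3 := sp2 s h1
    have h4 : P.M (c⁻¹ * z) ≤ P.K + C1 := by
      rw [M_comm hP]
      exact (M_tri hP z (P.b p s) c).trans (add_le_add h3 h2)
    have h5 := gs e 1 c (c⁻¹ * z) hc h4
    rw [show c * 1 * (c⁻¹ * z) = z by group, ← hqdef] at h5
    constructor
    · have : P.ω e q - go 0 (P.ω e p) s = (P.ω e q - (P.ω e c + P.ω e (P.gate e 1))) +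
        (P.ω e c - go 0 (P.ω e p) s) + P.ω e (P.gate e 1) := by abel
      rw [this]
      refine (norm_add₃_le).trans ?_
      linarith [h5.1, g1.1]
    · have : P.κ e q - go 0 (P.κ e p) s = (P.κ e q - (P.κ e c + P.κ e (P.gate e 1))) +
        (P.κ e c - go 0 (P.κ e p) s) + P.κ e (P.gate e 1) := by abel
      rw [this]
      refine (norm_add₃_le).trans ?_
      linarith [h5.2, g1.2]
  · -- behind the flat: `q` is close to `p`
    have key : P.d (p⁻¹ * q) ≤ C3 + C3 + C3 + C4 + C4 + 5 * P.K := by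
      have i1 := (hP.good3.gate_out e z p hp).1
      have i2 := (hP.good3.gate_out e y q hq).1
      rw [← hqdef, show (p⁻¹ * q)⁻¹ * (p⁻¹ * z) = q⁻¹ * z by group] at i1
      rw [← hpdef, show (q⁻¹ * p)⁻¹ * (q⁻¹ * y) = p⁻¹ * y by group] at i2
      have i3 := hP.good1.d_mul (q⁻¹ * z) (z⁻¹ * y)
      rw [show q⁻¹ * z * (z⁻¹ * y) = q⁻¹ * y by group] at i3
      have i4 := (bt y s hs).2
      rw [← hzdef] at i4
      have i5 := bt (p⁻¹ * y) (s - P.d p) (by linarith)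
      have i6 := sp3 s h1
      rw [← hzdef] at i6
      have i7 := ds p p z (p * P.b (p⁻¹ * y) (s - P.d p)) (by rw [M_self hP]; exact hK) i6
      rw [show p⁻¹ * (p * P.b (p⁻¹ * y) (s - P.d p)) = P.b (p⁻¹ * y) (s - P.d p) by group] at i7
      have n1 := hP.good1.d_nonneg (q⁻¹ * p)
      have m1 := min_le_left (s - P.d p) (P.d (p⁻¹ * y))
      have j1 := abs_le.1 i1
      have j2 := abs_le.1 i2
      have j4 := abs_le.1 i4
      have j5 := abs_le.1 i5.1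
      have j7 := abs_le.1 i7
      have j0 := abs_le.1 sp1
      rcases le_total s (P.d y) with h6 | h6
      · rw [min_eq_left h6] at j4
        linarith [j1.1, j1.2, j2.1, j2.2, j4.1, j4.2, j5.1, j5.2, j7.1, j7.2, j0.1, j0.2]
      · rw [min_eq_right h6, sub_self, sub_zero] at j4
        have m2 := min_le_right (s - P.d p) (P.d (p⁻¹ * y))
        linarith [j1.1, j1.2, j2.1, j2.2, j4.1, j4.2, j5.1, j5.2, j7.1, j7.2, j0.1, j0.2]
    have h2 := flat_close hP hp hq key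
    have e1 := abs_le.1 hdp
    constructor
    · have h3 : ‖P.ω e p - go 0 (P.ω e p) s‖ ≤ P.K := by
        rw [norm_sub_go _ _ hs, sub_zero]
        have := le_max_left ‖P.ω e p‖ ‖P.κ e p‖
        exact max_le (by linarith [e1.1]) hK
      have : P.ω e q - go 0 (P.ω e p) s = (P.ω e q - P.ω e p) + (P.ω e p - go 0 (P.ω e p) s) := by
        abel
      rw [this]
      refine (norm_add_le _ _).trans ?_
      linarith [h2.1]
    · have h3 : ‖P.κ e p - go 0 (P.κ e p) s‖ ≤ P.K := by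
        rw [norm_sub_go _ _ hs, sub_zero]
        have := le_max_right ‖P.ω e p‖ ‖P.κ e p‖
        exact max_le (by linarith [e1.1]) hK
      have : P.κ e q - go 0 (P.κ e p) s = (P.κ e q - P.κ e p) + (P.κ e p - go 0 (P.κ e p) s) := by
        abel
      rw [this]
      refine (norm_add_le _ _).trans ?_
      linarith [h2.2]

end LPiece

end Run7.h230
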