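import Pool.Agent.Run7.h230.LocalA

set_option autoImplicit false

/-! Local lemmas on pieces, part B: states, entries, positions. -/

namespace Run7.h230

/-- State of the combing path at the entry of a slot. -/
structure Sta (J : Type) where
  hm : ℝ
  α : J → ℝ
  h : ℝ
  wω : J → ℝ
  wκ : J → ℝ

namespace LPiece

variable {H E J : Type} [Group H] [Fintype J] (P : LPiece H E J)

/-- time of the entry -/
def hE {E J : Type} : Option (E × Sta J) → ℝ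
  | none => 0
  | some (_, σ) => σ.h

/-- starting value of the own fibre coordinate -/
def aE {E J : Type} : Option (E × Sta J) → J → ℝ
  | none => 0
  | some (_, σ) => σ.wω

/-- the times are ordered -/
def Ord {E J : Type} : Option (E × Sta J) → Prop
  | none => True
  | some (_, σ) => σ.hm ≤ σ.h

/-- `k` is an entry point -/
def Ent (C : ℝ) : Option (E × Sta J) → (J → ℝ) → H → Prop
  | none, _, k => k = 1
  | some (e, σ), u, k => k ∈ P.A e ∧ ‖P.φ e k - σ.wω‖ ≤ C ∧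
      ‖P.ω e k - go σ.α u (σ.h - σ.hm)‖ ≤ C ∧ ‖P.κ e k - σ.wκ‖ ≤ C

/-- look-ahead coordinate for the last slot -/
def tg : Option (E × Sta J) → H → J → ℝ
  | none, _ => 0
  | some (e, _), g => P.ω e (P.gate e g)

/-- look-ahead coordinate for a middle slot -/
def uE : Option (E × Sta J) → E → H → J → ℝ
  | none, _, _ => 0
  | some (e, _), t, x => P.uω e t x

/-- difference of the own fibre coordinates -/
def ΘE : Option (E × Sta J) → E → H → J → ℝ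
  | none, _, x => P.Φ x
  | some (e, _), t, x => P.Θ e t x

/-- next state -/
noncomputable def nxt : Option (E × Sta J) → E → H → Sta J
  | none, t, x => ⟨0, - P.Φ x, P.d (x * P.gate t x⁻¹), P.ω t (P.gate t x⁻¹),
      P.κ t (P.gate t x⁻¹)⟩
  | some (e, σ), t, x => ⟨σ.h, σ.wω - P.Θ e t x,
      P.ℓ e t x + max (σ.h + ‖P.uκ e t x - σ.wκ‖) (σ.hm + ‖P.uω e t x - σ.α‖),
      P.uω t e x⁻¹, P.uκ t e x⁻¹⟩

/-- non-parallel -/
def NPE : Option (E × Sta J) → E → H → Prop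
  | none, _, _ => True
  | some (e, _), t, x => P.NP e t x

/-- `p` is an exit point -/
def Exi (C : ℝ) (σ : Sta J) (t : E) (p : H) : Prop :=
  p ∈ P.A t ∧ ‖P.ω t p - σ.wω‖ ≤ C ∧ ‖P.κ t p - σ.wκ‖ ≤ C

/-- `z` is the position at time `s` on the way from `k` to `T`, own fibre coordinate from `a` to
`B`. -/
def Loc (C : ℝ) (k T : H) (a B : J → ℝ) (s : ℝ) (z : H) : Prop :=
  P.M (z⁻¹ * (k * P.b (k⁻¹ * T) s)) ≤ C ∧ ‖P.Φ z - go a B s‖ ≤ C

/-- duration for a word which ends in this slot -/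
noncomputable def DE : Option (E × Sta J) → H → ℝ
  | none, g => max (P.d g) ‖P.Φ g‖
  | some (e, σ), g => max (P.d ((P.gate e g)⁻¹ * g) +
      max (σ.h + ‖P.κ e (P.gate e g) - σ.wκ‖) (σ.hm + ‖P.ω e (P.gate e g) - σ.α‖))
      (σ.h + ‖P.Φ g - σ.wω‖)

variable {P}

theorem nxt_hm (X : Option (E × Sta J)) (t : E) (x : H) : (P.nxt X t x).hm = hE X := by
  rcases X with _ | ⟨e, σ⟩ <;> rfl

theorem nxt_α (X : Option (E × Sta J)) (t : E) (x : H) :
    (P.nxt X t x).α = aE X - P.ΘE X t x := by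
  rcases X with _ | ⟨e, σ⟩
  · show - P.Φ x = 0 - P.Φ x
    rw [zero_sub]
  · rfl

theorem nxt_h_ge (hP : P.Good) (X : Option (E × Sta J)) (t : E) (x : H) (hX : P.NPE X t x) :
    hE X ≤ (P.nxt X t x).h := by
  rcases X with _ | ⟨e, σ⟩
  · exact hP.good1.d_nonneg _
  · have h1 := hP.good4.one_le_ℓ e t x hX
    have h2 := le_max_left (σ.h + ‖P.uκ e t x - σ.wκ‖) (σ.hm + ‖P.uω e t x - σ.α‖)
    have h3 := norm_nonneg (P.uκ e t x - σ.wκ)
    show σ.h ≤ P.ℓ e t x + max (σ.h + ‖P.uκ e t x - σ.wκ‖) (σ.hm + ‖P.uω e t x - σ.α‖)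
    linarith

theorem nxt_h_ge' (hP : P.Good) (e : E) (σ : Sta J) (t : E) (x : H)
    (hX : P.NP e t x) : σ.h + 1 ≤ (P.nxt (some (e, σ)) t x).h := by
  have h1 := hP.good4.one_le_ℓ e t x hX
  have h2 := le_max_left (σ.h + ‖P.uκ e t x - σ.wκ‖) (σ.hm + ‖P.uω e t x - σ.α‖)
  have h3 := norm_nonneg (P.uκ e t x - σ.wκ)
  show σ.h + 1 ≤ P.ℓ e t x + max (σ.h + ‖P.uκ e t x - σ.wκ‖) (σ.hm + ‖P.uω e t x - σ.α‖)
  linarith

theorem Ent.mono {C C' : ℝ} (hC : C ≤ C') {X : Option (E × Sta J)} {u : J → ℝ} {k : H}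
    (h : P.Ent C X u k) : P.Ent C' X u k := by
  rcases X with _ | ⟨e, σ⟩
  · exact h
  · exact ⟨h.1, h.2.1.trans hC, h.2.2.1.trans hC, h.2.2.2.trans hC⟩

theorem Exi.mono {C C' : ℝ} (hC : C ≤ C') {σ : Sta J} {t : E} {p : H}
    (h : P.Exi C σ t p) : P.Exi C' σ t p := ⟨h.1, h.2.1.trans hC, h.2.2.trans hC⟩

theorem Loc.mono {C C' : ℝ} (hC : C ≤ C') {k T : H} {a B : J → ℝ} {s : ℝ} {z : H}
    (h : P.Loc C k T a B s z) : P.Loc C' k T a B s z := ⟨h.1.trans hC, h.2.trans hC⟩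

/-- L3: the gate of a position -/
theorem gate_loc (hP : P.Good) (r : ℝ) : ∃ C, 0 ≤ C ∧ ∀ (e : E) (k T z : H) (s : ℝ),
    k ∈ P.A e → 0 ≤ s → P.M (z⁻¹ * (k * P.b (k⁻¹ * T) s)) ≤ r →
    ‖P.ω e (P.gate e z) - go (P.ω e k) (P.ω e (P.gate e T)) s‖ ≤ C ∧
      ‖P.κ e (P.gate e z) - go (P.κ e k) (P.κ e (P.gate e T)) s‖ ≤ C := by
  obtain ⟨C1, hC1, gs⟩ := gate_stab hP (max r 0)
  obtain ⟨C2, hC2, gp⟩ := gate_path hP
  refine ⟨C1 + C2 + C1, by positivity, ?_⟩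
  intro e k T z s hk hs hz
  have hz' : P.M ((k * P.b (k⁻¹ * T) s)⁻¹ * z) ≤ max r 0 := by
    rw [M_comm hP]; exact hz.trans (le_max_left _ _)
  have h1 := gs e (P.b (k⁻¹ * T) s) k ((k * P.b (k⁻¹ * T) s)⁻¹ * z) hk hz'
  rw [show k * P.b (k⁻¹ * T) s * ((k * P.b (k⁻¹ * T) s)⁻¹ * z) = z by group] at h1
  have h2 := gp e (k⁻¹ * T) s hs
  have h3 := gs e T k⁻¹ 1 ((P.A e).inv_mem hk) (by rw [hP.good1.M_one]; exact le_max_right _ _)
  rw [mul_one, add_inv (hP.good2.ω_mul e) hk, add_inv (hP.good2.κ_mul e) hk] at h3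
  constructor
  · rw [go_sub_self (P.ω e k)]
    have l1 := go_lip 0 (P.ω e (P.gate e (k⁻¹ * T))) 0 (P.ω e (P.gate e T) - P.ω e k) s s
    rw [sub_self, norm_zero, sub_self, abs_zero, zero_add, add_zero] at l1
    have e1 : P.ω e (P.gate e (k⁻¹ * T)) - (P.ω e (P.gate e T) - P.ω e k) =
      P.ω e (P.gate e (k⁻¹ * T)) - (-P.ω e k + P.ω e (P.gate e T)) := by abel
    rw [e1] at l1
    have e2 : P.ω e (P.gate e z) - (P.ω e k + go 0 (P.ω e (P.gate e T) - P.ω e k) s) =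
      (P.ω e (P.gate e z) - (P.ω e k + P.ω e (P.gate e (P.b (k⁻¹ * T) s)))) +
      (P.ω e (P.gate e (P.b (k⁻¹ * T) s)) - go 0 (P.ω e (P.gate e (k⁻¹ * T))) s) +
      (go 0 (P.ω e (P.gate e (k⁻¹ * T))) s - go 0 (P.ω e (P.gate e T) - P.ω e k) s) := by abel
    rw [e2]
    refine norm_add₃_le.trans ?_
    exact add_le_add (add_le_add h1.1 h2.1) (l1.trans h3.1)
  · rw [go_sub_self (P.κ e k)]
    have l1 := go_lip 0 (P.κ e (P.gate e (k⁻¹ * T))) 0 (P.κ e (P.gate e T) - P.κ e k) s s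
    rw [sub_self, norm_zero, sub_self, abs_zero, zero_add, add_zero] at l1
    have e1 : P.κ e (P.gate e (k⁻¹ * T)) - (P.κ e (P.gate e T) - P.κ e k) =
      P.κ e (P.gate e (k⁻¹ * T)) - (-P.κ e k + P.κ e (P.gate e T)) := by abel
    rw [e1] at l1
    have e2 : P.κ e (P.gate e z) - (P.κ e k + go 0 (P.κ e (P.gate e T) - P.κ e k) s) =
      (P.κ e (P.gate e z) - (P.κ e k + P.κ e (P.gate e (P.b (k⁻¹ * T) s)))) +
      (P.κ e (P.gate e (P.b (k⁻¹ * T) s)) - go 0 (P.κ e (P.gate e (k⁻¹ * T))) s) +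
      (go 0 (P.κ e (P.gate e (k⁻¹ * T))) s - go 0 (P.κ e (P.gate e T) - P.κ e k) s) := by abel
    rw [e2]
    refine norm_add₃_le.trans ?_
    exact add_le_add (add_le_add h1.2 h2.2) (l1.trans h3.2)

theorem max_aux {dkg dk dg X Y X' Y' F h hm K r : ℝ} (h1 : |dkg - dk - dg| ≤ K)
    (h2 : |dk - max X' Y'| ≤ K) (h3 : |X' - max (X - (h - hm)) 0| ≤ r) (h4 : |Y' - Y| ≤ r)
    (hY : 0 ≤ Y) :
    |max (dg + max (h + Y) (hm + X)) (h + F) - (h + max dkg F)| ≤ 2 * K + r := by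
  rw [abs_le] at *
  have a1 := le_max_left X' Y'
  have a2 := le_max_right X' Y'
  have b1 := le_max_left (X - (h - hm)) 0
  have b2 := le_max_right (X - (h - hm)) 0
  have c1 := le_max_left dkg F
  have c2 := le_max_right dkg F
  have d1 := le_max_left (h + Y) (hm + X)
  have d2 := le_max_right (h + Y) (hm + X)
  have e1 := le_max_left (dg + max (h + Y) (hm + X)) (h + F)
  have e2 := le_max_right (dg + max (h + Y) (hm + X)) (h + F)
  have K0 : 0 ≤ K := by linarith [h1.1, h1.2]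
  have r0 : 0 ≤ r := by linarith [h4.1, h4.2]
  constructor
  · -- lower bound of the left hand side
    have : h + max dkg F ≤ max (dg + max (h + Y) (hm + X)) (h + F) + (2 * K + r) := by
      rw [← sub_nonneg]
      rcases max_cases dkg F with ⟨q, -⟩ | ⟨q, -⟩
      · rw [q]
        rcases max_cases X' Y' with ⟨q', -⟩ | ⟨q', -⟩
        · rw [q'] at h2
          rcases max_cases (X - (h - hm)) 0 with ⟨q'', -⟩ | ⟨q'', -⟩
          · rw [q''] at h3; linarith [h1.1, h1.2, h2.1, h2.2, h3.1, h3.2]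
          · rw [q''] at h3; linarith [h1.1, h1.2, h2.1, h2.2, h3.1, h3.2]
        · rw [q'] at h2; linarith [h1.1, h1.2, h2.1, h2.2, h4.1, h4.2]
      · rw [q]; linarith
    linarith
  · have : max (dg + max (h + Y) (hm + X)) (h + F) ≤ h + max dkg F + (2 * K + r) := by
      refine max_le ?_ (by linarith)
      have : max (h + Y) (hm + X) ≤ h + max dkg F + (2 * K + r) - dg := by
        refine max_le ?_ ?_
        · linarith [h1.1, h1.2, h2.1, h2.2, h4.1, h4.2]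
        · linarith [h1.1, h1.2, h2.1, h2.2, h3.1, h3.2]
      linarith
    linarith

theorem abs_norm_sub_sub (a b c : J → ℝ) {r : ℝ} (h : ‖b - c‖ ≤ r) :
    |‖a - b‖ - ‖a - c‖| ≤ r := by
  refine (abs_norm_sub_norm_le (a - b) (a - c)).trans ?_
  rw [show a - b - (a - c) = c - b by abel, norm_sub_rev]
  exact h

/-- L4: the duration -/
theorem DE_eq (hP : P.Good) (r : ℝ) : ∃ C, 0 ≤ C ∧ ∀ (X : Option (E × Sta J)) (g k : H),
    Ord X → P.Ent r X (P.tg X g) k →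
    |P.DE X g - (hE X + max (P.d (k⁻¹ * g)) ‖P.Φ g - aE X‖)| ≤ C := by
  have hK := K_nonneg hP
  refine ⟨2 * P.K + max r 0, by positivity, ?_⟩
  intro X g k hX hk
  have hr : r ≤ max r 0 := le_max_left _ _
  have hr0 : 0 ≤ max r 0 := le_max_right _ _
  rcases X with _ | ⟨e, σ⟩
  · have hk' : k = 1 := hk
    rw [hk']
    show |max (P.d g) ‖P.Φ g‖ - (0 + max (P.d (1⁻¹ * g)) ‖P.Φ g - 0‖)| ≤ _
    rw [inv_one, one_mul, sub_zero, zero_add, sub_self, abs_zero]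
    positivity
  · obtain ⟨hkA, hk1, hk2, hk3⟩ := hk
    have hp := hP.good3.gate_mem e g
    have s1 := (hP.good3.gate_out e g k hkA).1
    rw [show (k⁻¹ * P.gate e g)⁻¹ * (k⁻¹ * g) = (P.gate e g)⁻¹ * g by group] at s1
    have s2 := flat_dist hP hkA hp
    have s3 : |‖P.ω e (P.gate e g) - P.ω e k‖ -
        max (‖P.ω e (P.gate e g) - σ.α‖ - (σ.h - σ.hm)) 0| ≤ max r 0 := by
      rw [← norm_sub_go σ.α (P.ω e (P.gate e g)) (sub_nonneg.2 hX)]
      exact abs_norm_sub_sub _ _ _ (hk2.trans hr)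
    have s4 : |‖P.κ e (P.gate e g) - P.κ e k‖ - ‖P.κ e (P.gate e g) - σ.wκ‖| ≤ max r 0 :=
      abs_norm_sub_sub _ _ _ (hk3.trans hr)
    exact max_aux s1 s2 s3 s4 (norm_nonneg _)

/-- L5: the arrival time at the next flat -/
theorem h_eq (hP : P.Good) (r : ℝ) : ∃ C, 0 ≤ C ∧ ∀ (X : Option (E × Sta J)) (t : E) (x k p : H),
    Ord X → P.NPE X t x → P.Ent r X (P.uE X t x) k → P.Exi r (P.nxt X t x) t p →
    |(P.nxt X t x).h - (hE X + P.d (k⁻¹ * (x * p)))| ≤ C := by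
  have hK := K_nonneg hP
  obtain ⟨C1, hC1, fn⟩ := flat_near hP r
  obtain ⟨C2, hC2, ds⟩ := d_stab hP C1
  refine ⟨C2 + |P.R (max P.K r)| + 2 * P.K + |r| + P.K, by positivity, ?_⟩
  intro X t x k p hX hNP hk hp
  rcases X with _ | ⟨e, σ⟩
  · have hk' : k = 1 := hk
    obtain ⟨hpA, hp1, hp2⟩ := hp
    have h1 := fn t (P.gate t x⁻¹) p (hP.good3.gate_mem t _) hpA hp1 hp2
    have h2 := ds x⁻¹ x⁻¹ (P.gate t x⁻¹) p (by rw [M_self hP]; exact hC1) h1
    rw [inv_inv] at h2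
    rw [hk', inv_one, one_mul]
    show |P.d (x * P.gate t x⁻¹) - (0 + P.d (x * p))| ≤ _
    rw [zero_add]
    have a1 := abs_nonneg (P.R (max P.K r))
    have a2 := abs_nonneg r
    exact h2.trans (by linarith)
  · obtain ⟨hkA, hk1, hk2, hk3⟩ := hk
    obtain ⟨hpA, hp1, hp2⟩ := hp
    have hNP' : P.NP e t x := hNP
    have hq := hP.good3.gate_mem e (x * p)
    have ug := hP.good3.u_gate e t x hNP' p hpA
    set q := P.gate e (x * p) with hqdef
    have s1 := (hP.good3.gate_out e (x * p) k hkA).1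
    rw [← hqdef, show (k⁻¹ * q)⁻¹ * (k⁻¹ * (x * p)) = q⁻¹ * x * p by group] at s1
    have s2 := flat_dist hP hkA hq
    have s3 := hP.good4.ℓ_d (max P.K r) e t x hNP' q hq p hpA
      (ug.1.trans (le_max_left _ _)) (ug.2.trans (le_max_left _ _))
      (hp1.trans (le_max_right _ _)) (hp2.trans (le_max_right _ _))
    have s4 : |‖P.ω e q - P.ω e k‖ -
        max (‖P.uω e t x - σ.α‖ - (σ.h - σ.hm)) 0| ≤ P.K + |r| := by
      rw [← norm_sub_go σ.α (P.uω e t x) (sub_nonneg.2 hX)]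
      refine (abs_norm_sub_norm_le _ _).trans ?_
      have : P.ω e q - P.ω e k - (P.uω e t x - go σ.α (P.uω e t x) (σ.h - σ.hm)) =
        (P.ω e q - P.uω e t x) - (P.ω e k - go σ.α (P.uω e t x) (σ.h - σ.hm)) := by abel
      rw [this]
      exact (norm_sub_le _ _).trans (add_le_add ug.1 (hk2.trans (le_abs_self r)))
    have s5 : |‖P.κ e q - P.κ e k‖ - ‖P.uκ e t x - σ.wκ‖| ≤ P.K + |r| := by
      refine (abs_norm_sub_norm_le _ _).trans ?_
      have : P.κ e q - P.κ e k - (P.uκ e t x - σ.wκ) =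
        (P.κ e q - P.uκ e t x) - (P.κ e k - σ.wκ) := by abel
      rw [this]
      exact (norm_sub_le _ _).trans (add_le_add ug.2 (hk3.trans (le_abs_self r)))
    have s6 := max_aux (F := 0) s1 s2 s4 s5 (norm_nonneg _)
    have n1 := hP.good1.d_nonneg (k⁻¹ * (x * p))
    have n2 := hP.good1.d_nonneg (q⁻¹ * x * p)
    rw [max_eq_left n1] at s6
    have n3 : σ.h + 0 ≤ P.d (q⁻¹ * x * p) + max (σ.h + ‖P.uκ e t x - σ.wκ‖)
        (σ.hm + ‖P.uω e t x - σ.α‖) := by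
      have := le_max_left (σ.h + ‖P.uκ e t x - σ.wκ‖) (σ.hm + ‖P.uω e t x - σ.α‖)
      have := norm_nonneg (P.uκ e t x - σ.wκ)
      linarith
    rw [max_eq_left n3] at s6
    have s7 := s3.trans (le_abs_self _)
    show |P.ℓ e t x + max (σ.h + ‖P.uκ e t x - σ.wκ‖) (σ.hm + ‖P.uω e t x - σ.α‖) -
      (σ.h + P.d (k⁻¹ * (x * p)))| ≤ _
    rw [abs_le] at s6 s7 ⊢
    constructor <;> linarith [s6.1, s6.2, s7.1, s7.2]

/-- L6: closeness of positions -/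
theorem loc_stab (hP : P.Good) (r : ℝ) : ∃ C, 0 ≤ C ∧
    ∀ (c k T k' T' z z' : H) (a B a' B' : J → ℝ) (s s' : ℝ),
    P.M ((c * k)⁻¹ * k') ≤ r → P.M ((c * T)⁻¹ * T') ≤ r → |s - s'| ≤ r →
    ‖a' - a - P.Φ c‖ ≤ r → ‖B' - B - P.Φ c‖ ≤ r →
    P.Loc r k T a B s z → P.Loc r k' T' a' B' s' z' →
    P.M ((c * z)⁻¹ * z') ≤ C ∧ ‖P.Φ ((c * z)⁻¹ * z')‖ ≤ C := by
  have hK := K_nonneg hP
  obtain ⟨C1, hC1, ps⟩ := path_stab hP r
  refine ⟨C1 + |r| + |r| + (5 * |r| + 4 * P.K), by positivity, ?_⟩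
  intro c k T k' T' z z' a B a' B' s s' h1 h2 h3 h4 h5 l1 l2
  have hr := le_abs_self r
  have hr0 := abs_nonneg r
  constructor
  · have p1 := ps c k T k' T' s s' h1 h2 h3
    have t1 := M_tri hP (c * z) (c * (k * P.b (k⁻¹ * T) s)) z'
    have t2 := M_tri hP (c * (k * P.b (k⁻¹ * T) s)) (k' * P.b (k'⁻¹ * T') s') z'
    have t3 : P.M ((c * z)⁻¹ * (c * (k * P.b (k⁻¹ * T) s))) ≤ r := by
      rw [show (c * z)⁻¹ * (c * (k * P.b (k⁻¹ * T) s)) = z⁻¹ * (k * P.b (k⁻¹ * T) s) by group]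
      exact l1.1
    have t4 : P.M ((k' * P.b (k'⁻¹ * T') s')⁻¹ * z') ≤ r := by
      rw [M_comm hP]; exact l2.1
    linarith
  · have p1 := Φ_div hP (c * z) z'
    have p2 := hP.good1.Φ_mul c z
    have p3 := go_lip (a + P.Φ c) (B + P.Φ c) a' B' s s'
    rw [go_add] at p3
    have e1 : P.Φ ((c * z)⁻¹ * z') = (P.Φ ((c * z)⁻¹ * z') - (P.Φ z' - P.Φ (c * z))) +
      (P.Φ z' - go a' B' s') - (P.Φ z - go a B s) - (P.Φ (c * z) - P.Φ c - P.Φ z) -
      (go a B s + P.Φ c - go a' B' s') := by abel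
    have e2 : a + P.Φ c - a' = -(a' - a - P.Φ c) := by abel
    have e3 : B + P.Φ c - B' = -(B' - B - P.Φ c) := by abel
    rw [e2, e3, norm_neg, norm_neg] at p3
    rw [e1]
    have n1 := norm_sub_le ((P.Φ ((c * z)⁻¹ * z') - (P.Φ z' - P.Φ (c * z))) +
      (P.Φ z' - go a' B' s') - (P.Φ z - go a B s) - (P.Φ (c * z) - P.Φ c - P.Φ z))
      (go a B s + P.Φ c - go a' B' s')
    have n2 := norm_sub_le ((P.Φ ((c * z)⁻¹ * z') - (P.Φ z' - P.Φ (c * z))) +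
      (P.Φ z' - go a' B' s') - (P.Φ z - go a B s)) (P.Φ (c * z) - P.Φ c - P.Φ z)
    have n3 := norm_sub_le ((P.Φ ((c * z)⁻¹ * z') - (P.Φ z' - P.Φ (c * z))) +
      (P.Φ z' - go a' B' s')) (P.Φ z - go a B s)
    have n4 := norm_add_le (P.Φ ((c * z)⁻¹ * z') - (P.Φ z' - P.Φ (c * z)))
      (P.Φ z' - go a' B' s')
    have l1' := l1.2
    have l2' := l2.2
    linarith

theorem ΘE_Φ (hP : P.Good) (X : Option (E × Sta J)) (t : E) (x : H) (hX : P.NPE X t x) :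
    ‖P.ΘE X t x - P.Φ x‖ ≤ P.K := by
  rcases X with _ | ⟨e, σ⟩
  · show ‖P.Φ x - P.Φ x‖ ≤ _
    rw [sub_self, norm_zero]; exact K_nonneg hP
  · exact hP.good4.Θ_Φ e t x hX

/-- end of paths, for late times -/
theorem b_late (hP : P.Good) (r : ℝ) : ∃ C, 0 ≤ C ∧ ∀ x t, P.d x ≤ t + r →
    P.M ((P.b x t)⁻¹ * x) ≤ C := by
  obtain ⟨C, hC, h⟩ := b_stab hP |r|
  refine ⟨C + P.K, add_nonneg hC (K_nonneg hP), ?_⟩
  intro x t ht
  have m1 : P.M (1 : H) ≤ |r| := by rw [hP.good1.M_one]; exact abs_nonneg r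
  have h1 := (h x 1 1 t (t + |r|) m1 m1 (by
    rw [show t - (t + |r|) = -|r| by ring, abs_neg, abs_abs])).1
  rw [inv_one, one_mul, mul_one, one_mul] at h1
  have h2 := hP.good1.b_end x (t + |r|) (by linarith [le_abs_self r])
  exact (M_tri hP _ _ _).trans (add_le_add h1 h2)

/-- L7: the exit point is a position at the arrival time -/
theorem exit_loc (hP : P.Good) (r : ℝ) : ∃ C, 0 ≤ C ∧
    ∀ (X : Option (E × Sta J)) (t : E) (x k p p' : H) (u' : J → ℝ),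
    Ord X → P.NPE X t x → P.Ent r X (P.uE X t x) k → P.Exi r (P.nxt X t x) t p →
    P.Exi r (P.nxt X t x) t p' →
    ‖P.φ t p' - go (P.nxt X t x).α u' ((P.nxt X t x).h - (P.nxt X t x).hm)‖ ≤ r →
    P.Loc C k (x * p) (aE X) (P.ΘE X t x + u') ((P.nxt X t x).h - hE X) (x * p') := by
  have hK := K_nonneg hP
  obtain ⟨C1, hC1, he⟩ := h_eq hP r
  obtain ⟨C2, hC2, bl⟩ := b_late hP C1
  obtain ⟨C3, hC3, fn⟩ := flat_near hP (r + r)
  refine ⟨C2 + C3 + 3 * P.K + |r|, by positivity, ?_⟩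
  intro X t x k p p' u' hX hNP hk hp hp' hφ
  have hr := le_abs_self r
  have hr0 := abs_nonneg r
  constructor
  · have h1 := he X t x k p hX hNP hk hp
    have h2 := bl (k⁻¹ * (x * p)) ((P.nxt X t x).h - hE X) (by linarith [(abs_le.1 h1).1])
    have h3 : P.M ((k * P.b (k⁻¹ * (x * p)) ((P.nxt X t x).h - hE X))⁻¹ * (x * p)) ≤ C2 := by
      rw [show (k * P.b (k⁻¹ * (x * p)) ((P.nxt X t x).h - hE X))⁻¹ * (x * p) =
        (P.b (k⁻¹ * (x * p)) ((P.nxt X t x).h - hE X))⁻¹ * (k⁻¹ * (x * p)) by group]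
      exact h2
    have h4 : P.M (p'⁻¹ * p) ≤ C3 := by
      refine fn t p' p hp'.1 hp.1 ?_ ?_
      · rw [show P.ω t p - P.ω t p' = (P.ω t p - (P.nxt X t x).wω) -
          (P.ω t p' - (P.nxt X t x).wω) by abel]
        exact (norm_sub_le _ _).trans (add_le_add hp.2.1 hp'.2.1)
      · rw [show P.κ t p - P.κ t p' = (P.κ t p - (P.nxt X t x).wκ) -
          (P.κ t p' - (P.nxt X t x).wκ) by abel]
        exact (norm_sub_le _ _).trans (add_le_add hp.2.2 hp'.2.2)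
    have h5 : P.M ((x * p')⁻¹ * (x * p)) ≤ C3 := by
      rw [show (x * p')⁻¹ * (x * p) = p'⁻¹ * p by group]; exact h4
    have h6 := M_tri hP (x * p') (x * p) (k * P.b (k⁻¹ * (x * p)) ((P.nxt X t x).h - hE X))
    rw [M_comm hP (x * p) (k * _)] at h6
    linarith
  · have h1 := hP.good1.Φ_mul x p'
    have h2 := hP.good2.flat_Φ t p' hp'.1
    have h3 := ΘE_Φ hP X t x hNP
    rw [nxt_hm, nxt_α] at hφ
    have e1 : go (aE X) (P.ΘE X t x + u') ((P.nxt X t x).h - hE X) =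
        P.ΘE X t x + go (aE X - P.ΘE X t x) u' ((P.nxt X t x).h - hE X) := by
      rw [← go_add']
      congr 1
      abel
    rw [e1]
    have e2 : P.Φ (x * p') - (P.ΘE X t x + go (aE X - P.ΘE X t x) u'
        ((P.nxt X t x).h - hE X)) = (P.Φ (x * p') - P.Φ x - P.Φ p') + (P.Φ p' - P.φ t p') -
      (P.ΘE X t x - P.Φ x) + (P.φ t p' - go (aE X - P.ΘE X t x) u'
        ((P.nxt X t x).h - hE X)) := by abel
    rw [e2]
    have n1 := norm_add_le ((P.Φ (x * p') - P.Φ x - P.Φ p') + (P.Φ p' - P.φ t p') -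
      (P.ΘE X t x - P.Φ x)) (P.φ t p' - go (aE X - P.ΘE X t x) u' ((P.nxt X t x).h - hE X))
    have n2 := norm_sub_le ((P.Φ (x * p') - P.Φ x - P.Φ p') + (P.Φ p' - P.φ t p'))
      (P.ΘE X t x - P.Φ x)
    have n3 := norm_add_le (P.Φ (x * p') - P.Φ x - P.Φ p') (P.Φ p' - P.φ t p')
    linarith

end LPiece

end Run7.h230
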