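import Pool.Agent.Run7.h230.LocalB

set_option autoImplicit false

/-! Local lemmas on pieces, part C: positions in slots. -/

namespace Run7.h230

namespace LPiece

variable {H E J : Type} [Group H] [Fintype J] (P : LPiece H E J)

/-- position in the last slot -/
def PosL (ρ r : ℝ) (X : Option (E × Sta J)) (g : H) (τ : ℝ) (z : H) : Prop :=
  ∃ k, P.Ent ρ X (P.tg X g) k ∧ P.Loc r k g (aE X) (P.Φ g) (τ - hE X) z

/-- position in a middle slot -/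
def PosM (ρ r : ℝ) (X : Option (E × Sta J)) (t : E) (x : H) (u' : J → ℝ) (τ : ℝ) (z : H) :
    Prop :=
  ∃ k p, P.Ent ρ X (P.uE X t x) k ∧ P.Exi ρ (P.nxt X t x) t p ∧
    P.Loc r k (x * p) (aE X) (P.ΘE X t x + u') (τ - hE X) z

/-- supports -/
def SOK : Option (E × Sta J) → Prop
  | none => True
  | some (e, σ) => Supp P.Sφ σ.wω ∧ Supp (P.Sω e) σ.α ∧ Supp (P.Sκ e) σ.wκ

/-- closeness of entries -/
def EC (r : ℝ) (c : H) : Option (E × Sta J) → Option (E × Sta J) → Prop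
  | none, none => P.M c ≤ r ∧ ‖P.Φ c‖ ≤ r
  | none, some (_, σ) => c = 1 ∧ |σ.hm| ≤ r ∧ ‖σ.α‖ ≤ r ∧ |σ.h| ≤ r ∧ ‖σ.wω‖ ≤ r ∧ ‖σ.wκ‖ ≤ r
  | some (e, σ), some (e', σ') => e = e' ∧ c ∈ P.A e ∧
      |σ'.hm - σ.hm| + ‖σ'.α - σ.α - P.ω e c‖ ≤ r ∧
      |σ'.h - σ.h| + ‖σ'.wκ - σ.wκ - P.κ e c‖ ≤ r ∧
      |σ'.h - σ.h| + ‖σ'.wω - σ.wω - P.φ e c‖ ≤ r
  | some _, none => False

/-- closeness of look-ahead coordinates -/
def UC (r : ℝ) (c : H) (X : Option (E × Sta J)) (u u' : J → ℝ) : Prop :=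
  ∀ e σ, X = some (e, σ) → ‖u' - u - P.ω e c‖ ≤ r

/-- closeness of the next states -/
def NC (r : ℝ) (a : H) (t : E) (σ σ' : Sta J) : Prop :=
  |σ'.hm - σ.hm| + ‖σ'.α - σ.α + P.φ t a‖ ≤ r ∧
    |σ'.h - σ.h| + ‖σ'.wκ - σ.wκ + P.κ t a‖ ≤ r ∧
    |σ'.h - σ.h| + ‖σ'.wω - σ.wω + P.ω t a‖ ≤ r

variable {P}

theorem NP_symm {e t : E} {x : H} (h : P.NP e t x) : P.NP t e x⁻¹ := by
  rintro ⟨h1, h2⟩
  apply h
  refine ⟨h1.symm, ?_⟩
  rw [← h1]
  exact (P.A t).inv_mem_iff.1 h2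

theorem PosL.mono {ρ ρ' r r' : ℝ} (hρ : ρ ≤ ρ') (hr : r ≤ r') {X : Option (E × Sta J)} {g : H}
    {τ : ℝ} {z : H} (h : P.PosL ρ r X g τ z) : P.PosL ρ' r' X g τ z := by
  obtain ⟨k, h1, h2⟩ := h
  exact ⟨k, h1.mono hρ, h2.mono hr⟩

theorem PosM.mono {ρ ρ' r r' : ℝ} (hρ : ρ ≤ ρ') (hr : r ≤ r') {X : Option (E × Sta J)} {t : E}
    {x : H} {u' : J → ℝ} {τ : ℝ} {z : H}
    (h : P.PosM ρ r X t x u' τ z) : P.PosM ρ' r' X t x u' τ z := by
  obtain ⟨k, p, h1, h2, h3⟩ := h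
  exact ⟨k, p, h1.mono hρ, h2.mono hρ, h3.mono hr⟩

/-- L8, general form -/
theorem D_pos (hP : P.Good) (r : ℝ) : ∃ C, 0 ≤ C ∧ ∀ (X : Option (E × Sta J)) (k T z : H)
    (u B : J → ℝ) (s : ℝ), Ord X → 0 ≤ s → P.Ent r X u k → ‖P.tg X T - u‖ ≤ r →
    P.Loc r k T (aE X) B s z →
    |P.DE X z - (hE X + max (min s (P.d (k⁻¹ * T))) (min s ‖B - aE X‖))| ≤ C := by
  obtain ⟨C1, hC1, gl⟩ := gate_loc hP r
  obtain ⟨C2, hC2, de⟩ := DE_eq hP (C1 + 3 * |r|)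
  obtain ⟨C3, hC3, ds⟩ := d_stab hP |r|
  obtain ⟨C4, hC4, bt⟩ := b_time' hP
  refine ⟨C2 + (C3 + C4 + |r|), by positivity, ?_⟩
  intro X k T z u B s hX hs hk hT hz
  have hr := le_abs_self r
  have hr0 := abs_nonneg r
  have hk' : P.Ent (C1 + 3 * |r|) X (P.tg X z) k := by
    rcases X with _ | ⟨e, σ⟩
    · exact hk
    · obtain ⟨hkA, hk1, hk2, hk3⟩ := hk
      have g1 := (gl e k T z s hkA hs hz.1).1
      refine ⟨hkA, hk1.trans (by linarith), ?_, hk3.trans (by linarith)⟩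
      have hs0 : 0 ≤ σ.h - σ.hm := sub_nonneg.2 hX
      have hT' : ‖P.ω e (P.gate e T) - u‖ ≤ r := hT
      show ‖P.ω e k - go σ.α (P.ω e (P.gate e z)) (σ.h - σ.hm)‖ ≤ _
      have l1 := go_lip σ.α (P.ω e (P.gate e z)) σ.α (go (P.ω e k) (P.ω e (P.gate e T)) s)
        (σ.h - σ.hm) (σ.h - σ.hm)
      have l2 := go_lip (P.ω e k) (P.ω e (P.gate e T)) (go σ.α u (σ.h - σ.hm)) u s s
      have l3 := go_lip σ.α (go (P.ω e k) (P.ω e (P.gate e T)) s) σ.α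
        (go (go σ.α u (σ.h - σ.hm)) u s) (σ.h - σ.hm) (σ.h - σ.hm)
      rw [go_go _ _ hs0 hs, go_go' _ _ hs0 hs] at l3
      rw [go_go _ _ hs0 hs] at l2
      simp only [sub_self, norm_zero, abs_zero, zero_add, add_zero] at l1 l2 l3
      have e1 : P.ω e k - go σ.α (P.ω e (P.gate e z)) (σ.h - σ.hm) =
        (P.ω e k - go σ.α u (σ.h - σ.hm)) -
        (go σ.α (P.ω e (P.gate e z)) (σ.h - σ.hm) -
          go σ.α (go (P.ω e k) (P.ω e (P.gate e T)) s) (σ.h - σ.hm)) -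
        (go σ.α (go (P.ω e k) (P.ω e (P.gate e T)) s) (σ.h - σ.hm) -
          go σ.α u (σ.h - σ.hm)) := by abel
      rw [e1]
      have n1 := norm_sub_le ((P.ω e k - go σ.α u (σ.h - σ.hm)) -
        (go σ.α (P.ω e (P.gate e z)) (σ.h - σ.hm) -
          go σ.α (go (P.ω e k) (P.ω e (P.gate e T)) s) (σ.h - σ.hm)))
        (go σ.α (go (P.ω e k) (P.ω e (P.gate e T)) s) (σ.h - σ.hm) -
          go σ.α u (σ.h - σ.hm))
      have n2 := norm_sub_le (P.ω e k - go σ.α u (σ.h - σ.hm))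
        (go σ.α (P.ω e (P.gate e z)) (σ.h - σ.hm) -
          go σ.α (go (P.ω e k) (P.ω e (P.gate e T)) s) (σ.h - σ.hm))
      linarith
  have h1 := de X z k hX hk'
  have h2 := ds k k z (k * P.b (k⁻¹ * T) s) (by rw [M_self hP]; exact hr0) (hz.1.trans hr)
  rw [inv_mul_cancel_left] at h2
  have h3 := (bt (k⁻¹ * T) s hs).1
  have h4 : |P.d (k⁻¹ * z) - min s (P.d (k⁻¹ * T))| ≤ C3 + C4 + |r| := by
    have := abs_add_le (P.d (k⁻¹ * z) - P.d (P.b (k⁻¹ * T) s))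
      (P.d (P.b (k⁻¹ * T) s) - min s (P.d (k⁻¹ * T)))
    rw [show P.d (k⁻¹ * z) - P.d (P.b (k⁻¹ * T) s) + (P.d (P.b (k⁻¹ * T) s) -
      min s (P.d (k⁻¹ * T))) = P.d (k⁻¹ * z) - min s (P.d (k⁻¹ * T)) by ring] at this
    linarith
  have h5 : |‖P.Φ z - aE X‖ - min s ‖B - aE X‖| ≤ C3 + C4 + |r| := by
    rw [← norm_go_sub _ _ hs]
    refine (abs_norm_sub_norm_le _ _).trans ?_
    rw [sub_sub_sub_cancel_right]
    exact hz.2.trans (by linarith)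
  have h6 := abs_max_sub_max_le_max (P.d (k⁻¹ * z)) ‖P.Φ z - aE X‖
    (min s (P.d (k⁻¹ * T))) (min s ‖B - aE X‖)
  have h7 := h6.trans (max_le h4 h5)
  rw [abs_le] at h1 h7 ⊢
  constructor <;> linarith [h1.1, h1.2, h7.1, h7.2]

theorem max_min_min (s a b : ℝ) : max (min s a) (min s b) = min s (max a b) := by
  rw [min_max_distrib_left]

/-- L8, last slot -/
theorem posL_D (hP : P.Good) (r : ℝ) : ∃ C, 0 ≤ C ∧ ∀ (X : Option (E × Sta J)) (g z : H) (τ : ℝ),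
    Ord X → hE X ≤ τ → P.PosL r r X g τ z → |P.DE X z - min τ (P.DE X g)| ≤ C := by
  obtain ⟨C1, hC1, dp⟩ := D_pos hP |r|
  obtain ⟨C2, hC2, de⟩ := DE_eq hP r
  refine ⟨C1 + C2, by positivity, ?_⟩
  intro X g z τ hX hτ hz
  obtain ⟨k, hk, hl⟩ := hz
  have hr := le_abs_self r
  have h1 := dp X k g z (P.tg X g) (P.Φ g) (τ - hE X) hX (sub_nonneg.2 hτ) (hk.mono hr)
    (by rw [sub_self, norm_zero]; exact abs_nonneg r) (hl.mono hr)
  rw [max_min_min] at h1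
  have h2 := de X g k hX hk
  have h3 := abs_min_sub_min_le_max τ (hE X + max (P.d (k⁻¹ * g)) ‖P.Φ g - aE X‖) τ (P.DE X g)
  rw [sub_self, abs_zero] at h3
  rw [abs_sub_comm] at h2
  have h4 := h3.trans (max_le hC2 h2)
  have e1 : hE X + min (τ - hE X) (max (P.d (k⁻¹ * g)) ‖P.Φ g - aE X‖) =
      min τ (hE X + max (P.d (k⁻¹ * g)) ‖P.Φ g - aE X‖) := by
    rw [add_comm, min_add, sub_add_cancel, add_comm]
  rw [e1] at h1
  rw [abs_le] at h1 h4 ⊢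
  constructor <;> linarith [h1.1, h1.2, h4.1, h4.2]

theorem tg_uE (hP : P.Good) (X : Option (E × Sta J)) (t : E) (x p : H) (hX : P.NPE X t x)
    (hp : p ∈ P.A t) : ‖P.tg X (x * p) - P.uE X t x‖ ≤ P.K := by
  rcases X with _ | ⟨e, σ⟩
  · show ‖(0 : J → ℝ) - 0‖ ≤ _
    rw [sub_self, norm_zero]; exact K_nonneg hP
  · exact (hP.good3.u_gate e t x hX p hp).1

/-- L8, middle slot -/
theorem posM_D (hP : P.Good) (r : ℝ) : ∃ C, 0 ≤ C ∧ ∀ (X : Option (E × Sta J)) (t : E) (x z : H)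
    (u' : J → ℝ) (τ : ℝ), Ord X → P.NPE X t x → hE X ≤ τ → τ ≤ (P.nxt X t x).h →
    P.PosM r r X t x u' τ z → |P.DE X z - τ| ≤ C := by
  obtain ⟨C1, hC1, dp⟩ := D_pos hP (max |r| P.K)
  obtain ⟨C2, hC2, he⟩ := h_eq hP r
  refine ⟨C1 + C2, by positivity, ?_⟩
  intro X t x z u' τ hX hNP hτ hτ' hz
  obtain ⟨k, p, hk, hp, hl⟩ := hz
  have hr : r ≤ max |r| P.K := (le_abs_self r).trans (le_max_left _ _)
  have h1 := dp X k (x * p) z (P.uE X t x) (P.ΘE X t x + u') (τ - hE X) hX (sub_nonneg.2 hτ)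
    (hk.mono hr) ((tg_uE hP X t x p hNP hp.1).trans (le_max_right _ _)) (hl.mono hr)
  rw [max_min_min] at h1
  have h2 := he X t x k p hX hNP hk hp
  have h3 : |min (τ - hE X) (max (P.d (k⁻¹ * (x * p))) ‖P.ΘE X t x + u' - aE X‖) -
      (τ - hE X)| ≤ C2 := by
    have m0 := min_le_left (τ - hE X) (max (P.d (k⁻¹ * (x * p))) ‖P.ΘE X t x + u' - aE X‖)
    rw [abs_of_nonpos (by linarith)]
    have : τ - hE X - C2 ≤ min (τ - hE X)
      (max (P.d (k⁻¹ * (x * p))) ‖P.ΘE X t x + u' - aE X‖) := by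
      refine le_min (by linarith) (le_trans ?_ (le_max_left _ _))
      linarith [(abs_le.1 h2).2]
    linarith
  rw [abs_le] at h1 h3 ⊢
  constructor <;> linarith [h1.1, h1.2, h3.1, h3.2]

/-! ### existence -/

theorem ent_ex (hP : P.Good) (X : Option (E × Sta J)) (u : J → ℝ) (hX : P.SOK X)
    (hu : ∀ e σ, X = some (e, σ) → Supp (P.Sω e) u) : ∃ k, P.Ent P.K X u k := by
  rcases X with _ | ⟨e, σ⟩
  · exact ⟨1, rfl⟩
  · obtain ⟨k, hk, h1, h2, h3⟩ := hP.good2.dense e σ.wω (go σ.α u (σ.h - σ.hm)) σ.wκ hX.1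
      (go_supp hX.2.1 (hu e σ rfl) _) hX.2.2
    exact ⟨k, hk, h1, h2, h3⟩

theorem nxt_wω_supp (hP : P.Good) (X : Option (E × Sta J)) (t : E) (x : H) (hX : P.NPE X t x) :
    Supp (P.Sω t) (P.nxt X t x).wω := by
  rcases X with _ | ⟨e, σ⟩
  · exact hP.good2.ω_supp t _ (hP.good3.gate_mem t _)
  · exact hP.good3.uω_supp t e x⁻¹ (NP_symm hX)

theorem nxt_wκ_supp (hP : P.Good) (X : Option (E × Sta J)) (t : E) (x : H) (hX : P.NPE X t x) :
    Supp (P.Sκ t) (P.nxt X t x).wκ := by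
  rcases X with _ | ⟨e, σ⟩
  · exact hP.good2.κ_supp t _ (hP.good3.gate_mem t _)
  · exact hP.good3.uκ_supp t e x⁻¹ (NP_symm hX)

theorem ΘE_supp (hP : P.Good) (X : Option (E × Sta J)) (t : E) (x : H) (hX : P.NPE X t x) :
    Supp P.Sφ (P.ΘE X t x) := by
  rcases X with _ | ⟨e, σ⟩
  · exact hP.good1.Φ_supp x
  · exact hP.good4.Θ_supp e t x hX

theorem aE_supp (X : Option (E × Sta J)) (hX : P.SOK X) : Supp P.Sφ (aE X) := by
  rcases X with _ | ⟨e, σ⟩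
  · exact Supp.zero _
  · exact hX.1

theorem nxt_α_supp (hP : P.Good) (X : Option (E × Sta J)) (t : E) (x : H) (hX : P.NPE X t x)
    (hS : P.SOK X) : Supp P.Sφ (P.nxt X t x).α := by
  rw [nxt_α]
  exact (aE_supp X hS).sub (ΘE_supp hP X t x hX)

theorem exi_ex (hP : P.Good) (X : Option (E × Sta J)) (t : E) (x : H) (hX : P.NPE X t x) :
    ∃ p, P.Exi P.K (P.nxt X t x) t p := by
  obtain ⟨p, hp, -, h2, h3⟩ := hP.good2.dense t 0 _ _ (Supp.zero _)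
    (nxt_wω_supp hP X t x hX) (nxt_wκ_supp hP X t x hX)
  exact ⟨p, hp, h2, h3⟩

theorem loc_ex (hP : P.Good) (k T : H) (a B : J → ℝ) (s : ℝ) (ha : Supp P.Sφ a)
    (hB : Supp P.Sφ B) : ∃ z, P.Loc P.K k T a B s z := by
  obtain ⟨z, h1, h2⟩ := hP.good1.realize (k * P.b (k⁻¹ * T) s) (go a B s) (go_supp ha hB s)
  exact ⟨z, by rwa [M_comm hP], h2⟩

theorem posL_ex (hP : P.Good) (X : Option (E × Sta J)) (g : H) (τ : ℝ) (hX : P.SOK X) :
    ∃ z, P.PosL P.K P.K X g τ z := by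
  obtain ⟨k, hk⟩ := ent_ex hP X (P.tg X g) hX (by
    rintro e σ rfl
    exact hP.good2.ω_supp e _ (hP.good3.gate_mem e g))
  obtain ⟨z, hz⟩ := loc_ex hP k g (aE X) (P.Φ g) (τ - hE X) (aE_supp X hX) (hP.good1.Φ_supp g)
  exact ⟨z, k, hk, hz⟩

theorem uE_supp (hP : P.Good) (X : Option (E × Sta J)) (t : E) (x : H) (hX : P.NPE X t x) :
    ∀ e σ, X = some (e, σ) → Supp (P.Sω e) (P.uE X t x) := by
  rintro e σ rfl
  exact hP.good3.uω_supp e t x hX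

theorem posM_ex (hP : P.Good) (X : Option (E × Sta J)) (t : E) (x : H) (u' : J → ℝ) (τ : ℝ)
    (hX : P.SOK X) (hNP : P.NPE X t x) (hu : Supp P.Sφ u') : ∃ z, P.PosM P.K P.K X t x u' τ z := by
  obtain ⟨k, hk⟩ := ent_ex hP X (P.uE X t x) hX (uE_supp hP X t x hNP)
  obtain ⟨p, hp⟩ := exi_ex hP X t x hNP
  obtain ⟨z, hz⟩ := loc_ex hP k (x * p) (aE X) (P.ΘE X t x + u') (τ - hE X) (aE_supp X hX)
    ((ΘE_supp hP X t x hNP).add hu)
  exact ⟨z, k, p, hk, hp, hz⟩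

/-! ### closeness of entries -/

theorem ec_entry (hP : P.Good) (r : ℝ) : ∃ C, 0 ≤ C ∧ ∀ (X X' : Option (E × Sta J)) (c k k' : H)
    (u u' : J → ℝ), Ord X → Ord X' → P.EC r c X X' → P.UC r c X u u' → P.Ent r X u k →
    P.Ent r X' u' k' → P.M ((c * k)⁻¹ * k') ≤ C := by
  obtain ⟨C1, hC1, fn⟩ := flat_near hP (7 * |r|)
  have hr0 := abs_nonneg r
  have hr := le_abs_self r
  refine ⟨C1 + |r|, by positivity, ?_⟩
  intro X X' c k k' u u' hX hX' hc hu hk hk'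
  rcases X with _ | ⟨e, σ⟩
  · have hk1 : k = 1 := hk
    rcases X' with _ | ⟨e', σ'⟩
    · have hk1' : k' = 1 := hk'
      rw [hk1, hk1', mul_one, mul_one, hP.good1.M_inv]
      exact hc.1.trans (by linarith)
    · obtain ⟨hc1, h1, h2, h3, h4, h5⟩ := hc
      obtain ⟨hkA, hk1', hk2, hk3⟩ := hk'
      rw [hk1, hc1, mul_one]
      have hs : 0 ≤ σ'.h - σ'.hm := sub_nonneg.2 hX'
      have g1 := norm_go_sub σ'.α u' hs
      have g2 := min_le_left (σ'.h - σ'.hm) ‖u' - σ'.α‖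
      have a1 := abs_le.1 h1
      have a3 := abs_le.1 h3
      have g3 : ‖go σ'.α u' (σ'.h - σ'.hm) - σ'.α‖ ≤ 2 * r := by
        rw [g1]; linarith [a1.1, a1.2, a3.1, a3.2]
      refine (fn e' 1 k' (P.A e').one_mem hkA ?_ ?_).trans (by linarith)
      · rw [add_one (hP.good2.ω_mul e'), sub_zero]
        have e1 : P.ω e' k' = (P.ω e' k' - go σ'.α u' (σ'.h - σ'.hm)) +
          (go σ'.α u' (σ'.h - σ'.hm) - σ'.α) + σ'.α := by abel
        rw [e1]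
        refine norm_add₃_le.trans ?_
        linarith
      · rw [add_one (hP.good2.κ_mul e'), sub_zero]
        have e1 : P.κ e' k' = (P.κ e' k' - σ'.wκ) + σ'.wκ := by abel
        rw [e1]
        refine (norm_add_le _ _).trans ?_
        linarith
  · rcases X' with _ | ⟨e', σ'⟩
    · exact hc.elim
    · obtain ⟨he, hcA, h1, h2, h3⟩ := hc
      subst he
      obtain ⟨hkA, hk1, hk2, hk3⟩ := hk
      obtain ⟨hkA', hk1', hk2', hk3'⟩ := hk'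
      have hu' := hu e σ rfl
      have n1 := abs_nonneg (σ'.hm - σ.hm)
      have n2 := abs_nonneg (σ'.h - σ.h)
      have n3 := norm_nonneg (σ'.α - σ.α - P.ω e c)
      have n4 := norm_nonneg (σ'.wκ - σ.wκ - P.κ e c)
      refine (fn e (c * k) k' ((P.A e).mul_mem hcA hkA) hkA' ?_ ?_).trans (by linarith)
      · rw [hP.good2.ω_mul e c hcA k hkA]
        have l1 := go_lip σ'.α u' (P.ω e c + σ.α) (P.ω e c + u) (σ'.h - σ'.hm) (σ.h - σ.hm)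
        rw [go_add'] at l1
        have e1 : P.ω e k' - (P.ω e c + P.ω e k) =
          (P.ω e k' - go σ'.α u' (σ'.h - σ'.hm)) - (P.ω e k - go σ.α u (σ.h - σ.hm)) +
          (go σ'.α u' (σ'.h - σ'.hm) - (P.ω e c + go σ.α u (σ.h - σ.hm))) := by abel
        rw [e1]
        have m1 := norm_add_le ((P.ω e k' - go σ'.α u' (σ'.h - σ'.hm)) -
          (P.ω e k - go σ.α u (σ.h - σ.hm)))
          (go σ'.α u' (σ'.h - σ'.hm) - (P.ω e c + go σ.α u (σ.h - σ.hm)))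
        have m2 := norm_sub_le (P.ω e k' - go σ'.α u' (σ'.h - σ'.hm))
          (P.ω e k - go σ.α u (σ.h - σ.hm))
        have e2 : σ'.α - (P.ω e c + σ.α) = σ'.α - σ.α - P.ω e c := by abel
        have e3 : u' - (P.ω e c + u) = u' - u - P.ω e c := by abel
        rw [e2, e3] at l1
        have l2 : |σ'.h - σ'.hm - (σ.h - σ.hm)| ≤ |σ'.h - σ.h| + |σ'.hm - σ.hm| := by
          rw [show σ'.h - σ'.hm - (σ.h - σ.hm) = (σ'.h - σ.h) - (σ'.hm - σ.hm) by ring]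
          exact abs_sub _ _
        linarith
      · rw [hP.good2.κ_mul e c hcA k hkA]
        have e1 : P.κ e k' - (P.κ e c + P.κ e k) =
          (P.κ e k' - σ'.wκ) - (P.κ e k - σ.wκ) + (σ'.wκ - σ.wκ - P.κ e c) := by abel
        rw [e1]
        have m1 := norm_add_le ((P.κ e k' - σ'.wκ) - (P.κ e k - σ.wκ))
          (σ'.wκ - σ.wκ - P.κ e c)
        have m2 := norm_sub_le (P.κ e k' - σ'.wκ) (P.κ e k - σ.wκ)
        linarith

theorem ec_a (hP : P.Good) {r : ℝ} (hr : 0 ≤ r) {X X' : Option (E × Sta J)} {c : H}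
    (h : P.EC r c X X') :
    ‖aE X' - aE X - P.Φ c‖ ≤ r + P.K ∧ |hE X' - hE X| ≤ r := by
  have hK := K_nonneg hP
  rcases X with _ | ⟨e, σ⟩
  · rcases X' with _ | ⟨e', σ'⟩
    · constructor
      · show ‖(0 : J → ℝ) - 0 - P.Φ c‖ ≤ _
        rw [sub_self, zero_sub, norm_neg]
        exact h.2.trans (by linarith)
      · show |(0 : ℝ) - 0| ≤ _
        rw [sub_self, abs_zero]; exact hr
    · obtain ⟨hc1, h1, h2, h3, h4, h5⟩ := h
      constructor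
      · show ‖σ'.wω - 0 - P.Φ c‖ ≤ _
        rw [sub_zero, hc1]
        exact (norm_sub_le _ _).trans (add_le_add h4 (Φ_one hP))
      · show |σ'.h - 0| ≤ _
        rw [sub_zero]; exact h3
  · rcases X' with _ | ⟨e', σ'⟩
    · exact h.elim
    · obtain ⟨he, hcA, h1, h2, h3⟩ := h
      subst he
      have n2 := abs_nonneg (σ'.h - σ.h)
      have n3 := norm_nonneg (σ'.wω - σ.wω - P.φ e c)
      constructor
      · show ‖σ'.wω - σ.wω - P.Φ c‖ ≤ _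
        have e1 : σ'.wω - σ.wω - P.Φ c = (σ'.wω - σ.wω - P.φ e c) - (P.Φ c - P.φ e c) := by abel
        rw [e1]
        have := hP.good2.flat_Φ e c hcA
        exact (norm_sub_le _ _).trans (by linarith)
      · show |σ'.h - σ.h| ≤ _
        linarith

/-- L10, exact version -/
theorem ec_next_some (hP : P.Good) {r : ℝ} {e t : E} {σ σ' : Sta J} {c x a : H}
    (h : P.EC r c (some (e, σ)) (some (e, σ'))) (hNP : P.NP e t x) (ha : a ∈ P.A t) :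
    P.NC r a t (P.nxt (some (e, σ)) t x) (P.nxt (some (e, σ')) t (c * x * a)) := by
  obtain ⟨-, hcA, h1, h2, h3⟩ := h
  have hNP' := NP_symm hNP
  have q1 := hP.good3.uω_mul e t x hNP c hcA a ha
  have q2 := hP.good3.uκ_mul e t x hNP c hcA a ha
  have q3 := hP.good4.ℓ_mul e t x hNP c hcA a ha
  have q4 := hP.good4.Θ_mul e t x hNP c hcA a ha
  have q5 := hP.good3.uω_mul t e x⁻¹ hNP' a⁻¹ ((P.A t).inv_mem ha) c⁻¹ ((P.A e).inv_mem hcA)
  have q6 := hP.good3.uκ_mul t e x⁻¹ hNP' a⁻¹ ((P.A t).inv_mem ha) c⁻¹ ((P.A e).inv_mem hcA)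
  rw [show a⁻¹ * x⁻¹ * c⁻¹ = (c * x * a)⁻¹ by group, add_inv (hP.good2.ω_mul t) ha] at q5
  rw [show a⁻¹ * x⁻¹ * c⁻¹ = (c * x * a)⁻¹ by group, add_inv (hP.good2.κ_mul t) ha] at q6
  have n1 := norm_nonneg (σ'.wκ - σ.wκ - P.κ e c)
  have hh : |(P.nxt (some (e, σ')) t (c * x * a)).h - (P.nxt (some (e, σ)) t x).h| ≤ r := by
    show |P.ℓ e t (c * x * a) + max (σ'.h + ‖P.uκ e t (c * x * a) - σ'.wκ‖)
      (σ'.hm + ‖P.uω e t (c * x * a) - σ'.α‖) - (P.ℓ e t x + max (σ.h + ‖P.uκ e t x - σ.wκ‖)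
      (σ.hm + ‖P.uω e t x - σ.α‖))| ≤ r
    rw [q1, q2, q3, add_sub_add_left_eq_sub]
    refine (abs_max_sub_max_le_max _ _ _ _).trans (max_le ?_ ?_)
    · have m1 := abs_norm_sub_norm_le (P.κ e c + P.uκ e t x - σ'.wκ) (P.uκ e t x - σ.wκ)
      have e1 : P.κ e c + P.uκ e t x - σ'.wκ - (P.uκ e t x - σ.wκ) =
        -(σ'.wκ - σ.wκ - P.κ e c) := by abel
      rw [e1, norm_neg] at m1
      have m2 := abs_add_le (σ'.h - σ.h) (‖P.κ e c + P.uκ e t x - σ'.wκ‖ -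
        ‖P.uκ e t x - σ.wκ‖)
      rw [show σ'.h + ‖P.κ e c + P.uκ e t x - σ'.wκ‖ - (σ.h + ‖P.uκ e t x - σ.wκ‖) =
        (σ'.h - σ.h) + (‖P.κ e c + P.uκ e t x - σ'.wκ‖ - ‖P.uκ e t x - σ.wκ‖) by ring]
      linarith
    · have m1 := abs_norm_sub_norm_le (P.ω e c + P.uω e t x - σ'.α) (P.uω e t x - σ.α)
      have e1 : P.ω e c + P.uω e t x - σ'.α - (P.uω e t x - σ.α) =
        -(σ'.α - σ.α - P.ω e c) := by abel
      rw [e1, norm_neg] at m1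
      have m2 := abs_add_le (σ'.hm - σ.hm) (‖P.ω e c + P.uω e t x - σ'.α‖ -
        ‖P.uω e t x - σ.α‖)
      rw [show σ'.hm + ‖P.ω e c + P.uω e t x - σ'.α‖ - (σ.hm + ‖P.uω e t x - σ.α‖) =
        (σ'.hm - σ.hm) + (‖P.ω e c + P.uω e t x - σ'.α‖ - ‖P.uω e t x - σ.α‖) by ring]
      linarith
  refine ⟨?_, ?_, ?_⟩
  · show |σ'.h - σ.h| + ‖σ'.wω - P.Θ e t (c * x * a) - (σ.wω - P.Θ e t x) + P.φ t a‖ ≤ r
    rw [q4]
    have e1 : σ'.wω - (P.φ e c + P.Θ e t x + P.φ t a) - (σ.wω - P.Θ e t x) + P.φ t a =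
      σ'.wω - σ.wω - P.φ e c := by abel
    rw [e1]; exact h3
  · have e1 : (P.nxt (some (e, σ')) t (c * x * a)).wκ - (P.nxt (some (e, σ)) t x).wκ +
      P.κ t a = 0 := by
      show P.uκ t e (c * x * a)⁻¹ - P.uκ t e x⁻¹ + P.κ t a = 0
      rw [q6]; abel
    rw [e1, norm_zero, add_zero]; exact hh
  · have e1 : (P.nxt (some (e, σ')) t (c * x * a)).wω - (P.nxt (some (e, σ)) t x).wω +
      P.ω t a = 0 := by
      show P.uω t e (c * x * a)⁻¹ - P.uω t e x⁻¹ + P.ω t a = 0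
      rw [q5]; abel
    rw [e1, norm_zero, add_zero]; exact hh

end LPiece

end Run7.h230
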