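import Pool.Agent.Run7.h230.LocalC

set_option autoImplicit false

/-! Local lemmas on pieces, part D: closeness of positions, end changes. -/

namespace Run7.h230

namespace LPiece

variable {H E J : Type} [Group H] [Fintype J] {P : LPiece H E J}

theorem Φ_right (hP : P.Good) {c g g' : H} {r : ℝ} (h : ‖P.Φ ((c * g)⁻¹ * g')‖ ≤ r) :
    ‖P.Φ g' - P.Φ g - P.Φ c‖ ≤ r + 2 * P.K := by
  have h1 := hP.good1.Φ_mul (c * g) ((c * g)⁻¹ * g')
  rw [mul_inv_cancel_left] at h1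
  have h2 := hP.good1.Φ_mul c g
  have e1 : P.Φ g' - P.Φ g - P.Φ c = (P.Φ g' - P.Φ (c * g) - P.Φ ((c * g)⁻¹ * g')) +
    P.Φ ((c * g)⁻¹ * g') + (P.Φ (c * g) - P.Φ c - P.Φ g) := by abel
  rw [e1]
  refine norm_add₃_le.trans ?_
  linarith

/-- closeness in the last slot -/
theorem posL_stab (hP : P.Good) (ρ r : ℝ) : ∃ C, 0 ≤ C ∧ ∀ (X X' : Option (E × Sta J))
    (c g g' z z' : H) (τ τ' : ℝ),
    (∀ k k', P.Ent ρ X (P.tg X g) k → P.Ent ρ X' (P.tg X' g') k' →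
      P.M ((c * k)⁻¹ * k') ≤ r) →
    ‖aE X' - aE X - P.Φ c‖ ≤ r → |(τ - hE X) - (τ' - hE X')| ≤ r →
    P.M ((c * g)⁻¹ * g') ≤ r → ‖P.Φ ((c * g)⁻¹ * g')‖ ≤ r →
    P.PosL ρ r X g τ z → P.PosL ρ r X' g' τ' z' →
    P.M ((c * z)⁻¹ * z') ≤ C ∧ ‖P.Φ ((c * z)⁻¹ * z')‖ ≤ C := by
  have hK := K_nonneg hP
  obtain ⟨C1, hC1, ls⟩ := loc_stab hP (r + 2 * P.K)
  refine ⟨C1, hC1, ?_⟩
  intro X X' c g g' z z' τ τ' h1 h2 h3 h4 h5 ⟨k, hk, hl⟩ ⟨k', hk', hl'⟩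
  have hr : r ≤ r + 2 * P.K := by linarith
  exact ls c k g k' g' z z' (aE X) (P.Φ g) (aE X') (P.Φ g') _ _ ((h1 k k' hk hk').trans hr)
    (h4.trans hr) (h3.trans hr) (h2.trans hr) (Φ_right hP h5) (hl.mono hr) (hl'.mono hr)

/-- closeness in a middle slot -/
theorem posM_stab (hP : P.Good) (ρ r : ℝ) : ∃ C, 0 ≤ C ∧ ∀ (X X' : Option (E × Sta J))
    (t : E) (c x a z z' : H) (u v : J → ℝ) (τ τ' : ℝ), P.NPE X t x → P.NPE X' t (c * x * a) →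
    a ∈ P.A t →
    (∀ k k', P.Ent ρ X (P.uE X t x) k → P.Ent ρ X' (P.uE X' t (c * x * a)) k' →
      P.M ((c * k)⁻¹ * k') ≤ r) →
    ‖aE X' - aE X - P.Φ c‖ ≤ r → |(τ - hE X) - (τ' - hE X')| ≤ r →
    P.NC r a t (P.nxt X t x) (P.nxt X' t (c * x * a)) → ‖v - u + P.φ t a‖ ≤ r →
    P.PosM ρ r X t x u τ z → P.PosM ρ r X' t (c * x * a) v τ' z' →
    P.M ((c * z)⁻¹ * z') ≤ C ∧ ‖P.Φ ((c * z)⁻¹ * z')‖ ≤ C := by
  have hK := K_nonneg hP
  obtain ⟨C0, hC0, fn⟩ := flat_near hP (2 * ρ + r)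
  obtain ⟨C1, hC1, ls⟩ := loc_stab hP (C0 + |r| + 5 * P.K)
  refine ⟨C1, hC1, ?_⟩
  intro X X' t c x a z z' u v τ τ' hNP hNP' ha h1 h2 h3 h4 h5 ⟨k, p, hk, hp, hl⟩
    ⟨k', p', hk', hp', hl'⟩
  have hr0 := abs_nonneg r
  have hr := le_abs_self r
  have hr' : r ≤ C0 + |r| + 5 * P.K := by linarith
  refine ls c k (x * p) k' (c * x * a * p') z z' (aE X) (P.ΘE X t x + u) (aE X')
    (P.ΘE X' t (c * x * a) + v) _ _ ((h1 k k' hk hk').trans hr') ?_ (h3.trans hr')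
    (h2.trans hr') ?_ (hl.mono hr') (hl'.mono hr')
  · rw [show (c * (x * p))⁻¹ * (c * x * a * p') = p⁻¹ * (a * p') by group]
    obtain ⟨n1, n2, n3⟩ := h4
    have a1 := abs_nonneg ((P.nxt X' t (c * x * a)).h - (P.nxt X t x).h)
    refine (fn t p (a * p') hp.1 ((P.A t).mul_mem ha hp'.1) ?_ ?_).trans (by linarith)
    · rw [hP.good2.ω_mul t a ha p' hp'.1]
      have e1 : P.ω t a + P.ω t p' - P.ω t p = (P.ω t p' - (P.nxt X' t (c * x * a)).wω) +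
        ((P.nxt X' t (c * x * a)).wω - (P.nxt X t x).wω + P.ω t a) -
        (P.ω t p - (P.nxt X t x).wω) := by abel
      rw [e1]
      have m1 := norm_sub_le ((P.ω t p' - (P.nxt X' t (c * x * a)).wω) +
        ((P.nxt X' t (c * x * a)).wω - (P.nxt X t x).wω + P.ω t a))
        (P.ω t p - (P.nxt X t x).wω)
      have m2 := norm_add_le (P.ω t p' - (P.nxt X' t (c * x * a)).wω)
        ((P.nxt X' t (c * x * a)).wω - (P.nxt X t x).wω + P.ω t a)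
      have m3 := hp.2.1
      have m4 := hp'.2.1
      linarith
    · rw [hP.good2.κ_mul t a ha p' hp'.1]
      have e1 : P.κ t a + P.κ t p' - P.κ t p = (P.κ t p' - (P.nxt X' t (c * x * a)).wκ) +
        ((P.nxt X' t (c * x * a)).wκ - (P.nxt X t x).wκ + P.κ t a) -
        (P.κ t p - (P.nxt X t x).wκ) := by abel
      rw [e1]
      have m1 := norm_sub_le ((P.κ t p' - (P.nxt X' t (c * x * a)).wκ) +
        ((P.nxt X' t (c * x * a)).wκ - (P.nxt X t x).wκ + P.κ t a))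
        (P.κ t p - (P.nxt X t x).wκ)
      have m2 := norm_add_le (P.κ t p' - (P.nxt X' t (c * x * a)).wκ)
        ((P.nxt X' t (c * x * a)).wκ - (P.nxt X t x).wκ + P.κ t a)
      have m3 := hp.2.2
      have m4 := hp'.2.2
      linarith
  · have q1 := ΘE_Φ hP X t x hNP
    have q2 := ΘE_Φ hP X' t (c * x * a) hNP'
    have q3 := hP.good1.Φ_mul (c * x) a
    have q4 := hP.good1.Φ_mul c x
    have q5 := hP.good2.flat_Φ t a ha
    have e1 : P.ΘE X' t (c * x * a) + v - (P.ΘE X t x + u) - P.Φ c =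
      (P.ΘE X' t (c * x * a) - P.Φ (c * x * a)) + (P.Φ (c * x * a) - P.Φ (c * x) - P.Φ a) +
      (P.Φ (c * x) - P.Φ c - P.Φ x) + (P.Φ a - P.φ t a) - (P.ΘE X t x - P.Φ x) +
      (v - u + P.φ t a) := by abel
    rw [e1]
    have m1 := norm_add_le ((P.ΘE X' t (c * x * a) - P.Φ (c * x * a)) +
      (P.Φ (c * x * a) - P.Φ (c * x) - P.Φ a) +
      (P.Φ (c * x) - P.Φ c - P.Φ x) + (P.Φ a - P.φ t a) - (P.ΘE X t x - P.Φ x))
      (v - u + P.φ t a)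
    have m2 := norm_sub_le ((P.ΘE X' t (c * x * a) - P.Φ (c * x * a)) +
      (P.Φ (c * x * a) - P.Φ (c * x) - P.Φ a) +
      (P.Φ (c * x) - P.Φ c - P.Φ x) + (P.Φ a - P.φ t a)) (P.ΘE X t x - P.Φ x)
    have m3 := norm_add_le ((P.ΘE X' t (c * x * a) - P.Φ (c * x * a)) +
      (P.Φ (c * x * a) - P.Φ (c * x) - P.Φ a) +
      (P.Φ (c * x) - P.Φ c - P.Φ x)) (P.Φ a - P.φ t a)
    have m4 : ‖(P.ΘE X' t (c * x * a) - P.Φ (c * x * a)) +
      (P.Φ (c * x * a) - P.Φ (c * x) - P.Φ a) +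
      (P.Φ (c * x) - P.Φ c - P.Φ x)‖ ≤ P.K + P.K + P.K :=
      norm_add₃_le.trans (add_le_add (add_le_add q2 q3) q4)
    linarith

theorem ent_one (hP : P.Good) {r : ℝ} (hr : 0 ≤ r) (X' : Option (E × Sta J)) (c : H)
    (u : J → ℝ) (hX' : Ord X') (h : P.EC r c none X') :
    P.Ent (4 * r) X' u 1 := by
  rcases X' with _ | ⟨e', σ'⟩
  · rfl
  · obtain ⟨hc1, h1, h2, h3, h4, h5⟩ := h
    have hs : 0 ≤ σ'.h - σ'.hm := sub_nonneg.2 hX'
    have g1 := norm_go_sub σ'.α u hs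
    have g2 := min_le_left (σ'.h - σ'.hm) ‖u - σ'.α‖
    have a1 := abs_le.1 h1
    have a3 := abs_le.1 h3
    have g3 : ‖go σ'.α u (σ'.h - σ'.hm) - σ'.α‖ ≤ 2 * r := by
      rw [g1]; linarith [a1.1, a1.2, a3.1, a3.2]
    refine ⟨(P.A e').one_mem, ?_, ?_, ?_⟩
    · rw [add_one (hP.good2.φ_mul e'), zero_sub, norm_neg]; linarith
    · rw [add_one (hP.good2.ω_mul e'), zero_sub, norm_neg]
      have e1 : go σ'.α u (σ'.h - σ'.hm) = (go σ'.α u (σ'.h - σ'.hm) - σ'.α) + σ'.α := by abel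
      rw [e1]
      refine (norm_add_le _ _).trans ?_
      linarith
    · rw [add_one (hP.good2.κ_mul e'), zero_sub, norm_neg]; linarith

/-- exit points for the canonical gate -/
theorem exi_gate (hP : P.Good) (X : Option (E × Sta J)) (t : E) (x k : H) (r : ℝ)
    (u : J → ℝ) (hNP : P.NPE X t x) (hk : P.Ent r X u k) :
    P.Exi P.K (P.nxt X t x) t (P.gate t (x⁻¹ * k)) := by
  rcases X with _ | ⟨e, σ⟩
  · have hk' : k = 1 := hk
    rw [hk', mul_one]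
    refine ⟨hP.good3.gate_mem t _, ?_, ?_⟩
    · show ‖P.ω t (P.gate t x⁻¹) - P.ω t (P.gate t x⁻¹)‖ ≤ _
      rw [sub_self, norm_zero]; exact K_nonneg hP
    · show ‖P.κ t (P.gate t x⁻¹) - P.κ t (P.gate t x⁻¹)‖ ≤ _
      rw [sub_self, norm_zero]; exact K_nonneg hP
  · have := hP.good3.u_gate t e x⁻¹ (NP_symm hNP) k hk.1
    exact ⟨hP.good3.gate_mem t _, this.1, this.2⟩

/-- L10, coarse version for the first slot -/
theorem ec_next_none (hP : P.Good) (r : ℝ) : ∃ C, 0 ≤ C ∧ ∀ (X' : Option (E × Sta J)) (t : E)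
    (c x a : H), Ord X' → P.EC r c none X' → P.NPE X' t (c * x * a) → a ∈ P.A t →
    P.NC C a t (P.nxt none t x) (P.nxt X' t (c * x * a)) := by
  have hK := K_nonneg hP
  obtain ⟨C1, hC1, he⟩ := h_eq hP (4 * |r| + P.K)
  obtain ⟨C2, hC2, gs⟩ := gate_stab hP |r|
  obtain ⟨C3, hC3, fn⟩ := flat_near hP (C2 + P.K)
  obtain ⟨C4, hC4, ds⟩ := d_stab hP (C3 + |r|)
  have hr0 := abs_nonneg r
  have hr := le_abs_self r
  refine ⟨C1 + C4 + C2 + 2 * |r| + 6 * P.K, by positivity, ?_⟩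
  intro X' t c x a hX' hc hNP ha
  have hc' : P.M c ≤ |r| ∧ P.EC |r| c none X' := by
    rcases X' with _ | ⟨e', σ'⟩
    · exact ⟨hc.1.trans hr, hc.1.trans hr, hc.2.trans hr⟩
    · obtain ⟨hc1, h1, h2, h3, h4, h5⟩ := hc
      exact ⟨by rw [hc1, hP.good1.M_one]; exact hr0, hc1, h1.trans hr, h2.trans hr, h3.trans hr,
        h4.trans hr, h5.trans hr⟩
  obtain ⟨hc2, hc3⟩ := hc'
  have ea := ec_a hP hr0 hc3
  have hent := ent_one hP hr0 X' c (P.uE X' t (c * x * a)) hX' hc3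
  have hg := exi_gate hP X' t (c * x * a) 1 _ _ hNP hent
  rw [mul_one] at hg
  set g' := P.gate t (c * x * a)⁻¹ with hg'
  set g₀ := P.gate t x⁻¹ with hg₀
  have hg₀A : g₀ ∈ P.A t := hP.good3.gate_mem t _
  have hh := he X' t (c * x * a) 1 g' hX' hNP (hent.mono (by linarith)) (hg.mono (by linarith))
  rw [inv_one, one_mul] at hh
  -- the gate of the changed point
  have s1 := gs t x⁻¹ a⁻¹ c⁻¹ ((P.A t).inv_mem ha) (by rw [hP.good1.M_inv]; exact hc2)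
  rw [show a⁻¹ * x⁻¹ * c⁻¹ = (c * x * a)⁻¹ by group, ← hg', ← hg₀,
    add_inv (hP.good2.ω_mul t) ha, add_inv (hP.good2.κ_mul t) ha] at s1
  have s2 : P.M (g₀⁻¹ * (a * g')) ≤ C3 := by
    refine fn t g₀ (a * g') hg₀A ((P.A t).mul_mem ha hg.1) ?_ ?_
    · rw [hP.good2.ω_mul t a ha g' hg.1]
      rw [show P.ω t a + P.ω t g' - P.ω t g₀ = P.ω t g' - (-P.ω t a + P.ω t g₀) by abel]
      linarith [s1.1]
    · rw [hP.good2.κ_mul t a ha g' hg.1]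
      rw [show P.κ t a + P.κ t g' - P.κ t g₀ = P.κ t g' - (-P.κ t a + P.κ t g₀) by abel]
      linarith [s1.2]
  have s3 := ds x⁻¹ (c * x)⁻¹ g₀ (a * g') (by
    rw [show x⁻¹⁻¹ * (c * x)⁻¹ = c⁻¹ by group, hP.good1.M_inv]; linarith) (by linarith)
  rw [inv_inv, inv_inv, show c * x * (a * g') = c * x * a * g' by group] at s3
  have hh2 : |(P.nxt X' t (c * x * a)).h - (P.nxt none t x).h| ≤ C1 + C4 + |r| := by
    show |(P.nxt X' t (c * x * a)).h - P.d (x * g₀)| ≤ _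
    have a1 := abs_le.1 hh
    have a2 := abs_le.1 s3
    have a3 := abs_le.1 ea.2
    have a4 : hE (none : Option (E × Sta J)) = 0 := rfl
    rw [a4, sub_zero] at a3
    rw [abs_le]
    constructor <;> linarith [a1.1, a1.2, a2.1, a2.2, a3.1, a3.2]
  have hw1 : ‖(P.nxt X' t (c * x * a)).wω - (P.nxt none t x).wω + P.ω t a‖ ≤ C2 + P.K := by
    show ‖(P.nxt X' t (c * x * a)).wω - P.ω t g₀ + P.ω t a‖ ≤ _
    have e1 : (P.nxt X' t (c * x * a)).wω - P.ω t g₀ + P.ω t a =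
      (P.ω t g' - (-P.ω t a + P.ω t g₀)) - (P.ω t g' - (P.nxt X' t (c * x * a)).wω) := by abel
    rw [e1]
    exact (norm_sub_le _ _).trans (add_le_add s1.1 hg.2.1)
  have hw2 : ‖(P.nxt X' t (c * x * a)).wκ - (P.nxt none t x).wκ + P.κ t a‖ ≤ C2 + P.K := by
    show ‖(P.nxt X' t (c * x * a)).wκ - P.κ t g₀ + P.κ t a‖ ≤ _
    have e1 : (P.nxt X' t (c * x * a)).wκ - P.κ t g₀ + P.κ t a =
      (P.κ t g' - (-P.κ t a + P.κ t g₀)) - (P.κ t g' - (P.nxt X' t (c * x * a)).wκ) := by abel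
    rw [e1]
    exact (norm_sub_le _ _).trans (add_le_add s1.2 hg.2.2)
  refine ⟨?_, ?_, ?_⟩
  · rw [nxt_hm, nxt_hm, nxt_α, nxt_α]
    have q2 := ΘE_Φ hP X' t (c * x * a) hNP
    have q3 := hP.good1.Φ_mul (c * x) a
    have q4 := hP.good1.Φ_mul c x
    have q5 := hP.good2.flat_Φ t a ha
    set a0 : J → ℝ := aE (none : Option (E × Sta J)) with ha0
    have e1 : aE X' - P.ΘE X' t (c * x * a) - (a0 - P.ΘE none t x) + P.φ t a =
      (aE X' - a0 - P.Φ c) - (P.ΘE X' t (c * x * a) - P.Φ (c * x * a)) -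
      (P.Φ (c * x * a) - P.Φ (c * x) - P.Φ a) - (P.Φ (c * x) - P.Φ c - P.Φ x) -
      (P.Φ a - P.φ t a) := by
      show aE X' - P.ΘE X' t (c * x * a) - (a0 - P.Φ x) + P.φ t a = _
      abel
    rw [e1]
    have m1 := norm_sub_le ((aE X' - a0 - P.Φ c) -
      (P.ΘE X' t (c * x * a) - P.Φ (c * x * a)) -
      (P.Φ (c * x * a) - P.Φ (c * x) - P.Φ a) - (P.Φ (c * x) - P.Φ c - P.Φ x))
      (P.Φ a - P.φ t a)
    have m2 := norm_sub_le ((aE X' - a0 - P.Φ c) -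
      (P.ΘE X' t (c * x * a) - P.Φ (c * x * a)) -
      (P.Φ (c * x * a) - P.Φ (c * x) - P.Φ a)) (P.Φ (c * x) - P.Φ c - P.Φ x)
    have m3 := norm_sub_le ((aE X' - a0 - P.Φ c) -
      (P.ΘE X' t (c * x * a) - P.Φ (c * x * a)))
      (P.Φ (c * x * a) - P.Φ (c * x) - P.Φ a)
    have m4 := norm_sub_le (aE X' - a0 - P.Φ c)
      (P.ΘE X' t (c * x * a) - P.Φ (c * x * a))
    linarith [ea.1, ea.2]
  · linarith
  · linarith

/-- the path to the end point of the word passes near the exit gate -/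
theorem endA (hP : P.Good) (r : ℝ) : ∃ C, 0 ≤ C ∧ ∀ (X : Option (E × Sta J)) (t : E)
    (x z z' : H) (u : J → ℝ) (τ : ℝ), Ord X → P.NPE X t x → ‖u‖ ≤ r → hE X ≤ τ →
    τ ≤ (P.nxt X t x).h → P.PosL r r X x τ z → P.PosM r r X t x u τ z' →
    P.M (z⁻¹ * z') ≤ C ∧ ‖P.Φ (z⁻¹ * z')‖ ≤ C := by
  have hK := K_nonneg hP
  obtain ⟨C0, hC0, fn⟩ := flat_near hP (2 * |r| + P.K)
  obtain ⟨C1, hC1, he⟩ := h_eq hP (|r| + P.K)
  obtain ⟨C2, hC2, ps⟩ := path_stab hP (C0 + C1)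
  refine ⟨|r| + C2 + P.K + C2 + |r| + (6 * P.K + 4 * |r|), by positivity, ?_⟩
  intro X t x z z' u τ hX hNP hu hτ hτ' ⟨k, hk, hl⟩ ⟨k', p, hk', hp, hl'⟩
  have hr0 := abs_nonneg r
  have hr := le_abs_self r
  set s := τ - hE X with hs
  have hs0 : 0 ≤ s := sub_nonneg.2 hτ
  -- the gate
  have hp1 := exi_gate hP X t x k _ _ hNP hk
  set p₁ := P.gate t (x⁻¹ * k) with hp₁
  have sp := hP.good3.gate_in t (x⁻¹ * k) 1 (P.A t).one_mem
  rw [← hp₁, show (x⁻¹ * k)⁻¹ * 1 = k⁻¹ * x by group,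
    show (x⁻¹ * k)⁻¹ * p₁ = k⁻¹ * (x * p₁) by group] at sp
  obtain ⟨sp1, sp2, sp3⟩ := sp
  have hk2 : P.Ent (|r| + P.K) X (P.uE X t x) k := by
    rcases X with _ | ⟨e, σ⟩
    · exact hk
    · obtain ⟨hkA, hk1, hk2, hk3⟩ := hk
      refine ⟨hkA, hk1.trans (by linarith), ?_, hk3.trans (by linarith)⟩
      have ug := (hP.good3.u_gate e t x hNP 1 (P.A t).one_mem).1
      rw [mul_one] at ug
      have l1 := go_lip σ.α (P.tg (some (e, σ)) x) σ.α (P.uω e t x) (σ.h - σ.hm) (σ.h - σ.hm)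
      simp only [sub_self, norm_zero, abs_zero, zero_add, add_zero] at l1
      have ug' : ‖P.tg (some (e, σ)) x - P.uω e t x‖ ≤ P.K := ug
      show ‖P.ω e k - go σ.α (P.uω e t x) (σ.h - σ.hm)‖ ≤ _
      have e1 : P.ω e k - go σ.α (P.uω e t x) (σ.h - σ.hm) =
        (P.ω e k - go σ.α (P.tg (some (e, σ)) x) (σ.h - σ.hm)) +
        (go σ.α (P.tg (some (e, σ)) x) (σ.h - σ.hm) - go σ.α (P.uω e t x) (σ.h - σ.hm)) := by
        abel
      rw [e1]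
      exact (norm_add_le _ _).trans (by linarith)
  have hkk : P.M (k⁻¹ * k') ≤ C0 := by
    rcases X with _ | ⟨e, σ⟩
    · have h1 : k = 1 := hk
      have h2 : k' = 1 := hk'
      rw [h1, h2, M_self hP]; exact hC0
    · refine fn e k k' hk2.1 hk'.1 ?_ ?_
      · have e1 : P.ω e k' - P.ω e k = (P.ω e k' - go σ.α (P.uω e t x) (σ.h - σ.hm)) -
          (P.ω e k - go σ.α (P.uω e t x) (σ.h - σ.hm)) := by abel
        rw [e1]
        refine (norm_sub_le _ _).trans ?_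
        have q1 : ‖P.ω e k' - go σ.α (P.uω e t x) (σ.h - σ.hm)‖ ≤ r := hk'.2.2.1
        have q2 : ‖P.ω e k - go σ.α (P.uω e t x) (σ.h - σ.hm)‖ ≤ |r| + P.K := hk2.2.2.1
        linarith
      · have e1 : P.κ e k' - P.κ e k = (P.κ e k' - σ.wκ) - (P.κ e k - σ.wκ) := by abel
        rw [e1]
        refine (norm_sub_le _ _).trans ?_
        have q1 := hk'.2.2.2
        have q2 := hk.2.2.2
        linarith
  have hh := he X t x k p₁ hX hNP hk2 (hp1.mono (by linarith))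
  have hpp : P.M (p₁⁻¹ * p) ≤ C0 := by
    refine fn t p₁ p hp1.1 hp.1 ?_ ?_
    · have e1 : P.ω t p - P.ω t p₁ = (P.ω t p - (P.nxt X t x).wω) -
        (P.ω t p₁ - (P.nxt X t x).wω) := by abel
      rw [e1]
      refine (norm_sub_le _ _).trans ?_
      linarith [hp1.2.1, hp.2.1]
    · have e1 : P.κ t p - P.κ t p₁ = (P.κ t p - (P.nxt X t x).wκ) -
        (P.κ t p₁ - (P.nxt X t x).wκ) := by abel
      rw [e1]
      refine (norm_sub_le _ _).trans ?_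
      linarith [hp1.2.2, hp.2.2]
  constructor
  · -- the clamped time
    set s₁ := min s (P.d (k⁻¹ * (x * p₁))) with hs₁
    have hs₁' : |s - s₁| ≤ C0 + C1 := by
      have a1 := abs_le.1 hh
      rcases le_total s (P.d (k⁻¹ * (x * p₁))) with h | h
      · rw [hs₁, min_eq_left h, sub_self, abs_zero]; positivity
      · rw [hs₁, min_eq_right h, abs_of_nonneg (by linarith)]
        linarith [a1.1, a1.2]
    have t1 := ps 1 k x k x s s₁ (by rw [one_mul, M_self hP]; positivity)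
      (by rw [one_mul, M_self hP]; positivity) hs₁'
    rw [one_mul] at t1
    have t2 := sp2 s₁ (min_le_right _ _)
    have t2' : P.M ((k * P.b (k⁻¹ * x) s₁)⁻¹ * (k * P.b (k⁻¹ * (x * p₁)) s₁)) ≤ P.K := by
      rw [show (k * P.b (k⁻¹ * x) s₁)⁻¹ * (k * P.b (k⁻¹ * (x * p₁)) s₁) =
        (P.b (k⁻¹ * x) s₁)⁻¹ * P.b (k⁻¹ * (x * p₁)) s₁ by group]
      exact t2
    have t3 := ps 1 k (x * p₁) k' (x * p) s₁ s (by rw [one_mul]; linarith)
      (by rw [one_mul, show (x * p₁)⁻¹ * (x * p) = p₁⁻¹ * p by group]; linarith)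
      (by rw [abs_sub_comm]; exact hs₁')
    rw [one_mul] at t3
    have t4 : P.M (z⁻¹ * (k * P.b (k⁻¹ * x) s)) ≤ r := hl.1
    have t5 : P.M ((k' * P.b (k'⁻¹ * (x * p)) s)⁻¹ * z') ≤ r := by
      rw [M_comm hP]; exact hl'.1
    have m1 := M_tri hP z (k * P.b (k⁻¹ * x) s) z'
    have m2 := M_tri hP (k * P.b (k⁻¹ * x) s) (k * P.b (k⁻¹ * x) s₁) z'
    have m3 := M_tri hP (k * P.b (k⁻¹ * x) s₁) (k * P.b (k⁻¹ * (x * p₁)) s₁) z'
    have m4 := M_tri hP (k * P.b (k⁻¹ * (x * p₁)) s₁) (k' * P.b (k'⁻¹ * (x * p)) s) z'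
    linarith
  · have q1 := Φ_div hP z z'
    have q2 := ΘE_Φ hP X t x hNP
    have l1 := go_lip (aE X) (P.ΘE X t x + u) (aE X) (P.Φ x) s s
    simp only [sub_self, norm_zero, abs_zero, zero_add, add_zero] at l1
    have e2 : P.ΘE X t x + u - P.Φ x = (P.ΘE X t x - P.Φ x) + u := by abel
    rw [e2] at l1
    have l2 := norm_add_le (P.ΘE X t x - P.Φ x) u
    have e1 : P.Φ (z⁻¹ * z') = (P.Φ (z⁻¹ * z') - (P.Φ z' - P.Φ z)) +
      (P.Φ z' - go (aE X) (P.ΘE X t x + u) s) +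
      (go (aE X) (P.ΘE X t x + u) s - go (aE X) (P.Φ x) s) -
      (P.Φ z - go (aE X) (P.Φ x) s) := by abel
    rw [e1]
    have m1 := norm_sub_le ((P.Φ (z⁻¹ * z') - (P.Φ z' - P.Φ z)) +
      (P.Φ z' - go (aE X) (P.ΘE X t x + u) s) +
      (go (aE X) (P.ΘE X t x + u) s - go (aE X) (P.Φ x) s)) (P.Φ z - go (aE X) (P.Φ x) s)
    have m2 : ‖(P.Φ (z⁻¹ * z') - (P.Φ z' - P.Φ z)) +
      (P.Φ z' - go (aE X) (P.ΘE X t x + u) s) +
      (go (aE X) (P.ΘE X t x + u) s - go (aE X) (P.Φ x) s)‖ ≤ _ := norm_add₃_le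
    have l3 : ‖P.Φ z - go (aE X) (P.Φ x) s‖ ≤ r := hl.2
    have l4 : ‖P.Φ z' - go (aE X) (P.ΘE X t x + u) s‖ ≤ r := hl'.2
    linarith

/-- behind the exit gate -/
theorem endB (hP : P.Good) (r : ℝ) : ∃ C, 0 ≤ C ∧ ∀ (X : Option (E × Sta J)) (t : E)
    (x z q : H) (τ : ℝ), Ord X → P.NPE X t x → (P.nxt X t x).h ≤ τ →
    P.PosL r r X x τ z → q ∈ P.A t → ‖P.ω t q - go (P.nxt X t x).wω 0 (τ - (P.nxt X t x).h)‖ ≤ r →
    ‖P.κ t q - go (P.nxt X t x).wκ 0 (τ - (P.nxt X t x).h)‖ ≤ r →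
    ‖P.φ t q - go (P.nxt X t x).α 0 (τ - (P.nxt X t x).hm)‖ ≤ r →
    P.M (z⁻¹ * (x * q)) ≤ C ∧ ‖P.Φ (z⁻¹ * (x * q))‖ ≤ C := by
  have hK := K_nonneg hP
  obtain ⟨C1, hC1, he⟩ := h_eq hP (|r| + P.K)
  obtain ⟨C2, hC2, ps⟩ := path_stab hP (C1)
  obtain ⟨C3, hC3, fp⟩ := flat_path hP (|r| + P.K + C1)
  refine ⟨|r| + C2 + P.K + C3 + (8 * P.K + 4 * |r|), by positivity, ?_⟩
  intro X t x z q τ hX hNP hτ ⟨k, hk, hl⟩ hq h1 h2 h3
  have hr0 := abs_nonneg r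
  have hr := le_abs_self r
  have hge := nxt_h_ge hP X t x hNP
  set s := τ - hE X with hs
  have hs0 : 0 ≤ s := by rw [hs]; linarith
  have hp1 := exi_gate hP X t x k _ _ hNP hk
  set p₁ := P.gate t (x⁻¹ * k) with hp₁
  have sp := hP.good3.gate_in t (x⁻¹ * k) 1 (P.A t).one_mem
  rw [← hp₁, show (x⁻¹ * k)⁻¹ * 1 = k⁻¹ * x by group,
    show (x⁻¹ * k)⁻¹ * p₁ = k⁻¹ * (x * p₁) by group] at sp
  obtain ⟨sp1, sp2, sp3⟩ := sp
  have hk2 : P.Ent (|r| + P.K) X (P.uE X t x) k := by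
    rcases X with _ | ⟨e, σ⟩
    · exact hk
    · obtain ⟨hkA, hk1, hk2, hk3⟩ := hk
      refine ⟨hkA, hk1.trans (by linarith), ?_, hk3.trans (by linarith)⟩
      have ug := (hP.good3.u_gate e t x hNP 1 (P.A t).one_mem).1
      rw [mul_one] at ug
      have l1 := go_lip σ.α (P.tg (some (e, σ)) x) σ.α (P.uω e t x) (σ.h - σ.hm) (σ.h - σ.hm)
      simp only [sub_self, norm_zero, abs_zero, zero_add, add_zero] at l1
      have ug' : ‖P.tg (some (e, σ)) x - P.uω e t x‖ ≤ P.K := ug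
      show ‖P.ω e k - go σ.α (P.uω e t x) (σ.h - σ.hm)‖ ≤ _
      have e1 : P.ω e k - go σ.α (P.uω e t x) (σ.h - σ.hm) =
        (P.ω e k - go σ.α (P.tg (some (e, σ)) x) (σ.h - σ.hm)) +
        (go σ.α (P.tg (some (e, σ)) x) (σ.h - σ.hm) - go σ.α (P.uω e t x) (σ.h - σ.hm)) := by
        abel
      rw [e1]
      exact (norm_add_le _ _).trans (by linarith)
  have hh := he X t x k p₁ hX hNP hk2 (hp1.mono (by linarith))
  constructor
  · set s₁ := max s (P.d (k⁻¹ * (x * p₁))) with hs₁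
    have hs₁' : |s - s₁| ≤ C1 := by
      have a1 := abs_le.1 hh
      rcases le_total s (P.d (k⁻¹ * (x * p₁))) with h | h
      · rw [hs₁, max_eq_right h, abs_sub_comm, abs_of_nonneg (by linarith)]
        linarith [a1.1, a1.2]
      · rw [hs₁, max_eq_left h, sub_self, abs_zero]; exact hC1
    have t1 := ps 1 k x k x s s₁ (by rw [one_mul, M_self hP]; exact hC1)
      (by rw [one_mul, M_self hP]; exact hC1) hs₁'
    rw [one_mul] at t1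
    have t2 := sp3 s₁ (le_max_right _ _)
    rw [show (k⁻¹ * (x * p₁))⁻¹ * (k⁻¹ * x) = p₁⁻¹ * 1 by group] at t2
    set s₂ := s₁ - P.d (k⁻¹ * (x * p₁)) with hs₂
    have hs₂0 : 0 ≤ s₂ := sub_nonneg.2 (le_max_right _ _)
    have hs₂' : |s₂ - (τ - (P.nxt X t x).h)| ≤ C1 := by
      have a1 := abs_le.1 hh
      rcases le_total s (P.d (k⁻¹ * (x * p₁))) with h | h
      · rw [hs₂, hs₁, max_eq_right h, sub_self, zero_sub, abs_neg, abs_of_nonneg (by linarith)]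
        linarith [a1.1, a1.2]
      · rw [hs₂, hs₁, max_eq_left h]
        rw [abs_le]; constructor <;> linarith [a1.1, a1.2]
    have t2' : P.M ((k * P.b (k⁻¹ * x) s₁)⁻¹ * (x * (p₁ * P.b (p₁⁻¹ * 1) s₂))) ≤ P.K := by
      rw [show (k * P.b (k⁻¹ * x) s₁)⁻¹ * (x * (p₁ * P.b (p₁⁻¹ * 1) s₂)) =
        (P.b (k⁻¹ * x) s₁)⁻¹ * (k⁻¹ * (x * p₁) * P.b (p₁⁻¹ * 1) s₂) by group]
      exact t2
    have l1 := go_lip (P.nxt X t x).wω 0 (P.ω t p₁) 0 (τ - (P.nxt X t x).h) s₂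
    have l2 := go_lip (P.nxt X t x).wκ 0 (P.κ t p₁) 0 (τ - (P.nxt X t x).h) s₂
    rw [sub_self, norm_zero, add_zero, norm_sub_rev, abs_sub_comm _ s₂] at l1 l2
    have t3 := fp t p₁ 1 q s₂ hp1.1 (P.A t).one_mem hq hs₂0
      (by
        rw [add_one (hP.good2.ω_mul t)]
        have e1 : P.ω t q - go (P.ω t p₁) 0 s₂ =
          (P.ω t q - go (P.nxt X t x).wω 0 (τ - (P.nxt X t x).h)) +
          (go (P.nxt X t x).wω 0 (τ - (P.nxt X t x).h) - go (P.ω t p₁) 0 s₂) := by abel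
        rw [e1]
        refine (norm_add_le _ _).trans ?_
        rw [norm_sub_rev] at l1
        have l1' : ‖go (P.nxt X t x).wω 0 (τ - (P.nxt X t x).h) - go (P.ω t p₁) 0 s₂‖ ≤
          ‖P.ω t p₁ - (P.nxt X t x).wω‖ + |s₂ - (τ - (P.nxt X t x).h)| := by
          have := go_lip (P.nxt X t x).wω 0 (P.ω t p₁) 0 (τ - (P.nxt X t x).h) s₂
          rwa [sub_self, norm_zero, add_zero, norm_sub_rev (P.nxt X t x).wω,
            abs_sub_comm _ s₂] at this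
        linarith [hp1.2.1])
      (by
        rw [add_one (hP.good2.κ_mul t)]
        have e1 : P.κ t q - go (P.κ t p₁) 0 s₂ =
          (P.κ t q - go (P.nxt X t x).wκ 0 (τ - (P.nxt X t x).h)) +
          (go (P.nxt X t x).wκ 0 (τ - (P.nxt X t x).h) - go (P.κ t p₁) 0 s₂) := by abel
        rw [e1]
        refine (norm_add_le _ _).trans ?_
        have l1' : ‖go (P.nxt X t x).wκ 0 (τ - (P.nxt X t x).h) - go (P.κ t p₁) 0 s₂‖ ≤
          ‖P.κ t p₁ - (P.nxt X t x).wκ‖ + |s₂ - (τ - (P.nxt X t x).h)| := by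
          have := go_lip (P.nxt X t x).wκ 0 (P.κ t p₁) 0 (τ - (P.nxt X t x).h) s₂
          rwa [sub_self, norm_zero, add_zero, norm_sub_rev (P.nxt X t x).wκ,
            abs_sub_comm _ s₂] at this
        linarith [hp1.2.2])
    have t3' : P.M ((x * (p₁ * P.b (p₁⁻¹ * 1) s₂))⁻¹ * (x * q)) ≤ C3 := by
      rw [show (x * (p₁ * P.b (p₁⁻¹ * 1) s₂))⁻¹ * (x * q) = (p₁ * P.b (p₁⁻¹ * 1) s₂)⁻¹ * q by
        group]
      exact t3
    have t4 : P.M (z⁻¹ * (k * P.b (k⁻¹ * x) s)) ≤ r := hl.1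
    have m1 := M_tri hP z (k * P.b (k⁻¹ * x) s) (x * q)
    have m2 := M_tri hP (k * P.b (k⁻¹ * x) s) (k * P.b (k⁻¹ * x) s₁) (x * q)
    have m3 := M_tri hP (k * P.b (k⁻¹ * x) s₁) (x * (p₁ * P.b (p₁⁻¹ * 1) s₂)) (x * q)
    linarith
  · have q1 := Φ_div hP z (x * q)
    have q2 := ΘE_Φ hP X t x hNP
    have q3 := hP.good1.Φ_mul x q
    have q4 := hP.good2.flat_Φ t q hq
    rw [nxt_hm, nxt_α, ← hs] at h3
    have l1 := go_lip (aE X) (P.Φ x) (P.ΘE X t x + (aE X - P.ΘE X t x)) (P.ΘE X t x + 0) s s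
    rw [go_add'] at l1
    have e0 : aE X - (P.ΘE X t x + (aE X - P.ΘE X t x)) = 0 := by abel
    have e0' : P.Φ x - (P.ΘE X t x + 0) = -(P.ΘE X t x - P.Φ x) := by abel
    rw [e0, e0', norm_neg] at l1
    simp only [sub_self, norm_zero, abs_zero, zero_add, add_zero] at l1
    have e1 : P.Φ (z⁻¹ * (x * q)) = (P.Φ (z⁻¹ * (x * q)) - (P.Φ (x * q) - P.Φ z)) +
      (P.Φ (x * q) - P.Φ x - P.Φ q) + (P.Φ q - P.φ t q) +
      (P.φ t q - go (aE X - P.ΘE X t x) 0 s) - (P.ΘE X t x - P.Φ x) -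
      (go (aE X) (P.Φ x) s - (P.ΘE X t x + go (aE X - P.ΘE X t x) 0 s)) -
      (P.Φ z - go (aE X) (P.Φ x) s) := by abel
    rw [e1]
    have m1 := norm_sub_le ((P.Φ (z⁻¹ * (x * q)) - (P.Φ (x * q) - P.Φ z)) +
      (P.Φ (x * q) - P.Φ x - P.Φ q) + (P.Φ q - P.φ t q) +
      (P.φ t q - go (aE X - P.ΘE X t x) 0 s) - (P.ΘE X t x - P.Φ x) -
      (go (aE X) (P.Φ x) s - (P.ΘE X t x + go (aE X - P.ΘE X t x) 0 s)))
      (P.Φ z - go (aE X) (P.Φ x) s)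
    have m2 := norm_sub_le ((P.Φ (z⁻¹ * (x * q)) - (P.Φ (x * q) - P.Φ z)) +
      (P.Φ (x * q) - P.Φ x - P.Φ q) + (P.Φ q - P.φ t q) +
      (P.φ t q - go (aE X - P.ΘE X t x) 0 s) - (P.ΘE X t x - P.Φ x))
      (go (aE X) (P.Φ x) s - (P.ΘE X t x + go (aE X - P.ΘE X t x) 0 s))
    have m3 := norm_sub_le ((P.Φ (z⁻¹ * (x * q)) - (P.Φ (x * q) - P.Φ z)) +
      (P.Φ (x * q) - P.Φ x - P.Φ q) + (P.Φ q - P.φ t q) +
      (P.φ t q - go (aE X - P.ΘE X t x) 0 s)) (P.ΘE X t x - P.Φ x)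
    have m4 := norm_add_le ((P.Φ (z⁻¹ * (x * q)) - (P.Φ (x * q) - P.Φ z)) +
      (P.Φ (x * q) - P.Φ x - P.Φ q) + (P.Φ q - P.φ t q))
      (P.φ t q - go (aE X - P.ΘE X t x) 0 s)
    have m5 : ‖(P.Φ (z⁻¹ * (x * q)) - (P.Φ (x * q) - P.Φ z)) +
      (P.Φ (x * q) - P.Φ x - P.Φ q) + (P.Φ q - P.φ t q)‖ ≤ _ := norm_add₃_le
    have l3 : ‖P.Φ z - go (aE X) (P.Φ x) s‖ ≤ r := hl.2
    linarith

/-- after the last letter -/
theorem endC (hP : P.Good) (r : ℝ) : ∃ C, 0 ≤ C ∧ ∀ (e : E) (σ : Sta J)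
    (z q : H) (τ : ℝ), σ.hm ≤ σ.h → σ.h ≤ τ → P.PosL r r (some (e, σ)) 1 τ z → q ∈ P.A e →
    ‖P.φ e q - go σ.wω 0 (τ - σ.h)‖ ≤ r → ‖P.κ e q - go σ.wκ 0 (τ - σ.h)‖ ≤ r →
    ‖P.ω e q - go σ.α 0 (τ - σ.hm)‖ ≤ r →
    P.M (q⁻¹ * z) ≤ C ∧ ‖P.Φ (q⁻¹ * z)‖ ≤ C := by
  have hK := K_nonneg hP
  obtain ⟨C3, hC3, fp⟩ := flat_path hP (2 * |r| + 3 * P.K)
  refine ⟨|r| + C3 + (5 * P.K + 2 * |r|), by positivity, ?_⟩
  intro e σ z q τ hX hτ ⟨k, hk, hl⟩ hq h1 h2 h3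
  have hr0 := abs_nonneg r
  have hr := le_abs_self r
  obtain ⟨hkA, hk1, hk2, hk3⟩ := hk
  have hs0 : 0 ≤ σ.h - σ.hm := sub_nonneg.2 hX
  have hs : 0 ≤ τ - σ.h := sub_nonneg.2 hτ
  have g1 := gate_one hP e
  have hk2' : ‖P.ω e k - go σ.α (P.ω e (P.gate e 1)) (σ.h - σ.hm)‖ ≤ r := hk2
  constructor
  · have t3 := fp e k 1 q (τ - σ.h) hkA (P.A e).one_mem hq hs
      (by
        rw [add_one (hP.good2.ω_mul e)]
        have l1 := go_lip σ.α (P.ω e (P.gate e 1)) σ.α 0 (σ.h - σ.hm) (σ.h - σ.hm)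
        simp only [sub_self, norm_zero, abs_zero, zero_add, add_zero, sub_zero] at l1
        have l2 := go_lip (go σ.α 0 (σ.h - σ.hm)) 0 (P.ω e k) 0 (τ - σ.h) (τ - σ.h)
        rw [go_go _ _ hs0 hs, show σ.h - σ.hm + (τ - σ.h) = τ - σ.hm by ring] at l2
        simp only [sub_self, norm_zero, abs_zero, add_zero] at l2
        have l3 : ‖go σ.α 0 (σ.h - σ.hm) - P.ω e k‖ ≤ r + 3 * P.K := by
          have e1 : go σ.α 0 (σ.h - σ.hm) - P.ω e k =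
            -(P.ω e k - go σ.α (P.ω e (P.gate e 1)) (σ.h - σ.hm)) -
            (go σ.α (P.ω e (P.gate e 1)) (σ.h - σ.hm) - go σ.α 0 (σ.h - σ.hm)) := by abel
          rw [e1]
          refine (norm_sub_le _ _).trans ?_
          rw [norm_neg]
          linarith [g1.1]
        have e1 : P.ω e q - go (P.ω e k) 0 (τ - σ.h) =
          (P.ω e q - go σ.α 0 (τ - σ.hm)) +
          (go σ.α 0 (τ - σ.hm) - go (P.ω e k) 0 (τ - σ.h)) := by abel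
        rw [e1]
        refine (norm_add_le _ _).trans ?_
        linarith)
      (by
        rw [add_one (hP.good2.κ_mul e)]
        have l2 := go_lip σ.wκ 0 (P.κ e k) 0 (τ - σ.h) (τ - σ.h)
        simp only [sub_self, norm_zero, abs_zero, add_zero] at l2
        rw [norm_sub_rev σ.wκ] at l2
        have e1 : P.κ e q - go (P.κ e k) 0 (τ - σ.h) =
          (P.κ e q - go σ.wκ 0 (τ - σ.h)) +
          (go σ.wκ 0 (τ - σ.h) - go (P.κ e k) 0 (τ - σ.h)) := by abel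
        rw [e1]
        refine (norm_add_le _ _).trans ?_
        linarith)
    have l1 : P.M (z⁻¹ * (k * P.b (k⁻¹ * 1) (τ - σ.h))) ≤ r := hl.1
    have m1 := M_tri hP z (k * P.b (k⁻¹ * 1) (τ - σ.h)) q
    rw [M_comm hP q z]
    linarith
  · have l3 : ‖P.Φ z - go σ.wω (P.Φ 1) (τ - σ.h)‖ ≤ r := hl.2
    have q1 := Φ_div hP q z
    have q4 := hP.good2.flat_Φ e q hq
    have l1 := go_lip σ.wω (P.Φ 1) σ.wω 0 (τ - σ.h) (τ - σ.h)
    simp only [sub_self, norm_zero, abs_zero, zero_add, add_zero, sub_zero] at l1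
    have q5 := Φ_one hP
    have e1 : P.Φ (q⁻¹ * z) = (P.Φ (q⁻¹ * z) - (P.Φ z - P.Φ q)) +
      (P.Φ z - go σ.wω (P.Φ 1) (τ - σ.h)) +
      (go σ.wω (P.Φ 1) (τ - σ.h) - go σ.wω 0 (τ - σ.h)) - (P.φ e q - go σ.wω 0 (τ - σ.h)) -
      (P.Φ q - P.φ e q) := by abel
    rw [e1]
    have m1 := norm_sub_le ((P.Φ (q⁻¹ * z) - (P.Φ z - P.Φ q)) +
      (P.Φ z - go σ.wω (P.Φ 1) (τ - σ.h)) +
      (go σ.wω (P.Φ 1) (τ - σ.h) - go σ.wω 0 (τ - σ.h)) - (P.φ e q - go σ.wω 0 (τ - σ.h)))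
      (P.Φ q - P.φ e q)
    have m2 := norm_sub_le ((P.Φ (q⁻¹ * z) - (P.Φ z - P.Φ q)) +
      (P.Φ z - go σ.wω (P.Φ 1) (τ - σ.h)) +
      (go σ.wω (P.Φ 1) (τ - σ.h) - go σ.wω 0 (τ - σ.h))) (P.φ e q - go σ.wω 0 (τ - σ.h))
    have m3 : ‖(P.Φ (q⁻¹ * z) - (P.Φ z - P.Φ q)) +
      (P.Φ z - go σ.wω (P.Φ 1) (τ - σ.h)) +
      (go σ.wω (P.Φ 1) (τ - σ.h) - go σ.wω 0 (τ - σ.h))‖ ≤ _ := norm_add₃_le
    linarith

end LPiece

end Run7.h230
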