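import Pool.Agent.Run7.h230.LocalD

set_option autoImplicit false

/-! Local lemmas on pieces, part E: durations, positions near the entry. -/

namespace Run7.h230

namespace LPiece

variable {H E J : Type} [Group H] [Fintype J] {P : LPiece H E J}

theorem near_entry (hP : P.Good) (ρ r N : ℝ) : ∃ C, 0 ≤ C ∧ ∀ (X : Option (E × Sta J))
    (k k₁ T z : H) (u B : J → ℝ) (s : ℝ), |s| ≤ N → P.Ent ρ X u k → P.Ent ρ X u k₁ →
    P.Loc r k₁ T (aE X) B s z → P.M (k⁻¹ * z) ≤ C ∧ ‖P.Φ (k⁻¹ * z)‖ ≤ C := by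
  have hK := K_nonneg hP
  obtain ⟨C0, hC0, fn⟩ := flat_near hP (2 * |ρ|)
  obtain ⟨C1, hC1, ls⟩ := loc_stab hP (C0 + |ρ| + |r| + |N| + P.K)
  refine ⟨C1, hC1, ?_⟩
  intro X k k₁ T z u B s hs hk hk₁ hz
  have hρ0 := abs_nonneg ρ
  have hr0 := abs_nonneg r
  have hN0 := abs_nonneg N
  have hρ := le_abs_self ρ
  have hr := le_abs_self r
  have hN := le_abs_self N
  have h1 : P.M (k⁻¹ * k₁) ≤ C0 := by
    rcases X with _ | ⟨e, σ⟩
    · have h1 : k = 1 := hk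
      have h2 : k₁ = 1 := hk₁
      rw [h1, h2, M_self hP]; exact hC0
    · refine fn e k k₁ hk.1 hk₁.1 ?_ ?_
      · have e1 : P.ω e k₁ - P.ω e k = (P.ω e k₁ - go σ.α u (σ.h - σ.hm)) -
          (P.ω e k - go σ.α u (σ.h - σ.hm)) := by abel
        rw [e1]
        exact (norm_sub_le _ _).trans (by linarith [hk.2.2.1, hk₁.2.2.1])
      · have e1 : P.κ e k₁ - P.κ e k = (P.κ e k₁ - σ.wκ) - (P.κ e k - σ.wκ) := by abel
        rw [e1]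
        exact (norm_sub_le _ _).trans (by linarith [hk.2.2.2, hk₁.2.2.2])
  have h2 : P.Loc (C0 + |ρ| + |r| + |N| + P.K) k T (aE X) B 0 k := by
    constructor
    · rw [hP.good1.b_neg _ 0 le_rfl, mul_one, M_self hP]; positivity
    · rw [go_of_nonpos _ _ le_rfl]
      rcases X with _ | ⟨e, σ⟩
      · have h1 : k = 1 := hk
        rw [h1]
        show ‖P.Φ 1 - 0‖ ≤ _
        rw [sub_zero]
        exact (Φ_one hP).trans (by linarith)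
      · show ‖P.Φ k - σ.wω‖ ≤ _
        have q := hP.good2.flat_Φ e k hk.1
        have e1 : P.Φ k - σ.wω = (P.Φ k - P.φ e k) + (P.φ e k - σ.wω) := by abel
        rw [e1]
        exact (norm_add_le _ _).trans (by linarith [hk.2.1])
  have h3 := ls 1 k T k₁ T k z (aE X) B (aE X) B 0 s (by rw [one_mul]; linarith)
    (by rw [one_mul, M_self hP]; positivity)
    (by rw [zero_sub, abs_neg]; linarith)
    (by rw [sub_self, zero_sub, norm_neg]; exact (Φ_one hP).trans (by linarith))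
    (by rw [sub_self, zero_sub, norm_neg]; exact (Φ_one hP).trans (by linarith))
    h2 (hz.mono (by linarith))
  rwa [one_mul] at h3

/-- durations of close words -/
theorem DE_stab (hP : P.Good) (r : ℝ) : ∃ C, 0 ≤ C ∧ ∀ (X X' : Option (E × Sta J))
    (c g g' : H), Ord X → Ord X' → P.SOK X → P.SOK X' →
    (∀ k k', P.Ent P.K X (P.tg X g) k → P.Ent P.K X' (P.tg X' g') k' →
      P.M ((c * k)⁻¹ * k') ≤ r) →
    ‖aE X' - aE X - P.Φ c‖ ≤ r → |hE X' - hE X| ≤ r →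
    P.M ((c * g)⁻¹ * g') ≤ r → ‖P.Φ ((c * g)⁻¹ * g')‖ ≤ r → |P.DE X g - P.DE X' g'| ≤ C := by
  have hK := K_nonneg hP
  obtain ⟨C1, hC1, de⟩ := DE_eq hP P.K
  obtain ⟨C2, hC2, ds⟩ := d_stab hP r
  refine ⟨2 * C1 + C2 + 3 * |r| + 2 * P.K, by positivity, ?_⟩
  intro X X' c g g' hX hX' hS hS' hk h1 h2 h3 h4
  have hr := le_abs_self r
  have hr0 := abs_nonneg r
  obtain ⟨k, hk1⟩ := ent_ex hP X (P.tg X g) hS (by
    rintro e σ rfl
    exact hP.good2.ω_supp e _ (hP.good3.gate_mem e g))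
  obtain ⟨k', hk1'⟩ := ent_ex hP X' (P.tg X' g') hS' (by
    rintro e σ rfl
    exact hP.good2.ω_supp e _ (hP.good3.gate_mem e g'))
  have d1 := de X g k hX hk1
  have d2 := de X' g' k' hX' hk1'
  have d3 := ds (c * k) k' (c * g) g' (hk k k' hk1 hk1') h3
  rw [show (c * k)⁻¹ * (c * g) = k⁻¹ * g by group] at d3
  have d4 : |‖P.Φ g - aE X‖ - ‖P.Φ g' - aE X'‖| ≤ 2 * |r| + 2 * P.K := by
    refine (abs_norm_sub_norm_le _ _).trans ?_
    have q := Φ_right hP h4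
    have e1 : P.Φ g - aE X - (P.Φ g' - aE X') = (aE X' - aE X - P.Φ c) -
      (P.Φ g' - P.Φ g - P.Φ c) := by abel
    rw [e1]
    exact (norm_sub_le _ _).trans (by linarith)
  have d5 := (abs_max_sub_max_le_max (P.d (k⁻¹ * g)) ‖P.Φ g - aE X‖ (P.d (k'⁻¹ * g'))
    ‖P.Φ g' - aE X'‖).trans (max_le (d3.trans (by linarith : C2 ≤ C2 + 2 * |r| + 2 * P.K))
      (d4.trans (by linarith)))
  have a1 := abs_le.1 d1
  have a2 := abs_le.1 d2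
  have a3 := abs_le.1 d5
  have a4 := abs_le.1 h2
  rw [abs_le]
  constructor <;> linarith [a1.1, a1.2, a2.1, a2.2, a3.1, a3.2, a4.1, a4.2]

theorem endD1 (hP : P.Good) : ∃ C, 0 ≤ C ∧ ∀ (X : Option (E × Sta J)) (t : E)
    (x : H), Ord X → P.SOK X → P.NPE X t x → |P.DE X x - max ((P.nxt X t x).h +
      max ‖(P.nxt X t x).wω‖ ‖(P.nxt X t x).wκ‖) ((P.nxt X t x).hm + ‖(P.nxt X t x).α‖)| ≤ C := by
  have hK := K_nonneg hP
  obtain ⟨C1, hC1, he⟩ := h_eq hP (P.K + P.K)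
  obtain ⟨C2, hC2, de⟩ := DE_eq hP P.K
  refine ⟨C1 + C2 + 4 * P.K, by positivity, ?_⟩
  intro X t x hX hS hNP
  obtain ⟨k, hk⟩ := ent_ex hP X (P.tg X x) hS (by
    rintro e σ rfl
    exact hP.good2.ω_supp e _ (hP.good3.gate_mem e x))
  have hp1 := exi_gate hP X t x k _ _ hNP hk
  set p₁ := P.gate t (x⁻¹ * k) with hp₁
  have sp := (hP.good3.gate_in t (x⁻¹ * k) 1 (P.A t).one_mem).1
  rw [← hp₁, show (x⁻¹ * k)⁻¹ * 1 = k⁻¹ * x by group,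
    show (x⁻¹ * k)⁻¹ * p₁ = k⁻¹ * (x * p₁) by group,
    show (k⁻¹ * (x * p₁))⁻¹ * (k⁻¹ * x) = p₁⁻¹ * 1 by group] at sp
  have hk2 : P.Ent (P.K + P.K) X (P.uE X t x) k := by
    rcases X with _ | ⟨e, σ⟩
    · exact hk
    · obtain ⟨hkA, hk1, hk2, hk3⟩ := hk
      refine ⟨hkA, hk1.trans (by linarith), ?_, hk3.trans (by linarith)⟩
      have ug := (hP.good3.u_gate e t x hNP 1 (P.A t).one_mem).1
      rw [mul_one] at ug
      have l1 := go_lip σ.α (P.tg (some (e, σ)) x) σ.α (P.uω e t x) (σ.h - σ.hm) (σ.h - σ.hm)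
      simp only [sub_self, norm_zero, abs_zero, zero_add, add_zero] at l1
      have ug' : ‖P.tg (some (e, σ)) x - P.uω e t x‖ ≤ P.K := ug
      show ‖P.ω e k - go σ.α (P.uω e t x) (σ.h - σ.hm)‖ ≤ _
      have e1 : P.ω e k - go σ.α (P.uω e t x) (σ.h - σ.hm) =
        (P.ω e k - go σ.α (P.tg (some (e, σ)) x) (σ.h - σ.hm)) +
        (go σ.α (P.tg (some (e, σ)) x) (σ.h - σ.hm) - go σ.α (P.uω e t x) (σ.h - σ.hm)) := by
        abel
      rw [e1]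
      exact (norm_add_le _ _).trans (by linarith)
  have hh := he X t x k p₁ hX hNP hk2 (hp1.mono (by linarith))
  have hd := de X x k hX hk
  have hf := flat_dist hP hp1.1 (P.A t).one_mem
  rw [add_one (hP.good2.ω_mul t), add_one (hP.good2.κ_mul t), zero_sub, zero_sub, norm_neg,
    norm_neg] at hf
  have hΘ := ΘE_Φ hP X t x hNP
  have f1 : |‖P.ω t p₁‖ - ‖(P.nxt X t x).wω‖| ≤ P.K :=
    (abs_norm_sub_norm_le _ _).trans hp1.2.1
  have f2 : |‖P.κ t p₁‖ - ‖(P.nxt X t x).wκ‖| ≤ P.K :=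
    (abs_norm_sub_norm_le _ _).trans hp1.2.2
  have f3 := (abs_max_sub_max_le_max ‖P.ω t p₁‖ ‖P.κ t p₁‖ ‖(P.nxt X t x).wω‖
    ‖(P.nxt X t x).wκ‖).trans (max_le f1 f2)
  have f4 : |‖P.Φ x - aE X‖ - ‖(P.nxt X t x).α‖| ≤ P.K := by
    rw [nxt_α, ← norm_neg (P.Φ x - aE X)]
    refine (abs_norm_sub_norm_le _ _).trans ?_
    have e1 : -(P.Φ x - aE X) - (aE X - P.ΘE X t x) = P.ΘE X t x - P.Φ x := by abel
    rw [e1]; exact hΘ
  rw [nxt_hm]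
  have a1 := abs_le.1 hh
  have a2 := abs_le.1 hf
  have a3 := abs_le.1 f3
  have a4 := abs_le.1 sp
  have f5 : |hE X + P.d (k⁻¹ * x) - ((P.nxt X t x).h +
      max ‖(P.nxt X t x).wω‖ ‖(P.nxt X t x).wκ‖)| ≤ C1 + 4 * P.K := by
    rw [abs_le]
    constructor <;> linarith [a1.1, a1.2, a2.1, a2.2, a3.1, a3.2, a4.1, a4.2]
  have f6 : |hE X + ‖P.Φ x - aE X‖ - (hE X + ‖(P.nxt X t x).α‖)| ≤ C1 + 4 * P.K := by
    rw [add_sub_add_left_eq_sub]; linarith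
  have f7 := (abs_max_sub_max_le_max (hE X + P.d (k⁻¹ * x)) (hE X + ‖P.Φ x - aE X‖)
    ((P.nxt X t x).h + max ‖(P.nxt X t x).wω‖ ‖(P.nxt X t x).wκ‖)
    (hE X + ‖(P.nxt X t x).α‖)).trans (max_le f5 f6)
  rw [max_add_add_left] at f7
  have a5 := abs_le.1 hd
  have a6 := abs_le.1 f7
  rw [abs_le]
  constructor <;> linarith [a5.1, a5.2, a6.1, a6.2]

theorem endD2 (hP : P.Good) : ∃ C, 0 ≤ C ∧ ∀ (e : E) (σ : Sta J),
    |P.DE (some (e, σ)) 1 - max (σ.h + max ‖σ.wω‖ ‖σ.wκ‖) (σ.hm + ‖σ.α‖)| ≤ C := by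
  have hK := K_nonneg hP
  refine ⟨7 * P.K, by positivity, ?_⟩
  intro e σ
  have g1 := gate_one hP e
  have g2 := hP.good3.gate_mem e 1
  have hf := flat_dist hP g2 (P.A e).one_mem
  rw [add_one (hP.good2.ω_mul e), add_one (hP.good2.κ_mul e), zero_sub, zero_sub, norm_neg,
    norm_neg] at hf
  have q5 := Φ_one hP
  have f1 : |‖P.κ e (P.gate e 1) - σ.wκ‖ - ‖σ.wκ‖| ≤ 3 * P.K := by
    rw [← norm_neg σ.wκ]
    refine (abs_norm_sub_norm_le _ _).trans ?_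
    rw [sub_neg_eq_add, sub_add_cancel]; exact g1.2
  have f2 : |‖P.ω e (P.gate e 1) - σ.α‖ - ‖σ.α‖| ≤ 3 * P.K := by
    rw [← norm_neg σ.α]
    refine (abs_norm_sub_norm_le _ _).trans ?_
    rw [sub_neg_eq_add, sub_add_cancel]; exact g1.1
  have f3 : |‖P.Φ 1 - σ.wω‖ - ‖σ.wω‖| ≤ P.K := by
    rw [← norm_neg σ.wω]
    refine (abs_norm_sub_norm_le _ _).trans ?_
    rw [sub_neg_eq_add, sub_add_cancel]; exact q5
  have f4 : max ‖P.ω e (P.gate e 1)‖ ‖P.κ e (P.gate e 1)‖ ≤ 3 * P.K := max_le g1.1 g1.2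
  have n1 := hP.good1.d_nonneg ((P.gate e 1)⁻¹ * 1)
  have a1 := abs_le.1 f1
  have a2 := abs_le.1 f2
  have a3 := abs_le.1 f3
  have a4 := abs_le.1 hf
  show |max (P.d ((P.gate e 1)⁻¹ * 1) +
      max (σ.h + ‖P.κ e (P.gate e 1) - σ.wκ‖) (σ.hm + ‖P.ω e (P.gate e 1) - σ.α‖))
      (σ.h + ‖P.Φ 1 - σ.wω‖) - max (σ.h + max ‖σ.wω‖ ‖σ.wκ‖) (σ.hm + ‖σ.α‖)| ≤ _
  have e1 := le_max_left (σ.h + ‖P.κ e (P.gate e 1) - σ.wκ‖)
    (σ.hm + ‖P.ω e (P.gate e 1) - σ.α‖)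
  have e2 := le_max_right (σ.h + ‖P.κ e (P.gate e 1) - σ.wκ‖)
    (σ.hm + ‖P.ω e (P.gate e 1) - σ.α‖)
  have e3 := le_max_left (P.d ((P.gate e 1)⁻¹ * 1) +
      max (σ.h + ‖P.κ e (P.gate e 1) - σ.wκ‖) (σ.hm + ‖P.ω e (P.gate e 1) - σ.α‖))
      (σ.h + ‖P.Φ 1 - σ.wω‖)
  have e4 := le_max_right (P.d ((P.gate e 1)⁻¹ * 1) +
      max (σ.h + ‖P.κ e (P.gate e 1) - σ.wκ‖) (σ.hm + ‖P.ω e (P.gate e 1) - σ.α‖))
      (σ.h + ‖P.Φ 1 - σ.wω‖)
  have e5 := le_max_left (σ.h + max ‖σ.wω‖ ‖σ.wκ‖) (σ.hm + ‖σ.α‖)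
  have e6 := le_max_right (σ.h + max ‖σ.wω‖ ‖σ.wκ‖) (σ.hm + ‖σ.α‖)
  have e7 := le_max_left ‖σ.wω‖ ‖σ.wκ‖
  have e8 := le_max_right ‖σ.wω‖ ‖σ.wκ‖
  rw [abs_le]
  constructor
  · have : max (σ.h + max ‖σ.wω‖ ‖σ.wκ‖) (σ.hm + ‖σ.α‖) ≤
        max (P.d ((P.gate e 1)⁻¹ * 1) +
          max (σ.h + ‖P.κ e (P.gate e 1) - σ.wκ‖) (σ.hm + ‖P.ω e (P.gate e 1) - σ.α‖))
          (σ.h + ‖P.Φ 1 - σ.wω‖) + 7 * P.K := by
      refine max_le ?_ (by linarith [a2.1, a2.2])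
      rw [← max_add_add_left]
      exact max_le (by linarith [a3.1, a3.2]) (by linarith [a1.1, a1.2])
    linarith
  · have : max (P.d ((P.gate e 1)⁻¹ * 1) +
          max (σ.h + ‖P.κ e (P.gate e 1) - σ.wκ‖) (σ.hm + ‖P.ω e (P.gate e 1) - σ.α‖))
          (σ.h + ‖P.Φ 1 - σ.wω‖) ≤
        max (σ.h + max ‖σ.wω‖ ‖σ.wκ‖) (σ.hm + ‖σ.α‖) + 7 * P.K := by
      refine max_le ?_ (by linarith [a3.1, a3.2])
      rw [← max_add_add_left]
      exact max_le (by linarith [a1.1, a1.2, a4.1, a4.2]) (by linarith [a2.1, a2.2, a4.1, a4.2])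
    linarith

end LPiece

end Run7.h230
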