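import Mathlib

set_option autoImplicit false

/-! Semihyperbolic groups (Alonso and Bridson). -/

namespace Run7.h230

/-- Word distance with respect to `A`: the least length of a product of elements of `A` that is
equal to `x⁻¹ * y`. For a symmetric generating set it is the distance of `x` and `y` in the Cayley
graph. -/
noncomputable def wdist {G : Type} [Group G] (A : Set G) (x y : G) : ℕ :=
  sInf {n | ∃ l : List G, l.length = n ∧ (∀ a ∈ l, a ∈ A) ∧ l.prod = x⁻¹ * y}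

/-- `σ g` is an edge path of unit speed in the Cayley graph with respect to `A`, from `1` to `g`,
which stops at time `T g`. -/
def IsCombing {G : Type} [Group G] (A : Set G) (σ : G → ℕ → G) (T : G → ℕ) : Prop :=
  ∀ g, σ g 0 = 1 ∧ (∀ t, T g ≤ t → σ g t = g) ∧ ∀ t, t < T g → (σ g t)⁻¹ * σ g (t + 1) ∈ A

/-- The paths of the combing are `(L, ε)`-quasi-geodesics. -/
def IsQuasiGeodesic {G : Type} [Group G] (A : Set G) (σ : G → ℕ → G) (T : G → ℕ) (L ε : ℝ) :
    Prop :=
  ∀ g s t, s ≤ t → t ≤ T g →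
    ((t : ℝ) - s) / L - ε ≤ wdist A (σ g s) (σ g t) ∧
      (wdist A (σ g s) (σ g t) : ℝ) ≤ L * ((t : ℝ) - s) + ε

/-- The two-sided fellow traveller property. -/
def IsBounded {G : Type} [Group G] (A : Set G) (σ : G → ℕ → G) (k : ℕ) : Prop :=
  ∀ g, ∀ a ∈ A, ∀ t, wdist A (σ g t) (σ (g * a) t) ≤ k ∧ wdist A (a * σ g t) (σ (a * g) t) ≤ k

/-- `G` is semihyperbolic: for a finite symmetric generating set `A` there is a bounded
quasi-geodesic bicombing. -/
def Semihyperbolic (G : Type) [Group G] : Prop :=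
  ∃ A : Set G, A.Finite ∧ (1 : G) ∉ A ∧ (∀ a ∈ A, a⁻¹ ∈ A) ∧ Subgroup.closure A = ⊤ ∧
    ∃ (σ : G → ℕ → G) (T : G → ℕ) (L ε : ℝ) (k : ℕ), 1 ≤ L ∧ 0 ≤ ε ∧
      IsCombing A σ T ∧ IsQuasiGeodesic A σ T L ε ∧ IsBounded A σ k

end Run7.h230
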