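import Mathlib

set_option autoImplicit false

/-! Semihyperbolic groups in the sense of Alonso and Bridson: the combing lines stop at the first
moment at which they reach their end point. -/

namespace Run7.h230.Semi

/-- The distance of `x` and `y` in the Cayley graph with respect to the finite symmetric
generating set `A`: the least length of a product of elements of `A` that is equal to
`x⁻¹ * y`. -/
noncomputable def dist {G : Type} [Group G] (A : Set G) (x y : G) : ℕ :=
  sInf {n | ∃ l : List G, l.length = n ∧ (∀ a ∈ l, a ∈ A) ∧ l.prod = x⁻¹ * y}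

/-- For all `g`, the map `σ g` is an edge path of unit speed in the Cayley graph with respect to
`A`, from `1` to `g`; it reaches `g` for the first time at the time `T g` and it is constant from
then on. -/
def Combing {G : Type} [Group G] (A : Set G) (σ : G → ℕ → G) (T : G → ℕ) : Prop :=
  ∀ g, σ g 0 = 1 ∧ (∀ t, T g ≤ t → σ g t = g) ∧
    ∀ t, t < T g → σ g t ≠ g ∧ (σ g t)⁻¹ * σ g (t + 1) ∈ A

/-- The paths of the combing are `(L, ε)`-quasi-geodesics (up to the time when they stop). -/
def QuasiGeodesic {G : Type} [Group G] (A : Set G) (σ : G → ℕ → G) (T : G → ℕ) (L ε : ℝ) :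
    Prop :=
  ∀ g s t, s ≤ t → t ≤ T g →
    ((t : ℝ) - s) / L - ε ≤ dist A (σ g s) (σ g t) ∧
      (dist A (σ g s) (σ g t) : ℝ) ≤ L * ((t : ℝ) - s) + ε

/-- The two-sided fellow traveller property: `d (σ_g (t), σ_{g a} (t)) ≤ k` and
`d (a σ_g (t), σ_{a g} (t)) ≤ k`. -/
def Bounded {G : Type} [Group G] (A : Set G) (σ : G → ℕ → G) (k : ℕ) : Prop :=
  ∀ g, ∀ a ∈ A, ∀ t, dist A (σ g t) (σ (g * a) t) ≤ k ∧ dist A (a * σ g t) (σ (a * g) t) ≤ k

/-- The group `G` is semihyperbolic: with respect to a finite symmetric generating set `A` there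
is a bounded quasi-geodesic bicombing. -/
def Semihyperbolic (G : Type) [Group G] : Prop :=
  ∃ A : Set G, A.Finite ∧ (1 : G) ∉ A ∧ (∀ a ∈ A, a⁻¹ ∈ A) ∧ Subgroup.closure A = ⊤ ∧
    ∃ (σ : G → ℕ → G) (T : G → ℕ) (L ε : ℝ) (k : ℕ), 1 ≤ L ∧ 0 ≤ ε ∧
      Combing A σ T ∧ QuasiGeodesic A σ T L ε ∧ Bounded A σ k

end Run7.h230.Semi
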