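import Pool.Agent.Run7.h230.GoG

set_option autoImplicit false

/-! Words in the universal group of a graph of groups. -/

namespace Run7.h230

variable {𝒢 : GraphOfGroups}

/-- oriented edges -/
abbrev OE (𝒢 : GraphOfGroups) : Type := 𝒢.E × Bool

/-- origin of an oriented edge -/
def org : OE 𝒢 → 𝒢.V
  | (e, false) => 𝒢.src e
  | (e, true) => 𝒢.tgt e

/-- reversed oriented edge -/
def rev (t : OE 𝒢) : OE 𝒢 := (t.1, !t.2)

/-- the letter of an oriented edge -/
def lt : OE 𝒢 → UGroup 𝒢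
  | (e, false) => (st e)⁻¹
  | (e, true) => st e

/-- the vertex group in the universal group -/
def VG (v : 𝒢.V) : Subgroup (UGroup 𝒢) := (ι v).range

/-- the edge group at the origin of an oriented edge, in the universal group;
`(lt t)⁻¹ * a * lt t ∈ EG (rev t)` for `a ∈ EG t` -/
def EG : OE 𝒢 → Subgroup (UGroup 𝒢)
  | (e, false) => ((ι (𝒢.src e)).comp (𝒢.f e)).range
  | (e, true) => ((ι (𝒢.tgt e)).comp (𝒢.f' e)).range

/-- value of the word `x₀ t₁ x₁ t₂ … t_m g`, given by the list `(x₀, t₁), …, (x_{m-1}, t_m)` and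
`g` -/
def val : List (UGroup 𝒢 × OE 𝒢) → UGroup 𝒢 → UGroup 𝒢
  | [], g => g
  | p :: L, g => p.1 * lt p.2 * val L g

/-- the word is a path word from `i` to `j` -/
def Valid : 𝒢.V → List (UGroup 𝒢 × OE 𝒢) → UGroup 𝒢 → 𝒢.V → Prop
  | i, [], g, j => i = j ∧ g ∈ VG i
  | i, p :: L, g, j => org p.2 = i ∧ p.1 ∈ VG i ∧ Valid (org (rev p.2)) L g j

/-- reduced words: no `t a t⁻¹` with `a` in the edge group -/
def Red : List (UGroup 𝒢 × OE 𝒢) → Prop
  | [] => True
  | [_] => True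
  | p :: q :: L => ¬ (q.2 = rev p.2 ∧ q.1 ∈ EG (rev p.2)) ∧ Red (q :: L)

/-- `Sh c L g L' g'`: the word `(L', g')` arises from `c * (L, g)` by shifting elements of edge
groups across letters. -/
def Sh : UGroup 𝒢 → List (UGroup 𝒢 × OE 𝒢) → UGroup 𝒢 → List (UGroup 𝒢 × OE 𝒢) →
    UGroup 𝒢 → Prop
  | c, [], g, [], g' => g' = c * g
  | c, p :: L, g, p' :: L', g' => p.2 = p'.2 ∧ ∃ a ∈ EG p.2, p'.1 = c * p.1 * a ∧
      Sh ((lt p.2)⁻¹ * a⁻¹ * lt p.2) L g L' g'
  | _, [], _, _ :: _, _ => False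
  | _, _ :: _, _, [], _ => False

end Run7.h230
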