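import Pool.Agent.Run7.h230.Semi
import Pool.Agent.Run7.h230.Words
import Pool.Agent.Run7.h230.HypDefs
import Pool.Agent.Run7.h230.Basic

set_option autoImplicit false

/-! Statements of the pieces of the formalisation (as propositions, to be proved elsewhere). -/

namespace Run7.h230

/-! ### Task A: coarse bicombings give semihyperbolicity -/

/-- Task A. -/
def TaskA : Prop :=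
  ∀ (G : Type) [Group G], (∃ a : G, a * a ≠ 1) →
  ∀ (σ : G → ℕ → G) (D : G → ℝ) (F : Set G), F.Finite →
  (∀ g, σ g 0 ∈ F) →
  (∀ g (t : ℕ), D g ≤ t → (σ g t)⁻¹ * g ∈ F) →
  (∀ g t, (σ g t)⁻¹ * σ g (t + 1) ∈ F) →
  (∀ s, ∃ F' : Set G, F'.Finite ∧ ∀ g t, (σ g t)⁻¹ * σ (g * s) t ∈ F') →
  (∀ s, ∃ F' : Set G, F'.Finite ∧ ∀ g t, (s * σ g t)⁻¹ * σ (s * g) t ∈ F') →
  (∀ s, ∃ C : ℝ, ∀ g, |D (g * s) - D g| ≤ C) →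
  (∃ C : ℝ, ∀ g (t : ℕ), |D (σ g t) - min (t : ℝ) (D g)| ≤ C) →
  Semihyperbolic G

/-! ### Task B: normal forms in the universal group of a graph of groups -/

/-- Task B. -/
def TaskB : Prop :=
  ∀ 𝒢 : GraphOfGroups, (∀ e, Function.Injective (𝒢.f e)) → (∀ e, Function.Injective (𝒢.f' e)) →
  (∀ v, Function.Injective (ι (𝒢 := 𝒢) v)) ∧
  (∀ (i j : 𝒢.V) (x : UGroup 𝒢), PathElt i j x → ∃ L g, Valid i L g j ∧ Red L ∧ val L g = x) ∧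
  ∀ (i j : 𝒢.V) (L L' : List (UGroup 𝒢 × OE 𝒢)) (g g' : UGroup 𝒢),
    Valid i L g j → Valid i L' g' j → Red L → Red L' → val L g = val L' g' → Sh 1 L g L' g'

/-! ### Task C: sums over horoballs -/

/-- Task C: additivity of sums over horoballs along paths, up to bounded errors. -/
def TaskC : Prop :=
  ∀ (O J : Type) [Fintype J] (𝓛 : LSp O J), 𝓛.Good →
  ∀ (W : Type) [NormedAddCommGroup W] (F : O → (J → ℝ) → W) (Λ : ℝ), 𝓛.Cut F Λ →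
  (∀ x y, {B | B ∈ 𝓛.hb ∧ B ≠ x ∧ B ≠ y ∧ F B (𝓛.P B y - 𝓛.P B x) ≠ 0}.Finite) ∧
  ∀ K : ℝ, ∃ C : ℝ, ∀ x y z, 𝓛.Btw K x y z →
    (z ∉ 𝓛.hb → ‖𝓛.Sg F x y - 𝓛.Sg F x z - 𝓛.Sg F z y‖ ≤ C) ∧
    (z ∈ 𝓛.hb → z ≠ x → z ≠ y →
      ‖𝓛.Sg F x y - 𝓛.Sg F x z - 𝓛.Sg F z y - F z (𝓛.P z y - 𝓛.P z x)‖ ≤ C)

/-! ### Task D: geometry of a λ-system -/

/-- Task D1: the length function `d`. -/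
def TaskD1 : Prop :=
  ∀ (O J : Type) [Fintype J] (𝓛 : LSp O J), 𝓛.Good →
  (∀ x y, (x ≠ y ∨ x ∉ 𝓛.hb) → 0 ≤ 𝓛.d x y) ∧
  (∀ x, x ∉ 𝓛.hb → 𝓛.d x x = 0) ∧
  (∀ x y, 𝓛.d x y = 𝓛.d y x) ∧
  (∀ x y, 2 * Real.log (𝓛.lam x y) ≤ 𝓛.d x y) ∧
  (∀ K : ℝ, ∃ C : ℝ, ∀ x y, (x ≠ y ∨ x ∉ 𝓛.hb) → 𝓛.lam x y ≤ K → 𝓛.d x y ≤ C) ∧
  (∀ K : ℝ, ∃ C : ℝ, ∀ x y z, z ∉ 𝓛.hb → (x ≠ y ∨ x ∉ 𝓛.hb) → 𝓛.Btw K x y z →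
    |𝓛.d x y - 𝓛.d x z - 𝓛.d z y| ≤ C) ∧
  (∀ K : ℝ, ∃ C : ℝ, ∀ x y, ∀ B ∈ 𝓛.hb, B ≠ x → B ≠ y → (x ≠ y ∨ x ∉ 𝓛.hb) → 𝓛.Btw K x y B →
    |𝓛.d x y - 𝓛.d x B - 𝓛.d B y - ‖𝓛.P B y - 𝓛.P B x‖| ≤ C) ∧
  ∃ C : ℝ, ∀ x y z, x ∉ 𝓛.hb → y ∉ 𝓛.hb → z ∉ 𝓛.hb → 𝓛.d x z ≤ 𝓛.d x y + 𝓛.d y z + C

/-- Task D2: the quasi-cocycle `Ψ`. -/
def TaskD2 : Prop :=
  ∀ (O J L : Type) [Fintype J] [Fintype L] (𝓛 : LSp O J), 𝓛.Good →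
  ∀ (α : O → (J → ℝ) →ₗ[ℝ] (L → ℝ)) (Λ : ℝ), (∀ B v, ‖α B v‖ ≤ Λ * ‖v‖) →
  (∀ x y, 𝓛.Ψ α x y = - 𝓛.Ψ α y x) ∧
  (∀ K : ℝ, ∃ C : ℝ, ∀ x y, (x ≠ y ∨ x ∉ 𝓛.hb) → 𝓛.lam x y ≤ K → ‖𝓛.Ψ α x y‖ ≤ C) ∧
  (∀ K : ℝ, ∃ C : ℝ, ∀ x y z, z ∉ 𝓛.hb → (x ≠ y ∨ x ∉ 𝓛.hb) → 𝓛.Btw K x y z →
    ‖𝓛.Ψ α x y - 𝓛.Ψ α x z - 𝓛.Ψ α z y‖ ≤ C) ∧
  (∀ K : ℝ, ∃ C : ℝ, ∀ x y, ∀ B ∈ 𝓛.hb, B ≠ x → B ≠ y → (x ≠ y ∨ x ∉ 𝓛.hb) → 𝓛.Btw K x y B →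
    ‖𝓛.Ψ α x y - 𝓛.Ψ α x B - 𝓛.Ψ α B y - α B (𝓛.P B y - 𝓛.P B x)‖ ≤ C) ∧
  ∃ C : ℝ, ∀ x y z, x ∉ 𝓛.hb → y ∉ 𝓛.hb → z ∉ 𝓛.hb →
    ‖𝓛.Ψ α x z - 𝓛.Ψ α x y - 𝓛.Ψ α y z‖ ≤ C

/-- Task D3: the path relation (uses D1). -/
def TaskD3 : Prop :=
  ∀ (O J : Type) [Fintype J] (𝓛 : LSp O J), 𝓛.Good →
  -- monotonicity
  (∀ K K' x y t z, K ≤ K' → x ∉ 𝓛.hb → y ∉ 𝓛.hb → 𝓛.Rel K x y t z → 𝓛.Rel K' x y t z) ∧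
  -- existence
  (∃ K : ℝ, ∀ x y, x ∉ 𝓛.hb → y ∉ 𝓛.hb → ∀ t, 0 ≤ t → t ≤ 𝓛.d x y → ∃ z, 𝓛.Rel K x y t z) ∧
  -- uniqueness
  (∀ K : ℝ, ∃ C : ℝ, ∀ x y, x ∉ 𝓛.hb → y ∉ 𝓛.hb → ∀ t z z', 𝓛.Rel K x y t z →
    𝓛.Rel K x y t z' → 𝓛.lam z z' ≤ C) ∧
  -- stability
  (∀ K r : ℝ, ∃ C : ℝ, ∀ x y x' y', x ∉ 𝓛.hb → y ∉ 𝓛.hb → x' ∉ 𝓛.hb → y' ∉ 𝓛.hb →
    𝓛.lam x x' ≤ r → 𝓛.lam y y' ≤ r → ∀ t t' z z', |t - t'| ≤ r → z' ∉ 𝓛.hb →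
    𝓛.lam z z' ≤ r → 𝓛.Rel K x y t z → 𝓛.Rel C x' y' t' z') ∧
  -- times
  (∀ K : ℝ, ∃ C : ℝ, ∀ x y, x ∉ 𝓛.hb → y ∉ 𝓛.hb → ∀ t z, 𝓛.Rel K x y t z →
    |𝓛.d x z - t| ≤ C ∧ |𝓛.d z y - (𝓛.d x y - t)| ≤ C) ∧
  -- concatenation
  (∀ K : ℝ, ∃ C : ℝ, ∀ x y w, x ∉ 𝓛.hb → y ∉ 𝓛.hb → w ∉ 𝓛.hb → 𝓛.Btw K x y w → ∀ t z,
    (𝓛.Rel K x w t z → 𝓛.Rel C x y t z) ∧ (𝓛.Rel K w y t z → 𝓛.Rel C x y (t + 𝓛.d x w) z))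

/-! ### λ-systems with a group action -/

/-- The action of `Γ` on the objects `Γ ⊕ X` (elements of `Γ` are the points, elements of `X` the
horoballs). -/
def gact {Γ X : Type} [Group Γ] [MulAction Γ X] (g : Γ) : Γ ⊕ X → Γ ⊕ X :=
  Sum.map (fun x => g * x) (fun B => g • B)

/-- A λ-system with group action, marked horoballs `cusp e` and linear maps `α`. -/
structure GSys (Γ X E J : Type) [Group Γ] [MulAction Γ X] [Fintype J] where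
  𝓛 : LSp (Γ ⊕ X) (J ⊕ J)
  cusp : E → X
  α : X → (J ⊕ J → ℝ) →ₗ[ℝ] (J → ℝ)
  SF : Set J

/-- Axioms of a λ-system with group action. -/
structure GSys.Good {Γ X E J : Type} [Group Γ] [MulAction Γ X] [Fintype J]
    (G : GSys Γ X E J) : Prop where
  good : G.𝓛.Good
  hb : G.𝓛.hb = Set.range Sum.inr
  inv_lam : ∀ (g : Γ) x y, G.𝓛.lam (gact g x) (gact g y) = G.𝓛.lam x y
  inv_P : ∀ (g : Γ) (B : X) x y, x ≠ Sum.inr B → y ≠ Sum.inr B →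
    G.𝓛.P (Sum.inr (g • B)) (gact g x) - G.𝓛.P (Sum.inr (g • B)) (gact g y) =
      G.𝓛.P (Sum.inr B) x - G.𝓛.P (Sum.inr B) y
  inv_S : ∀ (g : Γ) (B : X), G.𝓛.S (Sum.inr (g • B)) = G.𝓛.S (Sum.inr B)
  inv_α : ∀ (g : Γ) (B : X), G.α (g • B) = G.α B
  bdd_α : ∃ Λ : ℝ, ∀ B v, ‖G.α B v‖ ≤ Λ * ‖v‖
  supp_α : ∀ B v, Supp G.SF (G.α B v)
  proper : ∀ r : ℝ, {g : Γ | G.𝓛.lam (Sum.inl 1) (Sum.inl g) ≤ r}.Finite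
  locfin : ∀ r : ℝ, {B : X | G.𝓛.lam (Sum.inl 1) (Sum.inr B) ≤ r}.Finite
  distinct : ∀ (e e' : E) (g : Γ), g • G.cusp e = G.cusp e' → e = e'

/-- The difference of the projections of `γ` and `1` to the marked horosphere `e`. -/
def GSys.χ {Γ X E J : Type} [Group Γ] [MulAction Γ X] [Fintype J] (G : GSys Γ X E J) (e : E)
    (γ : Γ) : J ⊕ J → ℝ :=
  G.𝓛.P (Sum.inr (G.cusp e)) (Sum.inl γ) - G.𝓛.P (Sum.inr (G.cusp e)) (Sum.inl 1)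

/-- The vector in `ℝ^J` with integral coordinates `s`, placed by the injection `i`. -/
noncomputable def emb {k : ℕ} {J : Type} (i : Fin k → J) (s : Multiplicative (Fin k → ℤ)) :
    J → ℝ :=
  Function.extend i (fun a => ((Multiplicative.toAdd s a : ℤ) : ℝ)) 0

/-- Task F: a piece `Γ × ℤ^k` from a λ-system with group action (uses D1, D2, D3). -/
def TaskF : Prop :=
  ∀ (Γ X E J : Type) [Group Γ] [MulAction Γ X] [Fintype J] [Finite E] (G : GSys Γ X E J), G.Good →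
  ∀ (k : ℕ) (i : Fin k → J), Function.Injective i → G.SF = Set.range i →
  ∃ P : LPiece (Γ × Multiplicative (Fin k → ℤ)) E J, P.Good ∧
    (∀ e x, x ∈ P.A e ↔ x.1 • G.cusp e = G.cusp e) ∧
    P.Sφ = Set.range i ∧
    (∀ e, P.Sω e = {j | Sum.inl j ∈ G.𝓛.S (Sum.inr (G.cusp e))}) ∧
    (∀ e, P.Sκ e = {j | Sum.inr j ∈ G.𝓛.S (Sum.inr (G.cusp e))}) ∧
    ∀ e, ∀ x ∈ P.A e,
      P.ω e x = (fun j => G.χ e x.1 (Sum.inl j)) ∧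
      P.κ e x = (fun j => G.χ e x.1 (Sum.inr j)) ∧
      P.φ e x = emb i x.2 + G.α (G.cusp e) (G.χ e x.1)

/-! ### Task E: hyperbolic geometry -/

/-- `T` gives coordinates on the space `ξ^⊥ / ℝ ξ` of translations of the horosphere at `ξ`, with
values in the coordinate subspace of `S`. -/
structure CuspCoord {m : ℕ} {J : Type} [Fintype J] (ξ : LV m) (T : LV m →ₗ[ℝ] (J → ℝ))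
    (S : Set J) : Prop where
  map_self : T ξ = 0
  supp : ∀ v, lor v ξ = 0 → Supp S (T v)
  inj : ∀ v, lor v ξ = 0 → T v = 0 → ∃ r : ℝ, v = r • ξ
  surj : ∀ y, Supp S y → ∃ v, lor v ξ = 0 ∧ T v = y

/-- Task E: the λ-system of a truncated hyperbolic manifold. -/
def TaskE : Prop :=
  ∀ (m n : ℕ) (N : HorMfd m), N.IsMfd → N.IsTruncated → 2 ≤ m → m ≤ n →
  ∀ (E : Type) [Finite E] (ξ : E → N.Ξ),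
  (∀ e e', ∀ γ ∈ N.Γ, γ (ξ e : LV m) = ξ e' → e = e') →
  ∀ (T : E → LV m →ₗ[ℝ] (Fin n ⊕ Fin n → ℝ)) (S : E → Set (Fin n ⊕ Fin n)),
  (∀ e, CuspCoord (ξ e : LV m) (T e) (S e)) →
  ∀ (SF : Set (Fin n)) (α : E → (Fin n ⊕ Fin n → ℝ) →ₗ[ℝ] (Fin n → ℝ)),
  (∀ e v, Supp SF (α e v)) →
  ∃ (_ : MulAction N.Γ N.Ξ) (G : GSys N.Γ N.Ξ E (Fin n)), G.Good ∧
    (∀ (γ : N.Γ) (η : N.Ξ), ((γ • η : N.Ξ) : LV m) = (γ : LV m ≃ₗ[ℝ] LV m) (η : LV m)) ∧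
    G.SF = SF ∧ (∀ e, G.cusp e = ξ e) ∧ (∀ e, G.𝓛.S (Sum.inr (G.cusp e)) = S e) ∧
    (∀ e, G.α (G.cusp e) = α e) ∧
    ∀ e (γ : N.Γ) (v : LV m), lor v (ξ e) = 0 → Translates (γ : LV m ≃ₗ[ℝ] LV m) (ξ e) v →
      G.χ e γ = T e v

/-! ### Task G: linear algebra on a wall -/

/-- Task G: adapted coordinates on a wall with transverse fibres. -/
def TaskG : Prop :=
  ∀ (n m₁ m₂ : ℕ) (N₁ : HorMfd m₁) (N₂ : HorMfd m₂), N₁.IsMfd → N₁.IsTruncated → N₂.IsMfd →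
  N₂.IsTruncated → 2 ≤ m₁ → 2 ≤ m₂ → m₁ ≤ n → m₂ ≤ n →
  ∀ (ξ₁ : LV m₁) (ξ₂ : LV m₂), ξ₁ ∈ N₁.Ξ → ξ₂ ∈ N₂.Ξ →
  ∀ ψ : N₁.bdry (n - m₁) ξ₁ ≃* N₂.bdry (n - m₂) ξ₂,
  (∀ x : N₁.bdry (n - m₁) ξ₁, (x : N₁.Pi (n - m₁)).1 = 1 → (ψ x : N₂.Pi (n - m₂)).1 = 1 →
    x = 1) →
  ∃ (T₁ : LV m₁ →ₗ[ℝ] (Fin n ⊕ Fin n → ℝ)) (T₂ : LV m₂ →ₗ[ℝ] (Fin n ⊕ Fin n → ℝ))
    (S₁ S₂ : Set (Fin n ⊕ Fin n))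
    (α₁ α₂ : (Fin n ⊕ Fin n → ℝ) →ₗ[ℝ] (Fin n → ℝ)),
    CuspCoord ξ₁ T₁ S₁ ∧ CuspCoord ξ₂ T₂ S₂ ∧
    (∀ j, Sum.inl j ∈ S₁ ↔ (j : ℕ) < n - m₂) ∧ (∀ j, Sum.inl j ∈ S₂ ↔ (j : ℕ) < n - m₁) ∧
    (∀ j, Sum.inr j ∈ S₁ ↔ Sum.inr j ∈ S₂) ∧
    (∀ v, Supp {j : Fin n | (j : ℕ) < n - m₁} (α₁ v)) ∧
    (∀ v, Supp {j : Fin n | (j : ℕ) < n - m₂} (α₂ v)) ∧
    ∀ (x : N₁.bdry (n - m₁) ξ₁) (v₁ : LV m₁) (v₂ : LV m₂),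
      lor v₁ ξ₁ = 0 → Translates ((x : N₁.Pi (n - m₁)).1 : LV m₁ ≃ₗ[ℝ] LV m₁) ξ₁ v₁ →
      lor v₂ ξ₂ = 0 → Translates ((ψ x : N₂.Pi (n - m₂)).1 : LV m₂ ≃ₗ[ℝ] LV m₂) ξ₂ v₂ →
      (emb (Fin.castLE (Nat.sub_le n m₁)) (x : N₁.Pi (n - m₁)).2 + α₁ (T₁ v₁) =
        fun j => T₂ v₂ (Sum.inl j)) ∧
      (emb (Fin.castLE (Nat.sub_le n m₂)) (ψ x : N₂.Pi (n - m₂)).2 + α₂ (T₂ v₂) =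
        fun j => T₁ v₁ (Sum.inl j)) ∧
      ∀ j, T₁ v₁ (Sum.inr j) = T₂ v₂ (Sum.inr j)

end Run7.h230
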