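import Pool.Agent.Run7.h230.LocalE
import Pool.Agent.Run7.h230.Tasks

set_option autoImplicit false

/-! Tree level, part A: typed words, positions. -/

namespace Run7.h230

open LPiece

variable {𝒢 : GraphOfGroups}

/-- typed path words -/
inductive W (𝒢 : GraphOfGroups) : 𝒢.V → 𝒢.V → Type
  | nil {i : 𝒢.V} (g : 𝒢.G i) : W 𝒢 i i
  | cons {j : 𝒢.V} (t : OE 𝒢) (x : 𝒢.G (org t)) (w : W 𝒢 (org (rev t)) j) : W 𝒢 (org t) j

/-- the edge group at the origin -/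
def fo : (t : OE 𝒢) → 𝒢.H t.1 →* 𝒢.G (org t)
  | (e, false) => 𝒢.f e
  | (e, true) => 𝒢.f' e

/-- the edge group at the end -/
def fr (t : OE 𝒢) : 𝒢.H t.1 →* 𝒢.G (org (rev t)) := fo (rev t)

/-- value of a word -/
def W.val : {i j : 𝒢.V} → W 𝒢 i j → UGroup 𝒢
  | i, _, .nil g => ι i g
  | _, _, .cons t x w => ι (org t) x * lt t * w.val

theorem W.val_nil {i : 𝒢.V} (g : 𝒢.G i) : (W.nil g).val = ι i g := rfl

theorem W.val_cons {j : 𝒢.V} (t : OE 𝒢) (x : 𝒢.G (org t)) (w : W 𝒢 (org (rev t)) j) :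
    (W.cons t x w).val = ι (org t) x * lt t * w.val := rfl

theorem st_rel (e : 𝒢.E) (h : 𝒢.H e) :
    st e * ι (𝒢.src e) (𝒢.f e h) = ι (𝒢.tgt e) (𝒢.f' e h) * st e := by
  have h1 : proj 𝒢 (ge e * gv (𝒢.src e) (𝒢.f e h) * (ge e)⁻¹ * (gv (𝒢.tgt e) (𝒢.f' e h))⁻¹) = 1 := by
    refine (QuotientGroup.eq_one_iff _).2 (Subgroup.subset_normalClosure ?_)
    exact ⟨e, h, rfl⟩
  rw [map_mul, map_mul, map_mul, map_inv, map_inv] at h1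
  have h2 : st e * ι (𝒢.src e) (𝒢.f e h) * (st e)⁻¹ * (ι (𝒢.tgt e) (𝒢.f' e h))⁻¹ = 1 := h1
  rw [mul_inv_eq_one, mul_inv_eq_iff_eq_mul] at h2
  exact h2

theorem cross (t : OE 𝒢) (h : 𝒢.H t.1) :
    ι (org t) (fo t h) * lt t = lt t * ι (org (rev t)) (fr t h) := by
  rcases t with ⟨e, _ | _⟩
  · show ι (𝒢.src e) (𝒢.f e h) * (st e)⁻¹ = (st e)⁻¹ * ι (𝒢.tgt e) (𝒢.f' e h)
    rw [mul_inv_eq_iff_eq_mul, mul_assoc, ← st_rel, inv_mul_cancel_left]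
  · show ι (𝒢.tgt e) (𝒢.f' e h) * st e = st e * ι (𝒢.src e) (𝒢.f e h)
    rw [st_rel]

theorem lt_rev (t : OE 𝒢) : lt (rev t) = (lt t)⁻¹ := by
  rcases t with ⟨e, _ | _⟩
  · show st e = ((st e)⁻¹)⁻¹
    rw [inv_inv]
  · rfl

theorem lt_path (t : OE 𝒢) : PathElt (org t) (org (rev t)) (lt t) := by
  rcases t with ⟨e, _ | _⟩
  · exact PathElt.edgeInv e
  · exact PathElt.edge e

theorem W.path {i j : 𝒢.V} (w : W 𝒢 i j) : PathElt i j w.val := by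
  induction w with
  | nil g => exact PathElt.vertex _ g
  | cons t x w ih =>
    exact PathElt.trans _ _ _ _ _ (PathElt.trans _ _ _ _ _ (PathElt.vertex _ x) (lt_path t)) ih

variable {J : Type} [Fintype J]

/-- family of pieces -/
abbrev Pcs (𝒢 : GraphOfGroups) (J : Type) [Fintype J] : Type :=
  ∀ v : 𝒢.V, LPiece (𝒢.G v) {t : OE 𝒢 // org t = v} J

variable (P : Pcs 𝒢 J)

/-- compatibility of the pieces -/
structure TreeGood : Prop where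
  good : ∀ v, (P v).Good
  A_eq : ∀ t : OE 𝒢, (P (org t)).A ⟨t, rfl⟩ = (fo t).range
  φω : ∀ (t : OE 𝒢) (h : 𝒢.H t.1),
    (P (org t)).φ ⟨t, rfl⟩ (fo t h) = (P (org (rev t))).ω ⟨rev t, rfl⟩ (fr t h)
  ωφ : ∀ (t : OE 𝒢) (h : 𝒢.H t.1),
    (P (org t)).ω ⟨t, rfl⟩ (fo t h) = (P (org (rev t))).φ ⟨rev t, rfl⟩ (fr t h)
  κκ : ∀ (t : OE 𝒢) (h : 𝒢.H t.1),
    (P (org t)).κ ⟨t, rfl⟩ (fo t h) = (P (org (rev t))).κ ⟨rev t, rfl⟩ (fr t h)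
  Sωφ : ∀ t : OE 𝒢, (P (org t)).Sω ⟨t, rfl⟩ = (P (org (rev t))).Sφ
  Sφω : ∀ t : OE 𝒢, (P (org t)).Sφ = (P (org (rev t))).Sω ⟨rev t, rfl⟩
  Sκκ : ∀ t : OE 𝒢, (P (org t)).Sκ ⟨t, rfl⟩ = (P (org (rev t))).Sκ ⟨rev t, rfl⟩

/-- next entry -/
noncomputable def NXT (t : OE 𝒢) (E : Option ({s : OE 𝒢 // org s = org t} × Sta J))
    (x : 𝒢.G (org t)) : Option ({s : OE 𝒢 // org s = org (rev t)} × Sta J) :=
  some (⟨rev t, rfl⟩, (P (org t)).nxt E ⟨t, rfl⟩ x)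

/-- look-ahead -/
def tgW : {i j : 𝒢.V} → W 𝒢 i j → {s : OE 𝒢 // org s = i} → J → ℝ
  | i, _, .nil g, e => (P i).ω e ((P i).gate e g)
  | _, _, .cons t x _, e => (P (org t)).uω e ⟨t, rfl⟩ x

/-- non-parallel, for an optional edge -/
def NPo {i : 𝒢.V} : Option {s : OE 𝒢 // org s = i} → {s : OE 𝒢 // org s = i} → 𝒢.G i → Prop
  | none, _, _ => True
  | some e, t, x => (P i).NP e t x

/-- reduced words -/
def RedW : {i j : 𝒢.V} → W 𝒢 i j → Option {s : OE 𝒢 // org s = i} → Prop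
  | _, _, .nil _, _ => True
  | _, _, .cons t x w, e => NPo P e ⟨t, rfl⟩ x ∧ RedW w (some ⟨rev t, rfl⟩)

/-- positions -/
def Pos (ρ : ℝ) : {i j : 𝒢.V} → W 𝒢 i j → Option ({s : OE 𝒢 // org s = i} × Sta J) → ℝ →
    (Σ k, W 𝒢 i k) → Prop
  | i, _, .nil g, E, τ, X => ∃ z, X = ⟨i, .nil z⟩ ∧ (P i).PosL ρ ρ E g τ z
  | _, _, .cons t x w, E, τ, X =>
    (τ < ((P (org t)).nxt E ⟨t, rfl⟩ x).h ∧ ∃ z, X = ⟨org t, .nil z⟩ ∧
      (P (org t)).PosM ρ ρ E ⟨t, rfl⟩ x (tgW P w ⟨rev t, rfl⟩) τ z) ∨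
    (((P (org t)).nxt E ⟨t, rfl⟩ x).h ≤ τ ∧ ∃ X' : Σ k, W 𝒢 (org (rev t)) k,
      X = ⟨X'.1, .cons t x X'.2⟩ ∧ Pos ρ w (NXT P t E x) τ X')

/-- duration -/
noncomputable def DW : {i j : 𝒢.V} → W 𝒢 i j → Option ({s : OE 𝒢 // org s = i} × Sta J) → ℝ
  | i, _, .nil g, E => (P i).DE E g
  | _, _, .cons t x w, E => DW w (NXT P t E x)

/-- admissible entries -/
def OKE {i : 𝒢.V} (E : Option ({s : OE 𝒢 // org s = i} × Sta J)) : Prop :=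
  Ord E ∧ (P i).SOK E

variable {P}

theorem NPE_of {i : 𝒢.V} {E : Option ({s : OE 𝒢 // org s = i} × Sta J)}
    {t : {s : OE 𝒢 // org s = i}} {x : 𝒢.G i} (h : NPo P (E.map Prod.fst) t x) :
    (P i).NPE E t x := by
  rcases E with _ | ⟨e, σ⟩
  · trivial
  · exact h

theorem OKE.none (i : 𝒢.V) : OKE P (none : Option ({s : OE 𝒢 // org s = i} × Sta J)) :=
  ⟨trivial, trivial⟩

theorem OKE.next (hT : TreeGood P) (t : OE 𝒢) {E : Option ({s : OE 𝒢 // org s = org t} × Sta J)}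
    (hE' : OKE P E) {x : 𝒢.G (org t)} (h : (P (org t)).NPE E ⟨t, rfl⟩ x) :
    OKE P (NXT P t E x) := by
  refine ⟨?_, ?_, ?_, ?_⟩
  · show ((P (org t)).nxt E ⟨t, rfl⟩ x).hm ≤ ((P (org t)).nxt E ⟨t, rfl⟩ x).h
    rw [nxt_hm]
    exact nxt_h_ge (hT.good _) E ⟨t, rfl⟩ x h
  · rw [← hT.Sωφ t]
    exact nxt_wω_supp (hT.good _) E ⟨t, rfl⟩ x h
  · rw [← hT.Sφω t]
    exact nxt_α_supp (hT.good _) E ⟨t, rfl⟩ x h hE'.2
  · rw [← hT.Sκκ t]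
    exact nxt_wκ_supp (hT.good _) E ⟨t, rfl⟩ x h

theorem tgW_supp (hT : TreeGood P) {i j : 𝒢.V} (w : W 𝒢 i j) (e : {s : OE 𝒢 // org s = i})
    (h : RedW P w (some e)) : Supp ((P i).Sω e) (tgW P w e) := by
  cases w with
  | nil g => exact (hT.good _).good2.ω_supp e _ ((hT.good _).good3.gate_mem e g)
  | cons t x w => exact (hT.good _).good3.uω_supp e _ x h.1

theorem pos_ex (hT : TreeGood P) {ρ : ℝ} (hρ : ∀ v, (P v).K ≤ ρ) {i j : 𝒢.V} (w : W 𝒢 i j) :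
    ∀ (E : Option ({s : OE 𝒢 // org s = i} × Sta J)) (τ : ℝ), OKE P E →
      RedW P w (E.map Prod.fst) → ∃ X, Pos P ρ w E τ X := by
  induction w with
  | nil g =>
    intro E τ hE' _
    obtain ⟨z, hz⟩ := posL_ex (hT.good _) E g τ hE'.2
    exact ⟨_, z, rfl, hz.mono (hρ _) (hρ _)⟩
  | cons t x w ih =>
    intro E τ hE' hR
    have hNP : (P (org t)).NPE E ⟨t, rfl⟩ x := NPE_of hR.1
    by_cases hτ : τ < ((P (org t)).nxt E ⟨t, rfl⟩ x).h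
    · have hs := tgW_supp hT w ⟨rev t, rfl⟩ hR.2
      rw [← hT.Sφω t] at hs
      obtain ⟨z, hz⟩ := posM_ex (hT.good _) E ⟨t, rfl⟩ x (tgW P w ⟨rev t, rfl⟩) τ hE'.2 hNP hs
      exact ⟨_, Or.inl ⟨hτ, z, rfl, hz.mono (hρ _) (hρ _)⟩⟩
    · obtain ⟨X, hX⟩ := ih (NXT P t E x) τ (hE'.next hT t hNP) hR.2
      exact ⟨_, Or.inr ⟨not_lt.1 hτ, X, rfl, hX⟩⟩

theorem pos_red {ρ : ℝ} {i j : 𝒢.V} (w : W 𝒢 i j) :
    ∀ (E : Option ({s : OE 𝒢 // org s = i} × Sta J)) (τ : ℝ) (X : Σ k, W 𝒢 i k),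
      RedW P w (E.map Prod.fst) → Pos P ρ w E τ X → RedW P X.2 (E.map Prod.fst) := by
  induction w with
  | nil g =>
    rintro E τ X _ ⟨z, rfl, _⟩
    trivial
  | cons t x w ih =>
    rintro E τ X hR (⟨_, z, rfl, _⟩ | ⟨_, X', rfl, hX'⟩)
    · trivial
    · exact ⟨hR.1, ih (NXT P t E x) τ X' hR.2 hX'⟩

theorem DW_ge (hT : TreeGood P) {i j : 𝒢.V} (w : W 𝒢 i j) :
    ∀ (E : Option ({s : OE 𝒢 // org s = i} × Sta J)), 
      RedW P w (E.map Prod.fst) → hE E ≤ DW P w E := by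
  induction w with
  | nil g =>
    rintro E _
    rcases E with _ | ⟨e, σ⟩
    · exact ((hT.good _).good1.d_nonneg g).trans (le_max_left _ _)
    · refine le_trans ?_ (le_max_right _ _)
      exact le_add_of_nonneg_right (norm_nonneg _)
  | cons t x w ih =>
    intro E hR
    exact (nxt_h_ge (hT.good _) E ⟨t, rfl⟩ x (NPE_of hR.1)).trans (ih (NXT P t E x) hR.2)

/-- durations of positions -/
theorem pos_D (hT : TreeGood P) [Finite 𝒢.V] (ρ : ℝ) : ∃ C, 0 ≤ C ∧ ∀ {i j : 𝒢.V} (w : W 𝒢 i j)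
    (E : Option ({s : OE 𝒢 // org s = i} × Sta J)) (τ : ℝ) (X : Σ k, W 𝒢 i k), OKE P E →
      RedW P w (E.map Prod.fst) → hE E ≤ τ → Pos P ρ w E τ X →
      |DW P X.2 E - min τ (DW P w E)| ≤ C := by
  have := Fintype.ofFinite 𝒢.V
  choose C1 hC1 h1 using fun v => posL_D (hT.good v) ρ
  choose C2 hC2 h2 using fun v => posM_D (hT.good v) ρ
  refine ⟨∑ v, C1 v + ∑ v, C2 v, add_nonneg (Finset.sum_nonneg fun v _ => hC1 v)
    (Finset.sum_nonneg fun v _ => hC2 v), ?_⟩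
  have hs1 : ∀ v, C1 v ≤ ∑ v, C1 v + ∑ v, C2 v := fun v =>
    (Finset.single_le_sum (fun v _ => hC1 v) (Finset.mem_univ v)).trans
      (le_add_of_nonneg_right (Finset.sum_nonneg fun v _ => hC2 v))
  have hs2 : ∀ v, C2 v ≤ ∑ v, C1 v + ∑ v, C2 v := fun v =>
    (Finset.single_le_sum (fun v _ => hC2 v) (Finset.mem_univ v)).trans
      (le_add_of_nonneg_left (Finset.sum_nonneg fun v _ => hC1 v))
  intro i j w
  induction w with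
  | nil g =>
    rintro E τ X hOK _ hτ ⟨z, rfl, hz⟩
    exact (h1 _ E g z τ hOK.1 hτ hz).trans (hs1 _)
  | cons t x w ih =>
    rintro E τ X hOK hR hτ (⟨hlt, z, rfl, hz⟩ | ⟨hle, X', rfl, hX'⟩)
    · have hNP : (P (org t)).NPE E ⟨t, rfl⟩ x := NPE_of hR.1
      have q1 := h2 _ E ⟨t, rfl⟩ x z _ τ hOK.1 hNP hτ hlt.le hz
      have q2 : ((P (org t)).nxt E ⟨t, rfl⟩ x).h ≤ DW P (W.cons t x w) E :=
        DW_ge hT w (NXT P t E x) hR.2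
      rw [min_eq_left (hlt.le.trans q2)]
      exact q1.trans (hs2 _)
    · exact ih (NXT P t E x) τ X' (hOK.next hT t (NPE_of hR.1)) hR.2 hle hX'

end Run7.h230
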