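import Pool.Agent.Run7.h230.TreeA

set_option autoImplicit false

/-! Tree level, part B: positions at the beginning of a word, one step. -/

namespace Run7.h230

open LPiece Pointwise

variable {𝒢 : GraphOfGroups} {J : Type} [Fintype J] {P : Pcs 𝒢 J}

theorem alg1 {G : Type} [Group G] (k x f L R V : G) (h : f * L = L * R) :
    k⁻¹ * (x * L * V) = (k⁻¹ * (x * f)) * (L * (R⁻¹ * V)) := by
  have h1 : f = L * R * L⁻¹ := by rw [← h]; group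
  rw [h1]; group

theorem alg3 {G : Type} [Group G] (c x f L R V z : G) (h : f * L = L * R) :
    (c * (x * L * V))⁻¹ * z = (R⁻¹ * V)⁻¹ * (L⁻¹ * ((c * (x * f))⁻¹ * z)) := by
  have h1 : f = L * R * L⁻¹ := by rw [← h]; group
  rw [h1]; group

theorem alg4 {G : Type} [Group G] (c x f L R V V' : G) (h : f * L = L * R) :
    (c * (x * L * V))⁻¹ * (c * x * f * L * V') = (R⁻¹ * V)⁻¹ * V' := by
  have h1 : f = L * R * L⁻¹ := by rw [← h]; group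
  rw [h1]; group

/-- images of local balls -/
def ballU (P : Pcs 𝒢 J) (C : 𝒢.V → ℝ) : Set (UGroup 𝒢) :=
  ⋃ v, (ι v) '' {x | (P v).M x ≤ C v ∧ ‖(P v).Φ x‖ ≤ C v}

/-- letters -/
def LT (𝒢 : GraphOfGroups) : Set (UGroup 𝒢) := Set.range lt

theorem ballU_finite (hT : TreeGood P) [Finite 𝒢.V] (C : 𝒢.V → ℝ) : (ballU P C).Finite :=
  Set.finite_iUnion fun v => ((hT.good v).good1.fin (C v)).image _

theorem mem_ballU {v : 𝒢.V} {x : 𝒢.G v} {C : 𝒢.V → ℝ} (h : (P v).M x ≤ C v ∧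
    ‖(P v).Φ x‖ ≤ C v) : ι v x ∈ ballU P C :=
  Set.mem_iUnion.2 ⟨v, x, h, rfl⟩

theorem LT_finite [Finite 𝒢.E] : (LT 𝒢).Finite := Set.finite_range _

theorem fo_mem (hT : TreeGood P) (t : OE 𝒢) (h : 𝒢.H t.1) :
    fo t h ∈ (P (org t)).A ⟨t, rfl⟩ := by
  rw [hT.A_eq t]; exact ⟨h, rfl⟩

theorem fr_mem (hT : TreeGood P) (t : OE 𝒢) (h : 𝒢.H t.1) :
    fr t h ∈ (P (org (rev t))).A ⟨rev t, rfl⟩ := by
  rw [hT.A_eq (rev t)]; exact ⟨h, rfl⟩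

/-- look-ahead for an optional entry -/
def tgE (P : Pcs 𝒢 J) {i j : 𝒢.V} (w : W 𝒢 i j) :
    Option ({s : OE 𝒢 // org s = i} × Sta J) → J → ℝ
  | none => 0
  | some (e, _) => tgW P w e

theorem tgE_nil {i : 𝒢.V} (g : 𝒢.G i) (E : Option ({s : OE 𝒢 // org s = i} × Sta J)) :
    tgE P (W.nil g) E = (P i).tg E g := by
  rcases E with _ | ⟨e, σ⟩ <;> rfl

theorem tgE_cons {j : 𝒢.V} (t : OE 𝒢) (x : 𝒢.G (org t)) (w : W 𝒢 (org (rev t)) j)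
    (E : Option ({s : OE 𝒢 // org s = org t} × Sta J)) :
    tgE P (W.cons t x w) E = (P (org t)).uE E ⟨t, rfl⟩ x := by
  rcases E with _ | ⟨e, σ⟩ <;> rfl

/-- common point of the exit of a slot and the entry of the next one -/
theorem exit_ex (hT : TreeGood P) {ρ : ℝ} (hρ : ∀ v, (P v).K ≤ ρ) {j : 𝒢.V} (t : OE 𝒢)
    (x : 𝒢.G (org t)) (w : W 𝒢 (org (rev t)) j)
    (E : Option ({s : OE 𝒢 // org s = org t} × Sta J)) (hOK : OKE P E)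
    (hNP : (P (org t)).NPE E ⟨t, rfl⟩ x) (hR : RedW P w (some ⟨rev t, rfl⟩)) :
    ∃ h₀ : 𝒢.H t.1,
      (P (org (rev t))).Ent ρ (NXT P t E x) (tgE P w (NXT P t E x)) (fr t h₀) ∧
      (P (org t)).Exi ρ ((P (org t)).nxt E ⟨t, rfl⟩ x) ⟨t, rfl⟩ (fo t h₀) ∧
      ‖(P (org t)).φ ⟨t, rfl⟩ (fo t h₀) - go ((P (org t)).nxt E ⟨t, rfl⟩ x).α
        (tgW P w ⟨rev t, rfl⟩) (((P (org t)).nxt E ⟨t, rfl⟩ x).h -
          ((P (org t)).nxt E ⟨t, rfl⟩ x).hm)‖ ≤ ρ := by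
  have hOK' := hOK.next hT t hNP
  obtain ⟨k', hk'⟩ := ent_ex (hT.good (org (rev t))) (NXT P t E x)
    (tgW P w ⟨rev t, rfl⟩) hOK'.2 (by
      intro e σ he
      obtain ⟨h1, h2⟩ := Prod.mk.inj (Option.some.inj he)
      subst h1
      exact tgW_supp hT w _ hR)
  have hmem : k' ∈ (fo (rev t)).range := by
    rw [← hT.A_eq (rev t)]; exact hk'.1
  obtain ⟨h₀, rfl⟩ := hmem
  refine ⟨h₀, hk'.mono (hρ _), ⟨fo_mem hT t h₀, ?_, ?_⟩, ?_⟩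
  · rw [hT.ωφ t h₀]
    exact hk'.2.1.trans (hρ _)
  · rw [hT.κκ t h₀]
    exact hk'.2.2.2.trans (hρ _)
  · rw [hT.φω t h₀]
    exact hk'.2.2.1.trans (hρ _)

/-- positions within time `N` after the entry -/
def SNear (P : Pcs 𝒢 J) (ρ N : ℝ) (F : Set (UGroup 𝒢)) : Prop :=
  ∀ {i j : 𝒢.V} (w : W 𝒢 i j) (e : {s : OE 𝒢 // org s = i}) (σ : Sta J) (τ : ℝ)
    (X : Σ k, W 𝒢 i k) (k : 𝒢.G i), OKE P (some (e, σ)) → RedW P w (some e) → σ.h ≤ τ →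
    τ ≤ σ.h + N → Pos P ρ w (some (e, σ)) τ X → (P i).Ent ρ (some (e, σ)) (tgW P w e) k →
    (ι i k)⁻¹ * X.2.val ∈ F

/-- minimal duration of a slot -/
def dl {α : Type} : Option α → ℝ
  | none => 0
  | some _ => 1

theorem dl_nonneg {α : Type} (E : Option α) : 0 ≤ dl E := by
  cases E
  · exact le_rfl
  · exact zero_le_one

theorem nxt_h_dl (hT : TreeGood P) (t : OE 𝒢)
    (x : 𝒢.G (org t)) (E : Option ({s : OE 𝒢 // org s = org t} × Sta J))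
    (hNP : (P (org t)).NPE E ⟨t, rfl⟩ x) :
    hE E + dl E ≤ ((P (org t)).nxt E ⟨t, rfl⟩ x).h := by
  rcases E with _ | ⟨e, σ⟩
  · show (0 : ℝ) + 0 ≤ _
    rw [add_zero]
    exact nxt_h_ge (hT.good _) none ⟨t, rfl⟩ x hNP
  · exact nxt_h_ge' (hT.good _) e σ ⟨t, rfl⟩ x hNP

theorem start_step (hT : TreeGood P) [Finite 𝒢.V] [Finite 𝒢.E] {ρ : ℝ}
    (hρ : ∀ v, (P v).K ≤ ρ) (N N' : ℝ) (F' : Set (UGroup 𝒢)) (hF' : F'.Finite)
    (hS : SNear P ρ N' F') : ∃ F : Set (UGroup 𝒢), F.Finite ∧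
    ∀ {i j : 𝒢.V} (w : W 𝒢 i j) (E : Option ({s : OE 𝒢 // org s = i} × Sta J)) (τ : ℝ)
    (X : Σ k, W 𝒢 i k) (k : 𝒢.G i), OKE P E → RedW P w (E.map Prod.fst) → hE E ≤ τ →
    τ ≤ hE E + N → N ≤ N' + dl E → Pos P ρ w E τ X → (P i).Ent ρ E (tgE P w E) k →
    (ι i k)⁻¹ * X.2.val ∈ F := by
  choose C0 hC0 el using fun v => exit_loc (hT.good v) ρ
  choose C1 hC1 ne using fun v => near_entry (hT.good v) ρ (max ρ (C0 v)) N
  refine ⟨ballU P C1 ∪ ballU P C1 * (LT 𝒢 * F'), (ballU_finite hT C1).union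
    ((ballU_finite hT C1).mul (LT_finite.mul hF')), ?_⟩
  intro i j w E τ X k hOK hR hτ hτN hN hX hk
  cases w with
  | nil g =>
    obtain ⟨z, rfl, k₁, hk₁, hl⟩ := hX
    rw [tgE_nil] at hk
    refine Or.inl ?_
    rw [W.val_nil, ← map_inv, ← map_mul]
    refine mem_ballU (ne i E k k₁ g z _ _ (τ - hE E) ?_ hk hk₁ (hl.mono (le_max_left _ _)))
    rw [abs_of_nonneg (by linarith)]; linarith
  | cons t x w =>
    rw [tgE_cons] at hk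
    have hNP : (P (org t)).NPE E ⟨t, rfl⟩ x := NPE_of hR.1
    rcases hX with ⟨hlt, z, rfl, k₁, p₁, hk₁, hp₁, hl⟩ | ⟨hle, X', rfl, hX'⟩
    · refine Or.inl ?_
      rw [W.val_nil, ← map_inv, ← map_mul]
      refine mem_ballU (ne _ E k k₁ _ z _ _ (τ - hE E) ?_ hk hk₁ (hl.mono (le_max_left _ _)))
      rw [abs_of_nonneg (by linarith)]; linarith
    · refine Or.inr ?_
      obtain ⟨h₀, he1, he2, he3⟩ := exit_ex hT hρ t x w E hOK hNP hR.2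
      obtain ⟨p, hp⟩ := exi_ex (hT.good _) E ⟨t, rfl⟩ x hNP
      have hl := el _ E ⟨t, rfl⟩ x k p (fo t h₀) (tgW P w ⟨rev t, rfl⟩) hOK.1 hNP hk
        (hp.mono (hρ _)) he2 he3
      have hge := nxt_h_dl hT t x E hNP
      have hdl := dl_nonneg E
      have h1 := ne _ E k k _ _ _ _ (((P (org t)).nxt E ⟨t, rfl⟩ x).h - hE E)
        (by rw [abs_of_nonneg (by linarith)]; linarith) hk hk (hl.mono (le_max_right _ _))
      have h2 := hS w ⟨rev t, rfl⟩ ((P (org t)).nxt E ⟨t, rfl⟩ x) τ X' (fr t h₀)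
        (hOK.next hT t hNP) hR.2 hle (by linarith) hX' he1
      have h3 := Set.mul_mem_mul (mem_ballU h1)
        (Set.mul_mem_mul (Set.mem_range_self (f := lt) t) h2)
      have e1 : (ι (org t) k)⁻¹ * (W.cons t x X'.2).val =
          ι (org t) (k⁻¹ * (x * fo t h₀)) * (lt t * ((ι (org (rev t)) (fr t h₀))⁻¹ *
            X'.2.val)) := by
        rw [W.val_cons, map_mul, map_inv, map_mul]
        exact alg1 _ _ _ _ _ _ (cross t h₀)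
      rw [e1]
      exact h3

theorem snear (hT : TreeGood P) [Finite 𝒢.V] [Finite 𝒢.E] {ρ : ℝ}
    (hρ : ∀ v, (P v).K ≤ ρ) (n : ℕ) : ∃ F : Set (UGroup 𝒢), F.Finite ∧
      SNear P ρ ((n : ℝ) - 1) F := by
  induction n with
  | zero =>
    refine ⟨∅, Set.finite_empty, ?_⟩
    intro i j w e σ τ X k _ _ h1 h2
    exfalso
    rw [Nat.cast_zero] at h2
    linarith
  | succ n ih =>
    obtain ⟨F', hF', hS⟩ := ih
    obtain ⟨F, hF, h⟩ := start_step hT hρ (((n + 1 : ℕ) : ℝ) - 1) ((n : ℝ) - 1) F' hF' hS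
    refine ⟨F, hF, ?_⟩
    intro i j w e σ τ X k h1 h2 h3 h4 h5 h6
    refine h w (some (e, σ)) τ X k h1 h2 h3 h4 ?_ h5 h6
    show ((n + 1 : ℕ) : ℝ) - 1 ≤ (n : ℝ) - 1 + 1
    push_cast
    linarith

theorem start_near (hT : TreeGood P) [Finite 𝒢.V] [Finite 𝒢.E] {ρ : ℝ}
    (hρ : ∀ v, (P v).K ≤ ρ) (N : ℝ) : ∃ F : Set (UGroup 𝒢), F.Finite ∧
    ∀ {i j : 𝒢.V} (w : W 𝒢 i j) (E : Option ({s : OE 𝒢 // org s = i} × Sta J)) (τ : ℝ)
    (X : Σ k, W 𝒢 i k) (k : 𝒢.G i), OKE P E → RedW P w (E.map Prod.fst) → hE E ≤ τ →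
    τ ≤ hE E + N → Pos P ρ w E τ X → (P i).Ent ρ E (tgE P w E) k →
    (ι i k)⁻¹ * X.2.val ∈ F := by
  obtain ⟨F', hF', hS⟩ := snear hT hρ (⌈N⌉₊ + 1)
  obtain ⟨F, hF, h⟩ := start_step hT hρ N (((⌈N⌉₊ + 1 : ℕ) : ℝ) - 1) F' hF' hS
  refine ⟨F, hF, ?_⟩
  intro i j w E τ X k h1 h2 h3 h4 h5 h6
  refine h w E τ X k h1 h2 h3 h4 ?_ h5 h6
  have h7 := Nat.le_ceil N
  have h8 := dl_nonneg E
  push_cast
  linarith

/-- closeness of the paths -/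
def Cls (P : Pcs 𝒢 J) (ρ r : ℝ) (F : Set (UGroup 𝒢)) (D : ℝ) {i j j' : 𝒢.V}
    (E E' : Option ({s : OE 𝒢 // org s = i} × Sta J)) (c : 𝒢.G i) (w : W 𝒢 i j)
    (w' : W 𝒢 i j') : Prop :=
  (∀ (τ τ' : ℝ) (X X' : Σ k, W 𝒢 i k), hE E ≤ τ → hE E' ≤ τ' → |τ - τ'| ≤ r →
    Pos P ρ w E τ X → Pos P ρ w' E' τ' X' → (ι i c * X.2.val)⁻¹ * X'.2.val ∈ F) ∧
  |DW P w E - DW P w' E'| ≤ D

theorem step (hT : TreeGood P) [Finite 𝒢.V] [Finite 𝒢.E] {ρ : ℝ}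
    (hρ : ∀ v, (P v).K ≤ ρ) (r R : ℝ) : ∃ F₀ : Set (UGroup 𝒢), F₀.Finite ∧
    ∀ (F : Set (UGroup 𝒢)) (D : ℝ), F₀ ⊆ F → ∀ {j j' : 𝒢.V} (t : OE 𝒢)
    (E E' : Option ({s : OE 𝒢 // org s = org t} × Sta J)) (c x x' : 𝒢.G (org t)) (a : 𝒢.H t.1)
    (w : W 𝒢 (org (rev t)) j) (w' : W 𝒢 (org (rev t)) j'), x' = c * x * fo t a →
    OKE P E → OKE P E' → (P (org t)).NPE E ⟨t, rfl⟩ x →
    (P (org t)).NPE E' ⟨t, rfl⟩ x' → RedW P w (some ⟨rev t, rfl⟩) →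
    RedW P w' (some ⟨rev t, rfl⟩) →
    (∀ k k', (P (org t)).Ent ρ E ((P (org t)).uE E ⟨t, rfl⟩ x) k →
      (P (org t)).Ent ρ E' ((P (org t)).uE E' ⟨t, rfl⟩ x') k' →
      (P (org t)).M ((c * k)⁻¹ * k') ≤ R) →
    ‖aE E' - aE E - (P (org t)).Φ c‖ ≤ R → |hE E' - hE E| ≤ R →
    (P (org t)).NC R (fo t a) ⟨t, rfl⟩ ((P (org t)).nxt E ⟨t, rfl⟩ x)
      ((P (org t)).nxt E' ⟨t, rfl⟩ x') →
    ‖tgW P w' ⟨rev t, rfl⟩ - tgW P w ⟨rev t, rfl⟩ + (P (org t)).φ ⟨t, rfl⟩ (fo t a)‖ ≤ R →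
    Cls P ρ r F D (NXT P t E x) (NXT P t E' x') (fr t a⁻¹) w w' →
    Cls P ρ r F D E E' c (W.cons t x w) (W.cons t x' w') := by
  choose C0 hC0 el using fun v => exit_loc (hT.good v) ρ
  choose C1 hC1 ms using fun v => posM_stab (hT.good v) ρ (|ρ| + C0 v + 2 * |R| + |r|)
  obtain ⟨Fs, hFs, hs⟩ := start_near hT hρ (|R| + |r|)
  refine ⟨ballU P C1 ∪ (ballU P C1 * (LT 𝒢 * Fs) ∪ (Fs⁻¹ * ((LT 𝒢)⁻¹ * ballU P C1))),
    (ballU_finite hT C1).union (((ballU_finite hT C1).mul (LT_finite.mul hFs)).union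
      (hFs.inv.mul (LT_finite.inv.mul (ballU_finite hT C1)))), ?_⟩
  intro F D hF j j' t E E' c x x' a w w' hx hOK hOK' hNP hNP' hR hR' hent ha hh hNC htg hcls
  have hR0 := abs_nonneg R
  have hr0 := abs_nonneg r
  have hρ0 := abs_nonneg ρ
  have hRR := le_abs_self R
  have hrr := le_abs_self r
  have hρρ := le_abs_self ρ
  have hC0' := hC0 (org t)
  have bR : R ≤ |ρ| + C0 (org t) + 2 * |R| + |r| := by linarith
  have bρ : ρ ≤ |ρ| + C0 (org t) + 2 * |R| + |r| := by linarith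
  have bC : C0 (org t) ≤ |ρ| + C0 (org t) + 2 * |R| + |r| := by linarith
  subst hx
  have hNC' : (P (org t)).NC (|ρ| + C0 (org t) + 2 * |R| + |r|) (fo t a) ⟨t, rfl⟩
      ((P (org t)).nxt E ⟨t, rfl⟩ x) ((P (org t)).nxt E' ⟨t, rfl⟩ (c * x * fo t a)) :=
    ⟨hNC.1.trans bR, hNC.2.1.trans bR, hNC.2.2.trans bR⟩
  have hhd : |((P (org t)).nxt E' ⟨t, rfl⟩ (c * x * fo t a)).h -
      ((P (org t)).nxt E ⟨t, rfl⟩ x).h| ≤ R := by
    refine le_trans ?_ hNC.2.1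
    exact le_add_of_nonneg_right (norm_nonneg _)
  have hhd' := abs_le.1 hhd
  have hha := abs_le.1 hh
  refine ⟨?_, hcls.2⟩
  rintro τ τ' X X' hτ hτ' hττ hX hX'
  have htt := abs_le.1 hττ
  have key : ∀ (z z' : 𝒢.G (org t)) (τ τ' : ℝ),
      |(τ - hE E) - (τ' - hE E')| ≤ |ρ| + C0 (org t) + 2 * |R| + |r| →
      (P (org t)).PosM ρ (|ρ| + C0 (org t) + 2 * |R| + |r|) E ⟨t, rfl⟩ x
        (tgW P w ⟨rev t, rfl⟩) τ z →
      (P (org t)).PosM ρ (|ρ| + C0 (org t) + 2 * |R| + |r|) E' ⟨t, rfl⟩ (c * x * fo t a)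
        (tgW P w' ⟨rev t, rfl⟩) τ' z' →
      (P (org t)).M ((c * z)⁻¹ * z') ≤ C1 (org t) ∧
        ‖(P (org t)).Φ ((c * z)⁻¹ * z')‖ ≤ C1 (org t) := by
    intro z z' τ τ' h1 h2 h3
    exact ms (org t) E E' ⟨t, rfl⟩ c x (fo t a) z z' _ _ τ τ' hNP hNP' (fo_mem hT t a)
      (fun k k' hk hk' => (hent k k' hk hk').trans bR) (ha.trans bR) h1 hNC' (htg.trans bR) h2 h3
  rcases hX with ⟨hlt, z, rfl, hz⟩ | ⟨hle, Y, rfl, hY⟩
  · rcases hX' with ⟨hlt', z', rfl, hz'⟩ | ⟨hle', Y', rfl, hY'⟩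
    · -- both in this slot
      apply hF
      refine Or.inl ?_
      rw [W.val_nil, W.val_nil, ← map_mul, ← map_inv, ← map_mul]
      refine mem_ballU (key z z' τ τ' ?_ (hz.mono le_rfl bρ) (hz'.mono le_rfl bρ))
      rw [abs_le]
      constructor <;> linarith [hha.1, hha.2, htt.1, htt.2]
    · -- the second one is in the tail
      apply hF
      refine Or.inr (Or.inl ?_)
      obtain ⟨h₀, he1, he2, he3⟩ := exit_ex hT hρ t (c * x * fo t a) w' E' hOK' hNP' hR'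
      obtain ⟨k', hk'⟩ := ent_ex (hT.good _) E' ((P (org t)).uE E' ⟨t, rfl⟩ (c * x * fo t a))
        hOK'.2 (uE_supp (hT.good _) E' ⟨t, rfl⟩ _ hNP')
      obtain ⟨p, hp⟩ := exi_ex (hT.good _) E' ⟨t, rfl⟩ (c * x * fo t a) hNP'
      have hl := el _ E' ⟨t, rfl⟩ (c * x * fo t a) k' p (fo t h₀) (tgW P w' ⟨rev t, rfl⟩)
        hOK'.1 hNP' (hk'.mono (hρ _)) (hp.mono (hρ _)) he2 he3
      have h1 := key z (c * x * fo t a * fo t h₀) τ
        ((P (org t)).nxt E' ⟨t, rfl⟩ (c * x * fo t a)).h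
        (by rw [abs_le]; constructor <;> linarith [hha.1, hha.2, htt.1, htt.2, hhd'.1, hhd'.2])
        (hz.mono le_rfl bρ) ⟨k', p, hk'.mono (hρ _), hp.mono (hρ _), hl.mono bC⟩
      have h2 := hs w' (NXT P t E' (c * x * fo t a)) τ' Y' (fr t h₀) (hOK'.next hT t hNP') hR'
        hle' (by
          show τ' ≤ ((P (org t)).nxt E' ⟨t, rfl⟩ (c * x * fo t a)).h + (|R| + |r|)
          linarith [hha.1, hha.2, htt.1, htt.2, hhd'.1, hhd'.2]) hY' he1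
      have h3 := Set.mul_mem_mul (mem_ballU h1)
        (Set.mul_mem_mul (Set.mem_range_self (f := lt) t) h2)
      have e1 : (ι (org t) c * (W.nil z).val)⁻¹ * (W.cons t (c * x * fo t a) Y'.2).val =
          ι (org t) ((c * z)⁻¹ * (c * x * fo t a * fo t h₀)) *
            (lt t * ((ι (org (rev t)) (fr t h₀))⁻¹ * Y'.2.val)) := by
        rw [W.val_cons, W.val_nil, map_mul _ (c * z)⁻¹, map_inv, map_mul _ c z,
          map_mul _ (c * x * fo t a) (fo t h₀)]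
        exact alg1 _ _ _ _ _ _ (cross t h₀)
      rw [e1]
      exact h3
  · rcases hX' with ⟨hlt', z', rfl, hz'⟩ | ⟨hle', Y', rfl, hY'⟩
    · apply hF
      refine Or.inr (Or.inr ?_)
      obtain ⟨h₀, he1, he2, he3⟩ := exit_ex hT hρ t x w E hOK hNP hR
      obtain ⟨k', hk'⟩ := ent_ex (hT.good _) E ((P (org t)).uE E ⟨t, rfl⟩ x)
        hOK.2 (uE_supp (hT.good _) E ⟨t, rfl⟩ _ hNP)
      obtain ⟨p, hp⟩ := exi_ex (hT.good _) E ⟨t, rfl⟩ x hNP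
      have hl := el _ E ⟨t, rfl⟩ x k' p (fo t h₀) (tgW P w ⟨rev t, rfl⟩)
        hOK.1 hNP (hk'.mono (hρ _)) (hp.mono (hρ _)) he2 he3
      have h1 := key (x * fo t h₀) z' ((P (org t)).nxt E ⟨t, rfl⟩ x).h τ'
        (by rw [abs_le]; constructor <;> linarith [hha.1, hha.2, htt.1, htt.2, hhd'.1, hhd'.2])
        ⟨k', p, hk'.mono (hρ _), hp.mono (hρ _), hl.mono bC⟩ (hz'.mono le_rfl bρ)
      have h2 := hs w (NXT P t E x) τ Y (fr t h₀) (hOK.next hT t hNP) hR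
        hle (by
          show τ ≤ ((P (org t)).nxt E ⟨t, rfl⟩ x).h + (|R| + |r|)
          linarith [hha.1, hha.2, htt.1, htt.2, hhd'.1, hhd'.2]) hY he1
      have h3 := Set.mul_mem_mul (Set.inv_mem_inv.2 h2) (Set.mul_mem_mul
        (Set.inv_mem_inv.2 (Set.mem_range_self (f := lt) t)) (mem_ballU h1))
      have e1 : (ι (org t) c * (W.cons t x Y.2).val)⁻¹ * (W.nil z').val =
          ((ι (org (rev t)) (fr t h₀))⁻¹ * Y.2.val)⁻¹ * ((lt t)⁻¹ *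
            ι (org t) ((c * (x * fo t h₀))⁻¹ * z')) := by
        rw [W.val_cons, W.val_nil, map_mul _ _ z', map_inv, map_mul _ c, map_mul _ x]
        exact alg3 _ _ _ _ _ _ _ (cross t h₀)
      rw [e1]
      exact h3
    · -- both in the tails
      have h1 := hcls.1 τ τ' Y Y' hle hle' hττ hY hY'
      have e1 : (ι (org t) c * (W.cons t x Y.2).val)⁻¹ * (W.cons t (c * x * fo t a) Y'.2).val =
          (ι (org (rev t)) (fr t a⁻¹) * Y.2.val)⁻¹ * Y'.2.val := by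
        rw [W.val_cons, W.val_cons, map_mul _ _ (fo t a), map_mul _ c x, map_inv (fr t),
          map_inv (ι (org (rev t)))]
        exact alg4 _ _ _ _ _ _ _ (cross t a)
      rw [e1]
      exact h1

end Run7.h230
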