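import Pool.Agent.Run7.h230.TreeB

set_option autoImplicit false

/-! Tree level, part C: closeness of the paths of words which differ by a shift, at the start or
at the end. -/

namespace Run7.h230

open LPiece Pointwise

variable {𝒢 : GraphOfGroups} {J : Type} [Fintype J] {P : Pcs 𝒢 J}

/-- words which differ by shifting elements of edge groups, and by `c` at the start -/
inductive ShW {𝒢 : GraphOfGroups} : {i j : 𝒢.V} → 𝒢.G i → W 𝒢 i j → W 𝒢 i j → Prop
  | nil {i : 𝒢.V} (c g : 𝒢.G i) : ShW c (.nil g) (.nil (c * g))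
  | cons {j : 𝒢.V} (t : OE 𝒢) (c x : 𝒢.G (org t)) (a : 𝒢.H t.1) (w w' : W 𝒢 (org (rev t)) j) :
    ShW (fr t a⁻¹) w w' → ShW c (.cons t x w) (.cons t (c * x * fo t a) w')

theorem le_unif [Fintype 𝒢.V] {C : 𝒢.V → ℝ} (hC : ∀ v, 0 ≤ C v) (v : 𝒢.V) : C v ≤ ∑ v, C v :=
  Finset.single_le_sum (fun v _ => hC v) (Finset.mem_univ v)

theorem EC.mono {H E : Type} [Group H] {Q : LPiece H E J} {r r' : ℝ} (hr : r ≤ r') {c : H}
    {X X' : Option (E × Sta J)} (h : Q.EC r c X X') : Q.EC r' c X X' := by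
  rcases X with _ | ⟨e, σ⟩
  · rcases X' with _ | ⟨e', σ'⟩
    · exact ⟨h.1.trans hr, h.2.trans hr⟩
    · exact ⟨h.1, h.2.1.trans hr, h.2.2.1.trans hr, h.2.2.2.1.trans hr, h.2.2.2.2.1.trans hr,
        h.2.2.2.2.2.trans hr⟩
  · rcases X' with _ | ⟨e', σ'⟩
    · exact h.elim
    · exact ⟨h.1, h.2.1, h.2.2.1.trans hr, h.2.2.2.1.trans hr, h.2.2.2.2.trans hr⟩

theorem NC.mono {H E : Type} [Group H] {Q : LPiece H E J} {r r' : ℝ} (hr : r ≤ r') {a : H}
    {t : E} {σ σ' : Sta J} (h : Q.NC r a t σ σ') : Q.NC r' a t σ σ' :=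
  ⟨h.1.trans hr, h.2.1.trans hr, h.2.2.trans hr⟩

theorem nc_ec (hT : TreeGood P) (t : OE 𝒢) {r : ℝ} {a : 𝒢.H t.1} {σ σ' : Sta J}
    (h : (P (org t)).NC r (fo t a) ⟨t, rfl⟩ σ σ') :
    (P (org (rev t))).EC r (fr t a⁻¹) (some (⟨rev t, rfl⟩, σ)) (some (⟨rev t, rfl⟩, σ')) := by
  have h1 := add_inv ((hT.good (org (rev t))).good2.ω_mul ⟨rev t, rfl⟩) (fr_mem hT t a)
  have h2 := add_inv ((hT.good (org (rev t))).good2.κ_mul ⟨rev t, rfl⟩) (fr_mem hT t a)
  have h3 := add_inv ((hT.good (org (rev t))).good2.φ_mul ⟨rev t, rfl⟩) (fr_mem hT t a)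
  rw [← hT.φω] at h1
  rw [← hT.κκ] at h2
  rw [← hT.ωφ] at h3
  refine ⟨rfl, fr_mem hT t _, ?_, ?_, ?_⟩
  · rw [map_inv, h1, sub_neg_eq_add]; exact h.1
  · rw [map_inv, h2, sub_neg_eq_add]; exact h.2.1
  · rw [map_inv, h3, sub_neg_eq_add]; exact h.2.2

theorem tgW_sh (hT : TreeGood P) [Finite 𝒢.V] : ∃ C, 0 ≤ C ∧ ∀ {i j : 𝒢.V} (c : 𝒢.G i)
    (w w' : W 𝒢 i j), ShW c w w' → ∀ e : {s : OE 𝒢 // org s = i}, c ∈ (P i).A e →
    RedW P w (some e) → ‖tgW P w' e - tgW P w e - (P i).ω e c‖ ≤ C := by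
  have := Fintype.ofFinite 𝒢.V
  choose C hC h using fun v => gate_stab (hT.good v) 0
  refine ⟨∑ v, C v, Finset.sum_nonneg fun v _ => hC v, ?_⟩
  intro i j c w w' hs
  cases hs with
  | nil c g =>
    intro e hc _
    refine le_trans ?_ (le_unif hC i)
    have h1 := (h i e g c 1 hc (by rw [(hT.good i).good1.M_one])).1
    rw [mul_one] at h1
    show ‖(P i).ω e ((P i).gate e (c * g)) - (P i).ω e ((P i).gate e g) - (P i).ω e c‖ ≤ _
    rwa [sub_sub, add_comm ((P i).ω e ((P i).gate e g))]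
  | cons t c x a w w' hs =>
    intro e hc hR
    have h1 := (hT.good (org t)).good3.uω_mul e ⟨t, rfl⟩ x hR.1 c hc (fo t a) (fo_mem hT t a)
    show ‖(P (org t)).uω e ⟨t, rfl⟩ (c * x * fo t a) - (P (org t)).uω e ⟨t, rfl⟩ x -
      (P (org t)).ω e c‖ ≤ _
    rw [h1, add_sub_cancel_right, sub_self, norm_zero]
    exact Finset.sum_nonneg fun v _ => hC v

theorem main_some (hT : TreeGood P) [Finite 𝒢.V] [Finite 𝒢.E] {ρ : ℝ}
    (hρ : ∀ v, (P v).K ≤ ρ) (hρ0 : 0 ≤ ρ) (r rE : ℝ) (hr : 0 ≤ r) (hrE : 0 ≤ rE) :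
    ∃ (F : Set (UGroup 𝒢)) (D : ℝ), F.Finite ∧
    ∀ {i j : 𝒢.V} (c : 𝒢.G i) (w w' : W 𝒢 i j), ShW c w w' →
    ∀ (e : {s : OE 𝒢 // org s = i}) (σ σ' : Sta J),
    (P i).EC rE c (some (e, σ)) (some (e, σ')) → OKE P (some (e, σ)) → OKE P (some (e, σ')) →
    RedW P w (some e) → RedW P w' (some e) →
    Cls P ρ r F D (some (e, σ)) (some (e, σ')) c w w' := by
  have := Fintype.ofFinite 𝒢.V
  obtain ⟨Cg, hCg, tg⟩ := tgW_sh hT
  choose Ce hCe ee using fun v => ec_entry (hT.good v) (ρ + rE + Cg)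
  set R : ℝ := ∑ v, Ce v + (ρ + rE + Cg + r) with hR
  have hsum : 0 ≤ ∑ v, Ce v := Finset.sum_nonneg fun v _ => hCe v
  obtain ⟨F₀, hF₀, st⟩ := step hT hρ r R
  choose CL hCL ls using fun v => posL_stab (hT.good v) ρ (R + ρ)
  choose CD hCD ds using fun v => DE_stab (hT.good v) (R + ρ)
  refine ⟨F₀ ∪ ballU P CL, ∑ v, CD v, hF₀.union (ballU_finite hT CL), ?_⟩
  intro i j c w w' hs
  induction hs with
  | @nil i c g =>
    intro e σ σ' hec hOK hOK' hRw hRw'
    have hc := hec.2.1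
    have ha := ec_a (hT.good i) hrE hec
    have hK := hρ i
    have hCei := le_unif hCe i
    have hM : (P i).M ((c * g)⁻¹ * (c * g)) ≤ R + ρ := by
      rw [M_self (hT.good i)]; positivity
    have hΦ : ‖(P i).Φ ((c * g)⁻¹ * (c * g))‖ ≤ R + ρ := by
      rw [inv_mul_cancel]
      exact (Φ_one (hT.good i)).trans (by linarith)
    have htg := tg c (W.nil g) (W.nil (c * g)) (ShW.nil c g) e hc trivial
    have hent : ∀ k k', (P i).Ent ρ (some (e, σ)) ((P i).tg (some (e, σ)) g) k →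
        (P i).Ent ρ (some (e, σ')) ((P i).tg (some (e, σ')) (c * g)) k' →
        (P i).M ((c * k)⁻¹ * k') ≤ R + ρ := by
      intro k k' hk hk'
      refine (ee i _ _ c k k' _ _ hOK.1 hOK'.1 (EC.mono (by linarith) hec) ?_
        (hk.mono (by linarith)) (hk'.mono (by linarith))).trans (by linarith)
      rintro e₁ σ₁ h₁
      obtain ⟨h2, h3⟩ := Prod.mk.inj (Option.some.inj h₁)
      subst h2
      exact htg.trans (by linarith)
    refine ⟨?_, ?_⟩
    · rintro τ τ' X X' hτ hτ' hττ ⟨z, rfl, hz⟩ ⟨z', rfl, hz'⟩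
      refine Or.inr ?_
      rw [W.val_nil, W.val_nil, ← map_mul, ← map_inv, ← map_mul]
      refine mem_ballU (ls i _ _ c g (c * g) z z' τ τ' hent (ha.1.trans (by linarith)) ?_ hM hΦ
        (hz.mono le_rfl (by linarith)) (hz'.mono le_rfl (by linarith)))
      have h1 := abs_le.1 hττ
      have h2 := abs_le.1 ha.2
      rw [abs_le]
      constructor <;> linarith [h1.1, h1.2, h2.1, h2.2]
    · refine (ds i _ _ c g (c * g) hOK.1 hOK'.1 hOK.2 hOK'.2 ?_ (ha.1.trans (by linarith))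
        (ha.2.trans (by linarith)) hM hΦ).trans (le_unif hCD i)
      intro k k' hk hk'
      exact hent k k' (hk.mono (hρ i)) (hk'.mono (hρ i))
  | cons t c x a w w' hs ih =>
    intro e σ σ' hec hOK hOK' hRw hRw'
    have hc := hec.2.1
    have ha := ec_a (hT.good _) hrE hec
    have hK := hρ (org t)
    have hCei := le_unif hCe (org t)
    have hNC := ec_next_some (hT.good _) hec hRw.1 (fo_mem hT t a)
    have hOKn := hOK.next hT t (x := x) hRw.1
    have hOKn' := hOK'.next hT t (x := c * x * fo t a) hRw'.1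
    refine st _ _ Set.subset_union_left t (some (e, σ)) (some (e, σ')) c x _ a w w' rfl hOK hOK'
      hRw.1 hRw'.1 hRw.2 hRw'.2 ?_ (ha.1.trans (by linarith)) (ha.2.trans (by linarith))
      (NC.mono (by linarith) hNC) ?_ ?_
    · intro k k' hk hk'
      refine (ee _ _ _ c k k' _ _ hOK.1 hOK'.1 (EC.mono (by linarith) hec) ?_
        (hk.mono (by linarith)) (hk'.mono (by linarith))).trans (by linarith)
      rintro e₁ σ₁ h₁
      obtain ⟨h2, h3⟩ := Prod.mk.inj (Option.some.inj h₁)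
      subst h2
      have h1 := (hT.good (org t)).good3.uω_mul e ⟨t, rfl⟩ x hRw.1 c hc (fo t a)
        (fo_mem hT t a)
      show ‖(P (org t)).uω e ⟨t, rfl⟩ (c * x * fo t a) - (P (org t)).uω e ⟨t, rfl⟩ x -
        (P (org t)).ω e c‖ ≤ _
      rw [h1, add_sub_cancel_right, sub_self, norm_zero]
      linarith
    · have h1 := tg _ w w' hs ⟨rev t, rfl⟩ (fr_mem hT t _) hRw.2
      have h2 := add_inv ((hT.good (org (rev t))).good2.ω_mul ⟨rev t, rfl⟩) (fr_mem hT t a)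
      rw [← hT.φω] at h2
      rw [map_inv, h2, sub_neg_eq_add] at h1
      exact h1.trans (by linarith)
    · exact ih _ _ _ (nc_ec hT t hNC) hOKn hOKn' hRw.2 hRw'.2

theorem main_none (hT : TreeGood P) [Finite 𝒢.V] [Finite 𝒢.E] {ρ : ℝ}
    (hρ : ∀ v, (P v).K ≤ ρ) (hρ0 : 0 ≤ ρ) (r rE : ℝ) (hr : 0 ≤ r) (hrE : 0 ≤ rE) :
    ∃ (F : Set (UGroup 𝒢)) (D : ℝ), F.Finite ∧
    ∀ {i j : 𝒢.V} (c : 𝒢.G i) (w w' : W 𝒢 i j), ShW c w w' →
    ∀ (E' : Option ({s : OE 𝒢 // org s = i} × Sta J)),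
    (P i).EC rE c none E' → OKE P E' → RedW P w none → RedW P w' (E'.map Prod.fst) →
    RedW P w (E'.map Prod.fst) →
    Cls P ρ r F D none E' c w w' := by
  have := Fintype.ofFinite 𝒢.V
  obtain ⟨Cg, hCg, tg⟩ := tgW_sh hT
  choose Cn hCn en using fun v => ec_next_none (hT.good v) rE
  choose Ce hCe ee using fun v => ec_entry (hT.good v) (ρ + rE)
  set R : ℝ := ∑ v, Ce v + ∑ v, Cn v + (ρ + rE + Cg + r) with hR
  have hsum : 0 ≤ ∑ v, Ce v := Finset.sum_nonneg fun v _ => hCe v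
  have hsum' : 0 ≤ ∑ v, Cn v := Finset.sum_nonneg fun v _ => hCn v
  obtain ⟨F₁, D₁, hF₁, ms⟩ := main_some hT hρ hρ0 r (∑ v, Cn v) hr hsum'
  obtain ⟨F₀, hF₀, st⟩ := step hT hρ r R
  choose CL hCL ls using fun v => posL_stab (hT.good v) ρ (R + ρ)
  choose CD hCD ds using fun v => DE_stab (hT.good v) (R + ρ)
  have hsumD : 0 ≤ ∑ v, CD v := Finset.sum_nonneg fun v _ => hCD v
  refine ⟨F₀ ∪ (ballU P CL ∪ F₁), ∑ v, CD v + |D₁|,
    hF₀.union ((ballU_finite hT CL).union hF₁), ?_⟩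
  intro i j c w w' hs
  cases hs with
  | nil c g =>
    intro E' hec hOK' hRw hRw' hRw''
    have ha := ec_a (hT.good i) hrE hec
    have hK := hρ i
    have hCei := le_unif hCe i
    have hM : (P i).M ((c * g)⁻¹ * (c * g)) ≤ R + ρ := by
      rw [M_self (hT.good i)]; positivity
    have hΦ : ‖(P i).Φ ((c * g)⁻¹ * (c * g))‖ ≤ R + ρ := by
      rw [inv_mul_cancel]
      exact (Φ_one (hT.good i)).trans (by linarith)
    have hent : ∀ k k', (P i).Ent ρ none ((P i).tg none g) k →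
        (P i).Ent ρ E' ((P i).tg E' (c * g)) k' →
        (P i).M ((c * k)⁻¹ * k') ≤ R + ρ := by
      intro k k' hk hk'
      refine (ee i none E' c k k' _ _ trivial hOK'.1 (EC.mono (by linarith) hec) ?_
        (hk.mono (by linarith)) (hk'.mono (by linarith))).trans (by linarith)
      rintro e₁ σ₁ h₁
      cases h₁
    refine ⟨?_, ?_⟩
    · rintro τ τ' X X' hτ hτ' hττ ⟨z, rfl, hz⟩ ⟨z', rfl, hz'⟩
      refine Or.inr (Or.inl ?_)
      rw [W.val_nil, W.val_nil, ← map_mul, ← map_inv, ← map_mul]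
      refine mem_ballU (ls i _ _ c g (c * g) z z' τ τ' hent (ha.1.trans (by linarith)) ?_ hM hΦ
        (hz.mono le_rfl (by linarith)) (hz'.mono le_rfl (by linarith)))
      have h1 := abs_le.1 hττ
      have h2 := abs_le.1 ha.2
      rw [abs_le]
      constructor <;> linarith [h1.1, h1.2, h2.1, h2.2]
    · refine (ds i none E' c g (c * g) trivial hOK'.1 trivial hOK'.2 ?_ (ha.1.trans (by linarith))
        (ha.2.trans (by linarith)) hM hΦ).trans ((le_unif hCD i).trans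
          (le_add_of_nonneg_right (abs_nonneg _)))
      intro k k' hk hk'
      exact hent k k' (hk.mono (hρ i)) (hk'.mono (hρ i))
  | cons t c x a w w' hs =>
    intro E' hec hOK' hRw hRw' hRw''
    have ha := ec_a (hT.good _) hrE hec
    have hK := hρ (org t)
    have hCei := le_unif hCe (org t)
    have hCni := le_unif hCn (org t)
    have hNP' : (P (org t)).NPE E' ⟨t, rfl⟩ (c * x * fo t a) := NPE_of hRw'.1
    have hNC := en (org t) E' ⟨t, rfl⟩ c x (fo t a) hOK'.1 hec hNP' (fo_mem hT t a)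
    have hOKn := (OKE.none (P := P) (org t)).next hT t (x := x) trivial
    have hOKn' := hOK'.next hT t (x := c * x * fo t a) hNP'
    have hcl := ms _ w w' hs ⟨rev t, rfl⟩ _ _ (nc_ec hT t (NC.mono hCni hNC)) hOKn hOKn'
      hRw.2 hRw'.2
    refine st _ _ Set.subset_union_left t none E' c x _ a w w' rfl (OKE.none _) hOK'
      trivial hNP' hRw.2 hRw'.2 ?_ (ha.1.trans (by linarith)) (ha.2.trans (by linarith))
      (NC.mono (by linarith) hNC) ?_ ⟨?_, ?_⟩
    · intro k k' hk hk'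
      refine (ee _ none E' c k k' _ _ trivial hOK'.1 (EC.mono (by linarith) hec) ?_
        (hk.mono (by linarith)) (hk'.mono (by linarith))).trans (by linarith)
      rintro e₁ σ₁ h₁
      cases h₁
    · have h1 := tg _ w w' hs ⟨rev t, rfl⟩ (fr_mem hT t _) hRw.2
      have h2 := add_inv ((hT.good (org (rev t))).good2.ω_mul ⟨rev t, rfl⟩) (fr_mem hT t a)
      rw [← hT.φω] at h2
      rw [map_inv, h2, sub_neg_eq_add] at h1
      exact h1.trans (by linarith)
    · intro τ τ' X X' h1 h2 h3 h4 h5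
      exact Or.inr (Or.inr (hcl.1 τ τ' X X' h1 h2 h3 h4 h5))
    · exact hcl.2.trans ((le_abs_self _).trans (le_add_of_nonneg_left hsumD))

end Run7.h230
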