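import Pool.Agent.Run7.h230.TreeC

set_option autoImplicit false

/-! Tree level, part D: changes of the end, letter at the start. -/

namespace Run7.h230

open LPiece Pointwise

variable {𝒢 : GraphOfGroups} {J : Type} [Fintype J] {P : Pcs 𝒢 J}

theorem ShW.refl {i j : 𝒢.V} (w : W 𝒢 i j) : ShW 1 w w := by
  induction w with
  | nil g =>
    have := ShW.nil 1 g
    rwa [one_mul] at this
  | cons t x w ih =>
    have := ShW.cons t 1 x 1 w w (by rw [inv_one, map_one]; exact ih)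
    rwa [map_one, mul_one, one_mul] at this

theorem EC_refl {H E : Type} [Group H] {Q : LPiece H E J} (hQ : Q.Good)
    (X : Option (E × Sta J)) : Q.EC Q.K 1 X X := by
  have hK := K_nonneg hQ
  rcases X with _ | ⟨e, σ⟩
  · exact ⟨by rw [hQ.good1.M_one]; exact hK, Φ_one hQ⟩
  · refine ⟨rfl, (Q.A e).one_mem, ?_, ?_, ?_⟩
    · rw [add_one (hQ.good2.ω_mul e)]; simpa using hK
    · rw [add_one (hQ.good2.κ_mul e)]; simpa using hK
    · rw [add_one (hQ.good2.φ_mul e)]; simpa using hK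

theorem NC_refl {H E : Type} [Group H] {Q : LPiece H E J} (hQ : Q.Good) (t : E) (σ : Sta J)
    {r : ℝ} (hr : 0 ≤ r) : Q.NC r 1 t σ σ := by
  refine ⟨?_, ?_, ?_⟩
  · rw [add_one (hQ.good2.φ_mul t)]; simpa using hr
  · rw [add_one (hQ.good2.κ_mul t)]; simpa using hr
  · rw [add_one (hQ.good2.ω_mul t)]; simpa using hr

/-- one step, with the same start -/
theorem step_same (hT : TreeGood P) [Finite 𝒢.V] [Finite 𝒢.E] {ρ : ℝ}
    (hρ : ∀ v, (P v).K ≤ ρ) (hρ0 : 0 ≤ ρ) (r R : ℝ) (hR : 0 ≤ R) :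
    ∃ F₀ : Set (UGroup 𝒢), F₀.Finite ∧
    ∀ (F : Set (UGroup 𝒢)) (D : ℝ), F₀ ⊆ F → ∀ {j j' : 𝒢.V} (t : OE 𝒢)
    (E : Option ({s : OE 𝒢 // org s = org t} × Sta J)) (x : 𝒢.G (org t))
    (w : W 𝒢 (org (rev t)) j) (w' : W 𝒢 (org (rev t)) j'),
    OKE P E → (P (org t)).NPE E ⟨t, rfl⟩ x → RedW P w (some ⟨rev t, rfl⟩) →
    RedW P w' (some ⟨rev t, rfl⟩) →
    ‖tgW P w' ⟨rev t, rfl⟩ - tgW P w ⟨rev t, rfl⟩‖ ≤ R →
    Cls P ρ r F D (NXT P t E x) (NXT P t E x) 1 w w' →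
    Cls P ρ r F D E E 1 (W.cons t x w) (W.cons t x w') := by
  have := Fintype.ofFinite 𝒢.V
  choose Ce hCe ee using fun v => ec_entry (hT.good v) ρ
  have hsum : 0 ≤ ∑ v, Ce v := Finset.sum_nonneg fun v _ => hCe v
  obtain ⟨F₀, hF₀, st⟩ := step hT hρ r (∑ v, Ce v + 2 * ρ + R)
  refine ⟨F₀, hF₀, ?_⟩
  intro F D hF j j' t E x w w' hOK hNP hw hw' htg hcl
  have hec := EC_refl (hT.good (org t)) E
  have hK0 := K_nonneg (hT.good (org t))
  have hK := hρ (org t)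
  have ha := ec_a (hT.good (org t)) hK0 hec
  refine st F D hF t E E 1 x x 1 w w' (by rw [map_one, mul_one, one_mul]) hOK hOK hNP hNP hw hw'
    ?_ (ha.1.trans (by linarith)) (ha.2.trans (by linarith)) ?_ ?_ ?_
  · intro k k' hk hk'
    refine (ee _ E E 1 k k' _ _ hOK.1 hOK.1 (EC.mono hK hec) ?_ hk hk').trans
      ((le_unif hCe (org t)).trans (by linarith))
    intro e₁ σ₁ _
    rw [sub_self, zero_sub, norm_neg, add_one ((hT.good _).good2.ω_mul e₁), norm_zero]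
    exact hρ0
  · rw [map_one]
    exact NC_refl (hT.good _) _ _ (by positivity)
  · rw [map_one, add_one ((hT.good _).good2.φ_mul _), add_zero]
    exact htg.trans (by linarith)
  · rw [inv_one, map_one]
    exact hcl

/-- multiply the last element -/
def W.mulEnd : {i j : 𝒢.V} → W 𝒢 i j → 𝒢.G j → W 𝒢 i j
  | _, _, .nil g, s => .nil (g * s)
  | _, _, .cons t x w, s => .cons t x (w.mulEnd s)

theorem W.val_mulEnd {i j : 𝒢.V} (w : W 𝒢 i j) (s : 𝒢.G j) :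
    (w.mulEnd s).val = w.val * ι j s := by
  induction w with
  | nil g => exact map_mul _ _ _
  | cons t x w ih =>
    show ι (org t) x * lt t * (w.mulEnd s).val = ι (org t) x * lt t * w.val * ι _ s
    rw [ih, mul_assoc (ι (org t) x * lt t)]

theorem red_mulEnd {i j : 𝒢.V} (w : W 𝒢 i j) (s : 𝒢.G j) :
    ∀ e, RedW P w e → RedW P (w.mulEnd s) e := by
  induction w with
  | nil g => intro _ _; trivial
  | cons t x w ih => intro e h; exact ⟨h.1, ih s _ h.2⟩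

theorem tgW_mulEnd {i j : 𝒢.V} (w : W 𝒢 i j) (s : 𝒢.G j) (e : {s : OE 𝒢 // org s = i}) {C : ℝ}
    (hC : 0 ≤ C) (h : ∀ e g, ‖(P j).ω e ((P j).gate e (g * s)) - (P j).ω e ((P j).gate e g)‖ ≤ C) :
    ‖tgW P (w.mulEnd s) e - tgW P w e‖ ≤ C := by
  cases w with
  | nil g => exact h e g
  | cons t' x' w =>
    show ‖(P (org t')).uω _ _ x' - (P (org t')).uω _ _ x'‖ ≤ _
    rw [sub_self, norm_zero]; exact hC

/-- change of the end by an element of the vertex group -/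
theorem end_vertex (hT : TreeGood P) [Finite 𝒢.V] [Finite 𝒢.E] {ρ : ℝ}
    (hρ : ∀ v, (P v).K ≤ ρ) (hρ0 : 0 ≤ ρ) {j : 𝒢.V} (s : 𝒢.G j) :
    ∃ (F : Set (UGroup 𝒢)) (D : ℝ), F.Finite ∧
    ∀ {i : 𝒢.V} (w : W 𝒢 i j) (E : Option ({s : OE 𝒢 // org s = i} × Sta J)), OKE P E →
    RedW P w (E.map Prod.fst) → Cls P ρ 0 F D E E 1 w (w.mulEnd s) := by
  have := Fintype.ofFinite 𝒢.V
  have hjj := hT.good j
  set m : ℝ := (P j).M s + ‖(P j).Φ s‖ with hm
  have hM0 := M_nonneg hjj s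
  have hΦ0 := norm_nonneg ((P j).Φ s)
  obtain ⟨Cg, hCg, gs⟩ := gate_stab hjj m
  obtain ⟨Ce, hCe, ee⟩ := ec_entry hjj (ρ + Cg)
  obtain ⟨F₀, hF₀, st⟩ := step_same hT hρ hρ0 0 Cg hCg
  obtain ⟨CL, hCL, ls⟩ := posL_stab hjj ρ (Ce + 2 * ρ + m)
  obtain ⟨CD, hCD, ds⟩ := DE_stab hjj (Ce + 2 * ρ + m)
  refine ⟨F₀ ∪ ballU P (fun _ => CL), CD, hF₀.union (ballU_finite hT _), ?_⟩
  intro i w
  induction w with
  | @nil v g =>
    intro E hOK _
    have hec := EC_refl hjj E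
    have hK0 := K_nonneg hjj
    have hK := hρ v
    have ha := ec_a hjj hK0 hec
    have hM : (P v).M ((1 * g)⁻¹ * (g * s)) ≤ Ce + 2 * ρ + m := by
      rw [one_mul, inv_mul_cancel_left]; linarith
    have hΦ : ‖(P v).Φ ((1 * g)⁻¹ * (g * s))‖ ≤ Ce + 2 * ρ + m := by
      rw [one_mul, inv_mul_cancel_left]; linarith
    have hent : ∀ k k', (P v).Ent ρ E ((P v).tg E g) k →
        (P v).Ent ρ E ((P v).tg E (g * s)) k' →
        (P v).M ((1 * k)⁻¹ * k') ≤ Ce + 2 * ρ + m := by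
      intro k k' hk hk'
      refine (ee E E 1 k k' _ _ hOK.1 hOK.1 (EC.mono (by linarith) hec) ?_
        (hk.mono (by linarith)) (hk'.mono (by linarith))).trans (by linarith)
      rintro e₁ σ₁ rfl
      have h1 := (gs e₁ g 1 s ((P v).A e₁).one_mem (by linarith)).1
      rw [one_mul] at h1
      show ‖(P v).ω e₁ ((P v).gate e₁ (g * s)) - (P v).ω e₁ ((P v).gate e₁ g) -
        (P v).ω e₁ 1‖ ≤ _
      rw [sub_sub, add_comm ((P v).ω e₁ ((P v).gate e₁ g))]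
      exact h1.trans (by linarith)
    refine ⟨?_, ?_⟩
    · rintro τ τ' X X' hτ hτ' hττ ⟨z, rfl, hz⟩ ⟨z', rfl, hz'⟩
      refine Or.inr ?_
      rw [W.val_nil, W.val_nil, ← map_mul, ← map_inv, ← map_mul]
      refine mem_ballU (ls E E 1 g (g * s) z z' τ τ' hent (ha.1.trans (by linarith)) ?_ hM hΦ
        (hz.mono le_rfl (by linarith)) (hz'.mono le_rfl (by linarith)))
      have h1 := abs_le.1 hττ
      rw [abs_le]
      constructor <;> linarith [h1.1, h1.2]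
    · refine ds E E 1 g (g * s) hOK.1 hOK.1 hOK.2 hOK.2 ?_ (ha.1.trans (by linarith))
        (ha.2.trans (by linarith)) hM hΦ
      intro k k' hk hk'
      exact hent k k' (hk.mono (hρ v)) (hk'.mono (hρ v))
  | cons t x w ih =>
    intro E hOK hRw
    have hNP : (P (org t)).NPE E ⟨t, rfl⟩ x := NPE_of hRw.1
    refine st _ _ Set.subset_union_left t E x w (w.mulEnd s) hOK hNP hRw.2
      (red_mulEnd w s _ hRw.2) ?_
      (ih s hjj hm hM0 hΦ0 gs ee ls ds (NXT P t E x) (hOK.next hT t hNP) hRw.2)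
    refine tgW_mulEnd w s _ hCg ?_
    intro e g
    have h1 := (gs e g 1 s ((P _).A _).one_mem (by linarith)).1
    rw [one_mul, add_one (hjj.good2.ω_mul _), zero_add] at h1
    exact h1

end Run7.h230
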