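import Pool.Agent.Run7.h230.TreeD

set_option autoImplicit false

/-! Tree level, part E: letter at the end and at the start. -/

namespace Run7.h230

open LPiece Pointwise

variable {𝒢 : GraphOfGroups} {J : Type} [Fintype J] {P : Pcs 𝒢 J}

/-- the second word arises from the first one by adding a letter at the end -/
inductive ER {𝒢 : GraphOfGroups} : {i j j' : 𝒢.V} → W 𝒢 i j → W 𝒢 i j' → Prop
  | letter (t : OE 𝒢) (g : 𝒢.G (org t)) : ER (.nil g) (.cons t g (.nil 1))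
  | cons {j j' : 𝒢.V} (t : OE 𝒢) (x : 𝒢.G (org t)) (w : W 𝒢 (org (rev t)) j)
    (w' : W 𝒢 (org (rev t)) j') : ER w w' → ER (.cons t x w) (.cons t x w')

theorem tgW_er (hT : TreeGood P) {ρ : ℝ} (hρ : ∀ v, (P v).K ≤ ρ) (hρ0 : 0 ≤ ρ) {i j j' : 𝒢.V}
    (w : W 𝒢 i j) (w' : W 𝒢 i j') (h : ER w w') (e : {s : OE 𝒢 // org s = i})
    (hR : RedW P w' (some e)) : ‖tgW P w' e - tgW P w e‖ ≤ ρ := by
  cases h with
  | letter t g =>
    have h1 := ((hT.good (org t)).good3.u_gate e ⟨t, rfl⟩ g hR.1 1 ((P _).A _).one_mem).1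
    rw [mul_one] at h1
    show ‖(P (org t)).uω e ⟨t, rfl⟩ g - (P (org t)).ω e ((P (org t)).gate e g)‖ ≤ _
    rw [norm_sub_rev]
    exact h1.trans (hρ _)
  | cons t x w w' h =>
    show ‖(P (org t)).uω _ _ x - (P (org t)).uω _ _ x‖ ≤ _
    rw [sub_self, norm_zero]; exact hρ0

/-- a point of the edge group with prescribed coordinates -/
theorem edge_point (hT : TreeGood P) {ρ : ℝ} (hρ : ∀ v, (P v).K ≤ ρ) (t : OE 𝒢)
    (p q r : J → ℝ) (hp : Supp (P (org t)).Sφ p) (hq : Supp ((P (org t)).Sω ⟨t, rfl⟩) q)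
    (hr : Supp ((P (org t)).Sκ ⟨t, rfl⟩) r) :
    ∃ h₀ : 𝒢.H t.1, ‖(P (org t)).φ ⟨t, rfl⟩ (fo t h₀) - p‖ ≤ ρ ∧
      ‖(P (org t)).ω ⟨t, rfl⟩ (fo t h₀) - q‖ ≤ ρ ∧
      ‖(P (org t)).κ ⟨t, rfl⟩ (fo t h₀) - r‖ ≤ ρ := by
  obtain ⟨a, ha, h1, h2, h3⟩ := (hT.good (org t)).good2.dense ⟨t, rfl⟩ p q r hp hq hr
  rw [hT.A_eq t] at ha
  obtain ⟨h₀, rfl⟩ := ha
  exact ⟨h₀, h1.trans (hρ _), h2.trans (hρ _), h3.trans (hρ _)⟩

/-- change of the end by a letter -/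
theorem end_letter (hT : TreeGood P) [Finite 𝒢.V] [Finite 𝒢.E] {ρ : ℝ}
    (hρ : ∀ v, (P v).K ≤ ρ) (hρ0 : 0 ≤ ρ) :
    ∃ (F : Set (UGroup 𝒢)) (D : ℝ), F.Finite ∧
    ∀ {i j j' : 𝒢.V} (w : W 𝒢 i j) (w' : W 𝒢 i j'), ER w w' →
    ∀ (E : Option ({s : OE 𝒢 // org s = i} × Sta J)), OKE P E →
    RedW P w (E.map Prod.fst) → RedW P w' (E.map Prod.fst) → Cls P ρ 0 F D E E 1 w w' := by
  have := Fintype.ofFinite 𝒢.V
  obtain ⟨F₀, hF₀, st⟩ := step_same hT hρ hρ0 0 ρ hρ0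
  choose CA hCA eA using fun v => endA (hT.good v) (3 * ρ)
  choose CB hCB eB using fun v => endB (hT.good v) (3 * ρ)
  choose CC hCC eC using fun v => endC (hT.good v) (3 * ρ)
  choose D1 hD1 e1 using fun v => endD1 (hT.good v)
  choose D2 hD2 e2 using fun v => endD2 (hT.good v)
  refine ⟨F₀ ∪ (ballU P CA ∪ ballU P CB * (LT 𝒢 * ballU P CC)), ∑ v, D1 v + ∑ v, D2 v,
    hF₀.union ((ballU_finite hT _).union ((ballU_finite hT _).mul
      (LT_finite.mul (ballU_finite hT _)))), ?_⟩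
  intro i j j' w w' her
  induction her with
  | letter t g =>
    intro E hOK _ hRw'
    have hNP : (P (org t)).NPE E ⟨t, rfl⟩ g := NPE_of hRw'.1
    have hOK' := hOK.next hT t hNP
    have hge := nxt_h_ge (hT.good _) E ⟨t, rfl⟩ g hNP
    refine ⟨?_, ?_⟩
    · rintro τ τ' X X' hτ hτ' hττ ⟨z, rfl, hz⟩ hX'
      have hττ' : τ = τ' := by
        have := abs_nonneg (τ - τ')
        have h0 : |τ - τ'| = 0 := le_antisymm hττ this
        linarith [abs_eq_zero.1 h0]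
      subst hττ'
      rcases hX' with ⟨hlt, z', rfl, hz'⟩ | ⟨hle, Y, rfl, z', rfl, hz'⟩
      · refine Or.inr (Or.inl ?_)
        have h1 := eA _ E ⟨t, rfl⟩ g z z' _ τ hOK.1 hNP ?_ hτ hlt.le
          (hz.mono (by linarith) (by linarith)) (hz'.mono (by linarith) (by linarith))
        · rw [W.val_nil, W.val_nil, map_one, one_mul, ← map_inv, ← map_mul]
          exact mem_ballU h1
        · have h2 := (gate_one (hT.good (org (rev t))) ⟨rev t, rfl⟩).1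
          exact h2.trans (by linarith [hρ (org (rev t))])
      · refine Or.inr (Or.inr ?_)
        set σ := (P (org t)).nxt E ⟨t, rfl⟩ g with hσ
        have hsα : Supp (P (org t)).Sφ σ.α := nxt_α_supp (hT.good _) E ⟨t, rfl⟩ g hNP hOK.2
        have hsω : Supp ((P (org t)).Sω ⟨t, rfl⟩) σ.wω := nxt_wω_supp (hT.good _) E _ g hNP
        have hsκ : Supp ((P (org t)).Sκ ⟨t, rfl⟩) σ.wκ := nxt_wκ_supp (hT.good _) E _ g hNP
        obtain ⟨h₀, k1, k2, k3⟩ := edge_point hT hρ t (go σ.α 0 (τ - σ.hm))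
          (go σ.wω 0 (τ - σ.h)) (go σ.wκ 0 (τ - σ.h)) (go_supp hsα (Supp.zero _) _)
          (go_supp hsω (Supp.zero _) _) (go_supp hsκ (Supp.zero _) _)
        have h1 := eB _ E ⟨t, rfl⟩ g z (fo t h₀) τ hOK.1 hNP hle
          (hz.mono (by linarith) (by linarith)) (fo_mem hT t h₀) (k2.trans (by linarith))
          (k3.trans (by linarith)) (k1.trans (by linarith))
        have h2 := eC _ ⟨rev t, rfl⟩ σ z' (fr t h₀) τ hOK'.1 hle
          (hz'.mono (by linarith) (by linarith)) (fr_mem hT t h₀)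
          (by rw [← hT.ωφ t]; exact k2.trans (by linarith))
          (by rw [← hT.κκ t]; exact k3.trans (by linarith))
          (by rw [← hT.φω t]; exact k1.trans (by linarith))
        have h3 := Set.mul_mem_mul (mem_ballU h1)
          (Set.mul_mem_mul (Set.mem_range_self (f := lt) t) (mem_ballU h2))
        have e1 : (ι (org t) 1 * (W.nil z).val)⁻¹ * (W.cons t g (W.nil z')).val =
            ι (org t) (z⁻¹ * (g * fo t h₀)) * (lt t * ι (org (rev t)) ((fr t h₀)⁻¹ * z')) := by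
          rw [W.val_cons, W.val_nil, W.val_nil, map_one, one_mul, map_mul _ z⁻¹, map_inv,
            map_mul _ g, map_mul _ (fr t h₀)⁻¹, map_inv]
          exact alg1 _ _ _ _ _ _ (cross t h₀)
        rw [e1]
        exact h3
    · have h1 := e1 _ E ⟨t, rfl⟩ g hOK.1 hOK.2 hNP
      have h2 := e2 _ ⟨rev t, rfl⟩ ((P (org t)).nxt E ⟨t, rfl⟩ g)
      have h3 := le_unif hD1 (org t)
      have h4 := le_unif hD2 (org (rev t))
      show |(P (org t)).DE E g - (P (org (rev t))).DE (some (⟨rev t, rfl⟩,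
        (P (org t)).nxt E ⟨t, rfl⟩ g)) 1| ≤ _
      rw [abs_le] at *
      constructor <;> linarith [h1.1, h1.2, h2.1, h2.2]
  | cons t x w w' her ih =>
    intro E hOK hRw hRw'
    have hNP : (P (org t)).NPE E ⟨t, rfl⟩ x := NPE_of hRw.1
    exact st _ _ Set.subset_union_left t E x w w' hOK hNP hRw.2 hRw'.2
      (tgW_er hT hρ hρ0 w w' her _ hRw'.2)
      (ih (NXT P t E x) (hOK.next hT t hNP) hRw.2 hRw'.2)

/-- a letter at the start -/
theorem start_letter (hT : TreeGood P) [Finite 𝒢.V] [Finite 𝒢.E] {ρ : ℝ}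
    (hρ : ∀ v, (P v).K ≤ ρ) (hρ0 : 0 ≤ ρ) :
    ∃ (F : Set (UGroup 𝒢)) (D : ℝ), F.Finite ∧
    ∀ (t : OE 𝒢) {j : 𝒢.V} (w : W 𝒢 (org (rev t)) j), RedW P w none →
    RedW P w (some ⟨rev t, rfl⟩) →
    (∀ (τ : ℝ) (X : Σ k, W 𝒢 (org (rev t)) k) (X' : Σ k, W 𝒢 (org t) k), 0 ≤ τ →
      Pos P ρ w none τ X → Pos P ρ (W.cons t 1 w) none τ X' →
      (lt t * X.2.val)⁻¹ * X'.2.val ∈ F) ∧
    |DW P w none - DW P (W.cons t 1 w) none| ≤ D := by
  obtain ⟨F₁, D, hF₁, mn⟩ := main_none hT hρ hρ0 0 (4 * ρ) le_rfl (by positivity)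
  obtain ⟨Fs, hFs, hs⟩ := start_near hT hρ (4 * ρ)
  refine ⟨F₁ ∪ Fs⁻¹ * ((LT 𝒢)⁻¹ * Fs), D, hF₁.union (hFs.inv.mul (LT_finite.inv.mul hFs)), ?_⟩
  intro t j w hw hw'
  have hK := hρ (org t)
  have hK0 := K_nonneg (hT.good (org t))
  have g1 := gate_one (hT.good (org t)) (⟨t, rfl⟩ : {s : OE 𝒢 // org s = org t})
  have g2 := (hT.good (org t)).good3.gate_mem ⟨t, rfl⟩ 1
  have g3 := flat_dist (hT.good (org t)) ((P _).A _).one_mem g2
  rw [inv_one, one_mul, add_one ((hT.good _).good2.ω_mul _), add_one ((hT.good _).good2.κ_mul _),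
    sub_zero, sub_zero] at g3
  have g4 : (P (org t)).d ((P (org t)).gate ⟨t, rfl⟩ 1) ≤ 4 * ρ := by
    have := max_le g1.1 g1.2
    linarith [(abs_le.1 g3).2]
  have hh : ((P (org t)).nxt none ⟨t, rfl⟩ 1).h ≤ 4 * ρ := by
    show (P (org t)).d (1 * (P (org t)).gate ⟨t, rfl⟩ 1⁻¹) ≤ _
    rw [inv_one, one_mul]; exact g4
  have hec : (P (org (rev t))).EC (4 * ρ) 1 none (NXT P t none 1) := by
    refine ⟨rfl, ?_, ?_, ?_, ?_, ?_⟩
    · show |(0 : ℝ)| ≤ _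
      rw [abs_zero]; positivity
    · show ‖- (P (org t)).Φ 1‖ ≤ _
      rw [norm_neg]
      exact (Φ_one (hT.good _)).trans (by linarith)
    · exact (abs_of_nonneg ((hT.good (org t)).good1.d_nonneg
        (1 * (P (org t)).gate ⟨t, rfl⟩ 1⁻¹))).trans_le hh
    · show ‖(P (org t)).ω ⟨t, rfl⟩ ((P (org t)).gate ⟨t, rfl⟩ 1⁻¹)‖ ≤ _
      rw [inv_one]; exact g1.1.trans (by linarith)
    · show ‖(P (org t)).κ ⟨t, rfl⟩ ((P (org t)).gate ⟨t, rfl⟩ 1⁻¹)‖ ≤ _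
      rw [inv_one]; exact g1.2.trans (by linarith)
  have hOKn := (OKE.none (P := P) (org t)).next hT t (x := 1) trivial
  have hcl := mn 1 w w (ShW.refl w) (NXT P t none 1) hec hOKn hw hw' hw'
  refine ⟨?_, hcl.2⟩
  rintro τ X X' hτ hX (⟨hlt, z, rfl, hz⟩ | ⟨hle, Y, rfl, hY⟩)
  · refine Or.inr ?_
    have h1 := hs w none τ X 1 (OKE.none _) hw hτ (by
      show τ ≤ 0 + 4 * ρ
      linarith) hX rfl
    have h2 := hs (W.cons t 1 w) none τ ⟨_, W.nil z⟩ 1 (OKE.none _) ⟨trivial, hw'⟩ hτ (by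
      show τ ≤ 0 + 4 * ρ
      linarith) (Or.inl ⟨hlt, z, rfl, hz⟩) rfl
    rw [map_one, inv_one, one_mul] at h1 h2
    have h3 := Set.mul_mem_mul (Set.inv_mem_inv.2 h1) (Set.mul_mem_mul
      (Set.inv_mem_inv.2 (Set.mem_range_self (f := lt) t)) h2)
    rw [mul_inv_rev, mul_assoc]
    exact h3
  · refine Or.inl ?_
    have h1 := hcl.1 τ τ X Y hτ hle (by rw [sub_self, abs_zero]) hX hY
    have e1 : (lt t * X.2.val)⁻¹ * (W.cons t 1 Y.2).val =
        (ι (org (rev t)) 1 * X.2.val)⁻¹ * Y.2.val := by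
      rw [W.val_cons, map_one, map_one, one_mul, one_mul]
      group
    rw [e1]
    exact h1

end Run7.h230
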