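import Pool.Agent.Run7.h230.TreeE

set_option autoImplicit false

/-! Tree level, part F: typed normal forms, dichotomies. -/

namespace Run7.h230

open LPiece Pointwise

variable {𝒢 : GraphOfGroups} {J : Type} [Fintype J] {P : Pcs 𝒢 J}

/-- the untyped word -/
def W.toL : {i j : 𝒢.V} → W 𝒢 i j → List (UGroup 𝒢 × OE 𝒢) × UGroup 𝒢
  | i, _, .nil g => ([], ι i g)
  | _, _, .cons t x w => ((ι (org t) x, t) :: w.toL.1, w.toL.2)

theorem W.valid {i j : 𝒢.V} (w : W 𝒢 i j) : Valid i w.toL.1 w.toL.2 j := by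
  induction w with
  | nil g => exact ⟨rfl, ⟨g, rfl⟩⟩
  | cons t x w ih => exact ⟨rfl, ⟨x, rfl⟩, ih⟩

theorem W.val_toL {i j : 𝒢.V} (w : W 𝒢 i j) : Run7.h230.val w.toL.1 w.toL.2 = w.val := by
  induction w with
  | nil g => rfl
  | cons t x w ih =>
    show ι (org t) x * lt t * Run7.h230.val w.toL.1 w.toL.2 = ι (org t) x * lt t * w.val
    rw [ih]

theorem exists_typed (L : List (UGroup 𝒢 × OE 𝒢)) : ∀ (i j : 𝒢.V) (g : UGroup 𝒢),
    Valid i L g j → ∃ w : W 𝒢 i j, w.toL = (L, g) := by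
  induction L with
  | nil =>
    rintro i j g ⟨rfl, g', rfl⟩
    exact ⟨.nil g', rfl⟩
  | cons p L ih =>
    rintro i j g ⟨h1, h2, h3⟩
    obtain ⟨w, hw⟩ := ih _ _ _ h3
    rcases p with ⟨x, t⟩
    have h1' : org t = i := h1
    subst h1'
    obtain ⟨x', hx'⟩ := h2
    refine ⟨.cons t x' w, ?_⟩
    show ((ι (org t) x', t) :: w.toL.1, w.toL.2) = ((x, t) :: L, g)
    rw [hw, hx']

theorem EG_eq (s : OE 𝒢) : EG s = ((ι (org s)).comp (fo s)).range := by
  rcases s with ⟨e, _ | _⟩ <;> rfl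

theorem mem_EG (hT : TreeGood P) (hι : ∀ v, Function.Injective (ι (𝒢 := 𝒢) v)) {i : 𝒢.V}
    (e : {s : OE 𝒢 // org s = i}) (x : 𝒢.G i) : ι i x ∈ EG e.1 ↔ x ∈ (P i).A e := by
  obtain ⟨s, rfl⟩ := e
  rw [EG_eq, hT.A_eq s]
  constructor
  · rintro ⟨h, hh⟩
    exact ⟨h, hι _ hh⟩
  · rintro ⟨h, rfl⟩
    exact ⟨h, rfl⟩

/-- condition at the beginning of a list -/
def RFrom (s : OE 𝒢) : List (UGroup 𝒢 × OE 𝒢) → Prop
  | [] => True
  | q :: _ => ¬ (q.2 = s ∧ q.1 ∈ EG s)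

theorem red_cons (p : UGroup 𝒢 × OE 𝒢) (L : List (UGroup 𝒢 × OE 𝒢)) :
    Red (p :: L) ↔ RFrom (rev p.2) L ∧ Red L := by
  cases L with
  | nil => exact ⟨fun _ => ⟨trivial, trivial⟩, fun _ => trivial⟩
  | cons q L => exact Iff.rfl

theorem rfrom_iff (hT : TreeGood P) (hι : ∀ v, Function.Injective (ι (𝒢 := 𝒢) v)) {i j : 𝒢.V}
    (w : W 𝒢 i j) (e : {s : OE 𝒢 // org s = i}) :
    RedW P w (some e) ↔ RFrom e.1 w.toL.1 ∧ RedW P w none := by
  cases w with
  | nil g => exact ⟨fun _ => ⟨trivial, trivial⟩, fun _ => trivial⟩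
  | cons t x w =>
    show ((P (org t)).NP e ⟨t, rfl⟩ x ∧ RedW P w (some ⟨rev t, rfl⟩)) ↔
      ¬ (t = e.1 ∧ ι (org t) x ∈ EG e.1) ∧ (True ∧ RedW P w (some ⟨rev t, rfl⟩))
    rw [mem_EG hT hι]
    constructor
    · rintro ⟨h1, h2⟩
      refine ⟨?_, trivial, h2⟩
      rintro ⟨h3, h4⟩
      exact h1 ⟨Subtype.ext h3.symm, h4⟩
    · rintro ⟨h1, -, h2⟩
      refine ⟨?_, h2⟩
      rintro ⟨h3, h4⟩
      exact h1 ⟨(congrArg Subtype.val h3).symm, h4⟩

theorem red_iff (hT : TreeGood P) (hι : ∀ v, Function.Injective (ι (𝒢 := 𝒢) v)) {i j : 𝒢.V}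
    (w : W 𝒢 i j) : RedW P w none ↔ Red w.toL.1 := by
  induction w with
  | nil g => exact ⟨fun _ => trivial, fun _ => trivial⟩
  | cons t x w ih =>
    show (True ∧ RedW P w (some ⟨rev t, rfl⟩)) ↔ Red ((ι (org t) x, t) :: w.toL.1)
    rw [red_cons, rfrom_iff hT hι, ih]
    exact ⟨fun h => ⟨h.2.1, h.2.2⟩, fun h => ⟨trivial, h.1, h.2⟩⟩

theorem sh_typed (hι : ∀ v, Function.Injective (ι (𝒢 := 𝒢) v)) {i j : 𝒢.V} (w : W 𝒢 i j) :
    ∀ {i' : 𝒢.V} (w' : W 𝒢 i' j) (hi : i' = i) (c : 𝒢.G i),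
    Sh (ι i c) w.toL.1 w.toL.2 w'.toL.1 w'.toL.2 → ShW c w (hi ▸ w') := by
  induction w with
  | @nil i g =>
    intro i' w' hi c h
    cases w' with
    | nil g' =>
      have h1 : ι i g' = ι i c * ι i g := h
      rw [← map_mul] at h1
      have h2 := hι _ h1
      subst h2
      exact ShW.nil c g
    | cons t' x' w'' => exact h.elim
  | cons t x w ih =>
    intro i' w' hi c h
    cases w' with
    | nil g' => exact h.elim
    | cons t' x' w'' =>
      obtain ⟨h1, a, ha, h2, h3⟩ := h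
      have h1' : t = t' := h1
      subst h1'
      rw [EG_eq] at ha
      obtain ⟨a₀, rfl⟩ := ha
      have h2' : ι (org t) x' = ι (org t) (c * x * fo t a₀) := by
        rw [map_mul, map_mul]; exact h2
      have h2'' := hι _ h2'
      subst h2''
      have h4 : (lt t)⁻¹ * (ι (org t) (fo t a₀))⁻¹ * lt t = ι (org (rev t)) (fr t a₀⁻¹) := by
        rw [← map_inv, ← map_inv, mul_assoc, cross, inv_mul_cancel_left]
      have h3' : Sh ((lt t)⁻¹ * (ι (org t) (fo t a₀))⁻¹ * lt t) w.toL.1 w.toL.2 w''.toL.1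
        w''.toL.2 := h3
      rw [h4] at h3'
      exact ShW.cons t c x a₀ w w'' (ih w'' rfl _ h3')

/-- normal forms exist -/
theorem nf_exists (hB : TaskB) (hf : ∀ e, Function.Injective (𝒢.f e))
    (hf' : ∀ e, Function.Injective (𝒢.f' e)) (hT : TreeGood P) {i j : 𝒢.V} {x : UGroup 𝒢}
    (hx : PathElt i j x) : ∃ w : W 𝒢 i j, RedW P w none ∧ w.val = x := by
  obtain ⟨h1, h2, -⟩ := hB 𝒢 hf hf'
  obtain ⟨L, g, hL, hR, hv⟩ := h2 i j x hx
  obtain ⟨w, hw⟩ := exists_typed L i j g hL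
  refine ⟨w, ?_, ?_⟩
  · rw [red_iff hT h1, hw]; exact hR
  · rw [← w.val_toL, hw]; exact hv

/-- normal forms are unique up to shifts -/
theorem nf_unique (hB : TaskB) (hf : ∀ e, Function.Injective (𝒢.f e))
    (hf' : ∀ e, Function.Injective (𝒢.f' e)) (hT : TreeGood P) {i j : 𝒢.V} (w w' : W 𝒢 i j)
    (hw : RedW P w none) (hw' : RedW P w' none) (h : w.val = w'.val) : ShW 1 w w' := by
  obtain ⟨h1, -, h3⟩ := hB 𝒢 hf hf'
  have h4 := h3 i j w.toL.1 w'.toL.1 w.toL.2 w'.toL.2 w.valid w'.valid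
    ((red_iff hT h1 w).1 hw) ((red_iff hT h1 w').1 hw') (by rw [w.val_toL, w'.val_toL, h])
  rw [← map_one (ι i)] at h4
  exact sh_typed h1 w w' rfl 1 h4

/-- multiply the first element -/
def W.mulStart : {i j : 𝒢.V} → W 𝒢 i j → 𝒢.G i → W 𝒢 i j
  | _, _, .nil g, c => .nil (c * g)
  | _, _, .cons t x w, c => .cons t (c * x) w

theorem W.val_mulStart {i j : 𝒢.V} (w : W 𝒢 i j) (c : 𝒢.G i) :
    (w.mulStart c).val = ι i c * w.val := by
  cases w with
  | nil g => exact map_mul _ _ _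
  | cons t x w =>
    show ι (org t) (c * x) * lt t * w.val = ι (org t) c * (ι (org t) x * lt t * w.val)
    rw [map_mul]
    simp only [mul_assoc]

theorem W.sh_mulStart {i j : 𝒢.V} (w : W 𝒢 i j) (c : 𝒢.G i) : ShW c w (w.mulStart c) := by
  cases w with
  | nil g => exact ShW.nil c g
  | cons t x w =>
    have h := ShW.cons t c x 1 w w (by rw [inv_one, map_one]; exact ShW.refl w)
    rw [map_one, mul_one] at h
    exact h

theorem red_mulStart {i j : 𝒢.V} (w : W 𝒢 i j) (c : 𝒢.G i) (h : RedW P w none) :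
    RedW P (w.mulStart c) none := by
  cases w with
  | nil g => trivial
  | cons t x w => exact h

theorem red_mulStart' {i j : 𝒢.V} (w : W 𝒢 i j) (c : 𝒢.G i) (e : {s : OE 𝒢 // org s = i})
    (hc : c ∈ (P i).A e) (h : RedW P w (some e)) : RedW P (w.mulStart c) (some e) := by
  cases w with
  | nil g => trivial
  | cons t x w =>
    refine ⟨?_, h.2⟩
    rintro ⟨h1, h2⟩
    exact h.1 ⟨h1, ((P (org t)).A e).mul_mem_cancel_left hc |>.1 h2⟩

theorem sh_red (hT : TreeGood P) {i j : 𝒢.V} (c : 𝒢.G i) (w w' : W 𝒢 i j) (h : ShW c w w')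
    (hw' : RedW P w' none) (e : {s : OE 𝒢 // org s = i})
    (hc : c ∈ (P i).A e) (hR : RedW P w (some e)) : RedW P w' (some e) := by
  cases h with
  | nil c g => trivial
  | cons t c x a w w' h =>
    refine ⟨?_, hw'.2⟩
    rintro ⟨h1, h2⟩
    apply hR.1
    refine ⟨h1, ?_⟩
    subst h1
    rw [Subgroup.mul_mem_cancel_right _ (fo_mem hT t a), Subgroup.mul_mem_cancel_left _ hc] at h2
    exact h2

/-- a word which is reduced, but not reduced behind the edge `e`, starts with `e` -/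
theorem not_red {i j : 𝒢.V} (hT : TreeGood P) (w : W 𝒢 i j) (e : {s : OE 𝒢 // org s = i})
    (hw : RedW P w none) (hne : ¬ RedW P w (some e)) :
    ∃ (a : 𝒢.H e.1.1) (w₁ : W 𝒢 (org (rev e.1)) j), RedW P w₁ (some ⟨rev e.1, rfl⟩) ∧
      w.val = ι (org e.1) (fo e.1 a) * lt e.1 * w₁.val := by
  cases w with
  | nil g => exact (hne trivial).elim
  | cons t x w =>
    have h1 : ¬ (P (org t)).NP e ⟨t, rfl⟩ x := fun h => hne ⟨h, hw.2⟩
    have h2 : e = ⟨t, rfl⟩ ∧ x ∈ (P (org t)).A e := by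
      by_contra h3; exact h1 h3
    obtain ⟨h3, h4⟩ := h2
    subst h3
    rw [hT.A_eq t] at h4
    obtain ⟨a, rfl⟩ := h4
    exact ⟨a, w, hw.2, rfl⟩

/-- adding a letter at the end -/
theorem end_dich (hT : TreeGood P) {i j : 𝒢.V} (w : W 𝒢 i j) :
    ∀ (e : Option {s : OE 𝒢 // org s = i}) (t : OE 𝒢), org t = j → RedW P w e →
    (∃ w₁ : W 𝒢 i (org (rev t)), ER w w₁ ∧ RedW P w₁ e ∧ w₁.val = w.val * lt t) ∨
    (∃ (w₁ : W 𝒢 i (org (rev t))) (w₂ : W 𝒢 i j), ER w₁ w₂ ∧ RedW P w₁ e ∧ RedW P w₂ e ∧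
      w₂.val = w.val ∧ w₁.val = w.val * lt t) ∨
    (∃ (e₀ : {s : OE 𝒢 // org s = i}) (a : 𝒢.H t.1), e = some e₀ ∧ e₀.1 = t ∧
      w.val = ι (org t) (fo t a)) := by
  induction w with
  | nil g =>
    intro e t ht _
    subst ht
    by_cases hNP : NPo P e ⟨t, rfl⟩ g
    · refine Or.inl ⟨.cons t g (.nil 1), ER.letter t g, ⟨hNP, trivial⟩, ?_⟩
      rw [W.val_cons, W.val_nil, W.val_nil, map_one, mul_one]
    · refine Or.inr (Or.inr ?_)
      rcases e with _ | e₀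
      · exact (hNP trivial).elim
      · have h2 : e₀ = ⟨t, rfl⟩ ∧ g ∈ (P (org t)).A e₀ := by
          by_contra h3; exact hNP h3
        obtain ⟨h3, h4⟩ := h2
        subst h3
        rw [hT.A_eq t] at h4
        obtain ⟨a, rfl⟩ := h4
        exact ⟨_, a, rfl, rfl, rfl⟩
  | cons s x w ih =>
    intro e t ht hR
    rcases ih (some ⟨rev s, rfl⟩) t ht hR.2 with ⟨w₁, h1, h2, h3⟩ | ⟨w₁, w₂, h1, h2, h3, h4, h5⟩ |
      ⟨e₀, a, h1, h2, h3⟩
    · refine Or.inl ⟨.cons s x w₁, ER.cons s x w w₁ h1, ⟨hR.1, h2⟩, ?_⟩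
      rw [W.val_cons, W.val_cons, h3]; simp only [mul_assoc]
    · refine Or.inr (Or.inl ⟨.cons s x w₁, .cons s x w₂, ER.cons s x w₁ w₂ h1, ⟨hR.1, h2⟩,
        ⟨hR.1, h3⟩, ?_, ?_⟩)
      · rw [W.val_cons, W.val_cons, h4]
      · rw [W.val_cons, W.val_cons, h5]; simp only [mul_assoc]
    · refine Or.inr (Or.inl ?_)
      have h1' := Option.some.inj h1
      subst h1'
      have h2' : rev s = t := h2
      subst h2'
      subst ht
      have key : ∀ (b : 𝒢.H s.1), ι (org s) (x * fo s b) * lt s =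
          ι (org s) x * lt s * ι (org (rev s)) (fr s b) := by
        intro b
        rw [map_mul, mul_assoc, cross]; simp only [mul_assoc]
      have hNP : ∀ (b : 𝒢.H s.1), NPo P e ⟨s, rfl⟩ (x * fo s b) := by
        intro b
        rcases e with _ | e₁
        · trivial
        · rintro ⟨h4, h5⟩
          apply hR.1
          refine ⟨h4, ?_⟩
          subst h4
          rwa [Subgroup.mul_mem_cancel_right _ (fo_mem hT s b)] at h5
      rcases s with ⟨s, _ | _⟩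
      · refine ⟨.nil (x * fo (s, false) a), .cons (s, false) (x * fo (s, false) a) (.nil 1),
          ER.letter _ _, trivial, ⟨hNP a, trivial⟩, ?_, ?_⟩
        · rw [W.val_cons, W.val_cons, W.val_nil, map_one, mul_one, key, h3]
          rfl
        · have h6 := key a
          have h7 : lt (rev ((s, false) : OE 𝒢)) = (lt ((s, false) : OE 𝒢))⁻¹ := lt_rev _
          show ι (org ((s, false) : OE 𝒢)) (x * fo (s, false) a) =
            ι (org ((s, false) : OE 𝒢)) x * lt (s, false) * w.val * lt (rev (s, false))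
          rw [h3, h7, eq_mul_inv_iff_mul_eq]
          exact h6
      · refine ⟨.nil (x * fo (s, true) a), .cons (s, true) (x * fo (s, true) a) (.nil 1),
          ER.letter _ _, trivial, ⟨hNP a, trivial⟩, ?_, ?_⟩
        · rw [W.val_cons, W.val_cons, W.val_nil, map_one, mul_one, key, h3]
          rfl
        · have h6 := key a
          have h7 : lt (rev ((s, true) : OE 𝒢)) = (lt ((s, true) : OE 𝒢))⁻¹ := lt_rev _
          show ι (org ((s, true) : OE 𝒢)) (x * fo (s, true) a) =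
            ι (org ((s, true) : OE 𝒢)) x * lt (s, true) * w.val * lt (rev (s, true))
          rw [h3, h7, eq_mul_inv_iff_mul_eq]
          exact h6

end Run7.h230
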