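import Pool.Agent.Run7.h230.TreeF

set_option autoImplicit false

/-! Tree level, part G: the fundamental group is semihyperbolic. -/

namespace Run7.h230

open LPiece Pointwise

variable {𝒢 : GraphOfGroups} {J : Type} [Fintype J] {P : Pcs 𝒢 J}

theorem Cls.trans (hT : TreeGood P) {ρ : ℝ} (hρ : ∀ v, (P v).K ≤ ρ) {F F' : Set (UGroup 𝒢)}
    {D D' : ℝ} {i j j' j'' : 𝒢.V} {E : Option ({s : OE 𝒢 // org s = i} × Sta J)} {w : W 𝒢 i j}
    {w' : W 𝒢 i j'} {w'' : W 𝒢 i j''} (hOK : OKE P E) (hw' : RedW P w' (E.map Prod.fst))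
    (h : Cls P ρ 0 F D E E 1 w w') (h' : Cls P ρ 0 F' D' E E 1 w' w'') :
    Cls P ρ 0 (F * F') (D + D') E E 1 w w'' := by
  refine ⟨?_, ?_⟩
  · intro τ τ' X X' hτ hτ' hττ hX hX'
    have h0 : |τ - τ'| = 0 := le_antisymm hττ (abs_nonneg _)
    have h1 : τ = τ' := by linarith [abs_eq_zero.1 h0]
    subst h1
    obtain ⟨Y, hY⟩ := pos_ex hT hρ w' E τ hOK hw'
    have h2 := Set.mul_mem_mul (h.1 τ τ X Y hτ hτ hττ hX hY) (h'.1 τ τ Y X' hτ hτ hττ hY hX')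
    rw [map_one, one_mul, one_mul] at h2
    rw [map_one, one_mul]
    rwa [show X.2.val⁻¹ * Y.2.val * (Y.2.val⁻¹ * X'.2.val) = X.2.val⁻¹ * X'.2.val by group] at h2
  · have h1 := abs_add_le (DW P w E - DW P w' E) (DW P w' E - DW P w'' E)
    rw [sub_add_sub_cancel] at h1
    exact h1.trans (add_le_add h.2 h'.2)

theorem Cls.symm {ρ : ℝ} {F : Set (UGroup 𝒢)}
    {D : ℝ} {i j j' : 𝒢.V} {E : Option ({s : OE 𝒢 // org s = i} × Sta J)} {w : W 𝒢 i j}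
    {w' : W 𝒢 i j'} (h : Cls P ρ 0 F D E E 1 w w') :
    Cls P ρ 0 F⁻¹ D E E 1 w' w := by
  refine ⟨?_, ?_⟩
  · intro τ τ' X X' hτ hτ' hττ hX hX'
    have h1 := Set.inv_mem_inv.2 (h.1 τ' τ X' X hτ' hτ (by rwa [abs_sub_comm]) hX' hX)
    rw [map_one, one_mul, mul_inv_rev, inv_inv] at h1
    rwa [map_one, one_mul]
  · rw [abs_sub_comm]; exact h.2

/-- right multiplication by a path element -/
theorem right_close (hB : TaskB) (hf : ∀ e, Function.Injective (𝒢.f e))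
    (hf' : ∀ e, Function.Injective (𝒢.f' e)) (hT : TreeGood P) [Finite 𝒢.V] [Finite 𝒢.E]
    {ρ : ℝ} (hρ : ∀ v, (P v).K ≤ ρ) (hρ0 : 0 ≤ ρ) {j j' : 𝒢.V} {s : UGroup 𝒢}
    (hs : PathElt j j' s) : ∃ (F : Set (UGroup 𝒢)) (D : ℝ), F.Finite ∧
    ∀ {i : 𝒢.V} (w : W 𝒢 i j) (w' : W 𝒢 i j'), RedW P w none → RedW P w' none →
      w'.val = w.val * s → Cls P ρ 0 F D none none 1 w w' := by
  obtain ⟨F₁, D₁, hF₁, mn⟩ := main_none hT hρ hρ0 0 ρ le_rfl hρ0
  have shift : ∀ {i j : 𝒢.V} (w w' : W 𝒢 i j), RedW P w none → RedW P w' none →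
      w.val = w'.val → Cls P ρ 0 F₁ D₁ none none 1 w w' := by
    intro i j w w' h1 h2 h3
    exact mn 1 w w' (nf_unique hB hf hf' hT w w' h1 h2 h3) none
      (EC.mono (hρ i) (EC_refl (hT.good i) none)) (OKE.none i) h1 h2 h1
  have letter : ∀ t : OE 𝒢, ∃ (F : Set (UGroup 𝒢)) (D : ℝ), F.Finite ∧
      ∀ {i : 𝒢.V} (w : W 𝒢 i (org t)) (w' : W 𝒢 i (org (rev t))), RedW P w none →
        RedW P w' none → w'.val = w.val * lt t → Cls P ρ 0 F D none none 1 w w' := by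
    intro t
    obtain ⟨F₂, D₂, hF₂, el⟩ := end_letter hT hρ hρ0
    refine ⟨F₂ * F₁ ∪ F₁ * F₂⁻¹ * F₁, max (D₂ + D₁) (D₁ + D₂ + D₁),
      (hF₂.mul hF₁).union ((hF₁.mul hF₂.inv).mul hF₁), ?_⟩
    intro i w w' hw hw' hval
    rcases end_dich hT w none t rfl hw with ⟨w₁, h1, h2, h3⟩ | ⟨w₁, w₂, h1, h2, h3, h4, h5⟩ |
      ⟨e₀, a, h1, _⟩
    · have c := Cls.trans hT hρ (OKE.none i) h2 (el w w₁ h1 none (OKE.none i) hw h2)
        (shift w₁ w' h2 hw' (h3.trans hval.symm))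
      exact ⟨fun τ τ' X X' k1 k2 k3 k4 k5 => Or.inl (c.1 τ τ' X X' k1 k2 k3 k4 k5),
        c.2.trans (le_max_left _ _)⟩
    · have c := Cls.trans hT hρ (OKE.none i) h2 (Cls.trans hT hρ (OKE.none i) h3
        (shift w w₂ hw h3 h4.symm) (Cls.symm (el w₁ w₂ h1 none (OKE.none i) h2 h3)))
        (shift w₁ w' h2 hw' (h5.trans hval.symm))
      exact ⟨fun τ τ' X X' k1 k2 k3 k4 k5 => Or.inr (c.1 τ τ' X X' k1 k2 k3 k4 k5),
        c.2.trans (le_max_right _ _)⟩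
    · cases h1
  induction hs with
  | vertex v g =>
    obtain ⟨F₂, D₂, hF₂, ev⟩ := end_vertex hT hρ hρ0 g
    refine ⟨F₂ * F₁, D₂ + D₁, hF₂.mul hF₁, ?_⟩
    intro i w w' hw hw' hval
    have h1 := red_mulEnd w g _ hw
    exact Cls.trans hT hρ (OKE.none i) h1 (ev w none (OKE.none i) hw)
      (shift _ w' h1 hw' (by rw [W.val_mulEnd, hval]))
  | edge e => exact letter (e, true)
  | edgeInv e => exact letter (e, false)
  | trans u v w x y hx hy ihx ihy =>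
    obtain ⟨F₂, D₂, hF₂, h2⟩ := ihx
    obtain ⟨F₃, D₃, hF₃, h3⟩ := ihy
    refine ⟨F₂ * F₃, D₂ + D₃, hF₂.mul hF₃, ?_⟩
    intro i a b ha hb hval
    obtain ⟨c, hc, hcv⟩ := nf_exists hB hf hf' hT (PathElt.trans _ _ _ _ _ a.path hx)
    exact Cls.trans hT hρ (OKE.none i) hc (h2 a c ha hc hcv)
      (h3 c b hc hb (by rw [hval, hcv, mul_assoc]))

/-- left multiplication by a path element -/
theorem left_close (hB : TaskB) (hf : ∀ e, Function.Injective (𝒢.f e))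
    (hf' : ∀ e, Function.Injective (𝒢.f' e)) (hT : TreeGood P) [Finite 𝒢.V] [Finite 𝒢.E]
    {ρ : ℝ} (hρ : ∀ v, (P v).K ≤ ρ) (hρ0 : 0 ≤ ρ) {i' i : 𝒢.V} {s : UGroup 𝒢}
    (hs : PathElt i' i s) : ∃ F : Set (UGroup 𝒢), F.Finite ∧
    ∀ {j : 𝒢.V} (w : W 𝒢 i j) (w' : W 𝒢 i' j), RedW P w none → RedW P w' none →
      w'.val = s * w.val → ∀ (τ : ℝ) (X : Σ k, W 𝒢 i k) (X' : Σ k, W 𝒢 i' k), 0 ≤ τ →
      Pos P ρ w none τ X → Pos P ρ w' none τ X' → (s * X.2.val)⁻¹ * X'.2.val ∈ F := by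
  obtain ⟨F₁, D₁, hF₁, mn⟩ := main_none hT hρ hρ0 0 ρ le_rfl hρ0
  have shift : ∀ {i j : 𝒢.V} (w w' : W 𝒢 i j), RedW P w none → RedW P w' none →
      w.val = w'.val → ∀ (τ : ℝ) (X X' : Σ k, W 𝒢 i k), 0 ≤ τ → Pos P ρ w none τ X →
      Pos P ρ w' none τ X' → X.2.val⁻¹ * X'.2.val ∈ F₁ := by
    intro i j w w' h1 h2 h3 τ X X' hτ hX hX'
    have c := mn 1 w w' (nf_unique hB hf hf' hT w w' h1 h2 h3) none
      (EC.mono (hρ i) (EC_refl (hT.good i) none)) (OKE.none i) h1 h2 h1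
    have c1 := c.1 τ τ X X' hτ hτ (by rw [sub_self, abs_zero]) hX hX'
    rwa [map_one, one_mul] at c1
  obtain ⟨F₂, D₂, hF₂, sl⟩ := start_letter hT hρ hρ0
  have letter₁ : ∀ (t : OE 𝒢) {j : 𝒢.V} (w : W 𝒢 (org (rev t)) j) (w' : W 𝒢 (org t) j),
      RedW P w none → RedW P w' none → w'.val = lt t * w.val →
      RedW P w (some ⟨rev t, rfl⟩) →
      ∀ (τ : ℝ) (X : Σ k, W 𝒢 (org (rev t)) k) (X' : Σ k, W 𝒢 (org t) k), 0 ≤ τ →
      Pos P ρ w none τ X → Pos P ρ w' none τ X' → (lt t * X.2.val)⁻¹ * X'.2.val ∈ F₂ * F₁ := by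
    intro t j w w' hw hw' hval hR τ X X' hτ hX hX'
    have hc : RedW P (W.cons t 1 w) none := ⟨trivial, hR⟩
    obtain ⟨Y, hY⟩ := pos_ex hT hρ (W.cons t 1 w) none τ (OKE.none _) hc
    have h1 := (sl t w hw hR).1 τ X Y hτ hX hY
    have h2 := shift (W.cons t 1 w) w' hc hw' (by
      rw [W.val_cons, map_one, one_mul, hval]) τ Y X' hτ hY hX'
    have h3 := Set.mul_mem_mul h1 h2
    rwa [show (lt t * X.2.val)⁻¹ * Y.2.val * (Y.2.val⁻¹ * X'.2.val) =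
      (lt t * X.2.val)⁻¹ * X'.2.val by group] at h3
  have hBt := hB 𝒢 hf hf'
  have dich : ∀ (t : OE 𝒢) {j : 𝒢.V} (w : W 𝒢 (org (rev t)) j) (w' : W 𝒢 (org t) j)
      (e : {s : OE 𝒢 // org s = org t}), 
      RedW P w none → RedW P w' none → w'.val = lt t * w.val →
      (∀ (a : 𝒢.H (rev t).1) (w₁ : W 𝒢 (org (rev (rev t))) j),
        RedW P w₁ (some ⟨rev (rev t), rfl⟩) →
        w.val = ι (org (rev t)) (fo (rev t) a) * lt (rev t) * w₁.val →
        RedW P w' (some e)) →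
      RedW P w (some ⟨rev t, rfl⟩) ∨ RedW P w' (some e) := by
    intro t j w w' e hw hw' hval h
    by_cases hR : RedW P w (some ⟨rev t, rfl⟩)
    · exact Or.inl hR
    · obtain ⟨a, w₁, h1, h2⟩ := not_red hT w ⟨rev t, rfl⟩ hw hR
      exact Or.inr (h a w₁ h1 h2)
  induction hs with
  | vertex v g =>
    set rE := max ((P v).M g) ‖(P v).Φ g‖ with hrE
    obtain ⟨F₃, D₃, hF₃, mg⟩ := main_none hT hρ hρ0 0 rE le_rfl
      ((norm_nonneg _).trans (le_max_right _ _))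
    refine ⟨F₃ * F₁, hF₃.mul hF₁, ?_⟩
    intro j w w' hw hw' hval τ X X' hτ hX hX'
    have hr := red_mulStart w g hw
    obtain ⟨Y, hY⟩ := pos_ex hT hρ (w.mulStart g) none τ (OKE.none _) hr
    have h1 := (mg g w (w.mulStart g) (w.sh_mulStart g) none ⟨le_max_left _ _, le_max_right _ _⟩
      (OKE.none v) hw hr hw).1 τ τ X Y hτ hτ (by rw [sub_self, abs_zero]) hX hY
    have h2 := shift (w.mulStart g) w' hr hw' (by rw [W.val_mulStart, hval]) τ Y X' hτ hY hX'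
    have h3 := Set.mul_mem_mul h1 h2
    rwa [show (ι v g * X.2.val)⁻¹ * Y.2.val * (Y.2.val⁻¹ * X'.2.val) =
      (ι v g * X.2.val)⁻¹ * X'.2.val by group] at h3
  | edge e =>
    refine ⟨(F₂ * F₁) ∪ (F₁ * F₂⁻¹), (hF₂.mul hF₁).union (hF₁.mul hF₂.inv), ?_⟩
    intro j w w' hw hw' hval τ X X' hτ hX hX'
    rcases dich (e, true) w w' ⟨(e, true), rfl⟩ hw hw' hval (by
      intro a w₁ hw₁ hv
      have hm : (fo ((e, true) : OE 𝒢) a) ∈ (P (org ((e, true) : OE 𝒢))).A ⟨(e, true), rfl⟩ :=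
        fo_mem hT (e, true) a
      have hr := red_mulStart' w₁ (fo ((e, true) : OE 𝒢) a) ⟨(e, true), rfl⟩ hm hw₁
      have hr0 : RedW P (w₁.mulStart (fo ((e, true) : OE 𝒢) a)) none :=
        ((rfrom_iff hT hBt.1 _ _).1 hr).2
      refine sh_red hT 1 _ w' (nf_unique hB hf hf' hT _ w' hr0 hw' ?_) hw' _
        ((P _).A _).one_mem hr
      refine (W.val_mulStart _ _).trans ?_
      have hv' : w.val = ι (𝒢.src e) (𝒢.f e a) * (st e)⁻¹ * w₁.val := hv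
      have hval' : w'.val = st e * w.val := hval
      rw [hval', hv']
      show ι (𝒢.tgt e) (𝒢.f' e a) * w₁.val =
        st e * (ι (𝒢.src e) (𝒢.f e a) * (st e)⁻¹ * w₁.val)
      rw [← mul_assoc (st e), ← mul_assoc (st e), st_rel, mul_inv_cancel_right]) with hR | hR
    · exact Or.inl (letter₁ (e, true) w w' hw hw' hval hR τ X X' hτ hX hX')
    · refine Or.inr ?_
      have hval' : w.val = lt (e, false) * w'.val := by
        have hval0 : w'.val = st e * w.val := hval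
        rw [hval0]
        show w.val = (st e)⁻¹ * (st e * w.val)
        rw [inv_mul_cancel_left]
      have hc : RedW P (W.cons (e, false) 1 w') none := ⟨trivial, hR⟩
      obtain ⟨Y, hY⟩ := pos_ex hT hρ (W.cons (e, false) 1 w') none τ (OKE.none _) hc
      have h1 := (sl (e, false) w' hw' hR).1 τ X' Y hτ hX' hY
      have h2 := shift w (W.cons (e, false) 1 w') hw hc (by
        show w.val = ι _ 1 * lt (e, false) * w'.val
        rw [map_one, one_mul]; exact hval') τ X Y hτ hX hY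
      have e1 : X.2.val⁻¹ * Y.2.val * ((lt (e, false) * X'.2.val)⁻¹ * Y.2.val)⁻¹ =
          (st e * X.2.val)⁻¹ * X'.2.val := by
        show X.2.val⁻¹ * Y.2.val * (((st e)⁻¹ * X'.2.val)⁻¹ * Y.2.val)⁻¹ =
          (st e * X.2.val)⁻¹ * X'.2.val
        group
      have h3 : X.2.val⁻¹ * Y.2.val * ((lt (e, false) * X'.2.val)⁻¹ * Y.2.val)⁻¹ ∈ F₁ * F₂⁻¹ :=
        Set.mul_mem_mul h2 (Set.inv_mem_inv.2 h1)
      rw [e1] at h3
      exact h3
  | edgeInv e =>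
    refine ⟨(F₂ * F₁) ∪ (F₁ * F₂⁻¹), (hF₂.mul hF₁).union (hF₁.mul hF₂.inv), ?_⟩
    intro j w w' hw hw' hval τ X X' hτ hX hX'
    rcases dich (e, false) w w' ⟨(e, false), rfl⟩ hw hw' hval (by
      intro a w₁ hw₁ hv
      have hm : (fo ((e, false) : OE 𝒢) a) ∈ (P (org ((e, false) : OE 𝒢))).A ⟨(e, false), rfl⟩ :=
        fo_mem hT (e, false) a
      have hr := red_mulStart' w₁ (fo ((e, false) : OE 𝒢) a) ⟨(e, false), rfl⟩ hm hw₁
      have hr0 : RedW P (w₁.mulStart (fo ((e, false) : OE 𝒢) a)) none :=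
        ((rfrom_iff hT hBt.1 _ _).1 hr).2
      refine sh_red hT 1 _ w' (nf_unique hB hf hf' hT _ w' hr0 hw' ?_) hw' _
        ((P _).A _).one_mem hr
      refine (W.val_mulStart _ _).trans ?_
      have hv' : w.val = ι (𝒢.tgt e) (𝒢.f' e a) * st e * w₁.val := hv
      have hval' : w'.val = (st e)⁻¹ * w.val := hval
      rw [hval', hv']
      show ι (𝒢.src e) (𝒢.f e a) * w₁.val =
        (st e)⁻¹ * (ι (𝒢.tgt e) (𝒢.f' e a) * st e * w₁.val)
      rw [← st_rel, mul_assoc (st e), inv_mul_cancel_left]) with hR | hR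
    · exact Or.inl (letter₁ (e, false) w w' hw hw' hval hR τ X X' hτ hX hX')
    · refine Or.inr ?_
      have hval' : w.val = lt (e, true) * w'.val := by
        have hval0 : w'.val = (st e)⁻¹ * w.val := hval
        rw [hval0]
        show w.val = st e * ((st e)⁻¹ * w.val)
        rw [mul_inv_cancel_left]
      have hc : RedW P (W.cons (e, true) 1 w') none := ⟨trivial, hR⟩
      obtain ⟨Y, hY⟩ := pos_ex hT hρ (W.cons (e, true) 1 w') none τ (OKE.none _) hc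
      have h1 := (sl (e, true) w' hw' hR).1 τ X' Y hτ hX' hY
      have h2 := shift w (W.cons (e, true) 1 w') hw hc (by
        show w.val = ι _ 1 * lt (e, true) * w'.val
        rw [map_one, one_mul]; exact hval') τ X Y hτ hX hY
      have e1 : X.2.val⁻¹ * Y.2.val * ((lt (e, true) * X'.2.val)⁻¹ * Y.2.val)⁻¹ =
          ((st e)⁻¹ * X.2.val)⁻¹ * X'.2.val := by
        show X.2.val⁻¹ * Y.2.val * ((st e * X'.2.val)⁻¹ * Y.2.val)⁻¹ =
          ((st e)⁻¹ * X.2.val)⁻¹ * X'.2.val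
        group
      have h3 : X.2.val⁻¹ * Y.2.val * ((lt (e, true) * X'.2.val)⁻¹ * Y.2.val)⁻¹ ∈ F₁ * F₂⁻¹ :=
        Set.mul_mem_mul h2 (Set.inv_mem_inv.2 h1)
      rw [e1] at h3
      exact h3
  | trans u v w x y hx hy ihx ihy =>
    obtain ⟨F₃, hF₃, h2⟩ := ihx
    obtain ⟨F₄, hF₄, h3⟩ := ihy
    refine ⟨F₄ * F₃, hF₄.mul hF₃, ?_⟩
    intro j a b ha hb hval τ X X' hτ hX hX'
    obtain ⟨c, hc, hcv⟩ := nf_exists hB hf hf' hT (PathElt.trans _ _ _ _ _ hy a.path)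
    obtain ⟨Y, hY⟩ := pos_ex hT hρ c none τ (OKE.none _) hc
    have h4 := h3 a c ha hc hcv τ X Y hτ hX hY
    have h5 := h2 c b hc hb (by rw [hval, hcv, mul_assoc]) τ Y X' hτ hY hX'
    have h6 := Set.mul_mem_mul h4 h5
    rwa [show (y * X.2.val)⁻¹ * Y.2.val * ((x * Y.2.val)⁻¹ * X'.2.val) =
      (x * y * X.2.val)⁻¹ * X'.2.val by group] at h6

end Run7.h230
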