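import Pool.Agent.Run7.h230.TreeG

set_option autoImplicit false

/-! Tree level, part H: the main statement. -/

namespace Run7.h230

open LPiece Pointwise

variable {𝒢 : GraphOfGroups} {J : Type} [Fintype J] {P : Pcs 𝒢 J}

/-- late positions in the last slot -/
theorem LPiece.late {H E : Type} [Group H] {Q : LPiece H E J} (hQ : Q.Good) (r : ℝ) :
    ∃ C, 0 ≤ C ∧ ∀ (X : Option (E × Sta J)) (g z : H) (τ : ℝ), Ord X → Q.DE X g ≤ τ →
      hE X ≤ τ → Q.PosL r r X g τ z → Q.M (z⁻¹ * g) ≤ C ∧ ‖Q.Φ (z⁻¹ * g)‖ ≤ C := by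
  have hK := K_nonneg hQ
  obtain ⟨C1, hC1, de⟩ := DE_eq hQ r
  obtain ⟨C2, hC2, bl⟩ := b_late hQ C1
  refine ⟨|r| + C2 + (|r| + C1 + 3 * Q.K), by positivity, ?_⟩
  intro X g z τ hX hτ hτ' ⟨k, hk, hl⟩
  have hr := le_abs_self r
  have hr0 := abs_nonneg r
  have h1 := abs_le.1 (de X g k hX hk)
  have h2 := le_max_left (Q.d (k⁻¹ * g)) ‖Q.Φ g - aE X‖
  have h3 := le_max_right (Q.d (k⁻¹ * g)) ‖Q.Φ g - aE X‖
  constructor
  · have h4 := bl (k⁻¹ * g) (τ - hE X) (by linarith)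
    have h5 := M_tri hQ z (k * Q.b (k⁻¹ * g) (τ - hE X)) g
    have h6 : Q.M (z⁻¹ * (k * Q.b (k⁻¹ * g) (τ - hE X))) ≤ r := hl.1
    have h7 : Q.M ((k * Q.b (k⁻¹ * g) (τ - hE X))⁻¹ * g) ≤ C2 := by
      rw [show (k * Q.b (k⁻¹ * g) (τ - hE X))⁻¹ * g =
        (Q.b (k⁻¹ * g) (τ - hE X))⁻¹ * (k⁻¹ * g) by group]
      exact h4
    linarith
  · have h4 := Φ_div hQ z g
    have h5 : ‖Q.Φ z - go (aE X) (Q.Φ g) (τ - hE X)‖ ≤ r := hl.2
    have h6 : ‖Q.Φ g - go (aE X) (Q.Φ g) (τ - hE X)‖ ≤ C1 := by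
      rw [norm_sub_go _ _ (by linarith)]
      exact max_le (by linarith) hC1
    have e1 : Q.Φ (z⁻¹ * g) = (Q.Φ (z⁻¹ * g) - (Q.Φ g - Q.Φ z)) +
      (Q.Φ g - go (aE X) (Q.Φ g) (τ - hE X)) - (Q.Φ z - go (aE X) (Q.Φ g) (τ - hE X)) := by abel
    rw [e1]
    have m1 := norm_sub_le ((Q.Φ (z⁻¹ * g) - (Q.Φ g - Q.Φ z)) +
      (Q.Φ g - go (aE X) (Q.Φ g) (τ - hE X))) (Q.Φ z - go (aE X) (Q.Φ g) (τ - hE X))
    have m2 := norm_add_le (Q.Φ (z⁻¹ * g) - (Q.Φ g - Q.Φ z))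
      (Q.Φ g - go (aE X) (Q.Φ g) (τ - hE X))
    linarith

theorem pos_late (hT : TreeGood P) [Finite 𝒢.V] (ρ : ℝ) :
    ∃ F : Set (UGroup 𝒢), F.Finite ∧ ∀ {i j : 𝒢.V} (w : W 𝒢 i j)
    (E : Option ({s : OE 𝒢 // org s = i} × Sta J)) (τ : ℝ) (X : Σ k, W 𝒢 i k), OKE P E →
      RedW P w (E.map Prod.fst) → hE E ≤ τ → DW P w E ≤ τ → Pos P ρ w E τ X →
      X.2.val⁻¹ * w.val ∈ F := by
  choose C hC h using fun v => LPiece.late (hT.good v) ρ
  refine ⟨ballU P C, ballU_finite hT C, ?_⟩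
  intro i j w
  induction w with
  | nil g =>
    rintro E τ X hOK _ hτ hD ⟨z, rfl, hz⟩
    have h1 := h _ E g z τ hOK.1 hD hτ hz
    rw [W.val_nil, W.val_nil, ← map_inv, ← map_mul]
    exact mem_ballU h1
  | cons t x w ih =>
    rintro E τ X hOK hR hτ hD (⟨hlt, z, rfl, hz⟩ | ⟨hle, X', rfl, hX'⟩)
    · exfalso
      have q2 : ((P (org t)).nxt E ⟨t, rfl⟩ x).h ≤ DW P (W.cons t x w) E :=
        DW_ge hT w (NXT P t E x) hR.2
      linarith
    · have h1 := ih (NXT P t E x) τ X' (hOK.next hT t (NPE_of hR.1)) hR.2 hle hD hX'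
      rw [W.val_cons, W.val_cons]
      rwa [show (ι (org t) x * lt t * X'.2.val)⁻¹ * (ι (org t) x * lt t * w.val) =
        X'.2.val⁻¹ * w.val by group]

/-- Main statement of the tree level. -/
theorem tree_semihyperbolic (hA : TaskA) (hB : TaskB) (hf : ∀ e, Function.Injective (𝒢.f e))
    (hf' : ∀ e, Function.Injective (𝒢.f' e)) (hT : TreeGood P) [Finite 𝒢.V] [Finite 𝒢.E]
    (v0 : 𝒢.V) (hne : ∃ a : pi1 𝒢 v0, a * a ≠ 1) : Semihyperbolic (pi1 𝒢 v0) := by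
  have := Fintype.ofFinite 𝒢.V
  set ρ : ℝ := ∑ v, (P v).K with hρdef
  have hρ : ∀ v, (P v).K ≤ ρ := le_unif (fun v => K_nonneg (hT.good v))
  have hρ0 : 0 ≤ ρ := Finset.sum_nonneg fun v _ => K_nonneg (hT.good v)
  -- words
  choose wd hwd hval using fun g : pi1 𝒢 v0 => nf_exists (P := P) hB hf hf' hT g.2
  -- positions
  choose X hX using fun (g : pi1 𝒢 v0) (t : ℕ) =>
    pos_ex hT hρ (wd g) none (t : ℝ) (OKE.none v0) (hwd g)
  -- paths back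
  have hcv : ∀ k : 𝒢.V, ∃ y : UGroup 𝒢, (∃ x, PathElt v0 k x) → PathElt k v0 y := by
    intro k
    by_cases h : ∃ x, PathElt v0 k x
    · obtain ⟨x, hx⟩ := h
      exact ⟨x⁻¹, fun _ => hx.inv⟩
    · exact ⟨1, fun h' => (h h').elim⟩
  choose cv hcv using hcv
  have hcvX : ∀ g t, PathElt v0 v0 ((X g t).2.val * cv (X g t).1) := fun g t =>
    PathElt.trans _ _ _ _ _ (X g t).2.path (hcv _ ⟨_, (X g t).2.path⟩)
  set σ : pi1 𝒢 v0 → ℕ → pi1 𝒢 v0 := fun g t => ⟨(X g t).2.val * cv (X g t).1, hcvX g t⟩ with hσ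
  set CV : Set (UGroup 𝒢) := Set.range cv with hCV
  have hCVf : CV.Finite := Set.finite_range _
  have pre : ∀ F : Set (UGroup 𝒢), F.Finite →
      ((fun y : pi1 𝒢 v0 => (y : UGroup 𝒢)) ⁻¹' F).Finite := fun F hF =>
    hF.preimage Subtype.coe_injective.injOn
  obtain ⟨F1, hF1, sn⟩ := start_near hT hρ 0
  obtain ⟨F2, hF2, pl⟩ := pos_late hT ρ
  obtain ⟨F3, D3, hF3, mn⟩ := main_none hT hρ hρ0 1 ρ zero_le_one hρ0
  obtain ⟨C4, hC4, pd⟩ := pos_D hT ρ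
  refine hA (pi1 𝒢 v0) hne σ (fun g => DW P (wd g) none)
    ((fun y : pi1 𝒢 v0 => (y : UGroup 𝒢)) ⁻¹' (F1 * CV ∪ (CV⁻¹ * F2 ∪ CV⁻¹ * F3 * CV)))
    (pre _ ((hF1.mul hCVf).union ((hCVf.inv.mul hF2).union ((hCVf.inv.mul hF3).mul hCVf))))
    ?_ ?_ ?_ ?_ ?_ ?_ ?_
  · -- start
    intro g
    refine Or.inl ?_
    have h1 := sn (wd g) none ((0 : ℕ) : ℝ) (X g 0) 1 (OKE.none v0) (hwd g)
      (by show (0 : ℝ) ≤ ((0 : ℕ) : ℝ); simp) (by show ((0 : ℕ) : ℝ) ≤ 0 + 0; simp) (hX g 0) rfl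
    rw [map_one, inv_one, one_mul] at h1
    exact Set.mul_mem_mul h1 (Set.mem_range_self _)
  · -- end
    intro g t ht
    refine Or.inr (Or.inl ?_)
    have h1 := pl (wd g) none (t : ℝ) (X g t) (OKE.none v0) (hwd g) (Nat.cast_nonneg t) ht (hX g t)
    show ((X g t).2.val * cv (X g t).1)⁻¹ * (g : UGroup 𝒢) ∈ _
    rw [hval g] at h1
    rw [mul_inv_rev, mul_assoc]
    exact Set.mul_mem_mul (Set.inv_mem_inv.2 (Set.mem_range_self _)) h1
  · -- continuity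
    intro g t
    refine Or.inr (Or.inr ?_)
    have h1 := (mn 1 (wd g) (wd g) (ShW.refl _) none
      (EC.mono (hρ v0) (EC_refl (hT.good v0) none)) (OKE.none v0) (hwd g) (hwd g) (hwd g)).1
      (t : ℝ) ((t + 1 : ℕ) : ℝ) (X g t) (X g (t + 1)) (Nat.cast_nonneg t)
      (Nat.cast_nonneg _) (by push_cast; rw [sub_add_cancel_left, abs_neg, abs_one])
      (hX g t) (hX g (t + 1))
    rw [map_one, one_mul] at h1
    show ((X g t).2.val * cv (X g t).1)⁻¹ * ((X g (t + 1)).2.val * cv (X g (t + 1)).1) ∈ _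
    have h2 := Set.mul_mem_mul (Set.mul_mem_mul
      (Set.inv_mem_inv.2 (Set.mem_range_self (f := cv) (X g t).1)) h1)
      (Set.mem_range_self (f := cv) (X g (t + 1)).1)
    rwa [show (cv (X g t).1)⁻¹ * ((X g t).2.val⁻¹ * (X g (t + 1)).2.val) *
      cv (X g (t + 1)).1 = ((X g t).2.val * cv (X g t).1)⁻¹ *
        ((X g (t + 1)).2.val * cv (X g (t + 1)).1) by group] at h2
  · -- right multiplication
    intro s
    obtain ⟨F, D, hF, rc⟩ := right_close hB hf hf' hT hρ hρ0 s.2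
    refine ⟨_, pre (CV⁻¹ * F * CV) ((hCVf.inv.mul hF).mul hCVf), ?_⟩
    intro g t
    have h1 := (rc (wd g) (wd (g * s)) (hwd g) (hwd (g * s)) (by rw [hval, hval]; rfl)).1
      (t : ℝ) (t : ℝ) (X g t) (X (g * s) t) (Nat.cast_nonneg t) (Nat.cast_nonneg t)
      (by rw [sub_self, abs_zero]) (hX g t) (hX (g * s) t)
    rw [map_one, one_mul] at h1
    show ((X g t).2.val * cv (X g t).1)⁻¹ * ((X (g * s) t).2.val * cv (X (g * s) t).1) ∈
      CV⁻¹ * F * CV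
    have h2 := Set.mul_mem_mul (Set.mul_mem_mul
      (Set.inv_mem_inv.2 (Set.mem_range_self (f := cv) (X g t).1)) h1)
      (Set.mem_range_self (f := cv) (X (g * s) t).1)
    rwa [show (cv (X g t).1)⁻¹ * ((X g t).2.val⁻¹ * (X (g * s) t).2.val) *
      cv (X (g * s) t).1 = ((X g t).2.val * cv (X g t).1)⁻¹ *
        ((X (g * s) t).2.val * cv (X (g * s) t).1) by group] at h2
  · -- left multiplication
    intro s
    obtain ⟨F, hF, lc⟩ := left_close hB hf hf' hT hρ hρ0 s.2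
    refine ⟨_, pre (CV⁻¹ * F * CV) ((hCVf.inv.mul hF).mul hCVf), ?_⟩
    intro g t
    have h1 := lc (wd g) (wd (s * g)) (hwd g) (hwd (s * g)) (by rw [hval, hval]; rfl)
      (t : ℝ) (X g t) (X (s * g) t) (Nat.cast_nonneg t) (hX g t) (hX (s * g) t)
    show ((s : UGroup 𝒢) * ((X g t).2.val * cv (X g t).1))⁻¹ *
      ((X (s * g) t).2.val * cv (X (s * g) t).1) ∈ CV⁻¹ * F * CV
    have h2 := Set.mul_mem_mul (Set.mul_mem_mul
      (Set.inv_mem_inv.2 (Set.mem_range_self (f := cv) (X g t).1)) h1)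
      (Set.mem_range_self (f := cv) (X (s * g) t).1)
    rwa [show (cv (X g t).1)⁻¹ * (((s : UGroup 𝒢) * (X g t).2.val)⁻¹ * (X (s * g) t).2.val) *
      cv (X (s * g) t).1 = ((s : UGroup 𝒢) * ((X g t).2.val * cv (X g t).1))⁻¹ *
        ((X (s * g) t).2.val * cv (X (s * g) t).1) by group] at h2
  · -- durations
    intro s
    obtain ⟨F, D, hF, rc⟩ := right_close hB hf hf' hT hρ hρ0 s.2
    refine ⟨D, ?_⟩
    intro g
    have h1 := (rc (wd g) (wd (g * s)) (hwd g) (hwd (g * s)) (by rw [hval, hval]; rfl)).2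
    rwa [abs_sub_comm] at h1
  · -- durations of positions
    have h1 : ∀ k : 𝒢.V, ∃ D : ℝ, 0 ≤ D ∧ (∀ (g : pi1 𝒢 v0) (w : W 𝒢 v0 k), RedW P w none →
        (g : UGroup 𝒢) = w.val * cv k → |DW P w none - DW P (wd g) none| ≤ D) := by
      intro k
      by_cases h : ∃ x, PathElt v0 k x
      · obtain ⟨F, D, hF, rc⟩ := right_close hB hf hf' hT hρ hρ0 (hcv k h)
        refine ⟨|D|, abs_nonneg D, ?_⟩
        intro g w hw hg
        exact (rc w (wd g) hw (hwd g) (by rw [hval]; exact hg)).2.trans (le_abs_self D)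
      · refine ⟨0, le_rfl, ?_⟩
        intro g w
        exact (h ⟨_, w.path⟩).elim
    choose D5 hD5 h5 using h1
    refine ⟨∑ k, D5 k + C4, ?_⟩
    intro g t
    have h2 := h5 _ (σ g t) (X g t).2
      (pos_red (wd g) none (t : ℝ) (X g t) (hwd g) (hX g t)) rfl
    have h3 := pd (wd g) none (t : ℝ) (X g t) (OKE.none v0) (hwd g) (Nat.cast_nonneg t) (hX g t)
    have h4 := le_unif hD5 (X g t).1
    have a2 := abs_le.1 h2
    have a3 := abs_le.1 h3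
    rw [abs_le]
    constructor <;> linarith [a2.1, a2.2, a3.1, a3.2]

end Run7.h230
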